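import Pool.Agent.Work.MP_c93117_an.Neg.St

/-! Bundle of small proof modules (one section per former module). -/

section

/-!
# Project Neg: item Blk
-/

set_option autoImplicit false

noncomputable section

namespace Pool.Agent.Work.MP_c93117_an.Neg

namespace AuxBlk

/-- the second component -/
def sc (x : Gam) : ℕ := (ofLex (ofLex x).2).1

theorem le_cases {x y : Gam} (h : x ≤ y) : pr1 x < pr1 y ∨ (pr1 x = pr1 y ∧ sc x ≤ sc y) := by
  rcases (Prod.Lex.le_iff).1 h with h1 | ⟨h1, h2⟩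
  · exact Or.inl h1
  · right
    refine ⟨h1, ?_⟩
    rcases (Prod.Lex.le_iff).1 h2 with h3 | ⟨h3, -⟩
    · exact h3.le
    · exact h3.le

theorem pr12_lt {x y : Gam} :
    pr12 x < pr12 y ↔ pr1 x < pr1 y ∨ (pr1 x = pr1 y ∧ sc x < sc y) := by
  unfold pr12 pr1 sc
  rw [Prod.Lex.toLex_lt_toLex]

theorem parts_mono {w z : List ℕ} (h : w <:+ z) : parts w ⊆ parts z :=
  fun _ ht => ⟨ht.1, ht.2.trans h⟩

open Classical in
theorem induct (h2 : StCoord) (L : Type) [MetricSpace L] [CompactSpace L] (E : Type)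
    [AddCommGroup E] [Module ℝ E] (γ : List ℕ → E) (T : E →ₗ[ℝ] C(L, ℝ)) (C : ℝ)
    (hD : Dat L E γ T C) (rk : L → Gam) (hrk : IsRank rk) (ρ : L → Gam) (hρ : Good rk ρ)
    (η : ℝ) (hη : 0 < η) (s1 : List ℕ) (n : ℕ) (hr : rr s1 = 0) (hM : MM s1 = n) (t : ℕ)
    (ht : t ≤ n) :
    ∃ (w : List ℕ) (ρt : L → Gam) (G : E), s1 <:+ w ∧ bb w = bb s1 ∧ MM w + t = n ∧ rr w = 0 ∧
      Good rk ρt ∧ (∀ l, ρt l ≤ ρ l) ∧
      (t = 0 ∧ G = 0 ∨ t ≠ 0 ∧ (1 / (t : ℝ)) • G ∈ convexHull ℝ (γ '' parts w)) ∧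
      ∀ l, ∃ k : ℕ, k ≤ t ∧ |T G l| ≤ t * η + C * k ∧
        (pr1 (ρt l) < pr1 (ρ l) ∨ (pr1 (ρt l) = pr1 (ρ l) ∧ k + sc (ρt l) ≤ sc (ρ l))) := by
  induction t with
  | zero =>
    refine ⟨s1, ρ, 0, List.suffix_rfl, rfl, by omega, hr, hρ, fun l => le_rfl, Or.inl ⟨rfl, rfl⟩,
      fun l => ⟨0, le_rfl, by simp, Or.inr ⟨rfl, by omega⟩⟩⟩
  | succ t ih =>
    obtain ⟨w, ρt, G, hw1, hw2, hw3, hw4, hw5, hw6, hw7, hw8⟩ := ih (by omega)
    obtain ⟨z, ρ', g, hz1, hz2, hz3, hz4, hz5, hz6, hz7, hz8⟩ :=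
      h2 L E γ T C hD rk hrk ρt hw5 η hη w hw4 (by omega)
    refine ⟨z, ρ', G + g, hw1.trans hz1, hz2.trans hw2, by omega, hz4, hz5,
      fun l => (hz6 l).trans (hw6 l), Or.inr ⟨by omega, ?_⟩, ?_⟩
    · rcases hw7 with ⟨ht0, hG⟩ | ⟨ht0, hG⟩
      · rw [ht0, hG]
        simpa using hz7
      · have hG' := convexHull_mono (Set.image_mono (f := γ) (parts_mono hz1)) hG
        have ht1 : (0 : ℝ) < t := by exact_mod_cast Nat.pos_of_ne_zero ht0
        have hc := (convex_convexHull ℝ (γ '' parts z)) hG' hz7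
          (a := (t : ℝ) / (t + 1)) (b := 1 / ((t : ℝ) + 1)) (by positivity) (by positivity)
          (by field_simp)
        have he : (1 / ((t + 1 : ℕ) : ℝ)) • (G + g) =
            ((t : ℝ) / (t + 1)) • ((1 / (t : ℝ)) • G) + (1 / ((t : ℝ) + 1)) • g := by
          rw [smul_smul, smul_add]
          congr 2
          · push_cast
            field_simp
          · push_cast
            rfl
        rw [he]
        exact hc
    · intro l
      obtain ⟨k, hk1, hk2, hk3⟩ := hw8 l
      have hTl : |T (G + g) l| ≤ |T G l| + |T g l| := by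
        rw [map_add, ContinuousMap.add_apply]
        exact abs_add_le _ _
      have hz8l := hz8 l
      rcases le_cases (hz6 l) with h3 | ⟨h3, h4⟩
      · -- pr1 drops
        have h5 : pr12 (ρ' l) < pr12 (ρt l) := pr12_lt.2 (Or.inl h3)
        rw [if_pos h5] at hz8l
        refine ⟨k + 1, by omega, ?_, Or.inl ?_⟩
        · push_cast
          linarith
        · rcases hk3 with h6 | ⟨h6, -⟩
          · exact h3.trans h6
          · rw [← h6]
            exact h3
      · by_cases h5 : pr12 (ρ' l) < pr12 (ρt l)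
        · rw [if_pos h5] at hz8l
          have h6 : sc (ρ' l) < sc (ρt l) := by
            rcases pr12_lt.1 h5 with h7 | ⟨-, h7⟩
            · omega
            · exact h7
          refine ⟨k + 1, by omega, ?_, ?_⟩
          · push_cast
            linarith
          · rcases hk3 with h7 | ⟨h7, h8⟩
            · exact Or.inl (by omega)
            · exact Or.inr ⟨by omega, by omega⟩
        · rw [if_neg h5] at hz8l
          refine ⟨k, by omega, ?_, ?_⟩
          · push_cast
            linarith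
          · rcases hk3 with h7 | ⟨h7, h8⟩
            · exact Or.inl (by omega)
            · exact Or.inr ⟨by omega, by omega⟩

end AuxBlk

theorem pr_Blk (h1 : StGoodA) (h2 : StCoord) : StBlk := by
  intro L _ _ E _ _ γ T C hD rk hrk ρ hρ η hη s hs1 hs2
  obtain ⟨-, N, hN⟩ := (h1 L rk hrk).2 ρ hρ
  obtain ⟨n, hn⟩ := exists_nat_ge (C * N / (η / 2))
  have hη2 : 0 < η / 2 := by linarith
  rw [div_le_iff₀ hη2] at hn
  obtain ⟨b1, b2, b3, b4⟩ := step_block hs1 hs2 (n + 1)
  obtain ⟨w, ρt, G, hw1, hw2, hw3, hw4, hw5, hw6, hw7, hw8⟩ :=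
    AuxBlk.induct h2 L E γ T C hD rk hrk ρ hρ (η / 2) hη2 ((n + 1) :: s) (n + 1) b3 b2 (n + 1)
      le_rfl
  have hn1 : (0 : ℝ) < ((n + 1 : ℕ) : ℝ) := by positivity
  refine ⟨w, ρt, (1 / ((n + 1 : ℕ) : ℝ)) • G, (List.suffix_cons _ s).trans hw1, hw2.trans b1,
    by omega, hw4, hw5, hw6, ?_, ?_⟩
  · rcases hw7 with ⟨h3, -⟩ | ⟨-, h3⟩
    · omega
    · exact h3
  · intro l
    obtain ⟨k, hk1, hk2, hk3⟩ := hw8 l
    have hC : 0 ≤ C := by simpa using hD s l ∅
    have hT : |T ((1 / ((n + 1 : ℕ) : ℝ)) • G) l| = |T G l| / ((n + 1 : ℕ) : ℝ) := by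
      rw [map_smul, ContinuousMap.smul_apply, smul_eq_mul, abs_mul,
        abs_of_pos (by positivity : (0 : ℝ) < 1 / ((n + 1 : ℕ) : ℝ))]
      ring
    rw [hT, div_le_iff₀ hn1]
    have hk1' : (k : ℝ) ≤ ((n + 1 : ℕ) : ℝ) := by exact_mod_cast hk1
    rcases hk3 with h3 | ⟨h3, h4⟩
    · rw [if_pos h3]
      have h5 := mul_le_mul_of_nonneg_left hk1' hC
      nlinarith
    · have h5 : ¬ pr1 (ρt l) < pr1 (ρ l) := by omega
      rw [if_neg h5]
      obtain ⟨b, m, r, hb, hm, -⟩ := hN l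
      have h6 : AuxBlk.sc (ρ l) = m := by rw [hb]; rfl
      have h7 : (k : ℝ) ≤ N := by exact_mod_cast (by omega : k ≤ N)
      have h8 := mul_le_mul_of_nonneg_left h7 hC
      push_cast at hk2 hn1 ⊢
      nlinarith

end Pool.Agent.Work.MP_c93117_an.Neg

end
end

section

/-!
# Project Neg: the block lemma
-/

set_option autoImplicit false

namespace Pool.Agent.Work.MP_c93117_an.Neg

namespace AuxBlock

theorem trB_mono {F F' : FD} (h : F ≤ F') (s : List ℕ) : trB F s <:+ trB F' s := by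
  rcases tr_spec (fun w => w ∈ F.B) s with h1 | h1
  · unfold trB
    rw [h1]
    exact List.nil_suffix
  · exact tr_max (P := fun w => w ∈ F'.B) (tr_suffix _ s) (h.1 h1)

theorem trB_suffix (F : FD) (s : List ℕ) : trB F s <:+ s := tr_suffix _ s

theorem trB_mem {F : FD} {s : List ℕ} (h : trB F s ≠ []) : trB F s ∈ F.B := by
  rcases tr_spec (fun w => w ∈ F.B) s with h1 | h1
  · exact absurd h1 h
  · exact h1

theorem dp_le (q : K) : dp q ≤ 2 := by
  cases q with
  | oo => show (0 : ℕ) ≤ 2; omega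
  | pt x =>
    show (if x.s = [] then 1 else 2) ≤ 2
    split_ifs <;> omega

theorem tp_head (B e : ℕ) : tp B e 0 < tp (B + 1) 0 0 :=
  tp_lt.2 (Or.inl (Nat.lt_succ_self B))

theorem piF_out {F : FD} {x : Nd} (h : ¬ x.R ≤ F.R0) : piF F (.pt x) = .oo := if_neg h

theorem piF_in {F : FD} {x : Nd} (h : x.R ≤ F.R0) :
    piF F (.pt x) = nd x.R x.j x.i (trB F x.s) x.a := if_pos h

theorem Bump.mono {L : Type} [TopologicalSpace L] {φ : C(L, ℝ)} {V V' W W' : Set L}
    (h : Bump φ V V') (h1 : V ⊆ W) (h2 : W' ⊆ V') : Bump φ W W' :=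
  ⟨h.1, fun l hl => h.2.1 l (fun h3 => hl (h1 h3)), fun l hl => h.2.2 l (h2 hl)⟩

theorem fd_trans {F F' F'' : FD} (h : F ≤ F') (h' : F' ≤ F'') : F ≤ F'' :=
  ⟨h.1.trans h'.1, le_trans h.2 h'.2⟩

/-- the points which are not thinned -/
theorem high {F0 F0' F1 : FD} {Gp : Set K} {e : ℕ} (h01 : F0 ≤ F0') (h12 : F0' ≤ F1)
    (hfor : Forced F0' F1 Gp e) (he : ∀ t ∈ F0.B, MM t < e) (x : Nd) (hx : K.pt x ∈ Gp)
    (hlow : ¬ low F0.R0 (K.pt x)) : dp (piF F0 (.pt x)) ≤ 1 := by
  by_contra hc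
  have hR : x.R ≤ F0.R0 := by
    by_contra hR
    apply hc
    rw [piF_out hR]
    show (0 : ℕ) ≤ 1
    omega
  have hj : x.j = x.R := by
    have h1 : ¬ (x.R ≤ F0.R0 ∧ x.j < x.R) := hlow
    have := x.hj
    have h2 : ¬ x.j < x.R := fun h => h1 ⟨hR, h⟩
    omega
  rw [piF_in hR, nd_eq ⟨x.hj, x.hi⟩] at hc
  set w := loc x.R x.j x.i x.a (trB F0 x.s) with hw
  have hw0 : w ≠ [] := by
    intro h2
    apply hc
    show (if w = [] then 1 else 2) ≤ 1
    rw [if_pos h2]
  have hws : w <:+ trB F0 x.s := loc_suffix _ _ _ _ _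
  have ht0 : trB F0 x.s ≠ [] := by
    intro h2
    rw [h2] at hws
    exact hw0 (List.suffix_nil.1 hws)
  have hts : trB F0 x.s <:+ x.s := trB_suffix _ _
  have hxs : x.s ≠ [] := by
    intro h2
    apply ht0
    rw [h2]
    exact List.suffix_nil.1 (trB_suffix F0 [])
  have hpw := bb_pos_of_ne hw0
  have hpx := bb_pos_of_ne hxs
  have hbw : bb w - 1 = x.i := by
    rcases loc_spec x.R x.j x.i x.a (trB F0 x.s) with h2 | h2
    · exact absurd h2 hw0
    · have h3 := h2.1
      rw [hj, Nat.sub_self, pow_zero, Nat.div_one] at h3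
      rw [hw, hj]
      exact h3
  have hbx : bb x.s - 1 = x.i := by
    rcases x.hs with h2 | h2
    · exact absurd h2 hxs
    · have h3 := h2.1
      rwa [hj, Nat.sub_self, pow_zero, Nat.div_one] at h3
  have hbb : bb w = bb x.s := by omega
  have m1 := bb_mono hws
  have m2 := bb_mono (trB_mono h01 x.s)
  have m3 := bb_mono (trB_mono h12 x.s)
  have m4 := bb_mono (trB_suffix F1 x.s)
  rcases hfor x.s with h2 | ⟨C0, h2, h3, -⟩
  · refine h2 x.R x.j x.i x.a (le_trans hR h01.2) ?_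
    rw [nd_pt]
    exact hx
  · have h4 : C0 ⊆ Finset.Ico (cc (trB F0' x.s)) (cc (trB F1 x.s)) := by
      intro c hc'
      exact Finset.mem_Ico.2 (h2 c hc')
    have h5 := Finset.card_le_card h4
    rw [Nat.card_Ico] at h5
    have h6 := cc_add_MM (fd_trans h01 h12 |> fun h => trB_mono h x.s)
      (by omega : bb (trB F0 x.s) = bb (trB F1 x.s))
    have h7 := cc_mono (trB_mono h01 x.s)
    have h8 := he _ (trB_mem ht0)
    omega

end AuxBlock

open AuxBlock in
/-- the block lemma -/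
theorem pr_Block (h1 : StOne) (h2 : StParts) (h3 : StSmall) (h4 : StPiLe)
    (h5 : StPiClopen) : StBlock := by
  intro L _ _ U B V hV hne F0 η δ hη hδ
  obtain ⟨N0, hN0⟩ := h3 F0.R0 δ hδ
  obtain ⟨e, he, V1, φ, F0', hV1, hV1V, hne1, hφ, hF, hU⟩ :=
    h1 L U (tp (B + 1) 0 0) (fun e => tp B e 0) (fun e => tp_head B e) V hV hne F0 η hη
      (N0 + 1 + F0.B.sup MM)
  obtain ⟨F1, V', Gp, hF1, hV', hV'V1, hne', hGp, hmov, hU', hfor⟩ :=
    h2 L U B e V1 hV1 hne1 F0' η hη
  refine ⟨F1, V', φ, Gp ∩ {q | piF F0' q ≠ piF F0 q}, fd_trans hF hF1, hV', hV'V1.trans hV1V,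
    hne', Bump.mono hφ subset_rfl hV'V1, hGp.inter (h5.2.1 F0 F0'), ?_, ?_, ?_⟩
  · intro q hq
    by_cases hq1 : q ∈ Gp
    · have hq2 : piF F0' q = piF F0 q := by
        by_contra hc
        exact hq ⟨hq1, hc⟩
      exact ⟨φ, Bump.mono hφ subset_rfl hV'V1, hU q hq2⟩
    · obtain ⟨θ, hθ, hθ'⟩ := hU' q hq1
      exact ⟨θ, Bump.mono hθ hV1V subset_rfl, hθ'⟩
  · rintro q ⟨hq1, hq2⟩ hlow
    constructor
    · cases q with
      | oo => show (0 : ℕ) ≤ 1; omega
      | pt x =>
        refine high hF hF1 hfor (fun t ht => ?_) x hq1 hlow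
        have : MM t ≤ F0.B.sup MM := Finset.le_sup ht
        omega
    · have a1 : piF F0 q < piF F0' q :=
        lt_of_le_of_ne (h4.2.1 F0 F0' q hF) (fun h => hq2 h.symm)
      have a2 : piF F0' q < piF F1 q :=
        lt_of_le_of_ne (h4.2.1 F0' F1 q hF1) (fun h => hmov q hq1 (by omega) h.symm)
      have b1 := h4.2.2.2 _ _ a1
      have b2 := h4.2.2.2 _ _ a2
      have b3 := dp_le (piF F1 q)
      omega
  · intro h hh h0
    refine hN0 h hh (fun q hq => h0 q (fun h6 => hq h6.2)) ?_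
    intro R hR j hj i hi s hs
    rcases hfor s with h6 | ⟨C0, h6, h7, h8⟩
    · refine ⟨Finset.range N0, by rw [Finset.card_range]; omega, fun a ha => ?_⟩
      exfalso
      apply ha
      apply h0
      rintro ⟨⟨h9, -⟩, -⟩
      exact h6 R j i a (le_trans hR hF.2) h9
    · refine ⟨C0, ?_, fun a ha => ?_⟩
      · have := bb_mono (trB_suffix F1 s)
        omega
      · apply h8 R j i a (le_trans hR hF.2)
        by_contra h9
        apply ha
        apply h0
        rintro ⟨⟨h10, -⟩, -⟩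
        exact h9 h10

end Pool.Agent.Work.MP_c93117_an.Neg

end

section

/-!
# Project Neg: Case 1
-/

set_option autoImplicit false

noncomputable section

open Finset Polynomial

namespace Pool.Agent.Work.MP_c93117_an.Neg

theorem pr_Case1 (h1 : StInd) : StCase1 := by
  intro L _ _ U T hTU hTP k hk
  by_contra hne
  have hne' : (Set.univ ∩ DD L (tp k 0 0)).Nonempty := by
    rw [Set.univ_inter]
    exact Set.nonempty_iff_ne_empty.2 hne
  have hT0 : 0 ≤ ‖T‖ := norm_nonneg T
  have hU0 : 0 ≤ ‖U‖ := norm_nonneg U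
  have hTU0 : 0 ≤ ‖T‖ * ‖U‖ := mul_nonneg hT0 hU0
  set c : ℝ := ‖T‖ * ‖U‖ + ‖T‖ + 1 with hc
  have hc0 : 0 < c := by positivity
  set δ : ℝ := 1 / (2 * c) with hδ
  have hδ0 : 0 < δ := by positivity
  obtain ⟨Φ, H1, H2, H3, l, -, hsum, hΦl, hH1, -, hH2, hH3⟩ :=
    h1 L U δ δ hδ0 hδ0 k ⟨∅, 0, by simp⟩ Set.univ isOpen_univ hne'
  have hk0 : (0 : ℝ) ≤ k := Nat.cast_nonneg k
  -- the three terms
  have n1 : ‖H1‖ ≤ ‖U‖ := by
    rw [ContinuousMap.norm_le _ hU0]
    intro q
    rw [Real.norm_eq_abs]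
    exact hH1 q
  obtain ⟨h', hh', hTh'⟩ := hTP H2
  have hkd : 0 ≤ k * δ * ‖U‖ := by positivity
  have n2 : ‖h'‖ ≤ k * δ * ‖U‖ := by
    rw [ContinuousMap.norm_le _ hkd]
    intro q
    rw [Real.norm_eq_abs, hh']
    exact hH2 q
  have hkd3 : 0 ≤ k * δ + ‖U‖ := by positivity
  have n3 : ‖H3‖ ≤ k * δ + ‖U‖ := by
    rw [ContinuousMap.norm_le _ hkd3]
    intro q
    rw [Real.norm_eq_abs]
    obtain ⟨ψ, hψ1, -, hψ3⟩ := hH3 q
    have hψn : ‖ψ‖ ≤ 1 := by
      rw [ContinuousMap.norm_le _ zero_le_one]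
      intro x
      rw [Real.norm_eq_abs]
      exact hψ1 x
    have a1 : U ψ q ≤ ‖U ψ‖ :=
      (le_abs_self _).trans (by
        have := (U ψ).norm_coe_le_norm q
        rwa [Real.norm_eq_abs] at this)
    have a2 : ‖U ψ‖ ≤ ‖U‖ * ‖ψ‖ := U.le_opNorm ψ
    have a3 : ‖U‖ * ‖ψ‖ ≤ ‖U‖ * 1 := mul_le_mul_of_nonneg_left hψn hU0
    linarith
  have hval : ∀ h : C(K, ℝ), T h l ≤ ‖T‖ * ‖h‖ := by
    intro h
    have a1 : T h l ≤ ‖T h‖ :=
      (le_abs_self _).trans (by
        have := (T h).norm_coe_le_norm l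
        rwa [Real.norm_eq_abs] at this)
    exact a1.trans (T.le_opNorm h)
  have v1 : T H1 l ≤ ‖T‖ * ‖U‖ := (hval H1).trans (mul_le_mul_of_nonneg_left n1 hT0)
  have v2 : T H2 l ≤ ‖T‖ * (k * δ * ‖U‖) := by
    rw [← hTh']
    exact (hval h').trans (mul_le_mul_of_nonneg_left n2 hT0)
  have v3 : T H3 l ≤ ‖T‖ * (k * δ + ‖U‖) := (hval H3).trans (mul_le_mul_of_nonneg_left n3 hT0)
  have e : (k : ℝ) = T H1 l + T H2 l + T H3 l := by
    rw [← hΦl, ← hTU Φ, hsum, map_add, map_add]
    rfl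
  have hδc : δ * (‖T‖ * ‖U‖ + ‖T‖) ≤ 1 / 2 := by
    have h3 : δ * (‖T‖ * ‖U‖ + ‖T‖) ≤ δ * c := by
      apply mul_le_mul_of_nonneg_left _ hδ0.le
      rw [hc]
      linarith
    have h4 : δ * c = 1 / 2 := by
      rw [hδ]
      field_simp
    linarith
  have h5 : (k : ℝ) * (δ * (‖T‖ * ‖U‖ + ‖T‖)) ≤ k * (1 / 2) :=
    mul_le_mul_of_nonneg_left hδc hk0
  nlinarith

end Pool.Agent.Work.MP_c93117_an.Neg

end
end

section

/-!
# Project Neg: item Coord
-/

set_option autoImplicit false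

noncomputable section

namespace Pool.Agent.Work.MP_c93117_an.Neg

namespace AuxCoord

/-- the third component -/
def th (x : Gam) : ℕ := (ofLex (ofLex x).2).2

theorem le_cases {x y : Gam} (h : x ≤ y) :
    pr12 x < pr12 y ∨ (pr12 x = pr12 y ∧ th x ≤ th y) := by
  unfold pr12 th
  rcases (Prod.Lex.le_iff).1 h with h1 | ⟨h1, h2⟩
  · exact Or.inl (Prod.Lex.toLex_lt_toLex.2 (Or.inl h1))
  · rcases (Prod.Lex.le_iff).1 h2 with h3 | ⟨h3, h4⟩
    · exact Or.inl (Prod.Lex.toLex_lt_toLex.2 (Or.inr ⟨h1, h3⟩))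
    · exact Or.inr ⟨by rw [h1, h3], h4⟩

theorem lt_cases {x y : Gam} (h : x < y) :
    pr12 x < pr12 y ∨ (pr12 x = pr12 y ∧ th x < th y) := by
  unfold pr12 th
  rcases (Prod.Lex.lt_iff).1 h with h1 | ⟨h1, h2⟩
  · exact Or.inl (Prod.Lex.toLex_lt_toLex.2 (Or.inl h1))
  · rcases (Prod.Lex.lt_iff).1 h2 with h3 | ⟨h3, h4⟩
    · exact Or.inl (Prod.Lex.toLex_lt_toLex.2 (Or.inr ⟨h1, h3⟩))
    · exact Or.inr ⟨by rw [h1, h3], h4⟩

theorem parts_mono {w z : List ℕ} (h : w <:+ z) : parts w ⊆ parts z :=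
  fun _ ht => ⟨ht.1, ht.2.trans h⟩

/-- pigeonhole: some entry makes the function small on a finite set -/
theorem pick (L : Type) [MetricSpace L] [CompactSpace L] (E : Type)
    [AddCommGroup E] [Module ℝ E] (γ : List ℕ → E) (T : E →ₗ[ℝ] C(L, ℝ)) (C : ℝ)
    (hD : Dat L E γ T C) (s : List ℕ) (A : Finset L) (η : ℝ) (hη : 0 < η) :
    ∃ e : ℕ, ∀ p ∈ A, |T (γ (e :: s)) p| < η := by
  by_contra hcon
  push Not at hcon
  obtain ⟨n, hn⟩ := exists_nat_gt (A.card * C / η)
  rw [div_lt_iff₀ hη] at hn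
  have h1 : ∀ e ∈ Finset.range n, η ≤ ∑ p ∈ A, |T (γ (e :: s)) p| := by
    intro e _
    obtain ⟨p, hp, hp'⟩ := hcon e
    exact hp'.trans (Finset.single_le_sum (f := fun p => |T (γ (e :: s)) p|)
      (fun _ _ => abs_nonneg _) hp)
  have h2 := Finset.card_nsmul_le_sum _ _ _ h1
  rw [Finset.card_range, nsmul_eq_mul, Finset.sum_comm] at h2
  have h3 : ∑ p ∈ A, ∑ e ∈ Finset.range n, |T (γ (e :: s)) p| ≤ ∑ _p ∈ A, C :=
    Finset.sum_le_sum (fun p _ => hD s p (Finset.range n))
  rw [Finset.sum_const, nsmul_eq_mul] at h3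
  linarith

theorem induct (h2 : StGoodB) (L : Type) [MetricSpace L] [CompactSpace L] (E : Type)
    [AddCommGroup E] [Module ℝ E] (γ : List ℕ → E) (T : E →ₗ[ℝ] C(L, ℝ)) (C : ℝ)
    (hD : Dat L E γ T C) (rk : L → Gam) (hrk : IsRank rk) (ρ : L → Gam) (hρ : Good rk ρ)
    (η : ℝ) (hη : 0 < η) (s1 : List ℕ) (n : ℕ) (hr : rr s1 = n) (t : ℕ)
    (ht : t ≤ n) :
    ∃ (w : List ℕ) (ρt : L → Gam) (G : E), s1 <:+ w ∧ bb w = bb s1 ∧ MM w = MM s1 ∧
      rr w + t = n ∧
      Good rk ρt ∧ (∀ l, ρt l ≤ ρ l) ∧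
      (t = 0 ∧ G = 0 ∨ t ≠ 0 ∧ (1 / (t : ℝ)) • G ∈ convexHull ℝ (γ '' parts w)) ∧
      ∀ l, ∃ k : ℕ, k ≤ t ∧ |T G l| ≤ t * (2 * η) + C * k ∧ |T G l| ≤ t * C ∧
        (pr12 (ρt l) < pr12 (ρ l) ∨
          (pr12 (ρt l) = pr12 (ρ l) ∧ k + th (ρt l) ≤ th (ρ l))) := by
  induction t with
  | zero =>
    refine ⟨s1, ρ, 0, List.suffix_rfl, rfl, rfl, by omega, hρ, fun l => le_rfl,
      Or.inl ⟨rfl, rfl⟩, fun l => ⟨0, le_rfl, by simp, by simp, Or.inr ⟨rfl, by omega⟩⟩⟩
  | succ t ih =>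
    obtain ⟨w, ρt, G, hw1, hw2, hw3, hw4, hw5, hw6, hw7, hw8⟩ := ih (by omega)
    obtain ⟨A, hA⟩ := h2 L rk hrk ρt η hw5 hη
    obtain ⟨e, he⟩ := pick L E γ T C hD w A η hη
    obtain ⟨ρ', hz5, hz6, hz8⟩ := hA (T (γ (e :: w))) he
    obtain ⟨b1, b2, b3, -⟩ := step_old (s := w) (by omega) e
    have hmem : γ (e :: w) ∈ γ '' parts (e :: w) :=
      ⟨e :: w, ⟨List.cons_ne_nil _ _, List.suffix_rfl⟩, rfl⟩
    have hz7 : γ (e :: w) ∈ convexHull ℝ (γ '' parts (e :: w)) := subset_convexHull ℝ _ hmem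
    refine ⟨e :: w, ρ', G + γ (e :: w), hw1.trans (List.suffix_cons _ _), b1.trans hw2,
      b2.trans hw3, by omega, hz5, fun l => (hz6 l).trans (hw6 l), Or.inr ⟨by omega, ?_⟩, ?_⟩
    · rcases hw7 with ⟨ht0, hG⟩ | ⟨ht0, hG⟩
      · rw [ht0, hG]
        simpa using hz7
      · have hG' := convexHull_mono (Set.image_mono (f := γ)
          (parts_mono (List.suffix_cons e w))) hG
        have ht1 : (0 : ℝ) < t := by exact_mod_cast Nat.pos_of_ne_zero ht0
        have hc := (convex_convexHull ℝ (γ '' parts (e :: w))) hG' hz7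
          (a := (t : ℝ) / (t + 1)) (b := 1 / ((t : ℝ) + 1)) (by positivity) (by positivity)
          (by field_simp)
        have he : (1 / ((t + 1 : ℕ) : ℝ)) • (G + γ (e :: w)) =
            ((t : ℝ) / (t + 1)) • ((1 / (t : ℝ)) • G) + (1 / ((t : ℝ) + 1)) • γ (e :: w) := by
          rw [smul_smul, smul_add]
          congr 2
          · push_cast
            field_simp
          · push_cast
            rfl
        rw [he]
        exact hc
    · intro l
      obtain ⟨k, hk1, hk2, hk4, hk3⟩ := hw8 l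
      have hTl : |T (G + γ (e :: w)) l| ≤ |T G l| + |T (γ (e :: w)) l| := by
        rw [map_add, ContinuousMap.add_apply]
        exact abs_add_le _ _
      have hTC : |T (γ (e :: w)) l| ≤ C := by simpa using hD w l {e}
      by_cases h5 : 2 * η ≤ |T (γ (e :: w)) l|
      · refine ⟨k + 1, by omega, ?_, ?_, ?_⟩
        · push_cast
          linarith
        · push_cast
          linarith
        · rcases lt_cases (hz8 l h5) with h6 | ⟨h6, h7⟩
          · left
            rcases hk3 with h8 | ⟨h8, -⟩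
            · exact h6.trans h8
            · rw [← h8]
              exact h6
          · rcases hk3 with h8 | ⟨h8, h9⟩
            · left
              rw [h6]
              exact h8
            · right
              exact ⟨h6.trans h8, by omega⟩
      · push Not at h5
        refine ⟨k, by omega, ?_, ?_, ?_⟩
        · push_cast
          linarith
        · push_cast
          linarith
        · rcases le_cases (hz6 l) with h6 | ⟨h6, h7⟩
          · left
            rcases hk3 with h8 | ⟨h8, -⟩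
            · exact h6.trans h8
            · rw [← h8]
              exact h6
          · rcases hk3 with h8 | ⟨h8, h9⟩
            · left
              rw [h6]
              exact h8
            · right
              exact ⟨h6.trans h8, by omega⟩

end AuxCoord

theorem pr_Coord (h1 : StGoodA) (h2 : StGoodB) : StCoord := by
  intro L _ _ E _ _ γ T C hD rk hrk ρ hρ η hη s hs1 hs2
  obtain ⟨-, N, hN⟩ := (h1 L rk hrk).2 ρ hρ
  obtain ⟨n, hn⟩ := exists_nat_ge (C * N / (η / 2))
  have hη2 : 0 < η / 2 := by linarith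
  have hη4 : 0 < η / 4 := by linarith
  rw [div_le_iff₀ hη2] at hn
  obtain ⟨b1, b2, b3, b4⟩ := step_coord hs1 hs2 (n + 1)
  obtain ⟨w, ρt, G, hw1, hw2, hw3, hw4, hw5, hw6, hw7, hw8⟩ :=
    AuxCoord.induct h2 L E γ T C hD rk hrk ρ hρ (η / 4) hη4 ((n + 1) :: s) (n + 1) b3 (n + 1)
      le_rfl
  have hn1 : (0 : ℝ) < ((n + 1 : ℕ) : ℝ) := by positivity
  refine ⟨w, ρt, (1 / ((n + 1 : ℕ) : ℝ)) • G, (List.suffix_cons _ s).trans hw1, hw2.trans b1,
    by omega, by omega, hw5, hw6, ?_, ?_⟩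
  · rcases hw7 with ⟨h3, -⟩ | ⟨-, h3⟩
    · omega
    · exact h3
  · intro l
    obtain ⟨k, hk1, hk2, hk4, hk3⟩ := hw8 l
    have hC : 0 ≤ C := by simpa using hD s l ∅
    have hT : |T ((1 / ((n + 1 : ℕ) : ℝ)) • G) l| = |T G l| / ((n + 1 : ℕ) : ℝ) := by
      rw [map_smul, ContinuousMap.smul_apply, smul_eq_mul, abs_mul,
        abs_of_pos (by positivity : (0 : ℝ) < 1 / ((n + 1 : ℕ) : ℝ))]
      ring
    rw [hT, div_le_iff₀ hn1]
    rcases hk3 with h3 | ⟨h3, h4⟩
    · rw [if_pos h3]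
      nlinarith
    · have h5 : ¬ pr12 (ρt l) < pr12 (ρ l) := by
        rw [h3]
        exact lt_irrefl _
      rw [if_neg h5]
      obtain ⟨b, m, r, hb, -, hm⟩ := hN l
      have h6 : AuxCoord.th (ρ l) = r := by rw [hb]; rfl
      have h7 : (k : ℝ) ≤ N := by exact_mod_cast (by omega : k ≤ N)
      have h8 := mul_le_mul_of_nonneg_left h7 hC
      push_cast at hk2 hn1 ⊢
      nlinarith

end Pool.Agent.Work.MP_c93117_an.Neg

end
end

section

set_option autoImplicit false

namespace Pool.Agent.Work.MP_c93117_an.Neg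

open Finset

theorem pr_Dsum : StDsum := by
  intro R j F hj
  funext s a
  have hpow : 2 ^ j * 2 ^ (R - j) = 2 ^ R := by
    rw [← pow_add]
    congr 1
    omega
  have h := Finset.sum_range_sub (fun i => F (trb (i * 2 ^ (R - j)) s) a) (2 ^ j)
  simp only [hpow, Nat.zero_mul] at h
  rw [Finset.sum_apply, Finset.sum_apply]
  exact h

end Pool.Agent.Work.MP_c93117_an.Neg

end

section

/-!
# Project Neg: the frozen statement
-/

set_option autoImplicit false

noncomputable section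

namespace Pool.Agent.Work.MP_c93117_an.Neg

namespace AuxFinal

/-- the projection as a continuous linear map -/
def Pcl (h2 : StCont) (h3 : StNorm) : C(K, ℝ) →L[ℝ] C(K, ℝ) :=
  LinearMap.mkContinuous
    { toFun := fun g => ⟨PP g, h2 g g.continuous⟩
      map_add' := by
        intro f g
        ext q
        show PP (⇑(f + g)) q = PP f q + PP g q
        rw [ContinuousMap.coe_add, PP_add]
        rfl
      map_smul' := by
        intro c f
        ext q
        show PP (⇑(c • f)) q = c • PP f q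
        rw [ContinuousMap.coe_smul, PP_smul]
        rfl } 108 (by
    intro g
    rw [ContinuousMap.norm_le _ (by positivity)]
    intro q
    show ‖PP g q‖ ≤ 108 * ‖g‖
    rw [Real.norm_eq_abs]
    apply h3 g ‖g‖
    intro q'
    rw [← Real.norm_eq_abs]
    exact g.norm_coe_le_norm q')

theorem Pcl_apply (h2 : StCont) (h3 : StNorm) (g : C(K, ℝ)) (q : K) :
    Pcl h2 h3 g q = PP g q := rfl

theorem Pcl_idem (h2 : StCont) (h3 : StNorm) (h4 : StIdem) (g : C(K, ℝ)) :
    Pcl h2 h3 (Pcl h2 h3 g) = Pcl h2 h3 g := by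
  ext q
  rw [Pcl_apply, Pcl_apply]
  have : (⇑(Pcl h2 h3 g) : K → ℝ) = PP g := by
    funext q'
    rw [Pcl_apply]
  rw [this, h4]

/-- the retraction onto the range -/
def Rt (h2 : StCont) (h3 : StNorm) :
    C(K, ℝ) →L[ℝ] (LinearMap.range (Pcl h2 h3 : C(K, ℝ) →ₗ[ℝ] C(K, ℝ))) :=
  (Pcl h2 h3).codRestrict _ (fun g => ⟨g, rfl⟩)

theorem Rt_coe (h2 : StCont) (h3 : StNorm) (g : C(K, ℝ)) :
    ((Rt h2 h3 g : _) : C(K, ℝ)) = Pcl h2 h3 g := rfl

theorem Rt_id (h2 : StCont) (h3 : StNorm) (h4 : StIdem)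
    (x : (LinearMap.range (Pcl h2 h3 : C(K, ℝ) →ₗ[ℝ] C(K, ℝ)))) : Rt h2 h3 x = x := by
  obtain ⟨x, g, hg⟩ := x
  apply Subtype.ext
  rw [Rt_coe]
  show Pcl h2 h3 x = x
  rw [← hg]
  exact Pcl_idem h2 h3 h4 g

/-- continuous functions on a finite discrete space -/
def finC (d : ℕ) : C(Fin d, ℝ) ≃ₗ[ℝ] (Fin d → ℝ) where
  toFun f := f
  map_add' _ _ := rfl
  map_smul' _ _ := rfl
  invFun f := ⟨f, continuous_of_discreteTopology⟩
  left_inv f := by ext x; rfl
  right_inv f := rfl

end AuxFinal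

open AuxFinal in
theorem pr_Final (h1 : StNotIso) (h2 : StCont) (h3 : StNorm) (h4 : StIdem) : StFinal := by
  intro H
  let _ : MetricSpace K := TopologicalSpace.metrizableSpaceMetric K
  set p := (LinearMap.range (Pcl h2 h3 : C(K, ℝ) →ₗ[ℝ] C(K, ℝ))) with hp
  have key : ∀ (L : Type) (_ : MetricSpace L) (_ : CompactSpace L), (p ≃L[ℝ] C(L, ℝ)) → False := by
    intro L i1 i2 e
    refine h1 (Pcl h2 h3) (fun g q => rfl) L (p.subtypeL.comp (e.symm : C(L, ℝ) →L[ℝ] p))
      ((e : p →L[ℝ] C(L, ℝ)).comp (Rt h2 h3)) ?_ ?_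
    · intro φ
      show e (Rt h2 h3 ((e.symm φ : p) : C(K, ℝ))) = φ
      rw [Rt_id h2 h3 h4, e.apply_symm_apply]
    · intro g
      show ((e.symm (e (Rt h2 h3 g)) : p) : C(K, ℝ)) = Pcl h2 h3 g
      rw [e.symm_apply_apply]
      rfl
  have hcc : p.ClosedComplemented := ⟨Rt h2 h3, Rt_id h2 h3 h4⟩
  by_cases hf : FiniteDimensional ℝ p
  · have h5 : Module.finrank ℝ C(Fin (Module.finrank ℝ p), ℝ) = Module.finrank ℝ p := by
      rw [(finC _).finrank_eq, Module.finrank_fin_fun]
    have : FiniteDimensional ℝ C(Fin (Module.finrank ℝ p), ℝ) :=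
      LinearEquiv.finiteDimensional (finC _).symm
    exact key (Fin (Module.finrank ℝ p)) (TopologicalSpace.metrizableSpaceMetric _) inferInstance
      (ContinuousLinearEquiv.ofFinrankEq h5.symm)
  · obtain ⟨L, i1, i2, ⟨e⟩⟩ := H K p hcc hf
    exact key L i1 i2 e

end Pool.Agent.Work.MP_c93117_an.Neg

end
end

section

/-!
# Project Neg: good functions, start and boundedness
-/

set_option autoImplicit false

noncomputable section

open Finset Polynomial

namespace Pool.Agent.Work.MP_c93117_an.Neg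

namespace AuxGoodA

theorem nbhd {L : Type} [MetricSpace L] (rk : L → Gam) (h : IsRank rk) (p : L) :
    ∃ Z : Set L, Z ∈ nhds p ∧ IsClosed Z ∧ p ∈ Z ∧ ∀ l ∈ Z, l ≠ p → rk l < rk p := by
  obtain ⟨V, hV, hp, h2⟩ := h p
  obtain ⟨Z, hZ, hZc, hZV⟩ := exists_mem_nhds_isClosed_subset (hV.mem_nhds hp)
  exact ⟨Z, hZ, hZc, mem_of_mem_nhds hZ, fun l hl => h2 l (hZV hl)⟩

theorem start {L : Type} [MetricSpace L] [CompactSpace L] (rk : L → Gam) (h : IsRank rk) :
    ∃ ρ, Good rk ρ := by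
  choose Z hZn hZc hZp hZr using nbhd rk h
  obtain ⟨t, ht⟩ := CompactSpace.elim_nhds_subcover Z hZn
  have hcov : ∀ l : L, ∃ p ∈ t, l ∈ Z p := by
    intro l
    have hl : l ∈ ⋃ x ∈ t, Z x := by rw [ht]; trivial
    simpa using hl
  choose f hf1 hf2 using hcov
  refine ⟨fun l => rk (f l), (fun p => (p, Z p)) '' (t : Set L), t.finite_toSet.image _, ?_, ?_⟩
  · rintro _ ⟨p, _, rfl⟩
    exact ⟨hZc p, hZp p, hZr p⟩
  · intro l
    exact ⟨(f l, Z (f l)), ⟨f l, hf1 l, rfl⟩, hf2 l, rfl⟩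

theorem tp_eq (x : Gam) : x = tp (ofLex x).1 (ofLex (ofLex x).2).1 (ofLex (ofLex x).2).2 := rfl

end AuxGoodA

theorem pr_GoodA : StGoodA := by
  intro L _ _ rk h
  refine ⟨AuxGoodA.start rk h, ?_⟩
  rintro ρ ⟨S, hSf, -, hρ⟩
  refine ⟨?_, ?_⟩
  · intro l
    obtain ⟨x, _, _, hx⟩ := hρ l
    exact ⟨x.1, hx⟩
  · obtain ⟨N1, hN1⟩ := (hSf.image (fun x => (ofLex (ofLex (rk x.1)).2).1)).bddAbove
    obtain ⟨N2, hN2⟩ := (hSf.image (fun x => (ofLex (ofLex (rk x.1)).2).2)).bddAbove
    refine ⟨max N1 N2, ?_⟩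
    intro l
    obtain ⟨x, hxS, _, hx⟩ := hρ l
    refine ⟨_, _, _, hx.trans (AuxGoodA.tp_eq (rk x.1)), ?_, ?_⟩
    · exact (hN1 ⟨x, hxS, rfl⟩).trans (le_max_left _ _)
    · exact (hN2 ⟨x, hxS, rfl⟩).trans (le_max_right _ _)

end Pool.Agent.Work.MP_c93117_an.Neg

end
end

section

/-!
# Project Neg: good functions, refinement
-/

set_option autoImplicit false

noncomputable section

open Finset Polynomial

namespace Pool.Agent.Work.MP_c93117_an.Neg

namespace AuxGoodB

theorem nbhd {L : Type} [MetricSpace L] (rk : L → Gam) (h : IsRank rk) (p : L) :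
    ∃ Z : Set L, Z ∈ nhds p ∧ IsClosed Z ∧ p ∈ Z ∧ ∀ l ∈ Z, l ≠ p → rk l < rk p := by
  obtain ⟨V, hV, hp, h2⟩ := h p
  obtain ⟨Z, hZ, hZc, hZV⟩ := exists_mem_nhds_isClosed_subset (hV.mem_nhds hp)
  exact ⟨Z, hZ, hZc, mem_of_mem_nhds hZ, fun l hl => h2 l (hZV hl)⟩

end AuxGoodB

theorem pr_GoodB : StGoodB := by
  classical
  intro L _ _ rk hrk ρ η hgood hη
  obtain ⟨S, hSf, hS, hρ⟩ := hgood
  refine ⟨hSf.toFinset.image Prod.fst, ?_⟩
  intro φ hφ
  have hφS : ∀ x ∈ S, |φ x.1| < η := by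
    intro x hx
    apply hφ
    rw [Finset.mem_image]
    exact ⟨x, hSf.mem_toFinset.2 hx, rfl⟩
  have hcont : Continuous (fun l => |φ l|) := φ.continuous.abs
  choose Z hZn hZc hZp hZr using AuxGoodB.nbhd rk hrk
  have hT : ∀ x ∈ S, ∃ T : Finset L, (∀ m ∈ T, m ∈ x.2 ∧ 3 * η / 2 ≤ |φ m|) ∧
      ∀ l ∈ x.2, 3 * η / 2 ≤ |φ l| → ∃ m ∈ T, l ∈ Z m := by
    intro x hx
    have hcl : IsClosed (x.2 ∩ {l | 3 * η / 2 ≤ |φ l|}) :=
      (hS x hx).1.inter (isClosed_le continuous_const hcont)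
    obtain ⟨T, hT1, hT2⟩ := hcl.isCompact.elim_nhds_subcover Z (fun m _ => hZn m)
    refine ⟨T, fun m hm => hT1 m hm, ?_⟩
    intro l hl hl2
    have := hT2 (show l ∈ x.2 ∩ {l | 3 * η / 2 ≤ |φ l|} from ⟨hl, hl2⟩)
    simpa using this
  choose! T hT1 hT2 using hT
  let S' : Set (L × Set L) :=
    (fun x : L × Set L => (x.1, x.2 ∩ {l | |φ l| ≤ 3 * η / 2})) '' S ∪
      ⋃ x ∈ S, (fun m => (m, Z m ∩ x.2)) '' (T x : Set L)
  have hS'f : S'.Finite :=
    (hSf.image _).union (hSf.biUnion (fun x _ => (T x).finite_toSet.image _))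
  have hS' : ∀ x ∈ S', IsClosed x.2 ∧ x.1 ∈ x.2 ∧ ∀ l ∈ x.2, l ≠ x.1 → rk l < rk x.1 := by
    rintro x' (⟨x, hx, rfl⟩ | hx')
    · obtain ⟨h1, h2, h3⟩ := hS x hx
      refine ⟨h1.inter (isClosed_le hcont continuous_const), ⟨h2, ?_⟩, ?_⟩
      · show |φ x.1| ≤ 3 * η / 2
        have := hφS x hx
        linarith
      · intro l hl hne
        exact h3 l hl.1 hne
    · rw [Set.mem_iUnion₂] at hx'
      obtain ⟨x, hx, m, hm, rfl⟩ := hx'
      obtain ⟨h1, h2, h3⟩ := hS x hx
      refine ⟨(hZc m).inter h1, ⟨hZp m, (hT1 x hx m hm).1⟩, ?_⟩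
      intro l hl hne
      exact hZr m l hl.1 hne
  have hch : ∀ l : L, ∃ x' ∈ S', l ∈ x'.2 ∧ rk x'.1 ≤ ρ l ∧ (2 * η ≤ |φ l| → rk x'.1 < ρ l) := by
    intro l
    obtain ⟨x, hx, hlx, hρl⟩ := hρ l
    by_cases hc : |φ l| ≤ 3 * η / 2
    · refine ⟨(x.1, x.2 ∩ {l | |φ l| ≤ 3 * η / 2}), Or.inl ⟨x, hx, rfl⟩, ⟨hlx, hc⟩,
        hρl.ge, ?_⟩
      intro h
      exfalso
      linarith
    · push Not at hc
      obtain ⟨m, hm, hlm⟩ := hT2 x hx l hlx hc.le
      have hmx := hT1 x hx m hm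
      have hne : m ≠ x.1 := by
        rintro rfl
        have := hφS x hx
        linarith [hmx.2]
      have hlt : rk m < ρ l := by
        rw [hρl]
        exact (hS x hx).2.2 m hmx.1 hne
      refine ⟨(m, Z m ∩ x.2), Or.inr ?_, ⟨hlm, hlx⟩, hlt.le, fun _ => hlt⟩
      rw [Set.mem_iUnion₂]
      exact ⟨x, hx, m, hm, rfl⟩
  choose f hf1 hf2 hf3 hf4 using hch
  exact ⟨fun l => rk (f l).1, ⟨S', hS'f, hS', fun l => ⟨f l, hf1 l, hf2 l, rfl⟩⟩, hf3, hf4⟩

end Pool.Agent.Work.MP_c93117_an.Neg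

end
end

section

/-!
# Project Neg: item GsCont
-/

set_option autoImplicit false

noncomputable section

open Finset

namespace Pool.Agent.Work.MP_c93117_an.Neg

namespace AuxGsCont

/-- the node of `s` with selection `b` -/
def node (R : ℕ) (s : List ℕ) (b : Finset ℕ) (hR : bb s ≤ 2 ^ R) (hs : s ≠ [])
    (hb : b ⊆ range (cc s)) (hc : cc s - 1 ∈ b) : Nd :=
  ⟨R, 0, 0, s, b, Nat.zero_le _, by norm_num, fun x hx => mem_range.1 (hb hx), Or.inr ⟨by
    have h1 := bb_pos_of_ne hs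
    have h2 : 0 < 2 ^ R := by positivity
    rw [Nat.sub_zero]
    exact Nat.div_eq_of_lt (by omega), hc⟩⟩

/-- the cone of this node -/
def Cn (R : ℕ) (s : List ℕ) (b : Finset ℕ) : Set K :=
  {q | match q with
    | .oo => False
    | .pt y => y.R = R ∧ y.j = 0 ∧ s <:+ y.s ∧ b = y.a.filter (· < cc s)}

theorem cn_eq (R : ℕ) (s : List ℕ) (b : Finset ℕ) (hR : bb s ≤ 2 ^ R) (hs : s ≠ [])
    (hb : b ⊆ range (cc s)) (hc : cc s - 1 ∈ b) :
    Cn R s b = {q : K | K.pt (node R s b hR hs hb hc) ≤ q} := by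
  ext q
  cases q with
  | oo => exact ⟨fun h => h.elim, fun h => h.elim⟩
  | pt y =>
    constructor
    · rintro ⟨h1, h2, h3, h4⟩
      have hi : y.i = 0 := by
        have := y.hi
        rw [h2] at this
        omega
      exact K.pt_le_pt.2 ⟨h1.symm, h2.symm, hi.symm, h3, h4⟩
    · intro h
      obtain ⟨h1, h2, h3, h4, h5⟩ := K.pt_le_pt.1 h
      exact ⟨h1.symm, h2.symm, h4, h5⟩

theorem cn_clopen (R : ℕ) (s : List ℕ) (b : Finset ℕ) (hR : bb s ≤ 2 ^ R) (hs : s ≠ [])
    (hb : b ⊆ range (cc s)) (hc : cc s - 1 ∈ b) : IsClopen (Cn R s b) := by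
  rw [cn_eq R s b hR hs hb hc]
  exact cone_clopen K _

end AuxGsCont

open AuxGsCont in
theorem pr_GsCont : StGsCont := by
  classical
  intro R s hs hR
  obtain ⟨U, hU⟩ : ∃ U : Set K, U = ⋃ b ∈ (range (cc s)).powerset.filter (fun b => cc s - 1 ∈ b),
      Cn R s b := ⟨_, rfl⟩
  have hUc : IsClopen U := by
    rw [hU]
    refine isClopen_biUnion_finset fun b hb => ?_
    rw [mem_filter, mem_powerset] at hb
    exact cn_clopen R s b hR hs hb.1 hb.2
  have hg : gs R s = (LocallyConstant.charFn ℝ hUc : K → ℝ) := by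
    rw [LocallyConstant.coe_charFn]
    funext q
    cases q with
    | oo =>
      have h1 : K.oo ∉ U := by
        rw [hU]
        simp only [Set.mem_iUnion, not_exists]
        intro b _ h
        exact h
      rw [Set.indicator_of_notMem h1]
      rfl
    | pt y =>
      by_cases h : y.R = R ∧ y.j = 0 ∧ s <:+ y.s ∧ cc s - 1 ∈ y.a
      · have h1 : K.pt y ∈ U := by
          rw [hU]
          simp only [Set.mem_iUnion]
          refine ⟨y.a.filter (· < cc s), ?_, h.1, h.2.1, h.2.2.1, rfl⟩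
          rw [mem_filter, mem_powerset, mem_filter]
          refine ⟨fun x hx => mem_range.2 (mem_filter.1 hx).2, h.2.2.2, ?_⟩
          have := cc_pos_of_ne hs
          omega
        rw [Set.indicator_of_mem h1]
        show (if y.R = R ∧ y.j = 0 ∧ s <:+ y.s ∧ cc s - 1 ∈ y.a then (1 : ℝ) else 0) = _
        rw [if_pos h]
        rfl
      · have h1 : K.pt y ∉ U := by
          rw [hU]
          simp only [Set.mem_iUnion, not_exists]
          rintro b hb ⟨h1, h2, h3, h4⟩
          rw [mem_filter, mem_powerset] at hb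
          apply h
          have h5 := hb.2
          rw [h4, mem_filter] at h5
          exact ⟨h1, h2, h3, h5.1⟩
        rw [Set.indicator_of_notMem h1]
        show (if y.R = R ∧ y.j = 0 ∧ s <:+ y.s ∧ cc s - 1 ∈ y.a then (1 : ℝ) else 0) = _
        rw [if_neg h]
  rw [hg]
  exact (LocallyConstant.charFn ℝ hUc).continuous

end Pool.Agent.Work.MP_c93117_an.Neg

end
end

section

/-!
# Item Idem: the projection is idempotent
-/

set_option autoImplicit false

open Finset Polynomial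

namespace Pool.Agent.Work.MP_c93117_an.Neg

namespace AuxIdem

theorem op_mul (R : ℕ) (f g : ℝ[X]) (F : FF) : op R (f * g) F = op R f (op R g F) := by
  unfold op
  rw [map_mul]
  rfl

theorem op_one (R : ℕ) (F : FF) : op R 1 F = F := by
  unfold op
  rw [map_one]
  rfl

theorem op_sum (R : ℕ) (n : ℕ) (f : ℕ → ℝ[X]) (F : FF) :
    op R (∑ j ∈ range n, f j) F = ∑ j ∈ range n, op R (f j) F := by
  unfold op
  rw [map_sum, LinearMap.sum_apply]

theorem Dop_TrO {R j i m : ℕ} (hm : (i + 1) * 2 ^ (R - j) ≤ m) (F : FF) :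
    Dop R j i (TrO m F) = Dop R j i F := by
  funext s a
  show F (trb m (trb ((i + 1) * 2 ^ (R - j)) s)) a - F (trb m (trb (i * 2 ^ (R - j)) s)) a =
    F (trb ((i + 1) * 2 ^ (R - j)) s) a - F (trb (i * 2 ^ (R - j)) s) a
  have h1 : i * 2 ^ (R - j) ≤ (i + 1) * 2 ^ (R - j) := Nat.mul_le_mul_right _ (Nat.le_succ i)
  rw [trb_of_le ((bb_trb _ s).trans hm), trb_of_le ((bb_trb _ s).trans (h1.trans hm))]

theorem Dop_TrO_zero (R j i : ℕ) (F : FF) : Dop R j i (TrO 0 F) = 0 := by
  funext s a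
  show F (trb 0 (trb ((i + 1) * 2 ^ (R - j)) s)) a - F (trb 0 (trb (i * 2 ^ (R - j)) s)) a = 0
  rw [trb_zero, trb_zero, sub_self]

end AuxIdem

open AuxIdem

theorem pr_Idem (h1 : StComm) (h2 : StDsum) (h3 : StLftPP) (h4 : StTel) : StIdem := by
  intro g
  have hfR : ∀ R, fR (PP g) R = TrO (2 ^ R) (fR g R) - TrO 0 (fR g R) := by
    intro R
    have hterm : ∀ j ∈ range (R + 1), ((1 / 4 : ℝ) ^ j) • op R (epsP R j)
        (∑ i ∈ range (2 ^ j), lft (PP g) R j i) =
        TrO (2 ^ R) (op R (epsP R j * PiP R j) (fR g R)) -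
          TrO 0 (op R (epsP R j * PiP R j) (fR g R)) := by
      intro j hj
      have hjR : j ≤ R := Nat.lt_succ_iff.mp (mem_range.mp hj)
      have e1 : ∑ i ∈ range (2 ^ j), lft (PP g) R j i = ((4 : ℝ) ^ j) •
          (TrO (2 ^ R) (op R (PiP R j) (fR g R)) - TrO 0 (op R (PiP R j) (fR g R))) := by
        rw [← h2 R j _ hjR, smul_sum]
        apply Finset.sum_congr rfl
        intro i hi
        rw [h3 g R j i hjR (mem_range.mp hi)]
        rfl
      rw [e1, map_smul, smul_smul, ← mul_pow]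
      norm_num
      rw [← (h1 R (epsP R j) _).1, ← (h1 R (epsP R j) _).1, op_mul]
    unfold fR at hterm ⊢
    rw [Finset.sum_congr rfl hterm, Finset.sum_sub_distrib, ← map_sum, ← map_sum, ← op_sum, h4 R,
      op_one]
  have hrow : ∀ R j i, j ≤ R → i < 2 ^ j → rowF (PP g) R j i = rowF g R j i := by
    intro R j i hj hi
    have hm : (i + 1) * 2 ^ (R - j) ≤ 2 ^ R := by
      calc (i + 1) * 2 ^ (R - j) ≤ 2 ^ j * 2 ^ (R - j) := Nat.mul_le_mul_right _ hi
        _ = 2 ^ R := by rw [← pow_add, Nat.add_sub_cancel' hj]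
    unfold rowF
    rw [hfR, (h1 R (PiP R j) _).2, map_sub, Dop_TrO hm, Dop_TrO_zero, sub_zero,
      (h1 R (PiP R j) _).2]
  funext q
  cases q with
  | oo => rfl
  | pt x => rw [PP_pt, PP_pt, hrow x.R x.j x.i x.hj x.hi]

end Pool.Agent.Work.MP_c93117_an.Neg

end

section

/-!
# Project Neg: item Ind (the induction over the blocks)
-/

set_option autoImplicit false

noncomputable section

open Finset Polynomial

namespace Pool.Agent.Work.MP_c93117_an.Neg

namespace AuxInd

theorem PP_zero : PP (0 : K → ℝ) = 0 := by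
  have h := PP_smul (0 : ℝ) (0 : K → ℝ)
  simpa using h

/-- the restriction of a continuous function to a clopen set -/
def res (S : Set K) (hS : IsClopen S) (y : C(K, ℝ)) : C(K, ℝ) :=
  ⟨S.indicator y, y.continuous.indicator (fun a ha => by
    rw [hS.frontier_eq] at ha; exact ha.elim)⟩

theorem res_in {S : Set K} (hS : IsClopen S) (y : C(K, ℝ)) {q : K} (hq : q ∈ S) :
    res S hS y q = y q := Set.indicator_of_mem hq _

theorem res_out {S : Set K} (hS : IsClopen S) (y : C(K, ℝ)) {q : K} (hq : q ∉ S) :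
    res S hS y q = 0 := Set.indicator_of_notMem hq _

theorem dp_le (q : K) : dp q ≤ 2 := by
  cases q with
  | oo => simp [dp]
  | pt x =>
    show (if x.s = [] then 1 else 2) ≤ 2
    split_ifs <;> omega

end AuxInd

open AuxInd

theorem pr_Ind (h1 : StBlock) (h2 : StPiLe) (h3 : StPiClopen) : StInd := by
  intro L _ _ U η δ hη hδ k
  induction k with
  | zero =>
    intro F V hV hne
    obtain ⟨l, hl⟩ := hne
    refine ⟨0, 0, 0, 0, l, hl.1, by simp, by simp, ?_, ?_, ?_, ?_⟩
    · intro q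
      show |(0 : ℝ)| ≤ _
      rw [abs_zero]
      exact U.opNorm_nonneg
    · intro q _; rfl
    · intro q
      have : PP (fun x => (0 : C(K, ℝ)) x) = 0 := PP_zero
      show |PP (fun x => (0 : C(K, ℝ)) x) q| ≤ _
      rw [this]; simp
    · intro q
      refine ⟨0, ?_, ?_, ?_⟩
      · intro l'; simp
      · intro l' _; rfl
      · simp
  | succ k ih =>
    intro F V hV hne
    obtain ⟨F1, V', φ, G, hF, hV'o, hV'V, hV'ne, hB, hGc, hout, hin, hPP⟩ :=
      h1 L U k V hV hne F η δ hη hδ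
    obtain ⟨Φ', H1', H2', H3', l, hl, hUΦ, hΦl, hH1, hH1z, hH2, hH3⟩ := ih F1 V' hV'o hV'ne
    obtain ⟨hB1, hB2, hB3⟩ := hB
    have hφn : ‖φ‖ ≤ 1 := by
      rw [ContinuousMap.norm_le φ zero_le_one]
      intro x
      rw [Real.norm_eq_abs, abs_le]
      exact ⟨by linarith [(hB1 x).1], (hB1 x).2⟩
    have hyq : ∀ q, |U φ q| ≤ ‖U‖ := by
      intro q
      calc |U φ q| = ‖U φ q‖ := (Real.norm_eq_abs _).symm
        _ ≤ ‖U φ‖ := ContinuousMap.norm_coe_le_norm _ _
        _ ≤ ‖U‖ * ‖φ‖ := U.le_opNorm φ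
        _ ≤ ‖U‖ * 1 := mul_le_mul_of_nonneg_left hφn U.opNorm_nonneg
        _ = ‖U‖ := mul_one _
    have hLw : IsClopen {q : K | low F.R0 q} := h3.2.2 F.R0
    have hS1 : IsClopen (G \ {q : K | low F.R0 q}) := hGc.diff hLw
    have hS2 : IsClopen (G ∩ {q : K | low F.R0 q}) := hGc.inter hLw
    have hS3 : IsClopen (Gᶜ) := hGc.compl
    set y : C(K, ℝ) := U φ with hy
    have hsum : y = res _ hS1 y + res _ hS2 y + res _ hS3 y := by
      ext q
      rw [ContinuousMap.add_apply, ContinuousMap.add_apply]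
      by_cases hG : q ∈ G
      · by_cases hlw : low F.R0 q
        · rw [res_out hS1 y (fun h => h.2 hlw), res_in hS2 y ⟨hG, hlw⟩,
            res_out hS3 y (fun h => h hG)]
          ring
        · rw [res_in hS1 y ⟨hG, hlw⟩, res_out hS2 y (fun h => hlw h.2),
            res_out hS3 y (fun h => h hG)]
          ring
      · rw [res_out hS1 y (fun h => hG h.1), res_out hS2 y (fun h => hG h.1),
          res_in hS3 y hG]
        ring
    refine ⟨φ + Φ', res _ hS1 y + H1', res _ hS2 y + H2', res _ hS3 y + H3', l, hV'V hl,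
      ?_, ?_, ?_, ?_, ?_, ?_⟩
    · rw [map_add, hUΦ]
      show y + (H1' + H2' + H3') = _
      conv_lhs => rw [hsum]
      abel
    · rw [ContinuousMap.add_apply, hB3 l hl, hΦl]
      push_cast
      ring
    · intro q
      rw [ContinuousMap.add_apply]
      by_cases hq : q ∈ G \ {q : K | low F.R0 q}
      · rw [res_in hS1 y hq, hH1z q (hin q hq.1 hq.2).2, add_zero]
        exact hyq q
      · rw [res_out hS1 y hq, zero_add]
        exact hH1 q
    · intro q hq
      rw [ContinuousMap.add_apply]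
      have hnot : q ∉ G \ {q : K | low F.R0 q} := by
        intro h
        have := (hin q h.1 h.2).1
        omega
      have hdp : dp (piF F1 q) = 2 := by
        have h5 := h2.2.2.1 _ _ (h2.2.1 F F1 q hF)
        have h6 := dp_le (piF F1 q)
        omega
      rw [res_out hS1 y hnot, hH1z q hdp, add_zero]
    · intro q
      have hadd : PP (fun x => (res _ hS2 y + H2') x)
          = PP (fun x => res _ hS2 y x) + PP (fun x => H2' x) :=
        PP_add (fun x => res _ hS2 y x) (fun x => H2' x)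
      show |PP (fun x => (res _ hS2 y + H2') x) q| ≤ _
      rw [hadd, Pi.add_apply]
      have hN2 : |PP (fun x => res _ hS2 y x) q| ≤ δ * ‖U‖ := by
        rcases U.opNorm_nonneg.eq_or_lt with h0 | h0
        · have hz : (fun x => res _ hS2 y x) = (0 : K → ℝ) := by
            funext x
            by_cases hx : x ∈ G ∩ {q : K | low F.R0 q}
            · rw [res_in hS2 y hx]
              have := hyq x
              rw [← h0] at this
              exact abs_nonpos_iff.1 this
            · rw [res_out hS2 y hx]; rfl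
          rw [hz, PP_zero, ← h0]
          simp
        · have hsm : (fun x => res _ hS2 y x) = ‖U‖ • (fun x => (1 / ‖U‖) * res _ hS2 y x) := by
            funext x
            rw [Pi.smul_apply, smul_eq_mul]
            field_simp
          rw [hsm, PP_smul, Pi.smul_apply, smul_eq_mul, abs_mul, abs_of_pos h0, mul_comm]
          refine mul_le_mul_of_nonneg_right ?_ h0.le
          refine hPP _ ?_ ?_ q
          · intro x
            by_cases hx : x ∈ G ∩ {q : K | low F.R0 q}
            · rw [res_in hS2 y hx, abs_mul, abs_of_pos (by positivity)]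
              have := hyq x
              rw [one_div, inv_mul_le_iff₀ h0, mul_one]
              exact this
            · rw [res_out hS2 y hx, mul_zero, abs_zero]
              exact zero_le_one
          · intro x hx
            rw [res_out hS2 y hx, mul_zero]
      have h7 := hH2 q
      calc |PP (fun x => res _ hS2 y x) q + PP (fun x => H2' x) q|
          ≤ |PP (fun x => res _ hS2 y x) q| + |PP (fun x => H2' x) q| := abs_add_le _ _
        _ ≤ δ * ‖U‖ + k * δ * ‖U‖ := add_le_add hN2 h7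
        _ = ((k + 1 : ℕ) : ℝ) * δ * ‖U‖ := by push_cast; ring
    · intro q
      obtain ⟨ψ', hψ1, hψ2, hψ3⟩ := hH3 q
      by_cases hG : q ∈ G
      · refine ⟨ψ', hψ1, fun l' hl' => hψ2 l' (fun h => hl' (hV'V h)), ?_⟩
        rw [ContinuousMap.add_apply, res_out hS3 y (fun h => h hG), zero_add]
        push_cast
        linarith
      · obtain ⟨θ, ⟨hθ1, hθ2, hθ3⟩, hθU⟩ := hout q hG
        obtain ⟨ε, hε, hε2⟩ : ∃ ε : ℝ, |ε| = 1 ∧ |U (φ - θ) q| = ε * U (φ - θ) q := by
          rcases le_total 0 (U (φ - θ) q) with h | h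
          · exact ⟨1, abs_one, by rw [abs_of_nonneg h, one_mul]⟩
          · exact ⟨-1, by rw [abs_neg, abs_one], by rw [abs_of_nonpos h]; ring⟩
        refine ⟨ε • (φ - θ) + ψ', ?_, ?_, ?_⟩
        · intro l'
          rw [ContinuousMap.add_apply, ContinuousMap.smul_apply, ContinuousMap.sub_apply,
            smul_eq_mul]
          by_cases hl' : l' ∈ V'
          · rw [hB3 l' hl', hθ3 l' hl', sub_self, mul_zero, zero_add]
            exact hψ1 l'
          · rw [hψ2 l' hl', add_zero, abs_mul, hε, one_mul, abs_le]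
            have := hB1 l'
            have := hθ1 l'
            constructor <;> linarith [(hB1 l').1, (hB1 l').2, (hθ1 l').1, (hθ1 l').2]
        · intro l' hl'
          rw [ContinuousMap.add_apply, ContinuousMap.smul_apply, ContinuousMap.sub_apply,
            smul_eq_mul, hB2 l' hl', hθ2 l' hl', hψ2 l' (fun h => hl' (hV'V h))]
          ring
        · rw [ContinuousMap.add_apply, res_in hS3 y hG]
          have hU : U (ε • (φ - θ) + ψ') q = ε * U (φ - θ) q + U ψ' q := by
            rw [map_add, map_smul, ContinuousMap.add_apply, ContinuousMap.smul_apply, smul_eq_mul]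
          have hyd : y q = U θ q + U (φ - θ) q := by
            rw [hy, map_sub, ContinuousMap.sub_apply]
            ring
          rw [hU, ← hε2]
          have h8 : |y q| ≤ η + |U (φ - θ) q| := by
            rw [hyd]
            exact (abs_add_le _ _).trans (by linarith)
          have h9 := abs_add_le (y q) (H3' q)
          push_cast
          linarith

end Pool.Agent.Work.MP_c93117_an.Neg

end
end

section

/-!
# Item InvStep: one more step of a part
-/

set_option autoImplicit false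

namespace Pool.Agent.Work.MP_c93117_an.Neg

namespace AuxInvStep

theorem trB_mono {F F' : FD} (h : F ≤ F') (s : List ℕ) : trB F s <:+ trB F' s := by
  rcases tr_spec (fun w => w ∈ F.B) s with h1 | h1
  · unfold trB
    rw [h1]
    exact List.nil_suffix
  · exact tr_max (P := fun w => w ∈ F'.B) (tr_suffix _ s) (h.1 h1)

end AuxInvStep

theorem pr_InvStep (h1 : StPiMove) : StInvStep := by
  intro F0 F F' m G hF hF' hinv s
  have s1 : trB F0 s <:+ trB F s := AuxInvStep.trB_mono hF s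
  have s2 : trB F s <:+ trB F' s := AuxInvStep.trB_mono hF' s
  have b1 := bb_mono s1
  have b2 := bb_mono s2
  have c1 := cc_mono s1
  have c2 := cc_mono s2
  -- the case in which some node moves
  by_cases hex : ∃ (R j i : ℕ) (a : Finset ℕ), R ≤ F0.R0 ∧ nd R j i s a ∈ G ∧
      piF F' (nd R j i s a) ≠ piF F (nd R j i s a)
  swap
  · left
    intro R j i a hR hmem
    exact hex ⟨R, j, i, a, hR, hmem.1, hmem.2⟩
  have hlt : (trB F s).length < (trB F' s).length := by
    obtain ⟨R, j, i, a, hR, _, hm⟩ := hex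
    obtain ⟨u, u1, u2, u3, _⟩ := h1 F F' R j i s a hF' (hR.trans hF.2) hm
    have e1 := u1.length_le
    have e2 := u3.length_le
    rcases lt_or_eq_of_le e1 with e3 | e3
    · omega
    · exact absurd (u1.eq_of_length e3) u2
  rcases hinv s with h | h | ⟨c0, k1, k2, k3⟩ | ⟨k1, k2⟩ | ⟨k1, k2⟩
  · left
    intro R j i a hR hmem
    exact h R j i a hR hmem.1
  · right; left
    omega
  · right; right; left
    exact ⟨c0, k1, by omega, fun R j i a hR hmem => k3 R j i a hR hmem.1⟩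
  · rcases lt_or_eq_of_le c2 with e | e
    · right; right; right; right
      omega
    · right; right; right; left
      have := (rr_add_length s2 e).1
      omega
  · rcases lt_or_eq_of_le c2 with e | e
    · right; right; right; right
      omega
    · right; right; left
      refine ⟨cc (trB F s) - 1, by omega, by omega, ?_⟩
      intro R j i a hR hmem
      obtain ⟨u, u1, _, u3, u4⟩ := h1 F F' R j i s a hF' (hR.trans hF.2) hmem.2
      have e1 := cc_mono u1
      have e2 := cc_mono u3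
      have e3 : cc u = cc (trB F s) := by omega
      rw [← e3]
      exact u4.2

end Pool.Agent.Work.MP_c93117_an.Neg

end

section

/-!
# Item LftPP: the components of `PP g` are the rows
-/

set_option autoImplicit false

open Finset Polynomial

namespace Pool.Agent.Work.MP_c93117_an.Neg

namespace AuxLftPP

def Adm (F : FF) : Prop := A1 F ∧ A2 F

theorem adm_zero : Adm 0 := ⟨fun _ _ => rfl, fun _ _ _ _ => rfl⟩

theorem adm_add {F G : FF} (hF : Adm F) (hG : Adm G) : Adm (F + G) := by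
  refine ⟨fun s a => ?_, fun e s a h => ?_⟩
  · show F s _ + G s _ = F s a + G s a
    rw [hF.1, hG.1]
  · show F (e :: s) a + G (e :: s) a = F s a + G s a
    rw [hF.2 e s a h, hG.2 e s a h]

theorem adm_smul (c : ℝ) {F : FF} (hF : Adm F) : Adm (c • F) := by
  refine ⟨fun s a => ?_, fun e s a h => ?_⟩
  · show c * F s _ = c * F s a
    rw [hF.1]
  · show c * F (e :: s) a = c * F s a
    rw [hF.2 e s a h]

theorem adm_sum {ι : Type} (t : Finset ι) (F : ι → FF) (h : ∀ x ∈ t, Adm (F x)) :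
    Adm (∑ x ∈ t, F x) :=
  Finset.sum_induction F Adm (fun _ _ => adm_add) adm_zero h

theorem adm_Q (h1 : StQadm) (p : ℝ) {F : FF} (hF : Adm F) : Adm (Qop p F) :=
  ⟨(h1 p F).1 hF.1, (h1 p F).2 hF.2⟩

theorem adm_pow (h1 : StQadm) (p : ℝ) (n : ℕ) {F : FF} (hF : Adm F) : Adm ((Qop p ^ n) F) := by
  induction n with
  | zero => rw [pow_zero]; exact hF
  | succ n ih =>
    rw [pow_succ']
    exact adm_Q h1 p ih

theorem adm_op (h1 : StQadm) (R : ℕ) (f : ℝ[X]) {F : FF} (hF : Adm F) : Adm (op R f F) := by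
  unfold op
  induction f using Polynomial.induction_on' with
  | add p q hp hq =>
    rw [map_add]
    exact adm_add hp hq
  | monomial n c =>
    rw [aeval_monomial]
    show Adm ((algebraMap ℝ (Module.End ℝ FF) c) ((Qop (pR R) ^ n) F))
    rw [Module.algebraMap_end_apply]
    exact adm_smul c (adm_pow h1 _ n hF)

theorem adm_fR (h1 : StQadm) (g : K → ℝ) (R : ℕ) : Adm (fR g R) := by
  unfold fR
  apply adm_sum
  intro j _
  apply adm_smul
  apply adm_op h1
  apply adm_sum
  intro i _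
  exact ⟨lft_A1 g R j i, lft_A2 g R j i⟩

end AuxLftPP

open AuxLftPP

theorem pr_LftPP (h1 : StQadm) (h2 : StDloc) : StLftPP := by
  intro g R j i hj hi
  have hF : Adm (op R (PiP R j) (fR g R)) := adm_op h1 R _ (adm_fR h1 g R)
  funext s a
  unfold lft
  rw [nd_eq ⟨hj, hi⟩, PP_pt]
  show (4 : ℝ) ^ j * Dop R j i (op R (PiP R j) (fR g R)) (loc R j i a s)
      (a.filter (· < cc (loc R j i a s))) = (4 : ℝ) ^ j * Dop R j i (op R (PiP R j) (fR g R)) s a
  rw [h2 R j i _ hj hF.1 hF.2]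

end Pool.Agent.Work.MP_c93117_an.Neg

end

section

/-!
# Project Neg: the lower bound for the projection of `gs`
-/

set_option autoImplicit false

noncomputable section

open Finset Polynomial

namespace Pool.Agent.Work.MP_c93117_an.Neg

namespace AuxLow

theorem sn0 {R : ℕ} {a : Finset ℕ} {w : List ℕ} (hb : bb w ≤ 2 ^ R) (hc : cc w - 1 ∈ a) :
    sn R 0 0 a w := by
  refine ⟨?_, hc⟩
  apply Nat.div_eq_of_lt
  have h : 0 < 2 ^ (R - 0) := by positivity
  rw [Nat.sub_zero] at h ⊢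
  omega

theorem gs_pos {R : ℕ} {s : List ℕ} {x : Nd}
    (h : x.R = R ∧ x.j = 0 ∧ s <:+ x.s ∧ cc s - 1 ∈ x.a) : gs R s (.pt x) = 1 := by
  unfold gs
  dsimp only
  rw [if_pos h]

theorem gs_neg {R : ℕ} {s : List ℕ} {x : Nd}
    (h : ¬ (x.R = R ∧ x.j = 0 ∧ s <:+ x.s ∧ cc s - 1 ∈ x.a)) : gs R s (.pt x) = 0 := by
  unfold gs
  dsimp only
  rw [if_neg h]

theorem lft0 {R : ℕ} {s : List ℕ} (hs : s ≠ []) (hb : bb s ≤ 2 ^ R) :
    lft (gs R s) R 0 0 = psi s (cc s - 1) := by
  classical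
  funext w a
  show gs R s (nd R 0 0 w a) = psi s (cc s - 1) w a
  rw [nd_eq ⟨Nat.zero_le R, by simp⟩]
  have hc := cc_pos_of_ne hs
  by_cases h : s <:+ w ∧ cc s - 1 ∈ a
  · have h1 : s <:+ loc R 0 0 a w := loc_max h.1 (sn0 hb h.2)
    have h2 := cc_mono h1
    have h3 : psi s (cc s - 1) w a = 1 := by
      unfold psi
      rw [if_pos h]
    rw [h3]
    apply gs_pos
    refine ⟨rfl, rfl, h1, ?_⟩
    show cc s - 1 ∈ a.filter (· < cc (loc R 0 0 a w))
    rw [Finset.mem_filter]
    exact ⟨h.2, by omega⟩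
  · have h3 : psi s (cc s - 1) w a = 0 := by
      unfold psi
      rw [if_neg h]
    rw [h3]
    apply gs_neg
    rintro ⟨-, -, h1, h2⟩
    apply h
    refine ⟨h1.trans (loc_suffix R 0 0 a w), ?_⟩
    have h4 : cc s - 1 ∈ a.filter (· < cc (loc R 0 0 a w)) := h2
    exact (Finset.mem_filter.1 h4).1

theorem lftj {R j i : ℕ} {s : List ℕ} (hj : j ≠ 0) : lft (gs R s) R j i = 0 := by
  funext w a
  show gs R s (nd R j i w a) = 0
  by_cases h : j ≤ R ∧ i < 2 ^ j
  · rw [nd_eq h]
    apply gs_neg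
    rintro ⟨-, h1, -⟩
    exact hj h1
  · rw [nd_invalid h]
    rfl

theorem pow_psi (h1 : StQpsi) (p : ℝ) (s : List ℕ) (c n : ℕ) :
    ((Qop p) ^ n) (psi s c) = p ^ n • psi s c := by
  induction n with
  | zero => simp
  | succ n ih =>
    rw [pow_succ, Module.End.mul_apply, h1, map_smul, ih, smul_smul]
    congr 1
    ring

theorem op_psi (h1 : StQpsi) (R : ℕ) (f : ℝ[X]) (s : List ℕ) (c : ℕ) :
    op R f (psi s c) = (f.eval (pR R)) • psi s c := by
  unfold op
  induction f using Polynomial.induction_on' with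
  | add f g hf hg => rw [map_add, LinearMap.add_apply, hf, hg, eval_add, add_smul]
  | monomial n r =>
    rw [aeval_monomial, Module.End.mul_apply, pow_psi h1, map_smul,
      Module.algebraMap_end_apply, eval_monomial, smul_smul]
    congr 1
    ring

theorem op_zero' (R : ℕ) (f : ℝ[X]) : op R f 0 = 0 := map_zero _

theorem fR_gs (h1 : StQpsi) {R : ℕ} {s : List ℕ} (hs : s ≠ []) (hb : bb s ≤ 2 ^ R) :
    fR (gs R s) R = ((epsP R 0).eval (pR R)) • psi s (cc s - 1) := by
  unfold fR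
  rw [Finset.sum_eq_single 0]
  · rw [pow_zero, one_smul, pow_zero, Finset.sum_range_one, lft0 hs hb, op_psi h1]
  · intro j _ hj
    rw [Finset.sum_eq_zero (fun i _ => lftj hj), op_zero', smul_zero]
  · intro h
    exact absurd (Finset.mem_range.2 (Nat.succ_pos R)) h

theorem kappa (R : ℕ) : 1 / 2 ≤ (epsP R 0).eval (pR R) := by
  unfold epsP
  by_cases h : 0 < R
  · rw [if_pos h, Nat.sub_zero, eval_mul, eval_C, eval_finsetSum]
    have h8 : (0 : ℝ) < 8 ^ R := by positivity
    have h8' : (1 : ℝ) ≤ 8 ^ R := one_le_pow₀ (by norm_num)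
    have hp0 : 0 ≤ pR R := by
      unfold pR
      have : 1 / (2 * (8 : ℝ) ^ R) ≤ 1 := by
        rw [div_le_one (by positivity)]
        linarith
      linarith
    have hp1 : pR R ≤ 1 := by
      unfold pR
      have : 0 ≤ 1 / (2 * (8 : ℝ) ^ R) := by positivity
      linarith
    have hbern : 1 / 2 ≤ pR R ^ (8 ^ R : ℕ) := by
      have h2 := one_add_mul_le_pow (a := -(1 / (2 * (8 : ℝ) ^ R))) (by
        have : 1 / (2 * (8 : ℝ) ^ R) ≤ 1 := by
          rw [div_le_one (by positivity)]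
          linarith
        linarith) (8 ^ R)
      have h3 : 1 + ((8 ^ R : ℕ) : ℝ) * -(1 / (2 * (8 : ℝ) ^ R)) = 1 / 2 := by
        push_cast
        field_simp
        ring
      rw [h3] at h2
      unfold pR
      rwa [sub_eq_add_neg]
    have hsum : ((8 ^ R : ℕ) : ℝ) * (1 / 2) ≤
        ∑ r ∈ range (8 ^ R), (X ^ (r + 1) : ℝ[X]).eval (pR R) := by
      have h4 := Finset.card_nsmul_le_sum (range (8 ^ R))
        (fun r => (X ^ (r + 1) : ℝ[X]).eval (pR R)) (1 / 2) (by
          intro r hr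
          rw [eval_pow, eval_X]
          exact hbern.trans (pow_le_pow_of_le_one hp0 hp1 (Finset.mem_range.1 hr)))
      rw [Finset.card_range, nsmul_eq_mul] at h4
      exact h4
    push_cast at hsum
    calc (1 : ℝ) / 2 = 1 / 8 ^ R * (8 ^ R * (1 / 2)) := by
          field_simp
      _ ≤ _ := mul_le_mul_of_nonneg_left hsum (by positivity)
  · rw [if_neg h, eval_one]
    norm_num

end AuxLow

open AuxLow in
theorem pr_Low (h1 : StQpsi) : StLow := by
  intro R s z hs hsz hz
  have hzne : z ≠ [] := by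
    rintro rfl
    exact hs (List.suffix_nil.1 hsz)
  have hb : bb s ≤ 2 ^ R := (bb_mono hsz).trans hz
  have hcz := cc_pos_of_ne hzne
  have hcs := cc_pos_of_ne hs
  have hcc := cc_mono hsz
  have hseen : loc R 0 0 (range (cc z)) z = z :=
    loc_seen (sn0 hz (Finset.mem_range.2 (by omega)))
  have hnd : nd R 0 0 z (range (cc z)) = .pt ⟨R, 0, 0, loc R 0 0 (range (cc z)) z,
      (range (cc z)).filter (· < cc (loc R 0 0 (range (cc z)) z)), Nat.zero_le R, by simp,
      nd_ha R 0 0 z _, nd_hs R 0 0 z _⟩ := nd_eq ⟨Nat.zero_le R, by simp⟩ z _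
  rw [hnd]
  show 1 / 2 ≤ rowF (gs R s) R 0 0 (loc R 0 0 (range (cc z)) z)
    ((range (cc z)).filter (· < cc (loc R 0 0 (range (cc z)) z)))
  rw [hseen, Finset.filter_true_of_mem (fun x hx => Finset.mem_range.1 hx)]
  have hrow : rowF (gs R s) R 0 0 z (range (cc z)) =
      fR (gs R s) R z (range (cc z)) - fR (gs R s) R [] (range (cc z)) := by
    unfold rowF
    rw [pow_zero, one_smul]
    have h2 : op R (PiP R 0) (fR (gs R s) R) = fR (gs R s) R := by
      unfold op PiP
      rw [Finset.range_zero, Finset.prod_empty, map_one, Module.End.one_apply]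
    rw [h2]
    show fR (gs R s) R (trb ((0 + 1) * 2 ^ (R - 0)) z) (range (cc z)) -
      fR (gs R s) R (trb (0 * 2 ^ (R - 0)) z) (range (cc z)) = _
    rw [zero_add, one_mul, Nat.sub_zero, zero_mul, trb_zero, trb_of_le hz]
  rw [hrow, fR_gs h1 hs hb]
  have e1 : psi s (cc s - 1) z (range (cc z)) = 1 := by
    unfold psi
    rw [if_pos ⟨hsz, Finset.mem_range.2 (by omega)⟩]
  have e2 : psi s (cc s - 1) [] (range (cc z)) = 0 := by
    unfold psi
    rw [if_neg (fun h => hs (List.suffix_nil.1 h.1))]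
  simp only [Pi.smul_apply, e1, e2, smul_eq_mul, mul_one, mul_zero, sub_zero]
  exact kappa R

end Pool.Agent.Work.MP_c93117_an.Neg

end
end

section

/-!
# Project Neg: calculus of the coefficient norm
-/

set_option autoImplicit false

noncomputable section

open Finset Polynomial

namespace Pool.Agent.Work.MP_c93117_an.Neg

namespace AuxN1

theorem N1_range (f : ℝ[X]) (N : ℕ) (h : f.natDegree < N) :
    N1 f = ∑ n ∈ range N, |f.coeff n| := by
  unfold N1
  exact Polynomial.sum_over_range' f (fun _ => abs_zero) N h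

theorem add_le (f g : ℝ[X]) : N1 (f + g) ≤ N1 f + N1 g := by
  have hd : (f + g).natDegree < max f.natDegree g.natDegree + 1 :=
    Nat.lt_succ_of_le (natDegree_add_le f g)
  rw [N1_range (f + g) _ hd,
    N1_range f (max f.natDegree g.natDegree + 1) (Nat.lt_succ_of_le (le_max_left _ _)),
    N1_range g (max f.natDegree g.natDegree + 1) (Nat.lt_succ_of_le (le_max_right _ _)),
    ← Finset.sum_add_distrib]
  refine Finset.sum_le_sum ?_
  intro n _
  rw [coeff_add]
  exact abs_add_le _ _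

theorem zero : N1 0 = 0 := by
  unfold N1
  exact Polynomial.sum_zero_index _

theorem nonneg (f : ℝ[X]) : 0 ≤ N1 f := by
  rw [N1_range f _ (Nat.lt_succ_self _)]
  exact Finset.sum_nonneg (fun _ _ => abs_nonneg _)

theorem C_mul (c : ℝ) (f : ℝ[X]) : N1 (C c * f) = |c| * N1 f := by
  have hd : (C c * f).natDegree < f.natDegree + 1 :=
    Nat.lt_succ_of_le (natDegree_C_mul_le c f)
  rw [N1_range _ _ hd, N1_range f _ (Nat.lt_succ_self _), Finset.mul_sum]
  refine Finset.sum_congr rfl ?_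
  intro n _
  rw [coeff_C_mul, abs_mul]

theorem X_pow_mul (i : ℕ) (g : ℝ[X]) : N1 (X ^ i * g) = N1 g := by
  have hd : (X ^ i * g).natDegree < i + (g.natDegree + 1) := by
    have h1 := natDegree_mul_le (p := (X ^ i : ℝ[X])) (q := g)
    rw [natDegree_X_pow] at h1
    omega
  rw [N1_range _ _ hd, Finset.sum_range_add, N1_range g _ (Nat.lt_succ_self _),
    Finset.sum_eq_zero, zero_add]
  · refine Finset.sum_congr rfl ?_
    intro n _
    rw [add_comm i n, coeff_X_pow_mul]
  · intro n hn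
    rw [Finset.mem_range] at hn
    rw [coeff_X_pow_mul', if_neg (by omega), abs_zero]

theorem sum_le (S : Finset ℕ) (F : ℕ → ℝ[X]) : N1 (∑ i ∈ S, F i) ≤ ∑ i ∈ S, N1 (F i) := by
  induction S using Finset.induction_on with
  | empty => rw [Finset.sum_empty, Finset.sum_empty, zero]
  | insert a S ha ih =>
    rw [Finset.sum_insert ha, Finset.sum_insert ha]
    exact (add_le _ _).trans (by linarith)

theorem one : N1 1 = 1 := by
  rw [N1_range 1 1 (by simp)]
  simp

theorem X_pow (n : ℕ) : N1 (X ^ n) = 1 := by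
  have := X_pow_mul n 1
  rw [mul_one, one] at this
  exact this

theorem neg (f : ℝ[X]) : N1 (-f) = N1 f := by
  have : -f = C (-1) * f := by simp
  rw [this, C_mul]
  simp

theorem mul_le (f g : ℝ[X]) : N1 (f * g) ≤ N1 f * N1 g := by
  have h1 : f * g = ∑ i ∈ range (f.natDegree + 1), C (f.coeff i) * (X ^ i * g) := by
    conv_lhs => rw [f.as_sum_range_C_mul_X_pow]
    rw [Finset.sum_mul]
    exact Finset.sum_congr rfl (fun i _ => mul_assoc _ _ _)
  rw [h1, N1_range f _ (Nat.lt_succ_self _), Finset.sum_mul]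
  refine (sum_le _ _).trans (le_of_eq ?_)
  refine Finset.sum_congr rfl ?_
  intro i _
  rw [C_mul, X_pow_mul]

end AuxN1

theorem pr_N1 : StN1 :=
  ⟨AuxN1.add_le, AuxN1.mul_le, AuxN1.C_mul, AuxN1.X_pow, AuxN1.one, AuxN1.neg, AuxN1.nonneg,
    AuxN1.zero⟩

end Pool.Agent.Work.MP_c93117_an.Neg

end
end

section

/-!
# Project Neg, item Norm: the projection is bounded
-/

set_option autoImplicit false

noncomputable section

open Finset Polynomial

namespace Pool.Agent.Work.MP_c93117_an.Neg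

namespace AuxNorm

theorem geo1 (j : ℕ) : ∑ x ∈ range j, (1 / 2 : ℝ) ^ (j - x) = 1 - (1 / 2) ^ j := by
  induction j with
  | zero => simp
  | succ j ih =>
    rw [sum_range_succ]
    have h : ∑ x ∈ range j, (1 / 2 : ℝ) ^ (j + 1 - x) =
        ∑ x ∈ range j, (1 / 2) * (1 / 2 : ℝ) ^ (j - x) := by
      refine sum_congr rfl fun x hx => ?_
      have hx' : j + 1 - x = (j - x) + 1 := by
        have := mem_range.1 hx
        omega
      rw [hx', pow_succ]
      ring
    rw [h, ← mul_sum, ih, show j + 1 - j = 1 by omega]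
    ring

theorem geo2 (n : ℕ) : ∑ x ∈ range n, (1 / 2 : ℝ) ^ x = 2 - 2 * (1 / 2) ^ n := by
  induction n with
  | zero => simp
  | succ n ih =>
    rw [sum_range_succ, ih]
    ring

/-- the bound for the level `j'` -/
def bd (j j' : ℕ) : ℝ := if j ≤ j' then 6 * (1 / 2) ^ (j' - j) else 96 * (1 / 2) ^ (j - j')

theorem sum_bd (R j : ℕ) (hj : j ≤ R) : ∑ j' ∈ range (R + 1), bd j j' ≤ 108 := by
  obtain ⟨n, hn⟩ := Nat.exists_eq_add_of_le (show j ≤ R + 1 by omega)
  rw [hn, sum_range_add]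
  have h1 : ∑ x ∈ range j, bd j x = 96 * (1 - (1 / 2) ^ j) := by
    rw [← geo1, mul_sum]
    refine sum_congr rfl fun x hx => ?_
    have := mem_range.1 hx
    unfold bd
    rw [if_neg (by omega)]
  have h2 : ∑ x ∈ range n, bd j (j + x) = 6 * (2 - 2 * (1 / 2) ^ n) := by
    rw [← geo2, mul_sum]
    refine sum_congr rfl fun x _ => ?_
    unfold bd
    rw [if_pos (by omega), show j + x - j = x by omega]
  rw [h1, h2]
  have h3 : (0 : ℝ) ≤ (1 / 2) ^ j := by positivity
  have h4 : (0 : ℝ) ≤ (1 / 2) ^ n := by positivity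
  linarith

theorem D_le (R j i : ℕ) (F : FF) (B : ℝ) (hF : ∀ s a, |F s a| ≤ B) (s : List ℕ) (a : Finset ℕ) :
    |Dop R j i F s a| ≤ 2 * B := by
  have h1 := hF (trb ((i + 1) * 2 ^ (R - j)) s) a
  have h2 := hF (trb (i * 2 ^ (R - j)) s) a
  show |F (trb ((i + 1) * 2 ^ (R - j)) s) a - F (trb (i * 2 ^ (R - j)) s) a| ≤ 2 * B
  rw [abs_le] at h1 h2 ⊢
  constructor <;> linarith

/-- the increment of the level `j'` -/
def Gf (g : K → ℝ) (R j i j' : ℕ) : FF := ∑ i' ∈ range (2 ^ j'), Dop R j i (lft g R j' i')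

theorem Gf_apply (g : K → ℝ) (R j i j' : ℕ) (s : List ℕ) (a : Finset ℕ) :
    Gf g R j i j' s a = ∑ i' ∈ range (2 ^ j'), Dop R j i (lft g R j' i') s a := by
  unfold Gf
  rw [Finset.sum_apply, Finset.sum_apply]

theorem G_up (h2 : StDzero) (g : K → ℝ) (B : ℝ) (hg : ∀ q, |g q| ≤ B) (R j i j' : ℕ)
    (hj : j ≤ R) (hj' : j' ≤ R) (hjj : j ≤ j') (s : List ℕ) (a : Finset ℕ) :
    |Gf g R j i j' s a| ≤ 2 ^ (j' - j) * (2 * B) := by
  have hB : 0 ≤ B := (abs_nonneg _).trans (hg .oo)
  rw [Gf_apply]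
  have h3 : ∀ i' ∈ range (2 ^ j'), |Dop R j i (lft g R j' i') s a| ≤
      if i' / 2 ^ (j' - j) = i then 2 * B else 0 := by
    intro i' hi'
    split_ifs with h
    · exact D_le R j i _ B (fun s a => hg _) s a
    · rw [(h2 g R j i j' i' hj hj' (mem_range.1 hi')).1 hjj h]
      simp
  calc |∑ i' ∈ range (2 ^ j'), Dop R j i (lft g R j' i') s a|
      ≤ ∑ i' ∈ range (2 ^ j'), |Dop R j i (lft g R j' i') s a| := abs_sum_le_sum_abs _ _
    _ ≤ ∑ i' ∈ range (2 ^ j'), (if i' / 2 ^ (j' - j) = i then 2 * B else 0) := sum_le_sum h3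
    _ = ((range (2 ^ j')).filter (fun i' => i' / 2 ^ (j' - j) = i)).card * (2 * B) := by
        rw [← sum_filter, sum_const, nsmul_eq_mul]
    _ ≤ 2 ^ (j' - j) * (2 * B) := by
        refine mul_le_mul_of_nonneg_right ?_ (by linarith)
        have h4 : ((range (2 ^ j')).filter (fun i' => i' / 2 ^ (j' - j) = i)) ⊆
            Ico (i * 2 ^ (j' - j)) (i * 2 ^ (j' - j) + 2 ^ (j' - j)) := by
          intro x hx
          rw [mem_filter] at hx
          rw [mem_Ico]
          have hp : 0 < 2 ^ (j' - j) := by positivity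
          have h5 := Nat.div_add_mod x (2 ^ (j' - j))
          have h6 := Nat.mod_lt x hp
          rw [hx.2] at h5
          rw [mul_comm i]
          constructor <;> omega
        have h7 := card_le_card h4
        rw [Nat.card_Ico, Nat.add_sub_cancel_left] at h7
        exact_mod_cast h7

theorem G_dn (h2 : StDzero) (g : K → ℝ) (B : ℝ) (hg : ∀ q, |g q| ≤ B) (R j i j' : ℕ)
    (hj : j ≤ R) (hj' : j' ≤ R) (hjj : j' ≤ j) (s : List ℕ) (a : Finset ℕ) :
    |Gf g R j i j' s a| ≤ 2 * B := by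
  have hB : 0 ≤ B := (abs_nonneg _).trans (hg .oo)
  rw [Gf_apply]
  have h3 : ∀ i' ∈ range (2 ^ j'), |Dop R j i (lft g R j' i') s a| ≤
      if i' = i / 2 ^ (j - j') then 2 * B else 0 := by
    intro i' hi'
    split_ifs with h
    · exact D_le R j i _ B (fun s a => hg _) s a
    · rw [(h2 g R j i j' i' hj hj' (mem_range.1 hi')).2 hjj (fun h4 => h h4.symm)]
      simp
  calc |∑ i' ∈ range (2 ^ j'), Dop R j i (lft g R j' i') s a|
      ≤ ∑ i' ∈ range (2 ^ j'), |Dop R j i (lft g R j' i') s a| := abs_sum_le_sum_abs _ _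
    _ ≤ ∑ i' ∈ range (2 ^ j'), (if i' = i / 2 ^ (j - j') then 2 * B else 0) := sum_le_sum h3
    _ ≤ 2 * B := by
        rw [sum_ite_eq']
        split_ifs <;> linarith

theorem row_eq (h1 : StComm) (g : K → ℝ) (R j i : ℕ) : rowF g R j i =
    ∑ j' ∈ range (R + 1), ((4 : ℝ) ^ j * (1 / 4) ^ j') •
      op R (PiP R j * epsP R j') (Gf g R j i j') := by
  unfold rowF fR
  rw [map_sum, map_sum, smul_sum]
  refine sum_congr rfl fun j' _ => ?_
  rw [map_smul, map_smul, smul_smul]
  congr 1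
  rw [(h1 R (PiP R j) _).2 R j i, (h1 R (epsP R j') _).2 R j i, map_sum]
  unfold op Gf
  rw [map_mul]
  rfl

end AuxNorm

open AuxNorm in
theorem pr_Norm (h1 : StComm) (h2 : StDzero) (h3 : StN1Pi) (h4 : StN1op) (h5 : StN1) :
    StNorm := by
  intro g B hg q
  have hB : 0 ≤ B := (abs_nonneg _).trans (hg .oo)
  rcases q with _ | x
  · show |(0 : ℝ)| ≤ 108 * B
    rw [abs_zero]
    linarith
  · show |rowF g x.R x.j x.i x.s x.a| ≤ 108 * B
    obtain ⟨R, j, i, s, a, hj, hi, ha, hs⟩ := x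
    simp only
    rw [row_eq h1, Finset.sum_apply, Finset.sum_apply]
    refine (abs_sum_le_sum_abs _ _).trans ?_
    have key : ∀ j' ∈ range (R + 1), |(((4 : ℝ) ^ j * (1 / 4) ^ j') •
        op R (PiP R j * epsP R j') (Gf g R j i j')) s a| ≤ bd j j' * B := by
      intro j' hj'
      have hj'R : j' ≤ R := by
        have := mem_range.1 hj'
        omega
      show |((4 : ℝ) ^ j * (1 / 4) ^ j') * op R (PiP R j * epsP R j') (Gf g R j i j') s a| ≤ _
      rw [abs_mul, abs_of_nonneg (show (0 : ℝ) ≤ 4 ^ j * (1 / 4) ^ j' by positivity)]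
      unfold bd
      split_ifs with hjj
      · have hN : N1 (PiP R j * epsP R j') ≤ 3 := by
          have e1 := h5.2.1 (PiP R j) (epsP R j')
          have e2 := h3.1 R j hj
          have e3 := h3.2.2 R j'
          have e4 := h5.2.2.2.2.2.2.1 (PiP R j)
          have e5 := h5.2.2.2.2.2.2.1 (epsP R j')
          nlinarith
        have hG := h4 R (PiP R j * epsP R j') (Gf g R j i j') (2 ^ (j' - j) * (2 * B))
          (fun s a => G_up h2 g B hg R j i j' hj hj'R hjj s a) s a
        have hG' : |op R (PiP R j * epsP R j') (Gf g R j i j') s a| ≤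
            3 * (2 ^ (j' - j) * (2 * B)) :=
          hG.trans (mul_le_mul_of_nonneg_right hN (by positivity))
        refine (mul_le_mul_of_nonneg_left hG' (by positivity)).trans (le_of_eq ?_)
        obtain ⟨d, rfl⟩ := Nat.exists_eq_add_of_le hjj
        rw [Nat.add_sub_cancel_left, pow_add]
        have e1 : (4 : ℝ) ^ j * (1 / 4) ^ j = 1 := by
          rw [← mul_pow]
          norm_num
        have e2 : (1 / 4 : ℝ) ^ d * 2 ^ d = (1 / 2) ^ d := by
          rw [← mul_pow]
          norm_num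
        calc (4 : ℝ) ^ j * ((1 / 4) ^ j * (1 / 4) ^ d) * (3 * (2 ^ d * (2 * B)))
            = ((4 : ℝ) ^ j * (1 / 4) ^ j) * ((1 / 4) ^ d * 2 ^ d) * (6 * B) := by ring
          _ = 6 * (1 / 2) ^ d * B := by rw [e1, e2]; ring
      · have hlt : j' < j := not_le.1 hjj
        have hN := h3.2.1 R j j' hlt hj
        have hG := h4 R (PiP R j * epsP R j') (Gf g R j i j') (2 * B)
          (fun s a => G_dn h2 g B hg R j i j' hj hj'R hlt.le s a) s a
        have hG' : |op R (PiP R j * epsP R j') (Gf g R j i j') s a| ≤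
            48 / 8 ^ (j - j') * (2 * B) :=
          hG.trans (mul_le_mul_of_nonneg_right hN (by positivity))
        refine (mul_le_mul_of_nonneg_left hG' (by positivity)).trans (le_of_eq ?_)
        obtain ⟨d, rfl⟩ := Nat.exists_eq_add_of_le hlt.le
        rw [Nat.add_sub_cancel_left, pow_add]
        have e1 : (4 : ℝ) ^ j' * (1 / 4) ^ j' = 1 := by
          rw [← mul_pow]
          norm_num
        have e2 : (4 : ℝ) ^ d * (1 / 8 ^ d) = (1 / 2) ^ d := by
          rw [← one_div_pow, ← mul_pow]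
          norm_num
        calc (4 : ℝ) ^ j' * 4 ^ d * (1 / 4) ^ j' * (48 / 8 ^ d * (2 * B))
            = ((4 : ℝ) ^ j' * (1 / 4) ^ j') * (4 ^ d * (1 / 8 ^ d)) * (96 * B) := by ring
          _ = 96 * (1 / 2) ^ d * B := by rw [e1, e2]; ring
    refine (sum_le_sum key).trans ?_
    rw [← sum_mul]
    exact mul_le_mul_of_nonneg_right (sum_bd R j hj) hB

end Pool.Agent.Work.MP_c93117_an.Neg

end
end

section

/-!
# Project Neg: item NotIso
-/

set_option autoImplicit false

noncomputable section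

namespace Pool.Agent.Work.MP_c93117_an.Neg

namespace AuxNotIso

open Classical in
/-- the functions of Case 2 -/
def gam (h4 : StGsCont) (R : ℕ) (s : List ℕ) : C(K, ℝ) :=
  if h : s ≠ [] ∧ bb s ≤ 2 ^ R then ⟨gs R s, h4 R s h.1 h.2⟩ else 0

theorem gam_apply (h4 : StGsCont) {R : ℕ} {s : List ℕ} (h : s ≠ [] ∧ bb s ≤ 2 ^ R) (q : K) :
    gam h4 R s q = gs R s q := by
  unfold gam
  rw [dif_pos h]
  rfl

theorem gs_cases (R : ℕ) (s : List ℕ) (q : K) :
    gs R s q = 0 ∨ (gs R s q = 1 ∧ ∃ x : Nd, q = .pt x ∧ s <:+ x.s) := by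
  cases q with
  | oo => exact Or.inl rfl
  | pt x =>
    unfold gs
    simp only
    split_ifs with h
    · exact Or.inr ⟨rfl, x, rfl, h.2.2.1⟩
    · exact Or.inl rfl

theorem gam_cases (h4 : StGsCont) (R : ℕ) (s : List ℕ) (q : K) :
    gam h4 R s q = 0 ∨ (gam h4 R s q = 1 ∧ ∃ x : Nd, q = .pt x ∧ s <:+ x.s) := by
  by_cases h : s ≠ [] ∧ bb s ≤ 2 ^ R
  · rw [gam_apply h4 h]
    exact gs_cases R s q
  · left
    unfold gam
    rw [dif_neg h]
    rfl

theorem sum_le (h4 : StGsCont) (R : ℕ) (s : List ℕ) (A : Finset ℕ) (q : K) :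
    ∑ e ∈ A, |gam h4 R (e :: s) q| ≤ 1 := by
  by_cases h : ∃ e0 ∈ A, gam h4 R (e0 :: s) q ≠ 0
  · obtain ⟨e0, he0, h0⟩ := h
    rcases gam_cases h4 R (e0 :: s) q with h1 | ⟨h1, x, hx, hx1⟩
    · exact absurd h1 h0
    · rw [Finset.sum_eq_single_of_mem e0 he0]
      · rw [h1]; simp
      · intro e _ hne
        rcases gam_cases h4 R (e :: s) q with h2 | ⟨h2, x', hx', hx2⟩
        · rw [h2, abs_zero]
        · exfalso
          have hxx : x' = x := by
            have := hx'.symm.trans hx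
            injection this
          rw [hxx] at hx2
          have h3 := (List.suffix_of_suffix_length_le hx2 hx1 (by simp)).eq_of_length (by simp)
          exact hne (List.cons.inj h3).1
  · rw [Finset.sum_eq_zero]
    · exact zero_le_one
    · intro e he
      by_contra h1
      exact h ⟨e, he, fun h2 => h1 (by rw [h2, abs_zero])⟩

theorem dat (h4 : StGsCont) (R : ℕ) (L : Type) [MetricSpace L] [CompactSpace L]
    (T : C(K, ℝ) →L[ℝ] C(L, ℝ)) :
    Dat L C(K, ℝ) (gam h4 R) (T : C(K, ℝ) →ₗ[ℝ] C(L, ℝ)) ‖T‖ := by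
  intro s l A
  -- signs
  let sg : ℕ → ℝ := fun e => if 0 ≤ T (gam h4 R (e :: s)) l then 1 else -1
  have hsg : ∀ e, |sg e| = 1 := by
    intro e
    simp only [sg]
    split_ifs <;> simp
  have h1 : ∀ e, |T (gam h4 R (e :: s)) l| = sg e * T (gam h4 R (e :: s)) l := by
    intro e
    simp only [sg]
    split_ifs with h
    · rw [abs_of_nonneg h, one_mul]
    · rw [abs_of_neg (not_le.1 h)]; ring
  have h2 : ∑ e ∈ A, |T (gam h4 R (e :: s)) l| =
      T (∑ e ∈ A, sg e • gam h4 R (e :: s)) l := by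
    rw [map_sum, ContinuousMap.sum_apply]
    refine Finset.sum_congr rfl fun e _ => ?_
    rw [h1, map_smul, ContinuousMap.smul_apply, smul_eq_mul]
  have h3 : ‖∑ e ∈ A, sg e • gam h4 R (e :: s)‖ ≤ 1 := by
    rw [ContinuousMap.norm_le _ zero_le_one]
    intro q
    rw [ContinuousMap.sum_apply, Real.norm_eq_abs]
    refine (Finset.abs_sum_le_sum_abs _ _).trans ?_
    refine le_trans (le_of_eq ?_) (sum_le h4 R s A q)
    refine Finset.sum_congr rfl fun e _ => ?_
    rw [ContinuousMap.smul_apply, smul_eq_mul, abs_mul, hsg, one_mul]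
  show ∑ e ∈ A, |T (gam h4 R (e :: s)) l| ≤ ‖T‖
  rw [h2]
  calc T (∑ e ∈ A, sg e • gam h4 R (e :: s)) l
      ≤ ‖T (∑ e ∈ A, sg e • gam h4 R (e :: s)) l‖ := le_abs_self _
    _ ≤ ‖T (∑ e ∈ A, sg e • gam h4 R (e :: s))‖ := ContinuousMap.norm_coe_le_norm _ l
    _ ≤ ‖T‖ * ‖∑ e ∈ A, sg e • gam h4 R (e :: s)‖ := T.le_opNorm _
    _ ≤ ‖T‖ * 1 := mul_le_mul_of_nonneg_left h3 (ContinuousLinearMap.opNorm_nonneg _)
    _ = ‖T‖ := mul_one _

end AuxNotIso

theorem pr_NotIso (h1 : StCase1) (h2 : StCase2) (h3 : StLow) (h4 : StGsCont) : StNotIso := by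
  intro P hP L _ _ U T hTU hUT
  obtain ⟨k, hk⟩ := exists_nat_gt (4 * ‖T‖ * ‖U‖)
  have hDD : DD L (tp k 0 0) = ∅ := by
    refine h1 L U T hTU (fun h => ⟨P h, hP h, ?_⟩) k hk
    rw [← hUT h, hTU]
  obtain ⟨R, hR⟩ := pow_unbounded_of_one_lt (‖U‖ * ‖T‖ * k * 8) (by norm_num : (1 : ℝ) < 2)
  have hU0 : 0 ≤ ‖U‖ := ContinuousLinearMap.opNorm_nonneg _
  have hT0 : 0 ≤ ‖T‖ := ContinuousLinearMap.opNorm_nonneg _
  have hk0 : (0 : ℝ) ≤ k := Nat.cast_nonneg k
  have hη : (0 : ℝ) < 1 / (8 * (‖U‖ + 1)) := by positivity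
  obtain ⟨z, g, hz, hg, hTg⟩ := h2 L k hDD C(K, ℝ) (AuxNotIso.gam h4 R)
    (T : C(K, ℝ) →ₗ[ℝ] C(L, ℝ)) ‖T‖ (AuxNotIso.dat h4 R L T) (2 ^ R) Nat.one_le_two_pow
    (1 / (8 * (‖U‖ + 1))) hη
  have hTg' : ∀ l, |T g l| ≤ 1 / (8 * (‖U‖ + 1)) + ‖T‖ * k / ((2 ^ R : ℕ) : ℝ) := hTg
  have h2R : (0 : ℝ) < ((2 ^ R : ℕ) : ℝ) := by positivity
  have hR' : ‖U‖ * ‖T‖ * k * 8 < ((2 ^ R : ℕ) : ℝ) := by
    push_cast
    exact hR
  have hb0 : 0 ≤ 1 / (8 * (‖U‖ + 1)) + ‖T‖ * k / ((2 ^ R : ℕ) : ℝ) := by positivity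
  have hnT : ‖T g‖ ≤ 1 / (8 * (‖U‖ + 1)) + ‖T‖ * k / ((2 ^ R : ℕ) : ℝ) :=
    (ContinuousMap.norm_le _ hb0).2 hTg'
  -- the lower bound
  set q : K := nd R 0 0 z (Finset.range (cc z)) with hq
  have hlin : IsLinearMap ℝ (fun h : C(K, ℝ) => P h q) :=
    ⟨fun a b => by rw [map_add, ContinuousMap.add_apply],
      fun c a => by rw [map_smul, ContinuousMap.smul_apply]⟩
  have hlow : 1 / 2 ≤ P g q := by
    have hconv : Convex ℝ {h : C(K, ℝ) | 1 / 2 ≤ P h q} := convex_halfSpace_ge hlin (1 / 2)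
    refine convexHull_min ?_ hconv hg
    rintro _ ⟨s, ⟨hs1, hs2⟩, rfl⟩
    show 1 / 2 ≤ P (AuxNotIso.gam h4 R s) q
    have hb : s ≠ [] ∧ bb s ≤ 2 ^ R := ⟨hs1, (bb_mono hs2).trans hz⟩
    have he : ((AuxNotIso.gam h4 R s : C(K, ℝ)) : K → ℝ) = gs R s :=
      funext fun q => AuxNotIso.gam_apply h4 hb q
    rw [hP, he]
    exact h3 R s z hs1 hs2 hz
  have hup : P g q ≤ ‖U‖ * (1 / (8 * (‖U‖ + 1)) + ‖T‖ * k / ((2 ^ R : ℕ) : ℝ)) := by
    rw [← hUT]
    calc U (T g) q ≤ ‖U (T g) q‖ := le_abs_self _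
      _ ≤ ‖U (T g)‖ := ContinuousMap.norm_coe_le_norm _ q
      _ ≤ ‖U‖ * ‖T g‖ := U.le_opNorm _
      _ ≤ _ := mul_le_mul_of_nonneg_left hnT hU0
  have e1 : ‖U‖ * (1 / (8 * (‖U‖ + 1))) ≤ 1 / 8 := by
    rw [mul_one_div, div_le_div_iff₀ (by positivity) (by norm_num)]
    linarith
  have e2 : ‖U‖ * (‖T‖ * k / ((2 ^ R : ℕ) : ℝ)) ≤ 1 / 8 := by
    rw [← mul_div_assoc, div_le_div_iff₀ h2R (by norm_num)]
    linarith
  rw [mul_add] at hup
  linarith

end Pool.Agent.Work.MP_c93117_an.Neg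

end
end

section

/-!
# Project Neg: item One (one step of the game)
-/

set_option autoImplicit false

noncomputable section

namespace Pool.Agent.Work.MP_c93117_an.Neg

theorem pr_One (h1 : StStep) (h2 : StPiClopen) (h3 : StPiDense) : StOne := by
  intro L _ _ U x xe hx V hV hne F η hη e0
  obtain ⟨e, he, V', φ, hV'o, hV'V, hV'ne, hb, hA⟩ :=
    h1 L U x xe hx V hV hne (Set.range (piF F)) (h2.1 F) (η / 2) (by linarith) e0
  obtain ⟨F', hF, hF'⟩ := h3 (fun q => U φ q) (U φ).continuous (η / 2) (by linarith) F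
  refine ⟨e, he, V', φ, F', hV'o, hV'V, hV'ne, hb, hF, ?_⟩
  intro q hq
  have h4 := hF' q
  have h5 := hA (piF F q) ⟨q, rfl⟩
  simp only [hq] at h4
  have h6 := abs_le.1 h4
  have h7 := abs_le.1 h5
  rw [abs_le]
  constructor <;> linarith [h6.1, h6.2, h7.1, h7.2]

end Pool.Agent.Work.MP_c93117_an.Neg

end
end

section

/-!
# Item Parts: `N` parts
-/

set_option autoImplicit false

namespace Pool.Agent.Work.MP_c93117_an.Neg

namespace AuxParts

theorem bump_right {L : Type} [TopologicalSpace L] {φ : C(L, ℝ)} {V V1 V' : Set L}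
    (h : Bump φ V V1) (h' : V' ⊆ V1) : Bump φ V V' :=
  ⟨h.1, h.2.1, fun l hl => h.2.2 l (h' hl)⟩

theorem bump_left {L : Type} [TopologicalSpace L] {φ : C(L, ℝ)} {V V1 V' : Set L}
    (h : Bump φ V1 V') (h' : V1 ⊆ V) : Bump φ V V' :=
  ⟨h.1, fun l hl => h.2.1 l (fun h1 => hl (h' h1)), h.2.2⟩

end AuxParts

theorem pr_Parts (h1 : StPart) (h2 : StForcedStep) (h3 : StPiLe) : StParts := by
  intro L _ _ U B N
  induction N with
  | zero =>
    intro V hV hne F0 η _
    refine ⟨F0, V, Set.univ, ⟨Finset.Subset.refl _, le_rfl⟩, hV, subset_rfl, hne, isClopen_univ,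
      fun q _ h => absurd h (lt_irrefl 0), fun q hq => absurd (Set.mem_univ q) hq, ?_⟩
    intro s
    right
    refine ⟨∅, fun c hc => absurd hc (Finset.notMem_empty c), ?_, ?_⟩
    · rw [Finset.card_empty]
    · intro R j i a _ _
      exact Finset.empty_subset a
  | succ N ih =>
    intro V hV hne F0 η hη
    obtain ⟨F1, V1, φ, G1, hF, hV1, hVV1, hne1, hφ, hG1, hmove1, hout1, hok⟩ :=
      h1 L U B N V hV hne F0 η hη
    obtain ⟨F2, V', G2, hF', hV', hV1V', hne2, hG2, _, hout2, hforced⟩ :=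
      ih V1 hV1 hne1 F1 η hη
    refine ⟨F2, V', G1 ∩ G2, ⟨hF.1.trans hF'.1, hF.2.trans hF'.2⟩, hV', hV1V'.trans hVV1, hne2,
      hG1.inter hG2, ?_, ?_, h2 F0 F1 F2 N G1 G2 hF hF' hok hforced⟩
    · intro q hq _ heq
      apply hmove1 q hq.1
      have h5 : piF F1 q ≤ piF F2 q := h3.2.1 F1 F2 q hF'
      rw [heq] at h5
      exact le_antisymm h5 (h3.2.1 F0 F1 q hF)
    · intro q hq
      by_cases hq1 : q ∈ G1
      · have hq2 : q ∉ G2 := fun h => hq ⟨hq1, h⟩
        obtain ⟨θ, hθ, hθ'⟩ := hout2 q hq2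
        exact ⟨θ, AuxParts.bump_left hθ hVV1, hθ'⟩
      · obtain ⟨θ, hθ, hθ'⟩ := hout1 q hq1
        exact ⟨θ, AuxParts.bump_right hθ hV1V', hθ'⟩

end Pool.Agent.Work.MP_c93117_an.Neg

end

section

/-!
# Project Neg: item F4, finite range and clopen fibres of the retractions
-/

set_option autoImplicit false

noncomputable section

namespace Pool.Agent.Work.MP_c93117_an.Neg

namespace AuxPiClopen

theorem piF_oo (F : FD) : piF F K.oo = K.oo := rfl

theorem piF_pt_pos (F : FD) {x : Nd} (h : x.R ≤ F.R0) :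
    piF F (K.pt x) = nd x.R x.j x.i (trB F x.s) x.a := by
  show (if x.R ≤ F.R0 then nd x.R x.j x.i (trB F x.s) x.a else .oo) = _
  rw [if_pos h]

theorem piF_pt_neg (F : FD) {x : Nd} (h : ¬ x.R ≤ F.R0) :
    piF F (K.pt x) = K.oo := by
  show (if x.R ≤ F.R0 then nd x.R x.j x.i (trB F x.s) x.a else .oo) = _
  rw [if_neg h]

theorem trB_mem (F : FD) (s : List ℕ) : trB F s ∈ insert ([] : List ℕ) F.B := by
  rw [Finset.mem_insert]
  exact tr_spec (fun w => w ∈ F.B) s

/-- the retraction has finite range -/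
theorem range_finite (F : FD) : (Set.range (piF F)).Finite := by
  classical
  let N : ℕ := (insert ([] : List ℕ) F.B).sup cc
  let S : Finset (ℕ × ℕ × ℕ × List ℕ × Finset ℕ) :=
    Finset.range (F.R0 + 1) ×ˢ Finset.range (F.R0 + 1) ×ˢ Finset.range (2 ^ F.R0) ×ˢ
      (insert ([] : List ℕ) F.B) ×ˢ (Finset.range N).powerset
  refine Set.Finite.subset (Set.Finite.insert K.oo (Set.Finite.image
    (fun p : ℕ × ℕ × ℕ × List ℕ × Finset ℕ => nd p.1 p.2.1 p.2.2.1 p.2.2.2.1 p.2.2.2.2)
    S.finite_toSet)) ?_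
  rintro _ ⟨q, rfl⟩
  cases q with
  | oo => exact Or.inl rfl
  | pt x =>
    by_cases h : x.R ≤ F.R0
    · right
      refine ⟨(x.R, x.j, x.i, trB F x.s, x.a.filter (· < cc (trB F x.s))), ?_, ?_⟩
      · show _ ∈ S
        have h1 := x.hj
        have h2 : 2 ^ x.j ≤ 2 ^ F.R0 := Nat.pow_le_pow_right (by norm_num) (h1.trans h)
        have h3 := x.hi
        simp only [S, Finset.mem_product, Finset.mem_range, Finset.mem_powerset]
        refine ⟨by omega, by omega, by omega, trB_mem F x.s, ?_⟩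
        intro u hu
        rw [Finset.mem_filter] at hu
        rw [Finset.mem_range]
        exact lt_of_lt_of_le hu.2 (Finset.le_sup (f := cc) (trB_mem F x.s))
      · show nd x.R x.j x.i (trB F x.s) (x.a.filter (· < cc (trB F x.s))) = _
        rw [nd_filter, piF_pt_pos F h]
    · left
      rw [piF_pt_neg F h]

/-- the retraction is idempotent -/
theorem piF_idem (F : FD) (q : K) : piF F (piF F q) = piF F q := by
  cases q with
  | oo => rfl
  | pt x =>
    by_cases h : x.R ≤ F.R0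
    · rw [piF_pt_pos F h, nd_eq ⟨x.hj, x.hi⟩]
      rw [piF_pt_pos F (x := ⟨x.R, x.j, x.i, loc x.R x.j x.i x.a (trB F x.s),
        x.a.filter (· < cc (loc x.R x.j x.i x.a (trB F x.s))), x.hj, x.hi,
        nd_ha x.R x.j x.i (trB F x.s) x.a, nd_hs x.R x.j x.i (trB F x.s) x.a⟩) h]
      rw [← nd_eq ⟨x.hj, x.hi⟩]
      show nd x.R x.j x.i (trB F (loc x.R x.j x.i x.a (trB F x.s)))
        (x.a.filter (· < cc (loc x.R x.j x.i x.a (trB F x.s)))) =
        nd x.R x.j x.i (trB F x.s) x.a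
      have h1 : trB F (loc x.R x.j x.i x.a (trB F x.s)) = loc x.R x.j x.i x.a (trB F x.s) := by
        have h2 := loc_suffix x.R x.j x.i x.a (trB F x.s)
        rcases tr_spec (fun w => w ∈ F.B) x.s with h3 | h3
        · have h4 : trB F x.s = [] := h3
          rw [h4]
          rfl
        · exact tr_self (P := fun w => w ∈ F.B) (F.cl _ _ h3 h2)
      rw [h1, nd_filter, nd_loc]
    · rw [piF_pt_neg F h]
      rfl

/-- the retraction is monotone -/
theorem piF_mono (F : FD) {p q : K} (h : p ≤ q) : piF F p ≤ piF F q := by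
  cases p with
  | oo => exact K.oo_le _
  | pt x =>
    cases q with
    | oo => exact absurd h K.not_pt_le_oo
    | pt y =>
      by_cases hR : x.R ≤ F.R0
      · obtain ⟨a1, a2, a3, a4, a5⟩ := K.pt_le_pt.1 h
        have hR' : y.R ≤ F.R0 := by rw [← a1]; exact hR
        rw [piF_pt_pos F hR, piF_pt_pos F hR', nd_eq ⟨x.hj, x.hi⟩, pt_le_nd]
        refine ⟨⟨y.hj, y.hi⟩, a1, a2, a3, ?_, ?_⟩
        · show loc x.R x.j x.i x.a (trB F x.s) <:+ trB F y.s
          exact (loc_suffix _ _ _ _ _).trans (tr_mono (P := fun w => w ∈ F.B) a4)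
        · show x.a.filter (· < cc (loc x.R x.j x.i x.a (trB F x.s))) =
            y.a.filter (· < cc (loc x.R x.j x.i x.a (trB F x.s)))
          have h1 : cc (loc x.R x.j x.i x.a (trB F x.s)) ≤ cc x.s :=
            cc_mono ((loc_suffix _ _ _ _ _).trans (tr_suffix _ _))
          generalize cc (loc x.R x.j x.i x.a (trB F x.s)) = m at h1
          rw [a5, Finset.filter_filter]
          apply Finset.filter_congr
          intro z _
          omega
      · rw [piF_pt_neg F hR]
        exact K.oo_le _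

/-- the fibres of the retraction are clopen -/
theorem fibre_clopen (h1 : StPiLe) (F : FD) (y : K) : IsClopen {q : K | piF F q = y} := by
  by_cases hy : y ∈ Set.range (piF F)
  · have hy' : piF F y = y := by
      obtain ⟨q, rfl⟩ := hy
      exact piF_idem F q
    have h2 : {q : K | piF F q = y} =
        {q : K | y ≤ q} \ ⋃ v ∈ {v : K | v ∈ Set.range (piF F) ∧ y < v}, {q : K | v ≤ q} := by
      ext q
      simp only [Set.mem_setOf_eq, Set.mem_diff, Set.mem_iUnion, not_exists, exists_prop, not_and]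
      constructor
      · intro h3
        refine ⟨by rw [← h3]; exact h1.1 F q, ?_⟩
        rintro v ⟨⟨q', rfl⟩, h5⟩ h6
        have h7 := piF_mono F h6
        rw [piF_idem, h3] at h7
        exact absurd h7 (not_le_of_gt h5)
      · rintro ⟨h3, h4⟩
        have h5 := piF_mono F h3
        rw [hy'] at h5
        by_contra h6
        exact h4 (piF F q) ⟨⟨q, rfl⟩, lt_of_le_of_ne h5 (fun h => h6 h.symm)⟩ (h1.1 F q)
    rw [h2]
    have h3 : ({v : K | v ∈ Set.range (piF F) ∧ y < v}).Finite :=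
      (range_finite F).subset (fun v hv => hv.1)
    exact (cone_clopen K y).diff (h3.isClopen_biUnion (fun v _ => cone_clopen K v))
  · have h2 : {q : K | piF F q = y} = ∅ := by
      ext q
      simp only [Set.mem_setOf_eq, Set.mem_empty_iff_false, iff_false]
      intro h3
      exact hy ⟨q, h3⟩
    rw [h2]
    exact isClopen_empty

theorem low_clopen (R0 : ℕ) : IsClopen {q : K | low R0 q} := by
  have h2 : {q : K | low R0 q} =
      ⋃ p ∈ {p : ℕ × ℕ × ℕ | p.1 ≤ R0 ∧ p.2.1 < p.1 ∧ p.2.2 < 2 ^ p.2.1},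
        {q : K | nd p.1 p.2.1 p.2.2 [] ∅ ≤ q} := by
    ext q
    simp only [Set.mem_setOf_eq, Set.mem_iUnion, exists_prop]
    cases q with
    | oo =>
      constructor
      · intro h
        exact absurd h (fun h => h)
      · rintro ⟨p, ⟨h3, h4, h5⟩, h6⟩
        rw [nd_eq ⟨h4.le, h5⟩] at h6
        exact absurd h6 K.not_pt_le_oo
    | pt x =>
      constructor
      · rintro ⟨h3, h4⟩
        refine ⟨(x.R, x.j, x.i), ⟨h3, h4, x.hi⟩, ?_⟩
        show nd x.R x.j x.i [] ∅ ≤ K.pt x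
        rw [nd_eq ⟨x.hj, x.hi⟩, K.pt_le_pt]
        refine ⟨rfl, rfl, rfl, List.nil_suffix, ?_⟩
        show (∅ : Finset ℕ).filter (· < cc []) = x.a.filter (· < cc [])
        rw [cc_nil]
        simp
      · rintro ⟨p, ⟨h3, h4, h5⟩, h6⟩
        rw [nd_eq ⟨h4.le, h5⟩, K.pt_le_pt] at h6
        obtain ⟨b1, b2, b3, b4, b5⟩ := h6
        have c1 : p.1 = x.R := b1
        have c2 : p.2.1 = x.j := b2
        exact ⟨by rw [← c1]; exact h3, by rw [← c1, ← c2]; exact h4⟩
  rw [h2]
  have h3 : ({p : ℕ × ℕ × ℕ | p.1 ≤ R0 ∧ p.2.1 < p.1 ∧ p.2.2 < 2 ^ p.2.1}).Finite := by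
    refine Set.Finite.subset ((Finset.range (R0 + 1) ×ˢ Finset.range (R0 + 1) ×ˢ
      Finset.range (2 ^ R0)).finite_toSet) ?_
    rintro ⟨R, j, i⟩ ⟨h3, h4, h5⟩
    simp only at h3 h4 h5
    rw [Finset.mem_coe]
    simp only [Finset.mem_product, Finset.mem_range]
    have h6 : 2 ^ j ≤ 2 ^ R0 := Nat.pow_le_pow_right (by norm_num) (by omega)
    exact ⟨by omega, by omega, by omega⟩
  exact h3.isClopen_biUnion (fun p _ => cone_clopen K _)

end AuxPiClopen

theorem pr_PiClopen (h1 : StPiLe) : StPiClopen := by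
  refine ⟨AuxPiClopen.range_finite, ?_, AuxPiClopen.low_clopen⟩
  intro F F'
  have h2 : {q : K | piF F' q ≠ piF F q} =
      (⋃ y ∈ Set.range (piF F), ({q : K | piF F' q = y} ∩ {q : K | piF F q = y}))ᶜ := by
    ext q
    simp only [Set.mem_setOf_eq, Set.mem_compl_iff, Set.mem_iUnion, exists_prop, Set.mem_inter_iff]
    constructor
    · rintro h3 ⟨y, -, h4, h5⟩
      exact h3 (h4.trans h5.symm)
    · intro h3 h4
      exact h3 ⟨piF F q, ⟨q, rfl⟩, h4, rfl⟩
  rw [h2]
  exact ((AuxPiClopen.range_finite F).isClopen_biUnion (fun y _ =>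
    (AuxPiClopen.fibre_clopen h1 F' y).inter (AuxPiClopen.fibre_clopen h1 F y))).compl

end Pool.Agent.Work.MP_c93117_an.Neg

end
end

section

/-! Item PiLe: order properties of the retraction. -/

set_option autoImplicit false

noncomputable section

open Finset

namespace Pool.Agent.Work.MP_c93117_an.Neg

namespace AuxPiLe

theorem nd_mono {R j i : ℕ} {s s' : List ℕ} (a : Finset ℕ) (h : s <:+ s') :
    nd R j i s a ≤ nd R j i s' a := by
  by_cases hv : j ≤ R ∧ i < 2 ^ j
  · rw [nd_eq hv, nd_eq hv, K.pt_le_pt, Nd.le_def]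
    refine ⟨rfl, rfl, rfl, tr_mono h, ?_⟩
    show a.filter (· < cc (loc R j i a s)) =
      (a.filter (· < cc (loc R j i a s'))).filter (· < cc (loc R j i a s))
    rw [Finset.filter_filter]
    have h1 : cc (loc R j i a s) ≤ cc (loc R j i a s') := cc_mono (tr_mono h)
    apply Finset.filter_congr
    intro x _
    omega
  · rw [nd_invalid hv, nd_invalid hv]

theorem piF_pt (F : FD) (x : Nd) :
    piF F (K.pt x) = if x.R ≤ F.R0 then nd x.R x.j x.i (trB F x.s) x.a else .oo := rfl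

end AuxPiLe

theorem pr_PiLe : StPiLe := by
  refine ⟨?_, ?_, ?_, ?_⟩
  · intro F q
    cases q with
    | oo => exact K.oo_le _
    | pt x =>
      rw [AuxPiLe.piF_pt]
      split_ifs with h
      · conv_rhs => rw [← nd_pt x]
        exact AuxPiLe.nd_mono x.a (tr_suffix _ _)
      · exact K.oo_le _
  · intro F F' q hF
    cases q with
    | oo => exact K.oo_le _
    | pt x =>
      rw [AuxPiLe.piF_pt, AuxPiLe.piF_pt]
      split_ifs with h h'
      · refine AuxPiLe.nd_mono x.a ?_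
        rcases tr_spec (fun w => w ∈ F.B) x.s with h1 | h1
        · unfold trB
          rw [h1]
          exact List.nil_suffix
        · exact tr_max (tr_suffix _ _) (hF.1 h1)
      · exact absurd (le_trans h hF.2) h'
      · exact K.oo_le _
      · exact K.oo_le _
  · intro x y hxy
    cases x with
    | oo => exact Nat.zero_le _
    | pt x =>
      cases y with
      | oo => exact absurd hxy K.not_pt_le_oo
      | pt y =>
        have h := (Nd.le_def.1 (K.pt_le_pt.1 hxy)).2.2.2.1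
        unfold dp
        by_cases hy : y.s = []
        · have hx : x.s = [] := by
            rw [hy] at h
            exact List.suffix_nil.1 h
          simp [hx, hy]
        · simp only [hy, if_false]
          split_ifs <;> norm_num
  · intro x y hxy
    cases y with
    | oo =>
      cases x with
      | oo => exact absurd hxy (lt_irrefl _)
      | pt x => exact absurd hxy.le K.not_pt_le_oo
    | pt y =>
      cases x with
      | oo =>
        left
        show (0 : ℕ) < if y.s = [] then 1 else 2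
        split_ifs <;> norm_num
      | pt x =>
        right
        have h := Nd.le_def.1 (K.pt_le_pt.1 hxy.le)
        unfold dp
        by_cases hy : y.s = []
        · exfalso
          apply hxy.ne
          have hx : x.s = [] := by
            have h1 := h.2.2.2.1
            rw [hy] at h1
            exact List.suffix_nil.1 h1
          congr 1
          refine Nd.ext' h.1 h.2.1 h.2.2.1 (hx.trans hy.symm) ?_
          rw [h.2.2.2.2, hx, ← hy, y.filter_self]
        · simp [hy]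

end Pool.Agent.Work.MP_c93117_an.Neg

end
end

section

set_option autoImplicit false

namespace Pool.Agent.Work.MP_c93117_an.Neg

theorem pr_PiNd : StPiNd := by
  intro F R j i s a hR
  by_cases h : j ≤ R ∧ i < 2 ^ j
  · rw [nd_eq h]
    unfold piF
    simp only [if_pos hR]
    have h1 : nd R j i (trB F (loc R j i a s)) (a.filter (· < cc (loc R j i a s))) =
        nd R j i (trB F (loc R j i a s)) a := by
      apply nd_congr
      intro x hx
      have h2 : cc (trB F (loc R j i a s)) ≤ cc (loc R j i a s) := cc_mono (tr_suffix _ _)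
      simp only [Finset.mem_filter]
      constructor
      · exact fun h3 => h3.1
      · exact fun h3 => ⟨h3, lt_of_lt_of_le hx h2⟩
    rw [h1]
    apply nd_of_loc_eq
    exact tr_closed (fun w t hw ht => F.cl w t hw ht) s
  · rw [nd_invalid h, nd_invalid h]
    rfl

end Pool.Agent.Work.MP_c93117_an.Neg

end

section

set_option autoImplicit false

noncomputable section

open Finset

namespace Pool.Agent.Work.MP_c93117_an.Neg

namespace AuxQadm

theorem card_ins {x : ℕ} {a b : Finset ℕ} (hx : x ∉ a) (hb : b ⊆ a) :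
    (insert x a \ b).card = (a \ b).card + 1 := by
  have h1 : insert x a \ b = insert x (a \ b) := by
    rw [Finset.insert_sdiff_of_notMem _ (fun h => hx (hb h))]
  rw [h1, Finset.card_insert_of_notMem]
  intro h
  exact hx (Finset.mem_sdiff.1 h).1

theorem sdiff_ins {x : ℕ} {a b : Finset ℕ} (hx : x ∉ a) : insert x a \ insert x b = a \ b := by
  ext y
  simp only [Finset.mem_sdiff, Finset.mem_insert]
  constructor
  · rintro ⟨h1, h2⟩
    refine ⟨h1.resolve_left (fun h => h2 (Or.inl h)), fun h => h2 (Or.inr h)⟩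
  · rintro ⟨h1, h2⟩
    refine ⟨Or.inr h1, ?_⟩
    rintro (h | h)
    · rw [h] at h1
      exact hx h1
    · exact h2 h

theorem marg_aux (p : ℝ) (a' : Finset ℕ) (f : Finset ℕ → ℝ) (t : Finset ℕ) (ht : Disjoint t a') :
    ∑ b ∈ (a' ∪ t).powerset, p ^ b.card * (1 - p) ^ ((a' ∪ t) \ b).card * f (b ∩ a')
      = ∑ b ∈ a'.powerset, p ^ b.card * (1 - p) ^ (a' \ b).card * f b := by
  induction t using Finset.induction_on with
  | empty =>
    rw [Finset.union_empty]
    apply Finset.sum_congr rfl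
    intro b hb
    rw [Finset.inter_eq_left.2 (Finset.mem_powerset.1 hb)]
  | insert x t hxt ih =>
    rw [Finset.disjoint_insert_left] at ht
    obtain ⟨hxa, hta⟩ := ht
    have hx : x ∉ a' ∪ t := by
      rw [Finset.mem_union]
      exact fun h => h.elim hxa hxt
    rw [Finset.union_insert, Finset.sum_powerset_insert hx, ← Finset.sum_add_distrib, ← ih hta]
    apply Finset.sum_congr rfl
    intro b hb
    have hb' : b ⊆ a' ∪ t := Finset.mem_powerset.1 hb
    have hxb : x ∉ b := fun h => hx (hb' h)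
    rw [card_ins hx hb', sdiff_ins hx, Finset.card_insert_of_notMem hxb,
      Finset.insert_inter_of_notMem hxa]
    ring

theorem marg (p : ℝ) {a a' : Finset ℕ} (h : a' ⊆ a) (f : Finset ℕ → ℝ) :
    ∑ b ∈ a.powerset, p ^ b.card * (1 - p) ^ (a \ b).card * f (b ∩ a')
      = ∑ b ∈ a'.powerset, p ^ b.card * (1 - p) ^ (a' \ b).card * f b := by
  have h1 := marg_aux p a' f (a \ a') Finset.sdiff_disjoint
  rwa [Finset.union_sdiff_of_subset h] at h1

theorem Qop_apply (p : ℝ) (F : FF) (s : List ℕ) (a : Finset ℕ) :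
    Qop p F s a = ∑ b ∈ a.powerset, p ^ b.card * (1 - p) ^ (a \ b).card * F s b := rfl

end AuxQadm

open AuxQadm in
theorem pr_Qadm : StQadm := by
  intro p F
  constructor
  · intro hF s a
    rw [Qop_apply, Qop_apply, ← marg p (Finset.filter_subset (· < cc s) a) (fun b => F s b)]
    apply Finset.sum_congr rfl
    intro b hb
    have hb' : b ⊆ a := Finset.mem_powerset.1 hb
    have h1 : b ∩ a.filter (· < cc s) = b.filter (· < cc s) := by
      ext x
      simp only [Finset.mem_inter, Finset.mem_filter]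
      constructor
      · rintro ⟨h1, -, h2⟩
        exact ⟨h1, h2⟩
      · rintro ⟨h1, h2⟩
        exact ⟨h1, hb' h1, h2⟩
    rw [h1, hF s b]
  · intro hF e s a ha
    rw [Qop_apply, Qop_apply]
    apply Finset.sum_congr rfl
    intro b hb
    rw [hF e s b (fun h => ha (Finset.mem_powerset.1 hb h))]

end Pool.Agent.Work.MP_c93117_an.Neg

end
end

section

/-!
# Project Neg, item Qpsi: the thinning of `psi`
-/

set_option autoImplicit false

noncomputable section

open Finset Polynomial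

namespace Pool.Agent.Work.MP_c93117_an.Neg

namespace AuxQpsi

theorem sum_one (p : ℝ) (a : Finset ℕ) :
    ∑ b ∈ a.powerset, p ^ b.card * (1 - p) ^ (a \ b).card = 1 := by
  have h := Finset.sum_pow_mul_eq_add_pow p (1 - p) a
  have h1 : p + (1 - p) = 1 := by ring
  rw [h1, one_pow] at h
  refine Eq.trans (Finset.sum_congr rfl (fun b hb => ?_)) h
  rw [Finset.card_sdiff_of_subset (Finset.mem_powerset.1 hb)]

open Classical in
theorem sum_mem (p : ℝ) (a : Finset ℕ) (c0 : ℕ) :
    ∑ b ∈ a.powerset, p ^ b.card * (1 - p) ^ (a \ b).card * (if c0 ∈ b then (1 : ℝ) else 0) =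
      p * (if c0 ∈ a then 1 else 0) := by
  by_cases hc : c0 ∈ a
  · rw [if_pos hc, mul_one]
    obtain ⟨a0, ha0, rfl⟩ : ∃ a0 : Finset ℕ, c0 ∉ a0 ∧ insert c0 a0 = a :=
      ⟨a.erase c0, Finset.notMem_erase _ _, Finset.insert_erase hc⟩
    rw [Finset.sum_powerset_insert ha0]
    have h1 : ∑ b ∈ a0.powerset, p ^ b.card * (1 - p) ^ (insert c0 a0 \ b).card *
        (if c0 ∈ b then (1 : ℝ) else 0) = 0 := by
      refine Finset.sum_eq_zero (fun b hb => ?_)
      have : c0 ∉ b := fun h => ha0 (Finset.mem_powerset.1 hb h)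
      rw [if_neg this, mul_zero]
    rw [h1, zero_add]
    have h2 : ∀ b ∈ a0.powerset, p ^ (insert c0 b).card *
        (1 - p) ^ (insert c0 a0 \ insert c0 b).card *
        (if c0 ∈ insert c0 b then (1 : ℝ) else 0) = p * (p ^ b.card * (1 - p) ^ (a0 \ b).card) := by
      intro b hb
      have hb0 : c0 ∉ b := fun h => ha0 (Finset.mem_powerset.1 hb h)
      have h3 : insert c0 a0 \ insert c0 b = a0 \ b := by
        ext x
        simp only [Finset.mem_sdiff, Finset.mem_insert, not_or]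
        constructor
        · rintro ⟨rfl | hx, h4, h5⟩
          · exact absurd rfl h4
          · exact ⟨hx, h5⟩
        · rintro ⟨hx, h5⟩
          refine ⟨Or.inr hx, ?_, h5⟩
          rintro rfl
          exact ha0 hx
      rw [h3, Finset.card_insert_of_notMem hb0, if_pos (Finset.mem_insert_self _ _), pow_succ]
      ring
    rw [Finset.sum_congr rfl h2, ← Finset.mul_sum, sum_one, mul_one]
  · rw [if_neg hc, mul_zero]
    refine Finset.sum_eq_zero (fun b hb => ?_)
    have : c0 ∉ b := fun h => hc (Finset.mem_powerset.1 hb h)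
    rw [if_neg this, mul_zero]

end AuxQpsi

theorem pr_Qpsi : StQpsi := by
  intro p s0 c0
  funext s a
  change ∑ b ∈ a.powerset, p ^ b.card * (1 - p) ^ (a \ b).card * psi s0 c0 s b =
    p * psi s0 c0 s a
  unfold psi
  by_cases hs : s0 <:+ s
  · simp only [hs, true_and]
    exact AuxQpsi.sum_mem p a c0
  · simp only [hs, false_and, if_false, mul_zero, Finset.sum_const_zero]

end Pool.Agent.Work.MP_c93117_an.Neg

end
end

section

/-!
# Project Neg: item Qthin
-/

set_option autoImplicit false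

noncomputable section

open Finset

namespace Pool.Agent.Work.MP_c93117_an.Neg

namespace AuxQthin

/-- the total weight of the subsets of `a` which contain `C0` -/
theorem weight (p : ℝ) {a C0 : Finset ℕ} (h : C0 ⊆ a) :
    ∑ b ∈ a.powerset.filter (fun b => C0 ⊆ b), p ^ b.card * (1 - p) ^ (a \ b).card =
      p ^ C0.card := by
  classical
  have h1 : ∑ b ∈ a.powerset.filter (fun b => C0 ⊆ b), p ^ b.card * (1 - p) ^ (a \ b).card =
      ∑ c ∈ (a \ C0).powerset, p ^ C0.card * (p ^ c.card * (1 - p) ^ ((a \ C0).card - c.card)) := by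
    refine Finset.sum_nbij' (fun b => b \ C0) (fun c => C0 ∪ c) ?_ ?_ ?_ ?_ ?_
    · intro b hb
      rw [mem_filter, mem_powerset] at hb
      rw [mem_powerset]
      exact sdiff_subset_sdiff hb.1 (Subset.refl _)
    · intro c hc
      rw [mem_powerset] at hc
      rw [mem_filter, mem_powerset]
      exact ⟨union_subset h (hc.trans sdiff_subset), subset_union_left⟩
    · intro b hb
      rw [mem_filter] at hb
      exact union_sdiff_of_subset hb.2
    · intro c hc
      rw [mem_powerset] at hc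
      ext x
      simp only [mem_sdiff, mem_union]
      constructor
      · rintro ⟨h2 | h2, h3⟩
        · exact absurd h2 h3
        · exact h2
      · intro h2
        exact ⟨Or.inr h2, (mem_sdiff.1 (hc h2)).2⟩
    · intro b hb
      rw [mem_filter, mem_powerset] at hb
      have h2 : b.card = C0.card + (b \ C0).card := by
        rw [← card_union_of_disjoint disjoint_sdiff, union_sdiff_of_subset hb.2]
      have h3 : (a \ b).card = (a \ C0).card - (b \ C0).card := by
        have h4 : b \ C0 ⊆ a \ C0 := sdiff_subset_sdiff hb.1 (Subset.refl _)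
        rw [← card_sdiff_of_subset h4]
        congr 1
        ext x
        simp only [mem_sdiff]
        constructor
        · rintro ⟨h5, h6⟩
          exact ⟨⟨h5, fun h7 => h6 (hb.2 h7)⟩, fun h7 => h6 h7.1⟩
        · rintro ⟨⟨h5, h6⟩, h7⟩
          exact ⟨h5, fun h8 => h7 ⟨h8, h6⟩⟩
      rw [h3, h2, pow_add, mul_assoc]
  rw [h1, ← mul_sum, Finset.sum_pow_mul_eq_add_pow]
  simp

end AuxQthin

set_option linter.unusedVariables false in
theorem pr_Qthin (h1 : StQabs) : StQthin := by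
  classical
  intro p hp0 hp1 F s a C0 B hB hF h0
  have hQ : Qop p F s a = ∑ b ∈ a.powerset, p ^ b.card * (1 - p) ^ (a \ b).card * F s b := rfl
  rw [hQ]
  by_cases hC : C0 ⊆ a
  · have h2 : ∑ b ∈ a.powerset, p ^ b.card * (1 - p) ^ (a \ b).card * F s b =
        ∑ b ∈ a.powerset.filter (fun b => C0 ⊆ b),
          p ^ b.card * (1 - p) ^ (a \ b).card * F s b := by
      rw [sum_filter]
      refine sum_congr rfl fun b hb => ?_
      rw [mem_powerset] at hb
      split_ifs with h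
      · rfl
      · rw [h0 b hb h, mul_zero]
    rw [h2]
    refine (abs_sum_le_sum_abs _ _).trans ?_
    rw [← AuxQthin.weight p hC, sum_mul]
    refine sum_le_sum fun b hb => ?_
    rw [mem_filter, mem_powerset] at hb
    have h3 : 0 ≤ p ^ b.card * (1 - p) ^ (a \ b).card :=
      mul_nonneg (pow_nonneg hp0 _) (pow_nonneg (by linarith) _)
    rw [abs_mul, abs_of_nonneg h3]
    exact mul_le_mul_of_nonneg_left (hF b hb.1) h3
  · have h2 : ∑ b ∈ a.powerset, p ^ b.card * (1 - p) ^ (a \ b).card * F s b = 0 := by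
      refine sum_eq_zero fun b hb => ?_
      rw [mem_powerset] at hb
      rw [h0 b hb (fun h => hC (h.trans hb)), mul_zero]
    rw [h2, abs_zero]
    exact mul_nonneg (pow_nonneg hp0 _) hB

end Pool.Agent.Work.MP_c93117_an.Neg

end
end

section

set_option autoImplicit false

noncomputable section

open Finset Polynomial

namespace Pool.Agent.Work.MP_c93117_an.Neg

namespace AuxTel

theorem step (R j : ℕ) : epsP R j * PiP R j = PiP R j - PiP R (j + 1) := by
  unfold PiP
  rw [Finset.prod_range_succ]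
  ring

theorem part (R n : ℕ) : ∑ j ∈ range n, epsP R j * PiP R j = 1 - PiP R n := by
  induction n with
  | zero => simp [PiP]
  | succ n ih =>
    rw [Finset.sum_range_succ, ih, step]
    ring

theorem last (R : ℕ) : epsP R R = 1 := by
  unfold epsP
  rw [if_neg (lt_irrefl R)]

end AuxTel

open AuxTel in
theorem pr_Tel : StTel := by
  intro R
  rw [Finset.sum_range_succ, part, last]
  ring

end Pool.Agent.Work.MP_c93117_an.Neg

end
end
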