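import Pool.Agent.Work.MP_c93117_an.Neg.St

/-! Bundle of small proof modules (one section per former module). -/

section

/-!
# Project Neg: item Case2

The averages over `n` blocks.
-/

set_option autoImplicit false

noncomputable section

open Finset

namespace Pool.Agent.Work.MP_c93117_an.Neg

namespace AuxCase2

theorem pr1_mono {x y : Gam} (h : x ≤ y) : pr1 x ≤ pr1 y := by
  unfold pr1
  rcases Prod.Lex.le_iff.1 h with h1 | h1
  · exact h1.le
  · exact h1.1.le

theorem pr1_tp (k m r : ℕ) : pr1 (tp k m r) = k := rfl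

theorem parts_mono {s z : List ℕ} (h : s <:+ z) : parts s ⊆ parts z :=
  fun _ ht => ⟨ht.1, ht.2.trans h⟩

theorem hull_mono {E : Type} [AddCommGroup E] [Module ℝ E] (γ : List ℕ → E) {s z : List ℕ}
    (h : s <:+ z) : convexHull ℝ (γ '' parts s) ⊆ convexHull ℝ (γ '' parts z) :=
  convexHull_mono (Set.image_mono (parts_mono h))

open Classical in
theorem ind_le {x y : Gam} (h : x ≤ y) {C : ℝ} (hC : 0 ≤ C) :
    C * (if pr1 x < pr1 y then 1 else 0) ≤ C * ((pr1 y : ℝ) - pr1 x) := by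
  apply mul_le_mul_of_nonneg_left _ hC
  have h1 := pr1_mono h
  split_ifs with h2
  · have h3 : pr1 x + 1 ≤ pr1 y := h2
    have h4 : ((pr1 x : ℝ)) + 1 ≤ pr1 y := by exact_mod_cast h3
    linarith
  · have h4 : ((pr1 x : ℝ)) ≤ pr1 y := by exact_mod_cast h1
    linarith

theorem C_nonneg {L : Type} [MetricSpace L] [CompactSpace L] {E : Type} [AddCommGroup E]
    [Module ℝ E] {γ : List ℕ → E} {T : E →ₗ[ℝ] C(L, ℝ)} {C : ℝ} (h : Dat L E γ T C) (l : L) :
    0 ≤ C := by
  have := h [] l ∅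
  simpa using this

theorem main (h3 : StBlk) (L : Type) [MetricSpace L] [CompactSpace L] (E : Type)
    [AddCommGroup E] [Module ℝ E] (γ : List ℕ → E) (T : E →ₗ[ℝ] C(L, ℝ)) (C : ℝ)
    (hD : Dat L E γ T C) (rk : L → Gam) (hrk : IsRank rk) (ρ0 : L → Gam) (h0 : Good rk ρ0)
    (η : ℝ) (hη : 0 < η) (t : ℕ) :
    ∃ (z : List ℕ) (ρ : L → Gam) (g : E), bb z = t + 1 ∧ MM z = 0 ∧ rr z = 0 ∧ Good rk ρ ∧
      (∀ l, ρ l ≤ ρ0 l) ∧ g ∈ convexHull ℝ (γ '' parts z) ∧
      ∀ l, ((t : ℝ) + 1) * |T g l| ≤ ((t : ℝ) + 1) * η +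
        C * ((pr1 (ρ0 l) : ℝ) - pr1 (ρ l)) := by
  induction t with
  | zero =>
    obtain ⟨z, ρ, g, hz1, hz2, hz3, hz4, hρ, hle, hg, hb⟩ :=
      h3 L E γ T C hD rk hrk ρ0 h0 η hη [] rfl rfl
    refine ⟨z, ρ, g, by rw [hz2, bb_nil], hz3, hz4, hρ, hle, hg, ?_⟩
    intro l
    have h1 := hb l
    have h2 := ind_le (hle l) (C_nonneg hD l)
    push_cast
    linarith
  | succ t ih =>
    obtain ⟨z, ρ, g, hz2, hz3, hz4, hρ, hle, hg, hb⟩ := ih
    obtain ⟨z', ρ', g', hz1', hz2', hz3', hz4', hρ', hle', hg', hb'⟩ :=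
      h3 L E γ T C hD rk hrk ρ hρ η hη z hz4 hz3
    have ht : (0 : ℝ) < (t : ℝ) + 2 := by positivity
    refine ⟨z', ρ', (((t : ℝ) + 1) / ((t : ℝ) + 2)) • g + (1 / ((t : ℝ) + 2)) • g',
      by rw [hz2', hz2], hz3', hz4', hρ', fun l => (hle' l).trans (hle l), ?_, ?_⟩
    · apply (convex_convexHull ℝ (γ '' parts z')) (hull_mono γ hz1' hg) hg'
      · positivity
      · positivity
      · field_simp
        ring
    · intro l
      have h1 := hb l
      have h2 := hb' l
      have h4 := ind_le (hle' l) (C_nonneg hD l)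
      have h5 : ((t : ℝ) + 2) * |T ((((t : ℝ) + 1) / ((t : ℝ) + 2)) • g +
          (1 / ((t : ℝ) + 2)) • g') l| ≤ ((t : ℝ) + 1) * |T g l| + |T g' l| := by
        have e1 : T ((((t : ℝ) + 1) / ((t : ℝ) + 2)) • g + (1 / ((t : ℝ) + 2)) • g') l =
            (((t : ℝ) + 1) * T g l + T g' l) / ((t : ℝ) + 2) := by
          rw [map_add, map_smul, map_smul]
          simp only [ContinuousMap.add_apply, ContinuousMap.smul_apply, smul_eq_mul]
          field_simp
        rw [e1, abs_div, abs_of_pos ht, mul_div_cancel₀ _ ht.ne']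
        refine (abs_add_le _ _).trans ?_
        rw [abs_mul, abs_of_nonneg (by positivity : (0 : ℝ) ≤ (t : ℝ) + 1)]
      push_cast
      have e2 : (t : ℝ) + 1 + 1 = (t : ℝ) + 2 := by ring
      rw [e2]
      linarith

end AuxCase2

open AuxCase2 in
theorem pr_Case2 (h1 : StRank) (h2 : StGoodA) (h3 : StBlk) : StCase2 := by
  intro L _ _ k hk E _ _ γ T C hD n hn η hη
  obtain ⟨rk, hrk1, hrk2⟩ := h1 L (tp k 0 0) hk
  obtain ⟨⟨ρ0, hρ0⟩, hG⟩ := h2 L rk hrk2
  obtain ⟨z, ρ, g, hz2, hz3, hz4, hρ, hle, hg, hb⟩ :=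
    main h3 L E γ T C hD rk hrk2 ρ0 hρ0 η hη (n - 1)
  refine ⟨z, g, by omega, hg, ?_⟩
  intro l
  have h4 := hb l
  have hC := C_nonneg hD l
  have h5 : pr1 (ρ0 l) ≤ k := by
    obtain ⟨p, hp⟩ := (hG ρ0 hρ0).1 l
    rw [hp, ← pr1_tp k 0 0]
    exact pr1_mono (hrk1 p).le
  have e1 : ((n - 1 : ℕ) : ℝ) + 1 = n := by
    have : n - 1 + 1 = n := by omega
    exact_mod_cast this
  rw [e1] at h4
  have hn0 : (0 : ℝ) < n := by exact_mod_cast hn
  have h6 : C * ((pr1 (ρ0 l) : ℝ) - pr1 (ρ l)) ≤ C * k := by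
    apply mul_le_mul_of_nonneg_left _ hC
    have h7 : ((pr1 (ρ0 l) : ℝ)) ≤ k := by exact_mod_cast h5
    have h8 : (0 : ℝ) ≤ (pr1 (ρ l) : ℝ) := Nat.cast_nonneg _
    linarith
  have h9 : (n : ℝ) * |T g l| ≤ n * (η + C * k / n) := by
    rw [mul_add, mul_div_cancel₀ _ hn0.ne']
    linarith
  exact le_of_mul_le_mul_left h9 hn0

end Pool.Agent.Work.MP_c93117_an.Neg

end
end

section

set_option autoImplicit false

noncomputable section

open Finset Polynomial

namespace Pool.Agent.Work.MP_c93117_an.Neg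

namespace AuxComm

theorem comm_aeval (T Q : Module.End ℝ FF) (h : Commute T Q) (f : ℝ[X]) :
    Commute T (aeval Q f) := by
  induction f using Polynomial.induction_on' with
  | add p q hp hq =>
    rw [map_add]
    exact hp.add_right hq
  | monomial n a =>
    rw [aeval_monomial]
    have h1 : Commute T (algebraMap ℝ (Module.End ℝ FF) a) := (Algebra.commutes a T).symm
    exact h1.mul_right (h.pow_right n)

theorem tr_Q (m : ℕ) (p : ℝ) : Commute (TrO m) (Qop p) := by
  apply LinearMap.ext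
  intro F
  rfl

theorem D_Q (R' j i : ℕ) (p : ℝ) : Commute (Dop R' j i) (Qop p) := by
  apply LinearMap.ext
  intro F
  funext s a
  show (∑ b ∈ a.powerset, p ^ b.card * (1 - p) ^ (a \ b).card *
      F (trb ((i + 1) * 2 ^ (R' - j)) s) b) -
    (∑ b ∈ a.powerset, p ^ b.card * (1 - p) ^ (a \ b).card * F (trb (i * 2 ^ (R' - j)) s) b) =
    ∑ b ∈ a.powerset, p ^ b.card * (1 - p) ^ (a \ b).card *
      (F (trb ((i + 1) * 2 ^ (R' - j)) s) b - F (trb (i * 2 ^ (R' - j)) s) b)
  rw [← Finset.sum_sub_distrib]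
  exact Finset.sum_congr rfl fun b _ => by ring

end AuxComm

open AuxComm in
theorem pr_Comm : StComm := by
  intro R f F
  refine ⟨fun m => ?_, fun R' j i => ?_⟩
  · exact LinearMap.congr_fun (comm_aeval (TrO m) (Qop (pR R)) (tr_Q m _) f) F
  · exact LinearMap.congr_fun (comm_aeval (Dop R' j i) (Qop (pR R)) (D_Q R' j i _) f) F

end Pool.Agent.Work.MP_c93117_an.Neg

end
end

section

set_option autoImplicit false

namespace Pool.Agent.Work.MP_c93117_an.Neg

namespace AuxCont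

open Finset

theorem PP_sum (A : Finset K) (c : K → ℝ) :
    PP (∑ u ∈ A, c u • ind u) = ∑ u ∈ A, c u • PP (ind u) := by
  have h : PPl (∑ u ∈ A, c u • ind u) = ∑ u ∈ A, c u • PPl (ind u) := by
    rw [map_sum]
    refine Finset.sum_congr rfl fun u _ => ?_
    rw [map_smul]
  exact h

theorem PP_sub (g h : K → ℝ) : PP (g - h) = PP g - PP h := by
  have h1 : PPl (g - h) = PPl g - PPl h := map_sub _ _ _
  exact h1

end AuxCont

theorem pr_Cont (h1 : StDense) (h2 : StNorm) (h3 : StContInd) : StCont := by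
  intro g hg
  refine continuous_of_uniform_approx_of_continuous ?_
  intro s hs
  obtain ⟨ε, hε, hs⟩ := Metric.mem_uniformity_dist.mp hs
  obtain ⟨A, c, hA⟩ := h1 g hg (ε / 216) (by positivity)
  refine ⟨PP (∑ u ∈ A, c u • ind u), ?_, ?_⟩
  · rw [AuxCont.PP_sum]
    have h4 : (∑ u ∈ A, c u • PP (ind u)) = fun q => ∑ u ∈ A, c u * PP (ind u) q := by
      funext q
      simp [Finset.sum_apply]
    rw [h4]
    exact continuous_finsetSum _ fun u _ => (h3 u).const_mul (c u)
  · intro q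
    apply hs
    rw [Real.dist_eq]
    have h5 : PP g q - PP (∑ u ∈ A, c u • ind u) q = PP (g - ∑ u ∈ A, c u • ind u) q := by
      rw [AuxCont.PP_sub]
      rfl
    rw [h5]
    have h6 : ∀ q, |(g - ∑ u ∈ A, c u • ind u) q| ≤ ε / 216 := by
      intro q'
      have := hA q'
      simpa [Finset.sum_apply] using this
    have h7 := h2 _ _ h6 q
    linarith

end Pool.Agent.Work.MP_c93117_an.Neg

end

section

/-!
# Project Neg, item ContInd: the image of a cone indicator is continuous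
-/

set_option autoImplicit false

noncomputable section

open Finset Polynomial

namespace Pool.Agent.Work.MP_c93117_an.Neg

namespace AuxContInd

/-- polynomials in the thinning preserve the submodules which are invariant under the thinning -/
theorem op_mem {W : Submodule ℝ FF} {R : ℕ} (hW : ∀ F ∈ W, Qop (pR R) F ∈ W) (f : ℝ[X])
    {F : FF} (hF : F ∈ W) : op R f F ∈ W := by
  have hpow : ∀ n : ℕ, (Qop (pR R) ^ n) F ∈ W := by
    intro n
    induction n with
    | zero => rw [pow_zero]; exact hF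
    | succ n ih => rw [pow_succ', Module.End.mul_apply]; exact hW _ ih
  unfold op
  induction f using Polynomial.induction_on' with
  | add p q hp hq => rw [map_add, LinearMap.add_apply]; exact W.add_mem hp hq
  | monomial n c =>
    rw [aeval_monomial, Module.End.mul_apply, Module.algebraMap_end_apply]
    exact W.smul_mem c (hpow n)

/-- the constant functions -/
def CW : Submodule ℝ FF where
  carrier := {F | ∃ c : ℝ, ∀ s a, F s a = c}
  add_mem' := by
    rintro F G ⟨c, hc⟩ ⟨d, hd⟩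
    exact ⟨c + d, fun s a => by rw [← hc s a, ← hd s a]; rfl⟩
  zero_mem' := ⟨0, fun _ _ => rfl⟩
  smul_mem' := by
    rintro r F ⟨c, hc⟩
    exact ⟨r * c, fun s a => by rw [← hc s a]; rfl⟩

theorem Qop_const (p : ℝ) {F : FF} (hF : F ∈ CW) : Qop p F ∈ CW := by
  obtain ⟨c, hc⟩ := hF
  refine ⟨c, fun s a => ?_⟩
  show ∑ b ∈ a.powerset, p ^ b.card * (1 - p) ^ (a \ b).card * F s b = c
  have h1 : ∑ b ∈ a.powerset, p ^ b.card * (1 - p) ^ (a \ b).card * F s b
      = (∑ b ∈ a.powerset, p ^ b.card * (1 - p) ^ (a.card - b.card)) * c := by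
    rw [Finset.sum_mul]
    refine Finset.sum_congr rfl fun b hb => ?_
    rw [hc, Finset.card_sdiff_of_subset (Finset.mem_powerset.1 hb)]
  rw [h1, Finset.sum_pow_mul_eq_add_pow]
  have h2 : p + (1 - p) = 1 := by ring
  rw [h2, one_pow, one_mul]

theorem Dop_const (R j i : ℕ) {F : FF} (hF : F ∈ CW) : Dop R j i F = 0 := by
  obtain ⟨c, hc⟩ := hF
  funext s a
  show F (trb ((i + 1) * 2 ^ (R - j)) s) a - F (trb (i * 2 ^ (R - j)) s) a = 0
  rw [hc, hc, sub_self]

/-- `fR` of a function all whose components are in an invariant submodule -/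
theorem fR_mem {W : Submodule ℝ FF} {R : ℕ} (hW : ∀ F ∈ W, Qop (pR R) F ∈ W) {g : K → ℝ}
    (hg : ∀ j i, lft g R j i ∈ W) : fR g R ∈ W := by
  unfold fR
  refine W.sum_mem fun j _ => W.smul_mem _ (op_mem hW _ ?_)
  exact W.sum_mem fun i _ => hg j i

theorem PP_zero {g : K → ℝ} (hg : ∀ R j i, lft g R j i ∈ CW) : PP g = 0 := by
  funext q
  cases q with
  | oo => rfl
  | pt x =>
    show rowF g x.R x.j x.i x.s x.a = 0
    have h1 : fR g x.R ∈ CW := fR_mem (fun F hF => Qop_const _ hF) (hg x.R)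
    unfold rowF
    rw [Dop_const _ _ _ (op_mem (fun F hF => Qop_const _ hF) _ h1), smul_zero]
    rfl

open Classical in
theorem ind_cont (u : K) : Continuous (ind u) := by
  unfold ind
  refine Continuous.if ?_ continuous_const continuous_const
  intro q hq
  have h1 : IsClopen {v : K | u ≤ v} := cone_clopen K u
  rw [h1.frontier_eq] at hq
  exact absurd hq (Set.notMem_empty q)

theorem lft_eq (x : Nd) (R j i : ℕ) (s : List ℕ) (a : Finset ℕ) [Decidable (K.pt x ≤ nd R j i s a)] :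
    lft (ind (K.pt x)) R j i s a = if K.pt x ≤ nd R j i s a then 1 else 0 := by
  unfold lft ind
  congr

theorem cc_pos_nd (x : Nd) (hx : x.s ≠ []) : sn x.R x.j x.i x.a x.s :=
  x.hs.resolve_left hx

theorem lft_ne (x : Nd) {R j i : ℕ} (h : ¬ (x.R = R ∧ x.j = j ∧ x.i = i)) :
    lft (ind (K.pt x)) R j i = 0 := by
  classical
  funext s a
  rw [lft_eq, if_neg]
  · rfl
  · rw [pt_le_nd]
    rintro ⟨-, h1, h2, h3, -⟩
    exact h ⟨h1, h2, h3⟩

theorem lft_self (x : Nd) : lft (ind (K.pt x)) x.R x.j x.i = chi x.s x.a := by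
  classical
  funext s a
  rw [lft_eq]
  unfold chi
  by_cases h : x.s <:+ s ∧ a.filter (· < cc x.s) = x.a
  · rw [if_pos h, if_pos]
    rw [pt_le_nd]
    exact ⟨⟨x.hj, x.hi⟩, rfl, rfl, rfl, h.1, h.2.symm⟩
  · rw [if_neg h, if_neg]
    rw [pt_le_nd]
    rintro ⟨-, -, -, -, h1, h2⟩
    exact h ⟨h1, h2.symm⟩

theorem lft_root (x : Nd) (hx : x.s = []) (R j i : ℕ) : lft (ind (K.pt x)) R j i ∈ CW := by
  classical
  by_cases h : x.R = R ∧ x.j = j ∧ x.i = i
  · obtain ⟨rfl, rfl, rfl⟩ := h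
    rw [lft_self]
    have ha : x.a = ∅ := by
      rw [Finset.eq_empty_iff_forall_notMem]
      intro c hc
      have := x.ha c hc
      rw [hx, cc_nil] at this
      omega
    refine ⟨1, fun s a => ?_⟩
    unfold chi
    rw [if_pos]
    rw [hx, ha, cc_nil]
    refine ⟨List.nil_suffix, ?_⟩
    rw [Finset.filter_eq_empty_iff]
    intro c _
    omega
  · rw [lft_ne x h]
    exact CW.zero_mem

/-- the function on `K` given by `H` on one component -/
def cmpf (R j i : ℕ) (H : FF) : K → ℝ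
  | .oo => 0
  | .pt y => if y.R = R ∧ y.j = j ∧ y.i = i then H y.s y.a else 0

theorem cmpf_add (R j i : ℕ) (F G : FF) : cmpf R j i (F + G) = cmpf R j i F + cmpf R j i G := by
  funext q
  cases q with
  | oo => show (0 : ℝ) = 0 + 0; ring
  | pt y =>
    show (if y.R = R ∧ y.j = j ∧ y.i = i then (F + G) y.s y.a else 0) =
      (if y.R = R ∧ y.j = j ∧ y.i = i then F y.s y.a else 0) +
      (if y.R = R ∧ y.j = j ∧ y.i = i then G y.s y.a else 0)
    split_ifs
    · rfl
    · ring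

theorem cmpf_smul (R j i : ℕ) (c : ℝ) (F : FF) : cmpf R j i (c • F) = c • cmpf R j i F := by
  funext q
  cases q with
  | oo => show (0 : ℝ) = c * 0; ring
  | pt y =>
    show (if y.R = R ∧ y.j = j ∧ y.i = i then (c • F) y.s y.a else 0) =
      c * (if y.R = R ∧ y.j = j ∧ y.i = i then F y.s y.a else 0)
    split_ifs
    · rfl
    · ring

theorem cmpf_zero (R j i : ℕ) : cmpf R j i 0 = 0 := by
  funext q
  cases q with
  | oo => rfl
  | pt y =>
    show (if y.R = R ∧ y.j = j ∧ y.i = i then (0 : FF) y.s y.a else 0) = 0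
    split_ifs <;> rfl

/-- the component of `chi` -/
theorem cmpf_chi (x : Nd) (hx : x.s ≠ []) {j : ℕ} (hj : j ≤ x.R) {b : Finset ℕ}
    (hb : b ⊆ range (cc x.s)) (hb' : cc x.s - 1 ∈ b) :
    Continuous (cmpf x.R j ((bb x.s - 1) / 2 ^ (x.R - j)) (chi x.s b)) := by
  classical
  have hi : (bb x.s - 1) / 2 ^ (x.R - j) < 2 ^ j := by
    rw [Nat.div_lt_iff_lt_mul (by positivity), ← pow_add, Nat.add_sub_cancel' hj]
    have h1 := x.bb_le
    have h2 := bb_pos_of_ne hx
    omega
  let v : Nd := ⟨x.R, j, (bb x.s - 1) / 2 ^ (x.R - j), x.s, b, hj, hi,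
    fun c hc => Finset.mem_range.1 (hb hc), Or.inr ⟨rfl, hb'⟩⟩
  have h1 : cmpf x.R j ((bb x.s - 1) / 2 ^ (x.R - j)) (chi x.s b) = ind (K.pt v) := by
    funext q
    cases q with
    | oo =>
      show (0 : ℝ) = _
      unfold ind
      rw [if_neg K.not_pt_le_oo]
    | pt y =>
      show (if y.R = x.R ∧ y.j = j ∧ y.i = (bb x.s - 1) / 2 ^ (x.R - j) then chi x.s b y.s y.a
        else 0) = _
      unfold ind chi
      by_cases h : K.pt v ≤ K.pt y
      · rw [if_pos h]
        obtain ⟨h1, h2, h3, h4, h5⟩ := K.pt_le_pt.1 h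
        have h1' : x.R = y.R := h1
        have h2' : j = y.j := h2
        have h3' : (bb x.s - 1) / 2 ^ (x.R - j) = y.i := h3
        have h4' : x.s <:+ y.s := h4
        have h5' : b = y.a.filter (· < cc x.s) := h5
        rw [if_pos ⟨h1'.symm, h2'.symm, h3'.symm⟩, if_pos ⟨h4', h5'.symm⟩]
      · rw [if_neg h]
        split_ifs with h1 h2
        · exfalso
          apply h
          rw [K.pt_le_pt]
          exact ⟨h1.1.symm, h1.2.1.symm, h1.2.2.symm, h2.1, h2.2.symm⟩
        · rfl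
        · rfl
  rw [h1]
  exact ind_cont _

theorem cmpf_cont (x : Nd) (hx : x.s ≠ []) {j : ℕ} (hj : j ≤ x.R) {H : FF} (hH : H ∈ CS x.s) :
    Continuous (cmpf x.R j ((bb x.s - 1) / 2 ^ (x.R - j)) H) := by
  unfold CS at hH
  induction hH using Submodule.span_induction with
  | mem F hF =>
    obtain ⟨b, hb, hb', rfl⟩ := hF
    exact cmpf_chi x hx hj hb hb'
  | zero => rw [cmpf_zero]; exact continuous_const
  | add F G _ _ hF hG => rw [cmpf_add]; exact hF.add hG
  | smul c F _ hF => rw [cmpf_smul]; exact hF.const_smul c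

/-- the increments on `CS` -/
theorem Dop_CS (h2 : StDchi) {R j : ℕ} (i : ℕ) {s0 : List ℕ} (hj : j ≤ R) (hs : s0 ≠ []) {H : FF}
    (hH : H ∈ CS s0) : ((bb s0 - 1) / 2 ^ (R - j) = i → Dop R j i H = H) ∧
      ((bb s0 - 1) / 2 ^ (R - j) ≠ i → Dop R j i H = 0) := by
  unfold CS at hH
  induction hH using Submodule.span_induction with
  | mem F hF =>
    obtain ⟨b, -, -, rfl⟩ := hF
    exact h2 R j i s0 b hj hs
  | zero => exact ⟨fun _ => map_zero _, fun _ => map_zero _⟩
  | add F G _ _ hF hG =>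
    refine ⟨fun h => ?_, fun h => ?_⟩
    · rw [map_add, hF.1 h, hG.1 h]
    · rw [map_add, hF.2 h, hG.2 h, add_zero]
  | smul c F _ hF =>
    refine ⟨fun h => ?_, fun h => ?_⟩
    · rw [map_smul, hF.1 h]
    · rw [map_smul, hF.2 h, smul_zero]

theorem chi_mem (x : Nd) (hx : x.s ≠ []) : chi x.s x.a ∈ CS x.s :=
  Submodule.subset_span ⟨x.a, fun c hc => Finset.mem_range.2 (x.ha c hc), (cc_pos_nd x hx).2, rfl⟩

/-- nonroot nodes -/
theorem cont_node (h1 : StQchi) (h2 : StDchi) (x : Nd) (hx : x.s ≠ []) :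
    Continuous (PP (ind (K.pt x))) := by
  classical
  have hinv : ∀ F ∈ CS x.s, Qop (pR x.R) F ∈ CS x.s := fun F hF => h1 _ _ _ hF
  have hG : fR (ind (K.pt x)) x.R ∈ CS x.s := by
    refine fR_mem hinv fun j i => ?_
    by_cases h : x.R = x.R ∧ x.j = j ∧ x.i = i
    · obtain ⟨-, rfl, rfl⟩ := h
      rw [lft_self]
      exact chi_mem x hx
    · rw [lft_ne x h]
      exact (CS x.s).zero_mem
  have hH : ∀ j, op x.R (PiP x.R j) (fR (ind (K.pt x)) x.R) ∈ CS x.s := fun j => op_mem hinv _ hG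
  have hfR0 : ∀ R, R ≠ x.R → fR (ind (K.pt x)) R = 0 := by
    intro R hR
    unfold fR
    refine Finset.sum_eq_zero fun j _ => ?_
    have h3 : ∑ i ∈ range (2 ^ j), lft (ind (K.pt x)) R j i = 0 :=
      Finset.sum_eq_zero fun i _ => lft_ne x fun h => hR h.1.symm
    rw [h3, map_zero, smul_zero]
  have key : PP (ind (K.pt x)) = ∑ j ∈ range (x.R + 1), ((4 : ℝ) ^ j) •
      cmpf x.R j ((bb x.s - 1) / 2 ^ (x.R - j))
        (op x.R (PiP x.R j) (fR (ind (K.pt x)) x.R)) := by
    funext q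
    rw [Finset.sum_apply]
    cases q with
    | oo =>
      show (0 : ℝ) = _
      symm
      refine Finset.sum_eq_zero fun j _ => ?_
      show (4 : ℝ) ^ j * 0 = 0
      ring
    | pt y =>
      show rowF (ind (K.pt x)) y.R y.j y.i y.s y.a = _
      by_cases hR : y.R = x.R
      · have hyj : y.j ≤ x.R := hR ▸ y.hj
        rw [Finset.sum_eq_single y.j]
        · show _ = (4 : ℝ) ^ y.j * (if y.R = x.R ∧ y.j = y.j ∧
            y.i = (bb x.s - 1) / 2 ^ (x.R - y.j) then _ else 0)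
          unfold rowF
          rw [hR]
          by_cases hi : (bb x.s - 1) / 2 ^ (x.R - y.j) = y.i
          · rw [(Dop_CS h2 y.i hyj hx (hH y.j)).1 hi, if_pos ⟨rfl, rfl, hi.symm⟩]
            rfl
          · rw [(Dop_CS h2 y.i hyj hx (hH y.j)).2 hi, if_neg (fun h => hi h.2.2.symm)]
            show (4 : ℝ) ^ y.j * 0 = (4 : ℝ) ^ y.j * 0
            rfl
        · intro j _ hj
          show (4 : ℝ) ^ j * (if y.R = x.R ∧ y.j = j ∧
            y.i = (bb x.s - 1) / 2 ^ (x.R - j) then _ else 0) = 0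
          rw [if_neg (fun h => hj h.2.1.symm), mul_zero]
        · intro h
          exact absurd (Finset.mem_range.2 (Nat.lt_succ_of_le hyj)) h
      · unfold rowF
        rw [hfR0 y.R hR, map_zero, map_zero, smul_zero]
        symm
        refine Finset.sum_eq_zero fun j _ => ?_
        show (4 : ℝ) ^ j * (if y.R = x.R ∧ y.j = j ∧
            y.i = (bb x.s - 1) / 2 ^ (x.R - j) then _ else 0) = 0
        rw [if_neg (fun h => hR h.1), mul_zero]
  have key2 : ∀ j ∈ range (x.R + 1), Continuous (((4 : ℝ) ^ j) •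
      cmpf x.R j ((bb x.s - 1) / 2 ^ (x.R - j))
        (op x.R (PiP x.R j) (fR (ind (K.pt x)) x.R))) := fun j hj =>
    (cmpf_cont x hx (Nat.lt_succ_iff.1 (Finset.mem_range.1 hj)) (hH j)).const_smul _
  rw [key, Finset.sum_fn]
  exact continuous_finset_sum _ key2

end AuxContInd

open AuxContInd in
theorem pr_ContInd (h1 : StQchi) (h2 : StDchi) : StContInd := by
  classical
  intro u
  cases u with
  | oo =>
    rw [PP_zero]
    · exact continuous_const
    · intro R j i
      refine ⟨1, fun s a => ?_⟩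
      unfold lft ind
      rw [if_pos (K.oo_le _)]
  | pt x =>
    by_cases hx : x.s = []
    · rw [PP_zero (lft_root x hx)]
      exact continuous_const
    · exact cont_node h1 h2 x hx

end Pool.Agent.Work.MP_c93117_an.Neg

end
end

section

set_option autoImplicit false

namespace Pool.Agent.Work.MP_c93117_an.Neg

namespace AuxDchi

theorem chi_trb (s0 : List ℕ) (b0 : Finset ℕ) (m : ℕ) (s : List ℕ) (a : Finset ℕ) :
    chi s0 b0 (trb m s) a = if bb s0 ≤ m then chi s0 b0 s a else 0 := by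
  unfold chi
  by_cases h : bb s0 ≤ m
  · rw [if_pos h]
    simp only [suffix_trb_iff, h, and_true]
  · rw [if_neg h, if_neg]
    rintro ⟨h1, -⟩
    exact h (suffix_trb_iff.1 h1).2

end AuxDchi

theorem pr_Dchi : StDchi := by
  intro R j i s0 b0 _ hs0
  have hpos := bb_pos_of_ne hs0
  have hw : 0 < 2 ^ (R - j) := by positivity
  have hiff : (bb s0 - 1) / 2 ^ (R - j) = i ↔
      i * 2 ^ (R - j) < bb s0 ∧ bb s0 ≤ (i + 1) * 2 ^ (R - j) := by
    rw [Nat.div_eq_iff hw, Nat.add_mul, Nat.one_mul]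
    omega
  constructor
  · intro h
    rw [hiff] at h
    funext s a
    show chi s0 b0 (trb ((i + 1) * 2 ^ (R - j)) s) a - chi s0 b0 (trb (i * 2 ^ (R - j)) s) a = _
    rw [AuxDchi.chi_trb, AuxDchi.chi_trb, if_pos h.2, if_neg (not_le.2 h.1), sub_zero]
  · intro h
    have h := fun h' => h (hiff.2 h')
    funext s a
    show chi s0 b0 (trb ((i + 1) * 2 ^ (R - j)) s) a - chi s0 b0 (trb (i * 2 ^ (R - j)) s) a = 0
    rw [AuxDchi.chi_trb, AuxDchi.chi_trb]
    by_cases h1 : bb s0 ≤ i * 2 ^ (R - j)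
    · have h2 : bb s0 ≤ (i + 1) * 2 ^ (R - j) := by
        rw [Nat.add_mul]
        omega
      rw [if_pos h1, if_pos h2, sub_self]
    · have h2 : ¬ bb s0 ≤ (i + 1) * 2 ^ (R - j) := fun h3 => h ⟨not_le.1 h1, h3⟩
      rw [if_neg h1, if_neg h2, sub_self]

end Pool.Agent.Work.MP_c93117_an.Neg

end

section

/-!
# Project Neg: D4, increments of admissible functions live on the component
-/

set_option autoImplicit false

noncomputable section

open Finset

namespace Pool.Agent.Work.MP_c93117_an.Neg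

namespace AuxDloc

/-- if all steps from `u` to `v` are unseen, the value does not change -/
theorem const_of_unseen {F : FF} (hA2 : A2 F) {u v : List ℕ} {a : Finset ℕ} (h : u <:+ v)
    (hn : ∀ t : List ℕ, t <:+ v → u <:+ t → t ≠ u → cc t - 1 ∉ a) : F v a = F u a := by
  obtain ⟨l, rfl⟩ := h
  induction l with
  | nil => rfl
  | cons e l ih =>
    rw [List.cons_append] at hn ⊢
    rw [hA2 e (l ++ u) a]
    · apply ih
      intro t ht hut htu
      exact hn t (ht.trans (List.suffix_cons e _)) hut htu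
    · refine hn (e :: (l ++ u)) List.suffix_rfl
        ((List.suffix_append l u).trans (List.suffix_cons e _)) ?_
      intro h1
      have h2 := congrArg List.length h1
      simp only [List.length_cons, List.length_append] at h2
      omega

theorem div_of {P i b : ℕ} (h1 : i * P < b) (h2 : b ≤ (i + 1) * P) : (b - 1) / P = i := by
  apply Nat.div_eq_of_lt_le
  · omega
  · omega

theorem of_div {P i b : ℕ} (hP : 0 < P) (hb : 0 < b) (h : (b - 1) / P = i) :
    i * P < b ∧ b ≤ (i + 1) * P := by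
  subst h
  have h1 := Nat.div_mul_le_self (b - 1) P
  have h2 : b - 1 < ((b - 1) / P + 1) * P := by
    have h3 := Nat.div_add_mod (b - 1) P
    have h4 := Nat.mod_lt (b - 1) hP
    rw [add_mul, one_mul, mul_comm]
    omega
  constructor <;> omega

end AuxDloc

open AuxDloc in
/-- D4 -/
theorem pr_Dloc : StDloc := by
  intro R j i F _ hA1 hA2 s a
  show F (trb ((i + 1) * 2 ^ (R - j)) (loc R j i a s)) (a.filter (· < cc (loc R j i a s)))
      - F (trb (i * 2 ^ (R - j)) (loc R j i a s)) (a.filter (· < cc (loc R j i a s)))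
    = F (trb ((i + 1) * 2 ^ (R - j)) s) a - F (trb (i * 2 ^ (R - j)) s) a
  have hP : 0 < 2 ^ (R - j) := by positivity
  have hlh : i * 2 ^ (R - j) ≤ (i + 1) * 2 ^ (R - j) := Nat.mul_le_mul_right _ (Nat.le_succ i)
  -- a seen initial part in the block range is an initial part of `loc`
  have hseen : ∀ t : List ℕ, t <:+ s → i * 2 ^ (R - j) < bb t → bb t ≤ (i + 1) * 2 ^ (R - j) →
      cc t - 1 ∈ a → t <:+ loc R j i a s := by
    intro t ht h1 h2 h3
    exact loc_max ht ⟨div_of h1 h2, h3⟩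
  by_cases hw : loc R j i a s = []
  · rw [hw]
    have e1 : ∀ m, trb m ([] : List ℕ) = [] := fun m => rfl
    rw [e1, e1, sub_self]
    symm
    rw [sub_eq_zero]
    apply const_of_unseen hA2
    · rw [suffix_trb_iff]
      exact ⟨trb_suffix _ s, (bb_trb _ s).trans hlh⟩
    · intro t ht hut htu hc
      rw [suffix_trb_iff] at ht
      have h1 : i * 2 ^ (R - j) < bb t := by
        by_contra h2
        exact htu (suffix_antisymm (suffix_trb_iff.2 ⟨ht.1, not_lt.1 h2⟩) hut)
      have h3 := hseen t ht.1 h1 ht.2 hc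
      rw [hw, List.suffix_nil] at h3
      rw [h3, bb_nil] at h1
      omega
  · have hsn : sn R j i a (loc R j i a s) := by
      rcases loc_spec R j i a s with h | h
      · exact absurd h hw
      · exact h
    obtain ⟨hlo, hhi⟩ := of_div hP (bb_pos_of_ne hw) hsn.1
    -- the lower truncations agree
    have hlow : trb (i * 2 ^ (R - j)) (loc R j i a s) = trb (i * 2 ^ (R - j)) s := by
      apply tr_between _ (loc_suffix R j i a s)
      exact suffix_of_bb_lt (trb_suffix _ s) (loc_suffix R j i a s)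
        (lt_of_le_of_lt (bb_trb _ s) hlo)
    rw [trb_of_le hhi, hlow, hA1]
    -- the upper values
    have hup : F (trb ((i + 1) * 2 ^ (R - j)) s) a = F (loc R j i a s) a := by
      apply const_of_unseen hA2
      · rw [suffix_trb_iff]
        exact ⟨loc_suffix R j i a s, hhi⟩
      · intro t ht hut htu hc
        rw [suffix_trb_iff] at ht
        have h1 : i * 2 ^ (R - j) < bb t := lt_of_lt_of_le hlo (bb_mono hut)
        exact htu (suffix_antisymm (hseen t ht.1 h1 ht.2 hc) hut)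
    rw [hup]
    -- the lower values
    have hcc : cc (trb (i * 2 ^ (R - j)) s) ≤ cc (loc R j i a s) := by
      rw [← hlow]
      exact cc_mono (trb_suffix _ _)
    have hlv : F (trb (i * 2 ^ (R - j)) s) (a.filter (· < cc (loc R j i a s)))
        = F (trb (i * 2 ^ (R - j)) s) a := by
      rw [← hA1 (trb (i * 2 ^ (R - j)) s) a,
        ← hA1 (trb (i * 2 ^ (R - j)) s) (a.filter (· < cc (loc R j i a s))),
        Finset.filter_filter]
      congr 1
      apply Finset.filter_congr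
      intro x _
      constructor
      · exact fun h => h.2
      · exact fun h => ⟨lt_of_lt_of_le h hcc, h⟩
    rw [hlv]

end Pool.Agent.Work.MP_c93117_an.Neg

end
end

section

/-! Item Dzero: increments of functions living on a disjoint interval vanish. -/

set_option autoImplicit false

noncomputable section

open Finset

namespace Pool.Agent.Work.MP_c93117_an.Neg

namespace AuxDzero

theorem key (g : K → ℝ) (R j i j' i' : ℕ)
    (hno : ∀ n, n / 2 ^ (R - j') = i' → n / 2 ^ (R - j) ≠ i) :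
    Dop R j i (lft g R j' i') = 0 := by
  funext s a
  show lft g R j' i' (trb ((i + 1) * 2 ^ (R - j)) s) a -
    lft g R j' i' (trb (i * 2 ^ (R - j)) s) a = 0
  rw [sub_eq_zero]
  unfold lft
  congr 1
  apply nd_of_loc_eq
  symm
  have hle : i * 2 ^ (R - j) ≤ (i + 1) * 2 ^ (R - j) := Nat.mul_le_mul_right _ (Nat.le_succ i)
  have h2 : trb (i * 2 ^ (R - j)) s <:+ trb ((i + 1) * 2 ^ (R - j)) s :=
    suffix_trb_iff.2 ⟨trb_suffix _ _, (bb_trb _ _).trans hle⟩
  refine tr_between (P := sn R j' i' a) ?_ h2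
  rcases loc_spec R j' i' a (trb ((i + 1) * 2 ^ (R - j)) s) with h | h
  · unfold loc at h
    rw [h]
    exact List.nil_suffix
  · have h3 := suffix_trb_iff.1 (loc_suffix R j' i' a (trb ((i + 1) * 2 ^ (R - j)) s))
    refine suffix_trb_iff.2 ⟨h3.1, ?_⟩
    by_contra h4
    push Not at h4
    refine hno _ h.1 ?_
    have h5 := h3.2
    apply Nat.div_eq_of_lt_le
    · change i * 2 ^ (R - j) < bb (loc R j' i' a (trb ((i + 1) * 2 ^ (R - j)) s)) at h4
      omega
    · change i * 2 ^ (R - j) < bb (loc R j' i' a (trb ((i + 1) * 2 ^ (R - j)) s)) at h4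
      omega

end AuxDzero

theorem pr_Dzero : StDzero := by
  intro g R j i j' i' hj hj' _
  refine ⟨?_, ?_⟩
  · intro hjj hne
    apply AuxDzero.key
    intro n hn hn'
    apply hne
    rw [← hn, ← hn', Nat.div_div_eq_div_mul, ← pow_add]
    congr 2
    omega
  · intro hjj hne
    apply AuxDzero.key
    intro n hn hn'
    apply hne
    rw [← hn, ← hn', Nat.div_div_eq_div_mul, ← pow_add]
    congr 2
    omega

end Pool.Agent.Work.MP_c93117_an.Neg

end
end

section

set_option autoImplicit false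

namespace Pool.Agent.Work.MP_c93117_an.Neg

namespace AuxForcedStep

theorem trB_mono {F F' : FD} (h : F ≤ F') (s : List ℕ) : trB F s <:+ trB F' s := by
  rcases tr_spec (fun w => w ∈ F.B) s with h1 | h1
  · unfold trB
    rw [h1]
    exact List.nil_suffix
  · exact tr_max (P := fun w => w ∈ F'.B) (tr_suffix _ s) (h.1 h1)

end AuxForcedStep

theorem pr_ForcedStep : StForcedStep := by
  intro F0 F1 F2 N G G' h01 h12 hP hF s
  have hs01 := AuxForcedStep.trB_mono h01 s
  have hs12 := AuxForcedStep.trB_mono h12 s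
  have b01 := bb_mono hs01
  have b12 := bb_mono hs12
  have c01 := cc_mono hs01
  have c12 := cc_mono hs12
  rcases hP s with h | h
  · left
    intro R j i a hR hx
    exact h R j i a hR hx.1
  rcases hF s with hF1 | ⟨C0, hC1, hC2, hC3⟩
  · left
    intro R j i a hR hx
    exact hF1 R j i a (le_trans hR h01.2) hx.2
  right
  rcases h with h | ⟨c0, h1, h2, h3⟩
  · refine ⟨C0, ?_, ?_, ?_⟩
    · intro c hc
      have := hC1 c hc
      omega
    · omega
    · intro R j i a hR hx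
      exact hC3 R j i a (le_trans hR h01.2) hx.2
  · have hnot : c0 ∉ C0 := by
      intro hc
      have := hC1 c0 hc
      omega
    refine ⟨insert c0 C0, ?_, ?_, ?_⟩
    · intro c hc
      rcases Finset.mem_insert.1 hc with rfl | hc
      · omega
      · have := hC1 c hc
        omega
    · rw [Finset.card_insert_of_notMem hnot]
      omega
    · intro R j i a hR hx
      rw [Finset.insert_subset_iff]
      exact ⟨h3 R j i a hR hx.1, hC3 R j i a (le_trans hR h01.2) hx.2⟩

end Pool.Agent.Work.MP_c93117_an.Neg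

end

section

set_option autoImplicit false

namespace Pool.Agent.Work.MP_c93117_an.Neg

namespace AuxInvEnd

theorem trB_mono {F F' : FD} (h : F ≤ F') (s : List ℕ) : trB F s <:+ trB F' s := by
  rcases tr_spec (fun w => w ∈ F.B) s with h1 | h1
  · unfold trB
    rw [h1]
    exact List.nil_suffix
  · exact tr_max (P := fun w => w ∈ F'.B) (tr_suffix _ s) (h.1 h1)

end AuxInvEnd

theorem pr_InvEnd : StInvEnd := by
  intro F0 F m G hF hm hpos hinv s
  have hlt : MM (trB F0 s) + rr (trB F0 s) < m := by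
    rcases tr_spec (fun w => w ∈ F0.B) s with h1 | h1
    · have h2 : trB F0 s = [] := h1
      rw [h2, MM_nil, rr_nil]
      exact hpos
    · exact hm _ h1
  have hs := AuxInvEnd.trB_mono hF s
  rcases hinv s with h | h | h | h | h
  · exact Or.inl h
  · exact Or.inr (Or.inl h)
  · exact Or.inr (Or.inr h)
  · exfalso
    omega
  · right
    left
    by_contra h2
    have h3 : bb (trB F0 s) = bb (trB F s) := le_antisymm (bb_mono hs) (not_lt.1 h2)
    have h4 := cc_add_MM hs h3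
    omega

end Pool.Agent.Work.MP_c93117_an.Neg

end

section

/-!
# Project Neg: bounds for the products
-/

set_option autoImplicit false

noncomputable section

open Finset Polynomial

namespace Pool.Agent.Work.MP_c93117_an.Neg

namespace AuxN1Pi

theorem eps_le (h1 : StN1) (R j : ℕ) : N1 (epsP R j) ≤ 1 := by
  obtain ⟨hadd, -, hC, hX, hone, -, -, h0⟩ := h1
  have hsum : ∀ (S : Finset ℕ) (F : ℕ → ℝ[X]), N1 (∑ i ∈ S, F i) ≤ ∑ i ∈ S, N1 (F i) := by
    intro S F
    induction S using Finset.induction_on with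
    | empty => rw [Finset.sum_empty, Finset.sum_empty, h0]
    | insert a S ha ih =>
      rw [Finset.sum_insert ha, Finset.sum_insert ha]
      exact (hadd _ _).trans (by linarith)
  unfold epsP
  split_ifs with h
  · have hp : (0 : ℝ) < 8 ^ (R - j) := by positivity
    rw [hC, abs_of_pos (by positivity)]
    have h2 : N1 (∑ r ∈ range (8 ^ (R - j)), (X : ℝ[X]) ^ (r + 1)) ≤
        ((8 ^ (R - j) : ℕ) : ℝ) := by
      refine (hsum _ _).trans (le_of_eq ?_)
      rw [Finset.sum_congr rfl (fun i _ => hX (i + 1))]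
      simp
    refine (mul_le_mul_of_nonneg_left h2 (by positivity)).trans (le_of_eq ?_)
    push_cast
    field_simp
  · rw [hone]

theorem one_sub_le (h1 : StN1) (R j : ℕ) : N1 (1 - epsP R j) ≤ 2 := by
  have a := h1.1 1 (-epsP R j)
  rw [← sub_eq_add_neg, h1.2.2.2.2.1, h1.2.2.2.2.2.1] at a
  have := eps_le h1 R j
  linarith

theorem key (h1 : StN1) (h2 : StN1eps) (R : ℕ) : ∀ j l : ℕ, j ≤ l → l < R →
    N1 ((1 - PiP R j) * (1 - epsP R l)) ≤ 1 / 3 / 8 ^ (l - j) := by
  intro j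
  induction j with
  | zero =>
    intro l _ _
    unfold PiP
    rw [Finset.range_zero, Finset.prod_empty, sub_self, zero_mul, h1.2.2.2.2.2.2.2]
    positivity
  | succ j ih =>
    intro l hjl hlR
    have e : (1 - PiP R (j + 1)) * (1 - epsP R l) = (1 - epsP R l) * epsP R j +
        (1 - epsP R j) * ((1 - PiP R j) * (1 - epsP R l)) := by
      unfold PiP
      rw [Finset.prod_range_succ]
      ring
    rw [e]
    have a1 := (h2 R j l (by omega) hlR).2
    have a2 := ih l (by omega) hlR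
    have a3 := one_sub_le h1 R j
    have a4 := h1.2.1 (1 - epsP R j) ((1 - PiP R j) * (1 - epsP R l))
    have a5 := h1.1 ((1 - epsP R l) * epsP R j)
      ((1 - epsP R j) * ((1 - PiP R j) * (1 - epsP R l)))
    have a6 : N1 (1 - epsP R j) * N1 ((1 - PiP R j) * (1 - epsP R l)) ≤
        2 * (1 / 3 / 8 ^ (l - j)) :=
      mul_le_mul a3 a2 (h1.2.2.2.2.2.2.1 _) (by norm_num)
    have e2 : (8 : ℝ) ^ (l - j) = 8 * 8 ^ (l - (j + 1)) := by
      rw [← pow_succ']
      congr 1
      omega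
    have e3 : (2 : ℝ) / 8 ^ (l - j) + 2 * (1 / 3 / 8 ^ (l - j)) = 1 / 3 / 8 ^ (l - (j + 1)) := by
      rw [e2]
      field_simp
      norm_num
    linarith

theorem S_le (h1 : StN1) (h2 : StN1eps) (R j : ℕ) (hj : j ≤ R) : N1 (1 - PiP R j) ≤ 4 / 3 := by
  cases j with
  | zero =>
    unfold PiP
    rw [Finset.range_zero, Finset.prod_empty, sub_self, h1.2.2.2.2.2.2.2]
    norm_num
  | succ j =>
    have e : (1 - PiP R (j + 1)) = epsP R j + (1 - PiP R j) * (1 - epsP R j) := by
      unfold PiP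
      rw [Finset.prod_range_succ]
      ring
    rw [e]
    have a1 := h1.1 (epsP R j) ((1 - PiP R j) * (1 - epsP R j))
    have a2 := key h1 h2 R j j le_rfl (by omega)
    rw [Nat.sub_self, pow_zero] at a2
    have a3 := eps_le h1 R j
    linarith

theorem Pi_le (h1 : StN1) (h2 : StN1eps) (R j : ℕ) (hj : j ≤ R) : N1 (PiP R j) ≤ 3 := by
  have e : PiP R j = 1 + -(1 - PiP R j) := by ring
  rw [e]
  have a1 := h1.1 1 (-(1 - PiP R j))
  rw [h1.2.2.2.2.1, h1.2.2.2.2.2.1] at a1
  have a2 := S_le h1 h2 R j hj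
  linarith

end AuxN1Pi

theorem pr_N1Pi (h1 : StN1) (h2 : StN1eps) : StN1Pi := by
  refine ⟨AuxN1Pi.Pi_le h1 h2, ?_, AuxN1Pi.eps_le h1⟩
  intro R j j' hj hjR
  by_cases hc : j = j' + 1
  · have a1 := h1.2.1 (PiP R j) (epsP R j')
    have a2 := AuxN1Pi.Pi_le h1 h2 R j hjR
    have a3 := AuxN1Pi.eps_le h1 R j'
    have a4 : N1 (PiP R j) * N1 (epsP R j') ≤ 3 * 1 :=
      mul_le_mul a2 a3 (h1.2.2.2.2.2.2.1 _) (by norm_num)
    have e : j - j' = 1 := by omega
    rw [e]
    norm_num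
    linarith
  · obtain ⟨i, rfl⟩ : ∃ i, j = i + 1 := ⟨j - 1, by omega⟩
    have e : PiP R (i + 1) * epsP R j' = PiP R i * ((1 - epsP R i) * epsP R j') := by
      unfold PiP
      rw [Finset.prod_range_succ]
      ring
    rw [e]
    have a1 := h1.2.1 (PiP R i) ((1 - epsP R i) * epsP R j')
    have a2 := AuxN1Pi.Pi_le h1 h2 R i (by omega)
    have a3 := (h2 R j' i (by omega) (by omega)).2
    have a4 : N1 (PiP R i) * N1 ((1 - epsP R i) * epsP R j') ≤ 3 * (2 / 8 ^ (i - j')) :=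
      mul_le_mul a2 a3 (h1.2.2.2.2.2.2.1 _) (by norm_num)
    have e2 : (8 : ℝ) ^ (i + 1 - j') = 8 * 8 ^ (i - j') := by
      rw [← pow_succ']
      congr 1
      omega
    have e3 : (3 : ℝ) * (2 / 8 ^ (i - j')) = 48 / 8 ^ (i + 1 - j') := by
      rw [e2]
      field_simp
      norm_num
    linarith

end Pool.Agent.Work.MP_c93117_an.Neg

end
end

section

/-!
# Project Neg: the averages almost absorb the later ones
-/

set_option autoImplicit false

noncomputable section

open Finset Polynomial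

namespace Pool.Agent.Work.MP_c93117_an.Neg

namespace AuxN1eps

theorem sum_le (h1 : StN1) (S : Finset ℕ) (F : ℕ → ℝ[X]) :
    N1 (∑ i ∈ S, F i) ≤ ∑ i ∈ S, N1 (F i) := by
  obtain ⟨hadd, -, -, -, -, -, -, h0⟩ := h1
  induction S using Finset.induction_on with
  | empty => rw [Finset.sum_empty, Finset.sum_empty, h0]
  | insert a S ha ih =>
    rw [Finset.sum_insert ha, Finset.sum_insert ha]
    exact (hadd _ _).trans (by linarith)

theorem sum_pow_le (h1 : StN1) (n : ℕ) (e : ℕ → ℕ) :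
    N1 (∑ r ∈ range n, (X : ℝ[X]) ^ (e r)) ≤ n := by
  refine (sum_le h1 _ _).trans (le_of_eq ?_)
  rw [Finset.sum_congr rfl (fun i _ => h1.2.2.2.1 (e i))]
  simp

theorem eps_le (h1 : StN1) (R j : ℕ) : N1 (epsP R j) ≤ 1 := by
  unfold epsP
  split_ifs with h
  · have hp : (0 : ℝ) < 8 ^ (R - j) := by positivity
    rw [h1.2.2.1, abs_of_pos (by positivity)]
    have h2 := sum_pow_le h1 (8 ^ (R - j)) (fun r => r + 1)
    have h3 : 1 / (8 : ℝ) ^ (R - j) * N1 (∑ r ∈ range (8 ^ (R - j)), (X : ℝ[X]) ^ (r + 1)) ≤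
        1 / (8 : ℝ) ^ (R - j) * ((8 ^ (R - j) : ℕ) : ℝ) := by
      apply mul_le_mul_of_nonneg_left h2 (by positivity)
    refine h3.trans (le_of_eq ?_)
    push_cast
    field_simp
  · rw [h1.2.2.2.2.1]

theorem tele (n L : ℕ) : (1 - (X : ℝ[X]) ^ n) * ∑ r ∈ range L, X ^ (r + 1) =
    ∑ v ∈ range n, X ^ (v + 1) + -∑ v ∈ range n, X ^ (L + v + 1) := by
  have e1 : (1 - (X : ℝ[X]) ^ n) = (∑ v ∈ range n, X ^ v) * (1 - X) := (geom_sum_mul_neg _ _).symm
  have e2 : (1 - (X : ℝ[X]) ^ L) = (∑ v ∈ range L, X ^ v) * (1 - X) := (geom_sum_mul_neg _ _).symm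
  have e3 : ∑ r ∈ range L, (X : ℝ[X]) ^ (r + 1) = (∑ r ∈ range L, X ^ r) * X := by
    rw [Finset.sum_mul]
    exact Finset.sum_congr rfl (fun i _ => pow_succ _ _)
  have e4 : ∑ r ∈ range n, (X : ℝ[X]) ^ (r + 1) = (∑ r ∈ range n, X ^ r) * X := by
    rw [Finset.sum_mul]
    exact Finset.sum_congr rfl (fun i _ => pow_succ _ _)
  have e5 : ∑ v ∈ range n, (X : ℝ[X]) ^ (L + v + 1) = (∑ r ∈ range n, X ^ r) * X * X ^ L := by
    rw [Finset.sum_mul, Finset.sum_mul]
    refine Finset.sum_congr rfl (fun i _ => ?_)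
    ring
  rw [e3, e4, e5, e1]
  linear_combination (-(∑ v ∈ range n, (X : ℝ[X]) ^ v) * X) * e2

end AuxN1eps

theorem pr_N1eps (h1 : StN1) : StN1eps := by
  intro R j l hjl hlR
  refine ⟨AuxN1eps.eps_le h1 R j, ?_⟩
  have hjR : j < R := hjl.trans hlR
  set L := 8 ^ (R - j) with hL
  set L' := 8 ^ (R - l) with hL'
  have hLpos : 0 < L := by positivity
  have hLpos' : 0 < L' := by positivity
  have hLL : (L : ℝ) = 8 ^ (l - j) * L' := by
    rw [hL, hL']
    push_cast
    rw [← pow_add]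
    congr 1
    omega
  have hLr : (0 : ℝ) < L := by exact_mod_cast hLpos
  have hLr' : (0 : ℝ) < L' := by exact_mod_cast hLpos'
  have ej : epsP R j = C (1 / (L : ℝ)) * ∑ r ∈ range L, X ^ (r + 1) := by
    unfold epsP
    rw [if_pos hjR, hL]
    push_cast
    rfl
  have el : 1 - epsP R l = C (1 / (L' : ℝ)) * ∑ u ∈ range L', (1 - X ^ (u + 1)) := by
    unfold epsP
    rw [if_pos hlR, Finset.sum_sub_distrib, mul_sub]
    have e : C (1 / (L' : ℝ)) * ∑ u ∈ range L', (1 : ℝ[X]) = 1 := by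
      rw [Finset.sum_const, Finset.card_range, nsmul_eq_mul, mul_one, ← C_eq_natCast, ← C_mul]
      rw [one_div, inv_mul_cancel₀ hLr'.ne', C_1]
    rw [e, hL']
    push_cast
    rfl
  have key : (1 - epsP R l) * epsP R j = C (1 / (L' : ℝ) * (1 / (L : ℝ))) *
      ∑ u ∈ range L', (∑ v ∈ range (u + 1), X ^ (v + 1) +
        -∑ v ∈ range (u + 1), X ^ (L + v + 1)) := by
    rw [el, ej, C_mul]
    have e : (∑ u ∈ range L', (1 - (X : ℝ[X]) ^ (u + 1))) * ∑ r ∈ range L, X ^ (r + 1) =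
        ∑ u ∈ range L', (∑ v ∈ range (u + 1), X ^ (v + 1) +
        -∑ v ∈ range (u + 1), X ^ (L + v + 1)) := by
      rw [Finset.sum_mul]
      exact Finset.sum_congr rfl (fun u _ => AuxN1eps.tele (u + 1) L)
    rw [← e]
    ring
  rw [key, h1.2.2.1, abs_of_pos (by positivity)]
  have hs : N1 (∑ u ∈ range L', (∑ v ∈ range (u + 1), (X : ℝ[X]) ^ (v + 1) +
        -∑ v ∈ range (u + 1), X ^ (L + v + 1))) ≤ L' * (2 * L') := by
    refine (AuxN1eps.sum_le h1 _ _).trans ?_
    have h3 : ∀ u ∈ range L', N1 (∑ v ∈ range (u + 1), (X : ℝ[X]) ^ (v + 1) +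
        -∑ v ∈ range (u + 1), X ^ (L + v + 1)) ≤ 2 * L' := by
      intro u hu
      rw [Finset.mem_range] at hu
      have a1 := AuxN1eps.sum_pow_le h1 (u + 1) (fun v => v + 1)
      have a2 := AuxN1eps.sum_pow_le h1 (u + 1) (fun v => L + v + 1)
      have a3 := h1.1 (∑ v ∈ range (u + 1), (X : ℝ[X]) ^ (v + 1))
        (-∑ v ∈ range (u + 1), X ^ (L + v + 1))
      rw [h1.2.2.2.2.2.1] at a3
      have a4 : ((u + 1 : ℕ) : ℝ) ≤ L' := by exact_mod_cast hu
      linarith
    refine (Finset.sum_le_sum h3).trans (le_of_eq ?_)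
    rw [Finset.sum_const, Finset.card_range, nsmul_eq_mul]
  refine (mul_le_mul_of_nonneg_left hs (by positivity)).trans (le_of_eq ?_)
  rw [hLL]
  field_simp

end Pool.Agent.Work.MP_c93117_an.Neg

end
end

section

set_option autoImplicit false

open Polynomial

namespace Pool.Agent.Work.MP_c93117_an.Neg

namespace AuxN1op

theorem pR_nonneg (R : ℕ) : 0 ≤ pR R := by
  unfold pR
  have h : (1 : ℝ) ≤ 8 ^ R := one_le_pow₀ (by norm_num)
  have h2 : 1 / (2 * (8 : ℝ) ^ R) ≤ 1 := by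
    rw [div_le_one (by positivity)]
    linarith
  linarith

theorem pR_le_one (R : ℕ) : pR R ≤ 1 := by
  unfold pR
  have h2 : 0 ≤ 1 / (2 * (8 : ℝ) ^ R) := by positivity
  linarith

theorem pow_bd (h1 : StQabs) (R : ℕ) (F : FF) (B : ℝ) (hB : ∀ s a, |F s a| ≤ B) (n : ℕ) :
    ∀ s a, |((Qop (pR R)) ^ n) F s a| ≤ B := by
  induction n with
  | zero => exact hB
  | succ n ih =>
    intro s a
    rw [pow_succ', Module.End.mul_apply]
    exact h1 (pR R) (pR_nonneg R) (pR_le_one R) _ s a B (fun b _ => ih s b)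

end AuxN1op

theorem pr_N1op (h1 : StQabs) : StN1op := by
  intro R f F B hB s a
  have e1 : op R f F s a = ∑ n ∈ f.support, f.coeff n * ((Qop (pR R)) ^ n) F s a := by
    unfold op
    rw [aeval_eq_sum_range]
    have h2 : (∑ i ∈ Finset.range (f.natDegree + 1), f.coeff i • (Qop (pR R)) ^ i) F s a =
        ∑ i ∈ Finset.range (f.natDegree + 1), f.coeff i * ((Qop (pR R)) ^ i) F s a := by
      rw [LinearMap.sum_apply, Finset.sum_apply, Finset.sum_apply]
      rfl
    rw [h2]
    symm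
    apply Finset.sum_subset
    · intro n hn
      rw [Finset.mem_range, Nat.lt_succ_iff]
      exact le_natDegree_of_mem_supp n hn
    · intro n _ hn
      rw [notMem_support_iff.1 hn, zero_mul]
  rw [e1]
  have e2 : N1 f = ∑ n ∈ f.support, |f.coeff n| := rfl
  rw [e2, Finset.sum_mul]
  refine (Finset.abs_sum_le_sum_abs _ _).trans (Finset.sum_le_sum fun n _ => ?_)
  rw [abs_mul]
  exact mul_le_mul_of_nonneg_left (AuxN1op.pow_bd h1 R F B hB n s a) (abs_nonneg _)

end Pool.Agent.Work.MP_c93117_an.Neg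

end

section

set_option autoImplicit false

namespace Pool.Agent.Work.MP_c93117_an.Neg

namespace AuxPart

theorem FD_refl (F : FD) : F ≤ F := ⟨Finset.Subset.refl _, le_rfl⟩

theorem FD_trans {F G H : FD} (h1 : F ≤ G) (h2 : G ≤ H) : F ≤ H :=
  ⟨Finset.Subset.trans h1.1 h2.1, le_trans h1.2 h2.2⟩

theorem bump_mono {L : Type} [TopologicalSpace L] {φ : C(L, ℝ)} {V W V' W' : Set L}
    (h : Bump φ V V') (h1 : V ⊆ W) (h2 : W' ⊆ V') : Bump φ W W' :=
  ⟨h.1, fun l hl => h.2.1 l (fun h3 => hl (h1 h3)), fun l hl => h.2.2 l (h2 hl)⟩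

/-- the induction over the entries of a coordinate -/
theorem aux (h1 : StOne) (h2 : StInvStep) (h5 : StPiClopen) (L : Type) [MetricSpace L]
    [CompactSpace L] (U : C(L, ℝ) →L[ℝ] C(K, ℝ)) (B M : ℕ) (V : Set L) (F0 : FD) (η : ℝ)
    (hη : 0 < η) : ∀ (r m : ℕ) (V1 : Set L) (F : FD) (G : Set K) (φ : C(L, ℝ)),
    IsOpen V1 → V1 ⊆ V → (V1 ∩ DD L (tp B M r)).Nonempty → F0 ≤ F → IsClopen G →
    PartInv F0 F m G → (∀ q, q ∉ G → ∃ θ : C(L, ℝ), Bump θ V V1 ∧ |U θ q| ≤ η) →
    Bump φ V V1 →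
    ∃ (F1 : FD) (V' : Set L) (φ' : C(L, ℝ)) (G' : Set K), F ≤ F1 ∧ IsOpen V' ∧ V' ⊆ V1 ∧
      (V' ∩ DD L (tp B M 0)).Nonempty ∧ Bump φ' V V' ∧ G' ⊆ G ∧ IsClopen G' ∧
      PartInv F0 F1 (m + r) G' ∧
      (∀ q, q ∉ G' → ∃ θ : C(L, ℝ), Bump θ V V' ∧ |U θ q| ≤ η) := by
  intro r
  induction r with
  | zero =>
    intro m V1 F G φ hV1 _ hne _ hG hI hθ hφ
    exact ⟨F, V1, φ, G, FD_refl F, hV1, subset_rfl, hne, hφ, subset_rfl, hG, hI, hθ⟩
  | succ r ih =>
    intro m V1 F G φ hV1 hV1V hne hF hG hI hθ hφ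
    obtain ⟨e, -, V2, φ2, F2, hV2, hV21, hne2, hφ2, hF2, hU⟩ :=
      h1 L U (tp B M (r + 1)) (fun _ => tp B M r)
        (fun _ => tp_lt.2 (Or.inr ⟨rfl, Or.inr ⟨rfl, Nat.lt_succ_self r⟩⟩)) V1 hV1 hne F η hη 0
    have hG2 : IsClopen (G ∩ {q | piF F2 q ≠ piF F q}) := hG.inter (h5.2.1 F F2)
    have hI2 : PartInv F0 F2 (m + 1) (G ∩ {q | piF F2 q ≠ piF F q}) :=
      h2 F0 F F2 m G hF hF2 hI
    have hθ2 : ∀ q, q ∉ (G ∩ {q | piF F2 q ≠ piF F q}) →
        ∃ θ : C(L, ℝ), Bump θ V V2 ∧ |U θ q| ≤ η := by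
      intro q hq
      by_cases hqG : q ∈ G
      · have h3 : piF F2 q = piF F q := by
          by_contra h4
          exact hq ⟨hqG, h4⟩
        exact ⟨φ2, bump_mono hφ2 hV1V subset_rfl, hU q h3⟩
      · obtain ⟨θ, h3, h4⟩ := hθ q hqG
        exact ⟨θ, bump_mono h3 subset_rfl hV21, h4⟩
    obtain ⟨F1, V', φ', G', k1, k2, k3, k4, k5, k6, k7, k8, k9⟩ :=
      ih (m + 1) V2 F2 _ φ hV2 (hV21.trans hV1V) hne2 (FD_trans hF hF2) hG2 hI2 hθ2
        (bump_mono hφ subset_rfl hV21)
    refine ⟨F1, V', φ', G', FD_trans hF2 k1, k2, k3.trans hV21, k4, k5,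
      k6.trans Set.inter_subset_left, k7, ?_, k9⟩
    have : m + (r + 1) = m + 1 + r := by omega
    rw [this]
    exact k8

end AuxPart

open AuxPart in
theorem pr_Part (h1 : StOne) (h2 : StInvStep) (h3 : StInvEnd) (h4 : StPiLe)
    (h5 : StPiClopen) : StPart := by
  intro L _ _ U B M V hV hne F0 η hη
  obtain ⟨e, he, V1, φ1, F1, hV1, hV1V, hne1, hφ1, hF1, hU⟩ :=
    h1 L U (tp B (M + 1) 0) (fun e => tp B M e)
      (fun _ => tp_lt.2 (Or.inr ⟨rfl, Or.inl (Nat.lt_succ_self M)⟩)) V hV hne F0 η hη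
      (1 + F0.B.sup (fun t => MM t + rr t))
  have hI0 : PartInv F0 F0 0 Set.univ := by
    intro s
    right; right; right; left
    exact ⟨rfl, by omega⟩
  have hI1 := h2 F0 F0 F1 0 Set.univ (FD_refl F0) hF1 hI0
  have hG1 : IsClopen ((Set.univ : Set K) ∩ {q | piF F1 q ≠ piF F0 q}) :=
    isClopen_univ.inter (h5.2.1 F0 F1)
  have hθ1 : ∀ q, q ∉ ((Set.univ : Set K) ∩ {q | piF F1 q ≠ piF F0 q}) →
      ∃ θ : C(L, ℝ), Bump θ V V1 ∧ |U θ q| ≤ η := by
    intro q hq
    refine ⟨φ1, hφ1, hU q ?_⟩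
    by_contra h6
    exact hq ⟨Set.mem_univ q, h6⟩
  obtain ⟨F2, V', φ', G', k1, k2, k3, k4, k5, k6, k7, k8, k9⟩ :=
    aux h1 h2 h5 L U B M V F0 η hη e (0 + 1) V1 F1 _ φ1 hV1 hV1V hne1 hF1 hG1 hI1 hθ1 hφ1
  refine ⟨F2, V', φ', G', FD_trans hF1 k1, k2, k3.trans hV1V, k4, k5, k7, ?_, k9, ?_⟩
  · intro q hq h6
    have h7 : piF F1 q ≠ piF F0 q := (k6 hq).2
    apply h7
    have h8 := h4.2.1 F0 F1 q hF1
    have h9 := h4.2.1 F1 F2 q k1
    rw [h6] at h9
    exact le_antisymm h9 h8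
  · refine h3 F0 F2 (0 + 1 + e) G' (FD_trans hF1 k1) ?_ (by omega) k8
    intro t ht
    have h10 : MM t + rr t ≤ F0.B.sup (fun t => MM t + rr t) :=
      Finset.le_sup (f := fun t => MM t + rr t) ht
    omega

end Pool.Agent.Work.MP_c93117_an.Neg

end

section

set_option autoImplicit false

namespace Pool.Agent.Work.MP_c93117_an.Neg

namespace AuxPiMove

theorem trB_mono {F F' : FD} (h : F ≤ F') (s : List ℕ) : trB F s <:+ trB F' s := by
  rcases tr_spec (fun w => w ∈ F.B) s with h1 | h1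
  · unfold trB
    rw [h1]
    exact List.nil_suffix
  · exact tr_max (P := fun w => w ∈ F'.B) (tr_suffix _ s) (h.1 h1)

end AuxPiMove

theorem pr_PiMove (h1 : StPiNd) : StPiMove := by
  intro F F' R j i s a hF hR hne
  rw [h1 F R j i s a hR, h1 F' R j i s a (le_trans hR hF.2)] at hne
  have hm := AuxPiMove.trB_mono hF s
  have ht : loc R j i a (trB F' s) <:+ trB F' s := loc_suffix _ _ _ _ _
  have key : ¬ (loc R j i a (trB F' s) <:+ trB F s) := by
    intro h2
    apply hne
    apply nd_of_loc_eq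
    exact (tr_between h2 hm).symm
  rcases suffix_total ht hm with h2 | h2
  · exact absurd h2 key
  · refine ⟨loc R j i a (trB F' s), h2, ?_, ht, ?_⟩
    · intro h3
      apply key
      rw [← h3]
    · rcases loc_spec R j i a (trB F' s) with h4 | h4
      · exfalso
        apply key
        rw [h4]
        exact List.nil_suffix
      · exact h4

end Pool.Agent.Work.MP_c93117_an.Neg

end

section

set_option autoImplicit false

namespace Pool.Agent.Work.MP_c93117_an.Neg

namespace AuxQabs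

theorem sum_w (p : ℝ) (a : Finset ℕ) :
    ∑ b ∈ a.powerset, p ^ b.card * (1 - p) ^ (a \ b).card = 1 := by
  have h := Finset.sum_pow_mul_eq_add_pow p (1 - p) a
  rw [add_sub_cancel, one_pow] at h
  refine Eq.trans (Finset.sum_congr rfl ?_) h
  intro b hb
  rw [Finset.card_sdiff_of_subset (Finset.mem_powerset.1 hb)]

end AuxQabs

theorem pr_Qabs : StQabs := by
  intro p hp hp1 F s a B hB
  show |∑ b ∈ a.powerset, p ^ b.card * (1 - p) ^ (a \ b).card * F s b| ≤ B
  calc |∑ b ∈ a.powerset, p ^ b.card * (1 - p) ^ (a \ b).card * F s b|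
      ≤ ∑ b ∈ a.powerset, |p ^ b.card * (1 - p) ^ (a \ b).card * F s b| :=
        Finset.abs_sum_le_sum_abs _ _
    _ ≤ ∑ b ∈ a.powerset, p ^ b.card * (1 - p) ^ (a \ b).card * B := by
        apply Finset.sum_le_sum
        intro b hb
        have hw : 0 ≤ p ^ b.card * (1 - p) ^ (a \ b).card :=
          mul_nonneg (pow_nonneg hp _) (pow_nonneg (sub_nonneg.2 hp1) _)
        rw [abs_mul, abs_of_nonneg hw]
        exact mul_le_mul_of_nonneg_left (hB b (Finset.mem_powerset.1 hb)) hw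
    _ = B := by rw [← Finset.sum_mul, AuxQabs.sum_w, one_mul]

end Pool.Agent.Work.MP_c93117_an.Neg

end

section

/-! Item Rank: the rank function. -/

set_option autoImplicit false

noncomputable section

open Finset

namespace Pool.Agent.Work.MP_c93117_an.Neg

namespace AuxRank

theorem anti {L : Type} [TopologicalSpace L] {x y : Gam} (h : x ≤ y) : DD L y ⊆ DD L x := by
  intro p hp
  rw [mem_DD] at hp ⊢
  intro z hz
  exact hp z (lt_of_lt_of_le hz h)

theorem exmin {L : Type} [TopologicalSpace L] (x : Gam) (hx : DD L x = ∅) (p : L) :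
    ∃ y : Gam, ¬ AccPt p (Filter.principal (DD L y)) ∧
      ∀ z, z < y → AccPt p (Filter.principal (DD L z)) := by
  have hne : {y : Gam | ¬ AccPt p (Filter.principal (DD L y))}.Nonempty := by
    refine ⟨x, ?_⟩
    show ¬ AccPt p (Filter.principal (DD L x))
    rw [hx]
    intro h
    rw [accPt_iff_nhds] at h
    obtain ⟨y, hy, _⟩ := h Set.univ Filter.univ_mem
    exact hy.2
  obtain ⟨y, hy, hmin⟩ := (wellFounded_lt : WellFounded ((· < ·) : Gam → Gam → Prop)).has_min _ hne
  refine ⟨y, hy, ?_⟩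
  intro z hz
  by_contra h
  exact hmin z h hz

end AuxRank

theorem pr_Rank : StRank := by
  intro L _ _ x hx
  choose rk h1 h2 using fun p : L => AuxRank.exmin x hx p
  have hmem : ∀ p, p ∈ DD L (rk p) := fun p => mem_DD.2 (h2 p)
  refine ⟨rk, ?_, ?_⟩
  · intro l
    by_contra h
    have h3 := AuxRank.anti (L := L) (not_lt.1 h) (hmem l)
    rw [hx] at h3
    exact h3
  · intro p
    have h3 := h1 p
    rw [accPt_iff_nhds] at h3
    push Not at h3
    obtain ⟨U, hU, hU2⟩ := h3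
    obtain ⟨V, hVU, hV, hpV⟩ := mem_nhds_iff.1 hU
    refine ⟨V, hV, hpV, ?_⟩
    intro l hl hlp
    by_contra h
    exact hlp (hU2 l ⟨hVU hl, AuxRank.anti (not_lt.1 h) (hmem l)⟩)

end Pool.Agent.Work.MP_c93117_an.Neg

end
end

section

/-!
# Project Neg, item Small: smallness for functions which need many coordinates
-/

set_option autoImplicit false

noncomputable section

open Finset Polynomial

namespace Pool.Agent.Work.MP_c93117_an.Neg

namespace AuxSmall

theorem pR_nonneg (R : ℕ) : 0 ≤ pR R := by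
  unfold pR
  have h1 : (1 : ℝ) ≤ 8 ^ R := one_le_pow₀ (by norm_num)
  have h2 : 1 / (2 * (8 : ℝ) ^ R) ≤ 1 := by
    rw [div_le_one (by positivity)]
    linarith
  linarith

theorem pR_lt (R : ℕ) : pR R < 1 := by
  unfold pR
  have h1 : 0 < 1 / (2 * (8 : ℝ) ^ R) := by positivity
  linarith

/-- words beyond the last block do not matter -/
theorem lft_trb (h : K → ℝ) (R j i : ℕ) (hj : j ≤ R) (hi : i < 2 ^ j) (s : List ℕ)
    (b : Finset ℕ) : lft h R j i s b = lft h R j i (trb (2 ^ R) s) b := by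
  unfold lft
  congr 1
  apply nd_of_loc_eq
  unfold loc trb
  symm
  apply tr_comp
  intro w hw
  show bb w ≤ 2 ^ R
  have h2 : (bb w - 1) / 2 ^ (R - j) < 2 ^ j := by
    rw [hw.1]
    exact hi
  rw [Nat.div_lt_iff_lt_mul (by positivity), ← pow_add, Nat.add_sub_cancel' hj] at h2
  omega

theorem Q_le (h3 : StQthin) (h : K → ℝ) (hh : ∀ q, |h q| ≤ 1) (R j i n : ℕ) (hj : j ≤ R)
    (hi : i < 2 ^ j)
    (hC : ∀ s : List ℕ, bb s ≤ 2 ^ R → ∃ C0 : Finset ℕ, n ≤ C0.card ∧
      ∀ a, h (nd R j i s a) ≠ 0 → C0 ⊆ a)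
    (s : List ℕ) (a : Finset ℕ) : |Qop (pR R) (lft h R j i) s a| ≤ pR R ^ n := by
  have e : Qop (pR R) (lft h R j i) s a = Qop (pR R) (lft h R j i) (trb (2 ^ R) s) a := by
    show ∑ b ∈ a.powerset, pR R ^ b.card * (1 - pR R) ^ (a \ b).card * lft h R j i s b =
      ∑ b ∈ a.powerset, pR R ^ b.card * (1 - pR R) ^ (a \ b).card *
        lft h R j i (trb (2 ^ R) s) b
    refine sum_congr rfl fun b _ => ?_
    rw [lft_trb h R j i hj hi s b]
  rw [e]
  obtain ⟨C0, hc, hC0⟩ := hC (trb (2 ^ R) s) (bb_trb _ _)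
  have h4 := h3 (pR R) (pR_nonneg R) (pR_lt R).le (lft h R j i) (trb (2 ^ R) s) a C0 1
    zero_le_one (fun b _ => hh _) (fun b _ hb => by
      by_contra h5
      exact hb (hC0 b h5))
  rw [mul_one] at h4
  exact h4.trans (pow_le_pow_of_le_one (pR_nonneg R) (pR_lt R).le hc)

/-- the averaging polynomial without one factor `X` -/
def ep (R j : ℕ) : ℝ[X] := C (1 / (8 : ℝ) ^ (R - j)) * ∑ r ∈ range (8 ^ (R - j)), X ^ r

theorem eps_eq (R j : ℕ) (h : j < R) : epsP R j = ep R j * X := by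
  unfold epsP ep
  rw [if_pos h, mul_assoc, sum_mul]
  congr 1

theorem sum_le (h1 : StN1) (S : Finset ℕ) (F : ℕ → ℝ[X]) :
    N1 (∑ i ∈ S, F i) ≤ ∑ i ∈ S, N1 (F i) := by
  obtain ⟨hadd, -, -, -, -, -, -, h0⟩ := h1
  induction S using Finset.induction_on with
  | empty => rw [Finset.sum_empty, Finset.sum_empty, h0]
  | insert a S ha ih =>
    rw [Finset.sum_insert ha, Finset.sum_insert ha]
    exact (hadd _ _).trans (by linarith)

theorem ep_le (h1 : StN1) (R j : ℕ) : N1 (ep R j) ≤ 1 := by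
  unfold ep
  rw [h1.2.2.1, abs_of_pos (by positivity)]
  have h2 : N1 (∑ r ∈ range (8 ^ (R - j)), (X : ℝ[X]) ^ r) ≤ ((8 ^ (R - j) : ℕ) : ℝ) := by
    refine (sum_le h1 _ _).trans (le_of_eq ?_)
    rw [Finset.sum_congr rfl (fun i _ => h1.2.2.2.1 i)]
    simp
  refine (mul_le_mul_of_nonneg_left h2 (by positivity)).trans (le_of_eq ?_)
  push_cast
  field_simp

theorem op_le (h4 : StN1op) (h5 : StN1Pi) (h6 : StN1) (R j j' : ℕ) (hj : j ≤ R) (hj' : j' < R)
    (F : FF) (B : ℝ) (hF : ∀ s a, |Qop (pR R) F s a| ≤ B) (s : List ℕ) (a : Finset ℕ) :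
    |op R (PiP R j * epsP R j') F s a| ≤ 3 * B := by
  have hB : 0 ≤ B := (abs_nonneg _).trans (hF [] ∅)
  have e : op R (PiP R j * epsP R j') F = op R (PiP R j * ep R j') (Qop (pR R) F) := by
    rw [eps_eq R j' hj', ← mul_assoc]
    unfold op
    rw [map_mul (aeval (Qop (pR R))) (PiP R j * ep R j') X, aeval_X]
    rfl
  rw [e]
  have hN : N1 (PiP R j * ep R j') ≤ 3 := by
    have e1 := h6.2.1 (PiP R j) (ep R j')
    have e2 := h5.1 R j hj
    have e3 := ep_le h6 R j'
    have e4 := h6.2.2.2.2.2.2.1 (PiP R j)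
    have e5 := h6.2.2.2.2.2.2.1 (ep R j')
    nlinarith
  exact (h4 R (PiP R j * ep R j') (Qop (pR R) F) B hF s a).trans
    (mul_le_mul_of_nonneg_right hN hB)

theorem D_le (R j i : ℕ) (F : FF) (B : ℝ) (hF : ∀ s a, |F s a| ≤ B) (s : List ℕ) (a : Finset ℕ) :
    |Dop R j i F s a| ≤ 2 * B := by
  have h1 := hF (trb ((i + 1) * 2 ^ (R - j)) s) a
  have h2 := hF (trb (i * 2 ^ (R - j)) s) a
  show |F (trb ((i + 1) * 2 ^ (R - j)) s) a - F (trb (i * 2 ^ (R - j)) s) a| ≤ 2 * B
  rw [abs_le] at h1 h2 ⊢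
  constructor <;> linarith

theorem row_eq (h : K → ℝ) (R j i : ℕ) : rowF h R j i =
    ∑ j' ∈ range (R + 1), ∑ i' ∈ range (2 ^ j'), ((4 : ℝ) ^ j * (1 / 4) ^ j') •
      Dop R j i (op R (PiP R j * epsP R j') (lft h R j' i')) := by
  unfold rowF fR
  rw [map_sum, map_sum, smul_sum]
  refine sum_congr rfl fun j' _ => ?_
  rw [map_smul, map_smul, smul_smul, map_sum, map_sum, map_sum, smul_sum]
  refine sum_congr rfl fun i' _ => ?_
  unfold op
  rw [map_mul]
  rfl

/-- the components that are not low vanish -/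
theorem lft_zero (h : K → ℝ) (R0 : ℕ) (hl : ∀ q, ¬ low R0 q → h q = 0) (R j i : ℕ)
    (hR : ¬ (R ≤ R0 ∧ j < R)) : lft h R j i = 0 := by
  funext s a
  show h (nd R j i s a) = 0
  apply hl
  by_cases hv : j ≤ R ∧ i < 2 ^ j
  · rw [nd_eq hv]
    exact hR
  · rw [nd_invalid hv]
    exact fun h1 => h1

end AuxSmall

open AuxSmall in
theorem pr_Small (h1 : StComm) (h2 : StQabs) (h3 : StQthin) (h4 : StN1op) (h5 : StN1Pi)
    (h6 : StN1) : StSmall := by
  intro R0 δ hδ
  have hn : ∀ R : ℕ, ∃ n : ℕ,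
      ((R + 1 : ℕ) : ℝ) * (2 ^ R * (4 ^ R * (2 * (3 * pR R ^ n)))) ≤ δ := by
    intro R
    have hC : (0 : ℝ) < ((R + 1 : ℕ) : ℝ) * (2 ^ R * (4 ^ R * (2 * 3))) := by positivity
    obtain ⟨n, hn⟩ := exists_pow_lt_of_lt_one (div_pos hδ hC) (pR_lt R)
    refine ⟨n, ?_⟩
    rw [lt_div_iff₀ hC] at hn
    calc ((R + 1 : ℕ) : ℝ) * (2 ^ R * (4 ^ R * (2 * (3 * pR R ^ n))))
        = pR R ^ n * (((R + 1 : ℕ) : ℝ) * (2 ^ R * (4 ^ R * (2 * 3)))) := by ring
      _ ≤ δ := hn.le
  choose n hn using hn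
  refine ⟨∑ R ∈ range (R0 + 1), (n R + 2 ^ R), ?_⟩
  intro h hh hl hC q
  rcases q with _ | x
  · show |(0 : ℝ)| ≤ δ
    rw [abs_zero]
    exact hδ.le
  · show |rowF h x.R x.j x.i x.s x.a| ≤ δ
    obtain ⟨R, j, i, s, a, hj, hi, ha, hs⟩ := x
    simp only
    rw [row_eq, Finset.sum_apply, Finset.sum_apply]
    by_cases hR : R ≤ R0
    · have hp0 : 0 ≤ pR R ^ n R := pow_nonneg (pR_nonneg R) _
      have hN : n R + 2 ^ R ≤ ∑ R ∈ range (R0 + 1), (n R + 2 ^ R) :=
        Finset.single_le_sum (f := fun R => n R + 2 ^ R) (fun _ _ => Nat.zero_le _)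
          (mem_range.2 (by omega))
      have key : ∀ j' ∈ range (R + 1), ∀ i' ∈ range (2 ^ j'),
          |(((4 : ℝ) ^ j * (1 / 4) ^ j') •
            Dop R j i (op R (PiP R j * epsP R j') (lft h R j' i'))) s a| ≤
          4 ^ R * (2 * (3 * pR R ^ n R)) := by
        intro j' hj' i' hi'
        rw [mem_range] at hj' hi'
        by_cases hjR : j' < R
        · show |((4 : ℝ) ^ j * (1 / 4) ^ j') *
            Dop R j i (op R (PiP R j * epsP R j') (lft h R j' i')) s a| ≤ _
          rw [abs_mul, abs_of_nonneg (show (0 : ℝ) ≤ 4 ^ j * (1 / 4) ^ j' by positivity)]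
          have hQ : ∀ s a, |Qop (pR R) (lft h R j' i') s a| ≤ pR R ^ n R := by
            apply Q_le h3 h hh R j' i' (n R) hjR.le hi'
            intro s hs
            obtain ⟨C0, hc, hC0⟩ := hC R hR j' hjR i' hi' s hs
            exact ⟨C0, by omega, hC0⟩
          have hD := D_le R j i (op R (PiP R j * epsP R j') (lft h R j' i'))
            (3 * pR R ^ n R) (op_le h4 h5 h6 R j j' hj hjR _ _ hQ) s a
          have hc : (4 : ℝ) ^ j * (1 / 4) ^ j' ≤ 4 ^ R := by
            have e1 : (4 : ℝ) ^ j ≤ 4 ^ R := pow_le_pow_right₀ (by norm_num) hj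
            have e2 : (1 / 4 : ℝ) ^ j' ≤ 1 := pow_le_one₀ (by norm_num) (by norm_num)
            have e3 : (0 : ℝ) ≤ (1 / 4) ^ j' := by positivity
            calc (4 : ℝ) ^ j * (1 / 4) ^ j' ≤ 4 ^ R * 1 :=
                  mul_le_mul e1 e2 e3 (by positivity)
              _ = 4 ^ R := mul_one _
          exact mul_le_mul hc hD (abs_nonneg _) (by positivity)
        · rw [lft_zero h R0 hl R j' i' (by omega), map_zero, map_zero, smul_zero]
          show |(0 : ℝ)| ≤ _
          rw [abs_zero]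
          positivity
      refine (abs_sum_le_sum_abs _ _).trans (le_trans ?_ (hn R))
      have key2 : ∀ j' ∈ range (R + 1),
          |(∑ i' ∈ range (2 ^ j'), ((4 : ℝ) ^ j * (1 / 4) ^ j') •
            Dop R j i (op R (PiP R j * epsP R j') (lft h R j' i'))) s a| ≤
          2 ^ R * (4 ^ R * (2 * (3 * pR R ^ n R))) := by
        intro j' hj'
        rw [Finset.sum_apply, Finset.sum_apply]
        refine (abs_sum_le_sum_abs _ _).trans ((sum_le_sum (key j' hj')).trans ?_)
        rw [sum_const, card_range, nsmul_eq_mul]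
        refine mul_le_mul_of_nonneg_right ?_ (by positivity)
        push_cast
        exact pow_le_pow_right₀ (by norm_num) (by have := mem_range.1 hj'; omega)
      refine (sum_le_sum key2).trans (le_of_eq ?_)
      rw [sum_const, card_range, nsmul_eq_mul]
    · have hz : ∀ j' ∈ range (R + 1), (∑ i' ∈ range (2 ^ j'), ((4 : ℝ) ^ j * (1 / 4) ^ j') •
            Dop R j i (op R (PiP R j * epsP R j') (lft h R j' i'))) s a = 0 := by
        intro j' _
        rw [Finset.sum_apply, Finset.sum_apply]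
        refine sum_eq_zero fun i' _ => ?_
        rw [lft_zero h R0 hl R j' i' (by omega), map_zero, map_zero, smul_zero]
        rfl
      rw [sum_eq_zero hz, abs_zero]
      exact hδ.le

end Pool.Agent.Work.MP_c93117_an.Neg

end
end

section

/-!
# Project Neg (MP_c93117_an): the step lemma
-/

set_option autoImplicit false

noncomputable section

open Finset

namespace Pool.Agent.Work.MP_c93117_an.Neg

namespace AuxStep

open Topology

/-- points of `C` near an accumulation point outside a finite set -/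
theorem exists_pt {L : Type} [MetricSpace L] {p : L} {C V : Set L}
    (hp : AccPt p (Filter.principal C)) (hV : IsOpen V) (hpV : p ∈ V) (S : Finset L) :
    ∃ y ∈ V ∩ C, y ∉ S := by
  classical
  have h1 : ∃ᶠ y in 𝓝 p, y ≠ p ∧ y ∈ C := accPt_iff_frequently.1 hp
  have h2 : V ∩ ((S.erase p : Finset L) : Set L)ᶜ ∈ 𝓝 p := by
    apply (hV.inter (S.erase p).finite_toSet.isClosed.isOpen_compl).mem_nhds
    refine ⟨hpV, ?_⟩
    simp
  obtain ⟨y, ⟨hy1, hy2⟩, hy3, hy4⟩ := (h1.and_eventually h2).exists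
  refine ⟨y, ⟨hy3, hy2⟩, fun hy => hy4 ?_⟩
  rw [Finset.mem_coe, Finset.mem_erase]
  exact ⟨hy1, hy⟩

/-- distinct points -/
theorem exists_pts {L : Type} [MetricSpace L] (P : ℕ → Set L)
    (hP : ∀ (e : ℕ) (S : Finset L), ∃ y ∈ P e, y ∉ S) (n : ℕ) :
    ∃ f : ℕ → L, (∀ i < n, f i ∈ P i) ∧ ∀ i < n, ∀ j < n, i ≠ j → f i ≠ f j := by
  classical
  induction n with
  | zero =>
    obtain ⟨y, -, -⟩ := hP 0 ∅
    exact ⟨fun _ => y, fun i hi => absurd hi (Nat.not_lt_zero i),
      fun i hi => absurd hi (Nat.not_lt_zero i)⟩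
  | succ n ih =>
    obtain ⟨f, hf1, hf2⟩ := ih
    obtain ⟨y, hy1, hy2⟩ := hP n ((range n).image f)
    have hy3 : ∀ i < n, f i ≠ y := by
      intro i hi h
      exact hy2 (Finset.mem_image.2 ⟨i, Finset.mem_range.2 hi, h⟩)
    refine ⟨fun i => if i = n then y else f i, ?_, ?_⟩
    · intro i hi
      dsimp only
      split_ifs with h
      · rw [h]
        exact hy1
      · exact hf1 i (by omega)
    · intro i hi j hj hij
      dsimp only
      split_ifs with h h' h'
      · omega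
      · exact (hy3 j (by omega)).symm
      · exact hy3 i (by omega)
      · exact hf2 i (by omega) j (by omega) hij

/-- a common radius -/
theorem exists_rad {L : Type} [MetricSpace L] {V : Set L} (hV : IsOpen V) (n : ℕ) (f : ℕ → L)
    (h1 : ∀ i < n, f i ∈ V) (h2 : ∀ i < n, ∀ j < n, i ≠ j → f i ≠ f j) :
    ∃ r : ℝ, 0 < r ∧ (∀ i < n, Metric.ball (f i) r ⊆ V) ∧
      ∀ i < n, ∀ j < n, i ≠ j → 2 * r < dist (f i) (f j) := by
  have e1 : ∀ᶠ r : ℝ in 𝓝[>] 0, 0 < r := eventually_mem_nhdsWithin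
  have e2 : ∀ᶠ r : ℝ in 𝓝[>] 0, ∀ i ∈ range n, Metric.ball (f i) r ⊆ V := by
    rw [Filter.eventually_all_finset]
    intro i hi
    obtain ⟨ε, hε, hb⟩ := Metric.isOpen_iff.1 hV (f i) (h1 i (Finset.mem_range.1 hi))
    have h3 : ∀ᶠ r : ℝ in 𝓝[>] 0, r < ε :=
      Filter.Tendsto.eventually_lt_const hε (Filter.tendsto_id.mono_left nhdsWithin_le_nhds)
    filter_upwards [h3] with r hr
    exact (Metric.ball_subset_ball hr.le).trans hb
  have e3 : ∀ᶠ r : ℝ in 𝓝[>] 0, ∀ i ∈ range n, ∀ j ∈ range n, i ≠ j →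
      2 * r < dist (f i) (f j) := by
    rw [Filter.eventually_all_finset]
    intro i hi
    rw [Filter.eventually_all_finset]
    intro j hj
    by_cases hij : i = j
    · exact Filter.Eventually.of_forall fun r h => absurd hij h
    · have hd : 0 < dist (f i) (f j) / 2 := by
        have := dist_pos.2 (h2 i (Finset.mem_range.1 hi) j (Finset.mem_range.1 hj) hij)
        positivity
      have h3 : ∀ᶠ r : ℝ in 𝓝[>] 0, r < dist (f i) (f j) / 2 :=
        Filter.Tendsto.eventually_lt_const hd (Filter.tendsto_id.mono_left nhdsWithin_le_nhds)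
      filter_upwards [h3] with r hr _
      linarith
  obtain ⟨r, hr1, hr2, hr3⟩ := (e1.and (e2.and e3)).exists
  exact ⟨r, hr1, fun i hi => hr2 i (Finset.mem_range.2 hi),
    fun i hi j hj => hr3 i (Finset.mem_range.2 hi) j (Finset.mem_range.2 hj)⟩

/-- the bump function -/
def bmp {L : Type} [MetricSpace L] (p : L) (r : ℝ) : C(L, ℝ) where
  toFun l := max 0 (min 1 (2 - 2 * dist l p / r))
  continuous_toFun := by fun_prop

theorem bmp_nonneg {L : Type} [MetricSpace L] (p : L) (r : ℝ) (l : L) : 0 ≤ bmp p r l :=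
  le_max_left _ _

theorem bmp_le_one {L : Type} [MetricSpace L] (p : L) (r : ℝ) (l : L) : bmp p r l ≤ 1 :=
  max_le zero_le_one (min_le_left _ _)

theorem bmp_zero {L : Type} [MetricSpace L] {p : L} {r : ℝ} (hr : 0 < r) {l : L}
    (h : r ≤ dist l p) : bmp p r l = 0 := by
  apply max_eq_left
  apply (min_le_right _ _).trans
  have : 2 ≤ 2 * dist l p / r := by
    rw [le_div_iff₀ hr]
    linarith
  linarith

theorem bmp_one {L : Type} [MetricSpace L] {p : L} {r : ℝ} (hr : 0 < r) {l : L}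
    (h : dist l p ≤ r / 2) : bmp p r l = 1 := by
  have h1 : 2 * dist l p / r ≤ 1 := by
    rw [div_le_iff₀ hr]
    linarith
  have h2 : min 1 (2 - 2 * dist l p / r) = 1 := min_eq_left (by linarith)
  change max 0 (min 1 (2 - 2 * dist l p / r)) = 1
  rw [h2]
  exact max_eq_right zero_le_one

/-- the sum of the absolute values -/
theorem sum_le {L : Type} [MetricSpace L] [CompactSpace L] (U : C(L, ℝ) →L[ℝ] C(K, ℝ))
    (n : ℕ) (φ : ℕ → C(L, ℝ)) (h0 : ∀ i l, 0 ≤ φ i l ∧ φ i l ≤ 1)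
    (hd : ∀ l : L, ∀ i < n, ∀ j < n, i ≠ j → φ i l = 0 ∨ φ j l = 0) (q : K) :
    ∑ i ∈ range n, |U (φ i) q| ≤ ‖U‖ := by
  classical
  set sg : ℕ → ℝ := fun i => if 0 ≤ U (φ i) q then 1 else -1 with hsg
  have hsg1 : ∀ i, |sg i| = 1 := by
    intro i
    rw [hsg]
    dsimp only
    split_ifs
    · exact abs_one
    · rw [abs_neg, abs_one]
  have h1 : ∀ i, |U (φ i) q| = sg i * U (φ i) q := by
    intro i
    rw [hsg]
    dsimp only
    split_ifs with h
    · rw [abs_of_nonneg h, one_mul]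
    · rw [abs_of_neg (not_le.1 h)]
      ring
  have h2 : ∑ i ∈ range n, |U (φ i) q| = U (∑ i ∈ range n, sg i • φ i) q := by
    rw [map_sum, ContinuousMap.coe_sum, Finset.sum_apply]
    refine Finset.sum_congr rfl fun i _ => ?_
    rw [h1, map_smul]
    rfl
  have h3 : ‖∑ i ∈ range n, sg i • φ i‖ ≤ 1 := by
    rw [ContinuousMap.norm_le _ zero_le_one]
    intro l
    rw [ContinuousMap.coe_sum, Finset.sum_apply]
    by_cases hex : ∃ i ∈ range n, φ i l ≠ 0
    · obtain ⟨i, hi, hne⟩ := hex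
      rw [Finset.sum_eq_single i]
      · rw [ContinuousMap.smul_apply, smul_eq_mul, Real.norm_eq_abs, abs_mul, hsg1, one_mul,
          abs_of_nonneg (h0 i l).1]
        exact (h0 i l).2
      · intro j hj hji
        have := (hd l j (Finset.mem_range.1 hj) i (Finset.mem_range.1 hi) hji).resolve_right hne
        rw [ContinuousMap.smul_apply, this, smul_zero]
      · intro h
        exact absurd hi h
    · push Not at hex
      rw [Finset.sum_eq_zero]
      · rw [norm_zero]
        exact zero_le_one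
      · intro i hi
        rw [ContinuousMap.smul_apply, hex i hi, smul_zero]
  rw [h2]
  have h4 : |U (∑ i ∈ range n, sg i • φ i) q| ≤ ‖U (∑ i ∈ range n, sg i • φ i)‖ := by
    rw [← Real.norm_eq_abs]
    exact ContinuousMap.norm_coe_le_norm (U (∑ i ∈ range n, sg i • φ i)) q
  calc U (∑ i ∈ range n, sg i • φ i) q ≤ |U (∑ i ∈ range n, sg i • φ i) q| := le_abs_self _
    _ ≤ ‖U (∑ i ∈ range n, sg i • φ i)‖ := h4
    _ ≤ ‖U‖ * ‖∑ i ∈ range n, sg i • φ i‖ := U.le_opNorm _
    _ ≤ ‖U‖ * 1 := mul_le_mul_of_nonneg_left h3 U.opNorm_nonneg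
    _ = ‖U‖ := mul_one _

end AuxStep

theorem pr_Step : StStep := by
  classical
  intro L _ _ U x xe hxe V hV hne A hA η hη e0
  obtain ⟨p, hpV, hpx⟩ := hne
  rw [mem_DD] at hpx
  obtain ⟨n, hn⟩ := exists_nat_gt ((hA.toFinset.card * ‖U‖) / η)
  have hn0 : hA.toFinset.card * ‖U‖ < n * η := by
    rwa [div_lt_iff₀ hη] at hn
  have hnpos : 0 < n := by
    have : (0 : ℝ) < n := lt_of_le_of_lt (by positivity) hn
    exact_mod_cast this
  obtain ⟨f, hf1, hf2⟩ := AuxStep.exists_pts (fun i => V ∩ DD L (xe (e0 + i)))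
    (fun i S => AuxStep.exists_pt (hpx _ (hxe _)) hV hpV S) n
  obtain ⟨r, hr, hr1, hr2⟩ := AuxStep.exists_rad hV n f (fun i hi => (hf1 i hi).1) hf2
  have hsum := AuxStep.sum_le U n (fun i => AuxStep.bmp (f i) r)
    (fun i l => ⟨AuxStep.bmp_nonneg _ _ _, AuxStep.bmp_le_one _ _ _⟩) (by
      intro l i hi j hj hij
      by_contra hcon
      push Not at hcon
      have h1 : dist l (f i) < r := by
        by_contra h
        exact hcon.1 (AuxStep.bmp_zero hr (not_lt.1 h))
      have h2 : dist l (f j) < r := by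
        by_contra h
        exact hcon.2 (AuxStep.bmp_zero hr (not_lt.1 h))
      have h3 := dist_triangle_left (f i) (f j) l
      have h4 := hr2 i hi j hj hij
      linarith)
  have hex : ∃ i < n, ∀ q ∈ A, |U (AuxStep.bmp (f i) r) q| ≤ η := by
    by_contra hcon
    push Not at hcon
    have h1 : ∀ i ∈ range n, η ≤ ∑ q ∈ hA.toFinset, |U (AuxStep.bmp (f i) r) q| := by
      intro i hi
      obtain ⟨q, hq, hlt⟩ := hcon i (Finset.mem_range.1 hi)
      exact hlt.le.trans (Finset.single_le_sum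
        (f := fun q => |U (AuxStep.bmp (f i) r) q|) (fun q _ => abs_nonneg _)
        (hA.mem_toFinset.2 hq))
    have h2 := Finset.sum_le_sum h1
    rw [Finset.sum_comm, Finset.sum_const, Finset.card_range, nsmul_eq_mul] at h2
    have h3 : ∑ q ∈ hA.toFinset, ∑ i ∈ range n, |U (AuxStep.bmp (f i) r) q| ≤
        ∑ q ∈ hA.toFinset, ‖U‖ := Finset.sum_le_sum fun q _ => hsum q
    rw [Finset.sum_const, nsmul_eq_mul] at h3
    linarith
  obtain ⟨i, hi, hiA⟩ := hex
  refine ⟨e0 + i, Nat.le_add_right _ _, Metric.ball (f i) (r / 2), AuxStep.bmp (f i) r,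
    Metric.isOpen_ball, ?_, ⟨f i, ?_, (hf1 i hi).2⟩, ⟨?_, ?_, ?_⟩, hiA⟩
  · exact (Metric.ball_subset_ball (by linarith)).trans (hr1 i hi)
  · exact Metric.mem_ball_self (by positivity)
  · exact fun l => ⟨AuxStep.bmp_nonneg _ _ _, AuxStep.bmp_le_one _ _ _⟩
  · intro l hl
    apply AuxStep.bmp_zero hr
    by_contra h
    exact hl (hr1 i hi (Metric.mem_ball.2 (not_le.1 h)))
  · intro l hl
    exact AuxStep.bmp_one hr (Metric.mem_ball.1 hl).le

end Pool.Agent.Work.MP_c93117_an.Neg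

end
end
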