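import Mathlib

/-! Bundle of small proof modules (one section per former module). -/

section

/-!
# Odd functions on a countable compact Hausdorff space with an involution
with at most one fixed point.  helper64
-/

set_option autoImplicit false

namespace Pool.Agent.Work.MP_c93117_an.I

open Set Topology

/-- the odd functions -/
def oddSub {M : Type*} [TopologicalSpace M] (τ : M → M) : Submodule ℝ C(M, ℝ) where
  carrier := {g | ∀ x, g (τ x) = - g x}
  add_mem' {a b} ha hb x := by
    rw [ContinuousMap.add_apply, ContinuousMap.add_apply, ha x, hb x]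
    ring
  zero_mem' x := by simp
  smul_mem' c g hg x := by
    rw [ContinuousMap.smul_apply, ContinuousMap.smul_apply, hg x]
    simp

theorem mem_oddSub {M : Type*} [TopologicalSpace M] (τ : M → M) (g : C(M, ℝ)) :
    g ∈ oddSub τ ↔ ∀ x, g (τ x) = - g x := Iff.rfl

namespace OddX

variable {M : Type} [TopologicalSpace M] [CompactSpace M] [T2Space M] [Countable M]

/-- countable compact Hausdorff spaces are metrizable -/
theorem metrizable (M : Type*) [TopologicalSpace M] [CompactSpace M] [T2Space M] [Countable M] :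
    TopologicalSpace.MetrizableSpace M := by
  classical
  have h : ∀ p : M × M, ∃ U : Set M, IsClopen U ∧ (p.1 ≠ p.2 → p.1 ∈ U ∧ p.2 ∉ U) := by
    intro p
    by_cases hp : p.1 = p.2
    · exact ⟨∅, isClopen_empty, fun h => absurd hp h⟩
    · obtain ⟨U, hU, h1, h2⟩ := exists_isClopen_of_totally_separated hp
      exact ⟨U, hU, fun _ => ⟨h1, h2⟩⟩
  choose U hU hU2 using h
  let F : M → (M × M → Bool) := fun x p => decide (x ∈ U p)
  have hF : Continuous F := by
    refine continuous_pi fun p => ?_
    rw [continuous_discrete_rng]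
    intro b
    cases b with
    | true =>
      have : (fun x => F x p) ⁻¹' {true} = U p := by
        ext x; simp [F]
      rw [this]; exact (hU p).isOpen
    | false =>
      have : (fun x => F x p) ⁻¹' {false} = (U p)ᶜ := by
        ext x; simp [F]
      rw [this]; exact (hU p).compl.isOpen
  have hinj : Function.Injective F := by
    intro x y hxy
    by_contra hne
    obtain ⟨h1, h2⟩ := hU2 (x, y) hne
    have h3 := congrFun hxy (x, y)
    simp only [F] at h3
    have h4 : decide (x ∈ U (x, y)) = true := decide_eq_true h1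
    have h5 : decide (y ∈ U (x, y)) = false := decide_eq_false h2
    rw [h4, h5] at h3
    exact absurd h3 (by simp)
  exact (hF.isClosedEmbedding hinj).isEmbedding.metrizableSpace

/-- an open fundamental domain -/
theorem exists_domain (τ : M → M) (hτ : Continuous τ) (hττ : ∀ x, τ (τ x) = x) :
    ∃ A : Set M, IsOpen A ∧ (∀ x ∈ A, τ x ∉ A) ∧ ∀ x, τ x ≠ x → x ∈ A ∨ τ x ∈ A := by
  classical
  have h : ∀ x : M, ∃ U : Set M, IsClopen U ∧ (∀ y ∈ U, τ y ∉ U) ∧ (τ x ≠ x → x ∈ U) := by
    intro x
    by_cases hx : τ x = x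
    · exact ⟨∅, isClopen_empty, fun _ h => absurd h (notMem_empty _), fun h => absurd hx h⟩
    · have hx' : x ≠ τ x := fun h => hx h.symm
      obtain ⟨U, hU, h1, h2⟩ := exists_isClopen_of_totally_separated hx'
      refine ⟨U ∩ (τ ⁻¹' U)ᶜ, hU.inter (hU.preimage hτ).compl, ?_, fun _ => ⟨h1, h2⟩⟩
      rintro y ⟨_, hy2⟩ ⟨hy3, _⟩
      exact hy2 hy3
  choose U hU hU1 hU2 using h
  have : Encodable M := Encodable.ofCountable M
  let V : ℕ → Set M := fun n => match (Encodable.decode n : Option M) with
    | some x => U x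
    | none => ∅
  have hV : ∀ n, IsClopen (V n) := by
    intro n
    simp only [V]
    split
    · exact hU _
    · exact isClopen_empty
  have hV1 : ∀ n, ∀ y ∈ V n, τ y ∉ V n := by
    intro n
    simp only [V]
    split
    · exact hU1 _
    · exact fun _ h => absurd h (notMem_empty _)
  have hV2 : ∀ x, τ x ≠ x → ∃ n, x ∈ V n := by
    intro x hx
    refine ⟨Encodable.encode x, ?_⟩
    simp only [V, Encodable.encodek]
    exact hU2 x hx
  refine ⟨⋃ n, (V n ∩ ⋂ m ∈ Finset.range n, ((V m)ᶜ ∩ (τ ⁻¹' V m)ᶜ)), ?_, ?_, ?_⟩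
  · refine isOpen_iUnion fun n => (hV n).isOpen.inter ?_
    exact isOpen_biInter_finset fun m _ =>
      (hV m).compl.isOpen.inter ((hV m).preimage hτ).compl.isOpen
  · intro x hx hx'
    simp only [mem_iUnion, mem_inter_iff, mem_iInter, Finset.mem_range, mem_compl_iff,
      mem_preimage] at hx hx'
    obtain ⟨n, hn, hn2⟩ := hx
    obtain ⟨k, hk, hk2⟩ := hx'
    rcases lt_trichotomy n k with hlt | heq | hgt
    · have := (hk2 n hlt).2
      rw [hττ] at this
      exact this hn
    · subst heq
      exact hV1 n x hn hk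
    · exact (hn2 k hgt).2 hk
  · intro x hx
    have hex : ∃ n, x ∈ V n ∨ τ x ∈ V n := by
      obtain ⟨n, hn⟩ := hV2 x hx
      exact ⟨n, Or.inl hn⟩
    have h1 := Nat.find_spec hex
    have h2 : ∀ m < Nat.find hex, ¬ (x ∈ V m ∨ τ x ∈ V m) := fun m hm => Nat.find_min hex hm
    rcases h1 with h1 | h1
    · left
      rw [mem_iUnion]
      refine ⟨Nat.find hex, h1, ?_⟩
      simp only [mem_iInter, Finset.mem_range, mem_inter_iff, mem_compl_iff, mem_preimage]
      intro m hm
      have := h2 m hm
      exact ⟨fun h => this (Or.inl h), fun h => this (Or.inr h)⟩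
    · right
      rw [mem_iUnion]
      refine ⟨Nat.find hex, h1, ?_⟩
      simp only [mem_iInter, Finset.mem_range, mem_inter_iff, mem_compl_iff, mem_preimage]
      intro m hm
      have := h2 m hm
      refine ⟨fun h => this (Or.inr h), fun h => this (Or.inl ?_)⟩
      rw [hττ] at h
      exact h

omit [T2Space M] [Countable M] in
/-- building the isomorphism -/
theorem iso_of (τ : M → M) {L : Type} [TopologicalSpace L] [CompactSpace L]
    (T : oddSub τ →ₗ[ℝ] C(L, ℝ)) (S : C(L, ℝ) →ₗ[ℝ] oddSub τ) (h1 : ∀ g, S (T g) = g)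
    (h2 : ∀ h, T (S h) = h) (b1 : ∀ g, ‖T g‖ ≤ 2 * ‖g‖) (b2 : ∀ h, ‖S h‖ ≤ 2 * ‖h‖) :
    Nonempty (oddSub τ ≃L[ℝ] C(L, ℝ)) := by
  let e : oddSub τ ≃ₗ[ℝ] C(L, ℝ) :=
    { T with
      invFun := S
      left_inv := h1
      right_inv := h2 }
  exact ⟨e.toContinuousLinearEquivOfBounds 2 2 b1 b2⟩

omit [Countable M] in
/-- the fundamental domain is clopen -/
theorem iso_clopen (τ : M → M) (hτ : Continuous τ) (hττ : ∀ x, τ (τ x) = x)
    (A : Set M) (hA : IsClopen A) (hA1 : ∀ x ∈ A, τ x ∉ A)
    (hA2 : ∀ x, τ x ≠ x → x ∈ A ∨ τ x ∈ A) [CompactSpace A] :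
    Nonempty (oddSub τ ≃L[ℝ] C(A, ℝ)) := by
  classical
  let sf : C(A, ℝ) → M → ℝ := fun h y =>
    if hy : y ∈ A then h ⟨y, hy⟩ else if hy' : τ y ∈ A then - h ⟨τ y, hy'⟩ else 0
  have hsf : ∀ h, Continuous (sf h) := by
    intro h
    obtain ⟨h', hh'⟩ := ContinuousMap.exists_restrict_eq hA.isClosed h
    have e : sf h = A.piecewise h' ((τ ⁻¹' A).piecewise (fun y => - h' (τ y)) (fun _ => 0)) := by
      funext y
      by_cases hy : y ∈ A
      · rw [piecewise_eq_of_mem _ _ _ hy]
        simp only [sf, dif_pos hy]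
        rw [← hh']
        rfl
      · rw [piecewise_eq_of_notMem _ _ _ hy]
        by_cases hy' : τ y ∈ A
        · rw [piecewise_eq_of_mem _ _ _ (show y ∈ τ ⁻¹' A from hy')]
          simp only [sf, dif_neg hy, dif_pos hy']
          rw [← hh']
          rfl
        · rw [piecewise_eq_of_notMem _ _ _ (show y ∉ τ ⁻¹' A from hy')]
          simp only [sf, dif_neg hy, dif_neg hy']
    rw [e]
    refine Continuous.piecewise ?_ h'.continuous (Continuous.piecewise ?_ ?_ continuous_const)
    · intro a ha
      rw [hA.frontier_eq] at ha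
      exact absurd ha (notMem_empty _)
    · intro a ha
      rw [(hA.preimage hτ).frontier_eq] at ha
      exact absurd ha (notMem_empty _)
    · exact (h'.continuous.comp hτ).neg
  have hodd : ∀ h x, sf h (τ x) = - sf h x := by
    intro h x
    by_cases hx : x ∈ A
    · have h1 : τ x ∉ A := hA1 x hx
      have h2 : τ (τ x) ∈ A := by rw [hττ]; exact hx
      simp only [sf, dif_pos hx, dif_neg h1, dif_pos h2]
      congr 2
      exact Subtype.ext (hττ x)
    · by_cases hx' : τ x ∈ A
      · simp only [sf, dif_neg hx, dif_pos hx']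
        rw [neg_neg]
      · have h2 : τ (τ x) ∉ A := by rw [hττ]; exact hx
        simp only [sf, dif_neg hx, dif_neg hx', dif_neg h2]
        simp
  have hbd : ∀ (h : C(A, ℝ)) x, |sf h x| ≤ ‖h‖ := by
    intro h x
    simp only [sf]
    split_ifs
    · exact h.norm_coe_le_norm _
    · rw [abs_neg]
      exact h.norm_coe_le_norm _
    · rw [abs_zero]
      exact norm_nonneg _
  let T : oddSub τ →ₗ[ℝ] C(A, ℝ) :=
    { toFun := fun g => g.1.restrict A
      map_add' := fun g h => by ext x; rfl
      map_smul' := fun c g => by ext x; rfl }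
  let S : C(A, ℝ) →ₗ[ℝ] oddSub τ :=
    { toFun := fun h => ⟨⟨sf h, hsf h⟩, hodd h⟩
      map_add' := fun g h => by
        ext x
        show sf (g + h) x = sf g x + sf h x
        simp only [sf]
        split_ifs
        · rfl
        · rw [ContinuousMap.add_apply]; ring
        · simp
      map_smul' := fun c g => by
        ext x
        show sf (c • g) x = c * sf g x
        simp only [sf]
        split_ifs
        · rfl
        · rw [ContinuousMap.smul_apply, smul_eq_mul]; ring
        · simp }
  refine iso_of τ T S ?_ ?_ ?_ ?_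
  · intro g
    ext x
    show sf (g.1.restrict A) x = g.1 x
    have hg := g.2
    rw [mem_oddSub] at hg
    by_cases hx : x ∈ A
    · simp only [sf, dif_pos hx]
      rfl
    · by_cases hx' : τ x ∈ A
      · simp only [sf, dif_neg hx, dif_pos hx']
        show - g.1 (τ x) = g.1 x
        rw [hg x, neg_neg]
      · simp only [sf, dif_neg hx, dif_neg hx']
        have hfix : τ x = x := by
          by_contra hne
          rcases hA2 x hne with h | h
          · exact hx h
          · exact hx' h
        have := hg x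
        rw [hfix] at this
        linarith
  · intro h
    ext x
    show sf h x.1 = h x
    simp only [sf, dif_pos x.2]
  · intro g
    rw [ContinuousMap.norm_le _ (by positivity)]
    intro x
    have h1 : ‖(T g) x‖ ≤ ‖g‖ := g.1.norm_coe_le_norm x.1
    have h2 : 0 ≤ ‖g‖ := norm_nonneg _
    linarith
  · intro h
    have h3 : ‖S h‖ = ‖(S h).1‖ := rfl
    rw [h3, ContinuousMap.norm_le _ (by positivity)]
    intro x
    have h1 : ‖(S h).1 x‖ ≤ ‖h‖ := hbd h x
    have h2 : 0 ≤ ‖h‖ := norm_nonneg _
    linarith

omit [Countable M] in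
/-- the fixed point is not isolated in the closure of the fundamental domain -/
theorem iso_shift (τ : M → M) (hτ : Continuous τ) (hττ : ∀ x, τ (τ x) = x)
    (A : Set M) (hA : IsOpen A) (hA1 : ∀ x ∈ A, τ x ∉ A)
    (hA2 : ∀ x, τ x ≠ x → x ∈ A ∨ τ x ∈ A) (z a0 : M) (hz : τ z = z)
    (huniq : ∀ x, τ x = x → x = z) (ha0 : a0 ∈ A) (hop : IsOpen ({a0} : Set M))
    (L : Set M) (hL : L = {y | τ y ∉ A ∧ y ≠ a0}) [CompactSpace L] :
    Nonempty (oddSub τ ≃L[ℝ] C(L, ℝ)) := by
  classical
  have hLc : IsClosed L := by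
    have : L = (τ ⁻¹' A)ᶜ ∩ {a0}ᶜ := by
      rw [hL]
      rfl
    rw [this]
    exact (hA.preimage hτ).isClosed_compl.inter hop.isClosed_compl
  have hzA : z ∉ A := fun h => by
    have := hA1 z h
    rw [hz] at this
    exact this h
  have hzL : z ∈ L := by
    rw [hL]
    refine ⟨?_, fun h => hzA (h ▸ ha0)⟩
    rw [hz]
    exact hzA
  have hL1 : ∀ y ∈ L, τ y ∉ A ∧ y ≠ a0 := fun y hy => by rw [hL] at hy; exact hy
  have hL2 : ∀ y, y ∉ L → y ≠ a0 → τ y ∈ A := by
    intro y hy hy'
    by_contra h
    exact hy (by rw [hL]; exact ⟨h, hy'⟩)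
  have hta : τ a0 ≠ a0 := fun h => hA1 a0 ha0 (by rw [h]; exact ha0)
  have hAL : ∀ y ∈ A, y ≠ a0 → y ∈ L := fun y hy hy' => by rw [hL]; exact ⟨hA1 y hy, hy'⟩
  have htaL : τ a0 ∉ L := fun h => (hL1 _ h).1 (by rw [hττ]; exact ha0)
  -- the inverse map
  let sf : C(L, ℝ) → M → ℝ := fun h y =>
    if y = a0 then h ⟨z, hzL⟩ else if y = τ a0 then - h ⟨z, hzL⟩ else
      if hy : y ∈ L then h ⟨y, hy⟩ - h ⟨z, hzL⟩ else
        if hy' : τ y ∈ L then - (h ⟨τ y, hy'⟩ - h ⟨z, hzL⟩) else 0
  have hta' : IsOpen ({τ a0} : Set M) := by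
    have : ({τ a0} : Set M) = τ ⁻¹' {a0} := by
      ext y
      simp only [mem_singleton_iff, mem_preimage]
      constructor
      · rintro rfl
        exact hττ a0
      · intro h
        rw [← h, hττ]
    rw [this]
    exact hop.preimage hτ
  have hsf : ∀ h, Continuous (sf h) := by
    intro h
    obtain ⟨h', hh'⟩ := ContinuousMap.exists_restrict_eq hLc h
    have hh : ∀ y : L, h' y.1 = h y := fun y => by rw [← hh']; rfl
    have e : sf h = ({a0} : Set M).piecewise (fun _ => h ⟨z, hzL⟩)
        (({τ a0} : Set M).piecewise (fun _ => - h ⟨z, hzL⟩)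
          ((τ ⁻¹' A)ᶜ.piecewise (fun y => h' y - h ⟨z, hzL⟩)
            (fun y => - (h' (τ y) - h ⟨z, hzL⟩)))) := by
      funext y
      by_cases h1 : y = a0
      · rw [piecewise_eq_of_mem _ _ _ (by simpa using h1)]
        simp only [sf, if_pos h1]
      · rw [piecewise_eq_of_notMem _ _ _ (by simpa using h1)]
        by_cases h2 : y = τ a0
        · rw [piecewise_eq_of_mem _ _ _ (by simpa using h2)]
          simp only [sf, if_neg h1, if_pos h2]
        · rw [piecewise_eq_of_notMem _ _ _ (by simpa using h2)]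
          by_cases h3 : y ∈ L
          · rw [piecewise_eq_of_mem _ _ _ (show y ∈ (τ ⁻¹' A)ᶜ from (hL1 y h3).1)]
            simp only [sf, if_neg h1, if_neg h2, dif_pos h3]
            rw [hh ⟨y, h3⟩]
          · have h4 : τ y ∈ A := hL2 y h3 h1
            have h5 : τ y ≠ a0 := fun h => h2 (by rw [← h, hττ])
            have h6 : τ y ∈ L := hAL _ h4 h5
            rw [piecewise_eq_of_notMem _ _ _ (show y ∉ (τ ⁻¹' A)ᶜ from fun h => h h4)]
            simp only [sf, if_neg h1, if_neg h2, dif_neg h3, dif_pos h6]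
            rw [hh ⟨τ y, h6⟩]
    rw [e]
    refine Continuous.piecewise ?_ continuous_const
      (Continuous.piecewise ?_ continuous_const (Continuous.piecewise ?_ ?_ ?_))
    · intro a ha
      have : IsClopen ({a0} : Set M) := ⟨isClosed_singleton, hop⟩
      rw [this.frontier_eq] at ha
      exact absurd ha (notMem_empty _)
    · intro a ha
      have : IsClopen ({τ a0} : Set M) := ⟨isClosed_singleton, hta'⟩
      rw [this.frontier_eq] at ha
      exact absurd ha (notMem_empty _)
    · intro a ha
      rw [frontier_compl, (hA.preimage hτ).frontier_eq] at ha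
      have h1 : a ∈ closure (τ ⁻¹' A) := ha.1
      have h2 : τ a ∉ A := ha.2
      have h3 : a ∉ A := by
        intro h
        have h4 : (A ∩ τ ⁻¹' A).Nonempty := mem_closure_iff.mp h1 A hA h
        obtain ⟨x, hx1, hx2⟩ := h4
        exact hA1 x hx1 hx2
      have h4 : τ a = a := by
        by_contra hne
        rcases hA2 a hne with h | h
        · exact h3 h
        · exact h2 h
      have h5 : a = z := huniq a h4
      rw [h4, h5, hh ⟨z, hzL⟩]
      ring
    · exact h'.continuous.sub continuous_const
    · exact ((h'.continuous.comp hτ).sub continuous_const).neg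
  have hodd : ∀ h x, sf h (τ x) = - sf h x := by
    intro h x
    by_cases h1 : x = a0
    · subst h1
      simp only [sf, if_neg hta, if_true]
    · by_cases h2 : x = τ a0
      · subst h2
        rw [hττ]
        simp only [sf, if_neg hta, if_true, neg_neg]
      · have h1' : τ x ≠ a0 := fun h => h2 (by rw [← h, hττ])
        have h2' : τ x ≠ τ a0 := fun h => h1 (by rw [← hττ x, h, hττ])
        by_cases h3 : x ∈ L
        · by_cases h4 : τ x ∈ L
          · have h5 : x ∉ A := by
              have := (hL1 _ h4).1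
              rwa [hττ] at this
            have h6 : τ x ∉ A := (hL1 _ h3).1
            have h7 : τ x = x := by
              by_contra hne
              rcases hA2 x hne with h | h
              · exact h5 h
              · exact h6 h
            have h8 : x = z := huniq x h7
            have h9 : sf h x = 0 := by
              simp only [sf, if_neg h1, if_neg h2, dif_pos h3]
              have : (⟨x, h3⟩ : L) = ⟨z, hzL⟩ := Subtype.ext h8
              rw [this, sub_self]
            rw [h7, h9, neg_zero]
          · have h5 : τ (τ x) ∈ L := by rw [hττ]; exact h3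
            simp only [sf, if_neg h1, if_neg h2, if_neg h1', if_neg h2', dif_pos h3, dif_neg h4,
              dif_pos h5]
            have : (⟨τ (τ x), h5⟩ : L) = ⟨x, h3⟩ := Subtype.ext (hττ x)
            rw [this]
        · have h4 : τ x ∈ L := hAL _ (hL2 x h3 h1) h1'
          simp only [sf, if_neg h1, if_neg h2, if_neg h1', if_neg h2', dif_neg h3, dif_pos h4]
          rw [neg_neg]
  have hbd : ∀ (h : C(L, ℝ)) x, |sf h x| ≤ 2 * ‖h‖ := by
    intro h x
    have hn : ∀ y : L, |h y| ≤ ‖h‖ := fun y => h.norm_coe_le_norm y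
    have h0 : 0 ≤ ‖h‖ := norm_nonneg _
    simp only [sf]
    split_ifs
    · have := hn ⟨z, hzL⟩
      linarith
    · rw [abs_neg]
      have := hn ⟨z, hzL⟩
      linarith
    · rename_i h1 h2 h3
      have e1 := hn ⟨z, hzL⟩
      have e2 := hn ⟨x, h3⟩
      have := abs_sub (h ⟨x, h3⟩) (h ⟨z, hzL⟩)
      linarith
    · rename_i h1 h2 h3 h4
      rw [abs_neg]
      have e1 := hn ⟨z, hzL⟩
      have e2 := hn ⟨τ x, h4⟩
      have := abs_sub (h ⟨τ x, h4⟩) (h ⟨z, hzL⟩)
      linarith
    · rw [abs_zero]
      linarith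
  let T : oddSub τ →ₗ[ℝ] C(L, ℝ) :=
    { toFun := fun g => g.1.restrict L + ContinuousMap.const L (g.1 a0)
      map_add' := fun g h => by
        ext x
        show (g.1 x.1 + h.1 x.1) + (g.1 a0 + h.1 a0) = (g.1 x.1 + g.1 a0) + (h.1 x.1 + h.1 a0)
        ring
      map_smul' := fun c g => by
        ext x
        show c * g.1 x.1 + c * g.1 a0 = c * (g.1 x.1 + g.1 a0)
        ring }
  let S : C(L, ℝ) →ₗ[ℝ] oddSub τ :=
    { toFun := fun h => ⟨⟨sf h, hsf h⟩, hodd h⟩
      map_add' := fun g h => by
        ext x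
        show sf (g + h) x = sf g x + sf h x
        simp only [sf]
        split_ifs
        · rfl
        · rw [ContinuousMap.add_apply]; ring
        · rw [ContinuousMap.add_apply, ContinuousMap.add_apply]; ring
        · rw [ContinuousMap.add_apply, ContinuousMap.add_apply]; ring
        · simp
      map_smul' := fun c g => by
        ext x
        show sf (c • g) x = c * sf g x
        simp only [sf]
        split_ifs
        · rfl
        · rw [ContinuousMap.smul_apply, smul_eq_mul]; ring
        · rw [ContinuousMap.smul_apply, ContinuousMap.smul_apply, smul_eq_mul, smul_eq_mul]; ring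
        · rw [ContinuousMap.smul_apply, ContinuousMap.smul_apply, smul_eq_mul, smul_eq_mul]; ring
        · simp }
  refine iso_of τ T S ?_ ?_ ?_ ?_
  · intro g
    ext x
    show sf (T g) x = g.1 x
    have hg := g.2
    rw [mem_oddSub] at hg
    have hgz : g.1 z = 0 := by
      have := hg z
      rw [hz] at this
      linarith
    have hT : ∀ y : L, (T g) y = g.1 y.1 + g.1 a0 := fun y => rfl
    simp only [sf]
    split_ifs with h1 h2 h3 h4
    · rw [hT, hgz, h1]
      ring
    · rw [hT, hgz, h2, hg a0]
      ring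
    · rw [hT, hT, hgz]
      ring
    · rw [hT, hT, hgz, hg x]
      ring
    · exact absurd (hAL _ (hL2 x h3 h1) (fun h => h2 (by rw [← h, hττ]))) h4
  · intro h
    ext x
    show sf h x.1 + sf h a0 = h x
    have h1 : x.1 ≠ a0 := (hL1 _ x.2).2
    have h2 : x.1 ≠ τ a0 := fun h => htaL (h ▸ x.2)
    have e1 : sf h a0 = h ⟨z, hzL⟩ := by simp only [sf, if_true]
    have e2 : sf h x.1 = h x - h ⟨z, hzL⟩ := by
      simp only [sf, if_neg h1, if_neg h2, dif_pos x.2]
    rw [e1, e2]
    ring
  · intro g
    rw [ContinuousMap.norm_le _ (by positivity)]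
    intro x
    have h1 : ‖g.1 x.1‖ ≤ ‖g‖ := g.1.norm_coe_le_norm x.1
    have h3 : ‖g.1 a0‖ ≤ ‖g‖ := g.1.norm_coe_le_norm a0
    have h2 : ‖(T g) x‖ ≤ ‖g.1 x.1‖ + ‖g.1 a0‖ := norm_add_le _ _
    linarith
  · intro h
    have h3 : ‖S h‖ = ‖(S h).1‖ := rfl
    rw [h3, ContinuousMap.norm_le _ (by positivity)]
    intro x
    exact hbd h x

end OddX

open OddX in
/-- The odd functions on a countable compact Hausdorff space with an involution with at most one
fixed point are isomorphic to a space `C(L)`, `L` countable compact metric. -/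
theorem odd_iso {M : Type} [TopologicalSpace M] [CompactSpace M] [T2Space M] [Countable M]
    (τ : M → M) (hτ : Continuous τ) (hττ : ∀ x, τ (τ x) = x)
    (hfix : ∀ x y, τ x = x → τ y = y → x = y) :
    ∃ (L : Type) (_ : MetricSpace L) (_ : CompactSpace L), Countable L ∧
      Nonempty (oddSub τ ≃L[ℝ] C(L, ℝ)) := by
  classical
  obtain ⟨A, hA, hA1, hA2⟩ := exists_domain τ hτ hττ
  by_cases hcl : IsClosed A
  · have hc : CompactSpace A := isCompact_iff_compactSpace.mp hcl.isCompact
    have hm : TopologicalSpace.MetrizableSpace A := metrizable A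
    let _ := TopologicalSpace.metrizableSpaceMetric A
    exact ⟨A, inferInstance, hc, inferInstance, iso_clopen τ hτ hττ A ⟨hcl, hA⟩ hA1 hA2⟩
  · -- the fixed point
    have hex : ∃ z ∈ closure A, z ∉ A := by
      by_contra hcon
      push Not at hcon
      exact hcl (isClosed_of_closure_subset hcon)
    obtain ⟨z, hz1, hz2⟩ := hex
    have hcA : IsClosed {y | τ y ∉ A} := (hA.preimage hτ).isClosed_compl
    have hsub : closure A ⊆ {y | τ y ∉ A} := closure_minimal hA1 hcA
    have hz3 : τ z ∉ A := hsub hz1
    have hz : τ z = z := by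
      by_contra hne
      rcases hA2 z hne with h | h
      · exact hz2 h
      · exact hz3 h
    have huniq : ∀ x, τ x = x → x = z := fun x hx => hfix x z hx hz
    -- an isolated point
    let N : Set M := {y | τ y ∉ A}
    have hNc : CompactSpace N := isCompact_iff_compactSpace.mp hcA.isCompact
    have hNn : Nonempty N := ⟨⟨z, hz3⟩⟩
    obtain ⟨x, hx⟩ := nonempty_interior_of_iUnion_of_closed (X := N) (ι := N)
      (f := fun x => {x}) (fun x => isClosed_singleton) (by
        ext y
        simp)
    have hxo : IsOpen ({x} : Set N) := by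
      have : interior ({x} : Set N) = {x} := by
        apply subset_antisymm interior_subset
        obtain ⟨y, hy⟩ := hx
        have hy1 : y ∈ ({x} : Set N) := interior_subset hy
        have hy2 : y = x := hy1
        rw [singleton_subset_iff]
        rw [hy2] at hy
        exact hy
      rw [← this]
      exact isOpen_interior
    obtain ⟨O, hO, hO2⟩ := isOpen_induced_iff.mp hxo
    have hxO : x.1 ∈ O := by
      have : x ∈ Subtype.val ⁻¹' O := by rw [hO2]; rfl
      exact this
    have hAN : A ⊆ N := hA1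
    have hOx : ∀ y ∈ O, y ∈ A → y = x.1 := by
      intro y hy hyA
      have : (⟨y, hAN hyA⟩ : N) ∈ Subtype.val ⁻¹' O := hy
      rw [hO2] at this
      exact congrArg Subtype.val (this : (⟨y, hAN hyA⟩ : N) = x)
    have hxz : x.1 ≠ z := by
      intro h
      obtain ⟨y, hy1, hy2⟩ := mem_closure_iff.mp hz1 O hO (h ▸ hxO)
      have := hOx y hy1 hy2
      rw [h] at this
      exact hz2 (this ▸ hy2)
    have hxA : x.1 ∈ A := by
      by_contra hxA
      have hfx : τ x.1 = x.1 := by
        by_contra hne
        rcases hA2 _ hne with h | h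
        · exact hxA h
        · exact x.2 h
      exact hxz (huniq _ hfx)
    have hxop : IsOpen ({x.1} : Set M) := by
      have : ({x.1} : Set M) = O ∩ A := by
        ext y
        constructor
        · intro hy
          have hy' : y = x.1 := hy
          rw [hy']
          exact ⟨hxO, hxA⟩
        · rintro ⟨h1, h2⟩
          exact hOx y h1 h2
      rw [this]
      exact hO.inter hA
    let L : Set M := {y | τ y ∉ A ∧ y ≠ x.1}
    have hLc : IsClosed L := by
      have : L = (τ ⁻¹' A)ᶜ ∩ {x.1}ᶜ := rfl
      rw [this]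
      exact (hA.preimage hτ).isClosed_compl.inter hxop.isClosed_compl
    have hc : CompactSpace L := isCompact_iff_compactSpace.mp hLc.isCompact
    have hm : TopologicalSpace.MetrizableSpace L := metrizable L
    let _ := TopologicalSpace.metrizableSpaceMetric L
    exact ⟨L, inferInstance, hc, inferInstance,
      iso_shift τ hτ hττ A hA hA1 hA2 z x.1 hz huniq hxA hxop L rfl⟩

end Pool.Agent.Work.MP_c93117_an.I

end

section

/-! Quotient of a compact Hausdorff space by a closed equivalence relation. -/

open Set Topology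

namespace C93117.I3

variable {X : Type*} [TopologicalSpace X] [CompactSpace X] [T2Space X]

lemma isClosedMap_mk (s : Setoid X) (hs : IsClosed {p : X × X | s p.1 p.2}) :
    IsClosedMap (Quotient.mk s) := by
  intro A hA
  have hq : IsQuotientMap (Quotient.mk s) := isQuotientMap_quotient_mk'
  rw [← hq.isClosed_preimage]
  have e : Quotient.mk s ⁻¹' (Quotient.mk s '' A) =
      Prod.snd '' ((A ×ˢ (univ : Set X)) ∩ {p : X × X | s p.1 p.2}) := by
    ext y
    simp only [mem_preimage, mem_image, mem_inter_iff, mem_prod, mem_univ, and_true, mem_setOf_eq,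
      Prod.exists, exists_eq_right]
    constructor
    · rintro ⟨x, hx, hxy⟩
      exact ⟨x, hx, Quotient.exact hxy⟩
    · rintro ⟨x, hx, hxy⟩
      exact ⟨x, hx, Quotient.sound hxy⟩
  rw [e]
  exact (((hA.prod isClosed_univ).inter hs).isCompact.image continuous_snd).isClosed

lemma t2_quotient (s : Setoid X) (hs : IsClosed {p : X × X | s p.1 p.2}) :
    T2Space (Quotient s) := by
  have hcl := isClosedMap_mk s hs
  refine ⟨fun z w hzw => ?_⟩
  have hpt : ∀ z : Quotient s, IsClosed (Quotient.mk s ⁻¹' {z}) := by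
    intro z
    obtain ⟨x, rfl⟩ := Quotient.exists_rep z
    refine IsClosed.preimage continuous_quotient_mk' ?_
    have : ({Quotient.mk s x} : Set (Quotient s)) = Quotient.mk s '' {x} := by simp
    change IsClosed ({Quotient.mk s x} : Set (Quotient s))
    rw [this]
    exact hcl _ isClosed_singleton
  have hdisj : Disjoint (Quotient.mk s ⁻¹' {z}) (Quotient.mk s ⁻¹' {w}) := by
    rw [Set.disjoint_left]
    intro x hx hx'
    exact hzw (hx.symm.trans hx')
  obtain ⟨U, V, hU, hV, hzU, hwV, hUV⟩ := normal_separation (hpt z) (hpt w) hdisj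
  refine ⟨(Quotient.mk s '' Uᶜ)ᶜ, (Quotient.mk s '' Vᶜ)ᶜ, (hcl _ hU.isClosed_compl).isOpen_compl,
    (hcl _ hV.isClosed_compl).isOpen_compl, ?_, ?_, ?_⟩
  · rintro ⟨x, hx, hxz⟩
    exact hx (hzU hxz)
  · rintro ⟨x, hx, hxz⟩
    exact hx (hwV hxz)
  · rw [Set.disjoint_left]
    intro u hu hu'
    obtain ⟨x, rfl⟩ := Quotient.exists_rep u
    have h1 : x ∈ U := by
      by_contra h
      exact hu ⟨x, h, rfl⟩
    have h2 : x ∈ V := by
      by_contra h
      exact hu' ⟨x, h, rfl⟩
    exact Set.disjoint_left.1 hUV h1 h2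

end C93117.I3

end
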