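import Pool.Agent.Work.MP_c93117_an.Main.Defs
import Pool.Agent.Work.MP_c93117_an.I.Dug
import Pool.Agent.Work.MP_c93117_an.W.Abs

/-! Bundle of small proof modules (one section per former module). -/

section

/-! Weighted form: projections that are almost contractive for a weight `h`. -/

open Set Topology

namespace C93117.W

/-- the small norm theorem with constant `1 + ε` -/
def Small (ε : ℝ) : Prop := ∀ (K : Type) [MetricSpace K] [CompactSpace K]
      (p : Submodule ℝ C(K, ℝ))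
      (P : C(K, ℝ) →L[ℝ] C(K, ℝ)), (∀ f, P f ∈ p) → (∀ f ∈ p, P f = f) →
      ‖P‖ ≤ 1 + ε →
      (Countable K ∨ TopologicalSpace.SeparableSpace (StrongDual ℝ p)) →
      ∃ (L : Type) (_ : MetricSpace L) (_ : CompactSpace L),
        Countable L ∧ Nonempty (p ≃L[ℝ] C(L, ℝ))

lemma norm_le_iff' {X : Type*} [TopologicalSpace X] [CompactSpace X] {f : C(X, ℝ)} {a : ℝ}
    (ha : 0 ≤ a) : ‖f‖ ≤ a ↔ ∀ s, |f s| ≤ a := by
  rw [ContinuousMap.norm_le _ ha]; rfl

lemma exists_peak {K : Type} [MetricSpace K] [CompactSpace K] [Nonempty K] (x : C(K, ℝ)) :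
    ∃ t, |x t| = ‖x‖ := by
  obtain ⟨t, -, ht⟩ := isCompact_univ.exists_isMaxOn univ_nonempty
    (f := fun t => |x t|) (continuous_abs.comp x.continuous).continuousOn
  refine ⟨t, le_antisymm (x.norm_coe_le_norm t) ?_⟩
  rw [norm_le_iff' (abs_nonneg _)]
  exact fun s => ht (mem_univ s)

variable {K : Type} [MetricSpace K] [CompactSpace K]

/-- the data -/
structure WData (p : Submodule ℝ C(K, ℝ)) (P : C(K, ℝ) →L[ℝ] C(K, ℝ)) (h : C(K, ℝ))
    (A η δ ε : ℝ) : Prop where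
  mem : ∀ f, P f ∈ p
  eq : ∀ f ∈ p, P f = f
  A1 : 1 ≤ A
  h0 : ∀ t, 0 ≤ h t
  hA : ∀ t, h t ≤ A
  ε0 : 0 < ε
  ε1 : ε ≤ 1 / 100
  η0 : 0 < η
  δ0 : 0 ≤ δ
  η1 : 16 * A ^ 3 * η ≤ ε
  δ1 : 4 * δ ≤ ε * η
  H1 : ∀ f : C(K, ℝ), (∀ s, |f s| ≤ h s) → ∀ t, |P f t| ≤ h t + δ
  H2 : ∀ f : C(K, ℝ), (∀ s, |f s| ≤ 1) → ∀ t, |P f t| ≤ A * h t + δ

namespace WData
variable {p : Submodule ℝ C(K, ℝ)} {P : C(K, ℝ) →L[ℝ] C(K, ℝ)} {h : C(K, ℝ)} {A η δ ε : ℝ}
  (D : WData p P h A η δ ε)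
include D

lemma A0 : 0 < A := by have := D.A1; linarith
lemma A3 : A ≤ A ^ 3 := by
  have h1 := D.A1
  have h2 : 1 ≤ A ^ 2 := one_le_pow₀ h1
  nlinarith
lemma η2 : η ≤ 1 / 1600 := by
  have h1 := D.A3; have h2 := D.A1; have h3 := D.η1; have h4 := D.ε1; have h5 := D.η0
  nlinarith
lemma Aη : A * η ≤ 1 / 1600 := by
  have h1 := D.A3; have h2 := D.A1; have h3 := D.η1; have h4 := D.ε1; have h5 := D.η0
  nlinarith
lemma δ2 : δ ≤ η / 400 := by
  have h1 := D.δ1; have h2 := D.ε1; have h3 := D.η0; have h4 := D.ε0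
  nlinarith

lemma H1' {c : ℝ} (hc : 0 ≤ c) (f : C(K, ℝ)) (hf : ∀ s, |f s| ≤ c * h s) (t : K) :
    |P f t| ≤ c * (h t + δ) := by
  rcases hc.eq_or_lt with rfl | hc
  · have : f = 0 := by
      ext s
      have := hf s
      simpa using this
    rw [this]; simp
  · have := D.H1 (c⁻¹ • f) (fun s => by
      rw [ContinuousMap.smul_apply, smul_eq_mul, abs_mul, abs_inv, abs_of_pos hc,
        inv_mul_le_iff₀ hc]
      exact hf s) t
    rw [map_smul, ContinuousMap.smul_apply, smul_eq_mul, abs_mul, abs_inv, abs_of_pos hc,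
      inv_mul_le_iff₀ hc] at this
    exact this

lemma H2' {c : ℝ} (hc : 0 ≤ c) (f : C(K, ℝ)) (hf : ∀ s, |f s| ≤ c) (t : K) :
    |P f t| ≤ c * (A * h t + δ) := by
  rcases hc.eq_or_lt with rfl | hc
  · have : f = 0 := by
      ext s
      have := hf s
      simpa using this
    rw [this]; simp
  · have := D.H2 (c⁻¹ • f) (fun s => by
      rw [ContinuousMap.smul_apply, smul_eq_mul, abs_mul, abs_inv, abs_of_pos hc,
        inv_mul_le_iff₀ hc, mul_one]
      exact hf s) t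
    rw [map_smul, ContinuousMap.smul_apply, smul_eq_mul, abs_mul, abs_inv, abs_of_pos hc,
      inv_mul_le_iff₀ hc] at this
    exact this

lemma Hx {x : C(K, ℝ)} (hx : x ∈ p) (t : K) : |x t| ≤ ‖x‖ * (A * h t + δ) := by
  have := D.H2' (norm_nonneg _) x (fun s => x.norm_coe_le_norm s) t
  rwa [D.eq x hx] at this

lemma peak {x : C(K, ℝ)} (hx : x ∈ p) (hx0 : x ≠ 0) : ∃ t, η ≤ h t ∧ |x t| = ‖x‖ := by
  have hne : Nonempty K := by
    by_contra hcon
    rw [not_nonempty_iff] at hcon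
    exact hx0 (by ext t; exact hcon.elim t)
  obtain ⟨t, ht'⟩ := exists_peak x
  have hn : 0 < ‖x‖ := norm_pos_iff.mpr hx0
  refine ⟨t, ?_, ht'⟩
  have := D.Hx hx t
  rw [ht'] at this
  have h3 : 1 ≤ A * h t + δ := by
    by_contra hlt
    push Not at hlt
    nlinarith
  by_contra hlt
  push Not at hlt
  have h4 : A * h t ≤ A * η := by
    have := D.A0
    gcongr
  have h5 := D.Aη
  have h6 := D.δ2
  have h7 := D.η2
  linarith

/-- on the set `h ≥ η` -/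
lemma bd1 {c y t : ℝ} (hc : 0 ≤ c) {s : K} (hs : η ≤ h s) (a : ℝ) (hy : y ≤ c * (a * h s + δ)) :
    y ≤ (a + δ / η) * c * h s := by
  have hη := D.η0
  have hδ := D.δ0
  calc y ≤ c * (a * h s + δ) := hy
    _ ≤ c * (a * h s + δ / η * h s) := by
        gcongr
        calc δ = δ / η * η := by field_simp
          _ ≤ δ / η * h s := by gcongr
    _ = (a + δ / η) * c * h s := by ring

end WData

/-- division by the weight on a set where it does not vanish -/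
noncomputable def div (h : C(K, ℝ)) (K₁ : Set K) (hh : ∀ t ∈ K₁, h t ≠ 0) (x : C(K, ℝ)) :
    C(K₁, ℝ) :=
  ⟨fun t => x t.1 / h t.1, by
    have h1 : Continuous fun t : K₁ => x t.1 := x.continuous.comp continuous_subtype_val
    have h2 : Continuous fun t : K₁ => h t.1 := h.continuous.comp continuous_subtype_val
    exact h1.div h2 fun t => hh t.1 t.2⟩

@[simp] lemma div_apply (h : C(K, ℝ)) (K₁ : Set K) (hh : ∀ t ∈ K₁, h t ≠ 0) (x : C(K, ℝ))
    (t : K₁) : div h K₁ hh x t = x t.1 / h t.1 := rfl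

/-- linear version -/
noncomputable def J0 (p : Submodule ℝ C(K, ℝ)) (h : C(K, ℝ)) (K₁ : Set K)
    (hh : ∀ t ∈ K₁, h t ≠ 0) : p →ₗ[ℝ] C(K₁, ℝ) where
  toFun := fun x => div h K₁ hh x.1
  map_add' := fun x y => by
    ext t
    change (x.1 t.1 + y.1 t.1) / h t.1 = x.1 t.1 / h t.1 + y.1 t.1 / h t.1
    rw [add_div]
  map_smul' := fun c x => by
    ext t
    change (c * x.1 t.1) / h t.1 = c * (x.1 t.1 / h t.1)
    rw [mul_div_assoc]

namespace WData
variable {p : Submodule ℝ C(K, ℝ)} {P : C(K, ℝ) →L[ℝ] C(K, ℝ)} {h : C(K, ℝ)} {A η δ ε : ℝ}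

/-- the set `h ≥ η` -/
def K1 (h : C(K, ℝ)) (η : ℝ) : Set K := {t | η ≤ h t}

lemma K1_closed : IsClosed (K1 h η) := isClosed_le continuous_const h.continuous

instance K1_compact : CompactSpace (K1 h η) := isCompact_iff_compactSpace.mp K1_closed.isCompact

variable (D : WData p P h A η δ ε)
include D

lemma hh : ∀ t ∈ K1 h η, h t ≠ 0 := fun _ ht => (lt_of_lt_of_le D.η0 ht).ne'

lemma J0n (x : p) : ‖J0 p h (K1 h η) D.hh x‖ ≤ (A + δ / η) * ‖x‖ := by
  have hη := D.η0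
  have hδ := D.δ0
  have hA := D.A0
  rw [norm_le_iff' (by positivity)]
  intro t
  have hpos : 0 < h t.1 := lt_of_lt_of_le D.η0 t.2
  change |x.1 t.1 / h t.1| ≤ _
  rw [abs_div, abs_of_pos hpos, div_le_iff₀ hpos]
  exact D.bd1 (norm_nonneg x) t.2 A (D.Hx x.2 t.1) (t := 0)

/-- the map `x ↦ x / h` -/
noncomputable def J : p →L[ℝ] C(K1 h η, ℝ) :=
  (J0 p h (K1 h η) D.hh).mkContinuous (A + δ / η) D.J0n

lemma J_apply (x : p) (t : K1 h η) : D.J x t = x.1 t.1 / h t.1 := rfl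

lemma J_norm (x : p) : ‖D.J x‖ ≤ (A + δ / η) * ‖x‖ := D.J0n x

lemma J_below (x : p) : ‖x‖ ≤ A * ‖D.J x‖ := by
  by_cases hx0 : x.1 = 0
  · have : x = 0 := Subtype.ext hx0
    rw [this]; simp
  · obtain ⟨t, ht, h4⟩ := D.peak x.2 hx0
    have hpos : 0 < h t := lt_of_lt_of_le D.η0 ht
    have h5 : |D.J x ⟨t, ht⟩| ≤ ‖D.J x‖ := (D.J x).norm_coe_le_norm _
    rw [J_apply, abs_div, abs_of_pos hpos, div_le_iff₀ hpos, h4] at h5
    calc ‖x‖ ≤ ‖D.J x‖ * h t := h5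
      _ ≤ ‖D.J x‖ * A := by gcongr; exact D.hA t
      _ = _ := mul_comm _ _

end WData

section ops
variable {p : Submodule ℝ C(K, ℝ)} {P : C(K, ℝ) →L[ℝ] C(K, ℝ)} {h : C(K, ℝ)} {A η δ ε : ℝ}
  (D : WData p P h A η δ ε) (E : C(WData.K1 h η, ℝ) →L[ℝ] C(K, ℝ))
include D

/-- `g ↦ P (h · E g)` -/
noncomputable def Aop : C(WData.K1 h η, ℝ) →L[ℝ] p :=
  (P.codRestrict p D.mem).comp ((ContinuousLinearMap.mul ℝ C(K, ℝ) h).comp E)

lemma Aop_val (g : C(WData.K1 h η, ℝ)) : (Aop D E g).1 = P (h * E g) := rfl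

variable (hE : ∀ (g : C(WData.K1 h η, ℝ)) (x : WData.K1 h η), E g x.1 = g x)
  (hEn : ∀ g : C(WData.K1 h η, ℝ), ‖E g‖ ≤ ‖g‖)

include hEn in
lemma Ele (g : C(WData.K1 h η, ℝ)) (s : K) : |E g s| ≤ ‖g‖ :=
  ((E g).norm_coe_le_norm s).trans (hEn g)

include hEn in
lemma Aop_le (g : C(WData.K1 h η, ℝ)) (t : K) : |(Aop D E g).1 t| ≤ ‖g‖ * (h t + δ) := by
  rw [Aop_val]
  refine D.H1' (norm_nonneg _) _ (fun s => ?_) t
  rw [ContinuousMap.mul_apply, abs_mul, abs_of_nonneg (D.h0 s), mul_comm]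
  exact mul_le_mul_of_nonneg_right (Ele D E hEn g s) (D.h0 s)

include hEn in
lemma h3 (g : C(WData.K1 h η, ℝ)) : ‖D.J (Aop D E g)‖ ≤ (1 + δ / η) * ‖g‖ := by
  have hη := D.η0
  have hδ := D.δ0
  rw [norm_le_iff' (by positivity)]
  intro t
  have hpos : 0 < h t.1 := lt_of_lt_of_le D.η0 t.2
  rw [D.J_apply, abs_div, abs_of_pos hpos, div_le_iff₀ hpos]
  refine D.bd1 (norm_nonneg g) t.2 1 ?_ (t := 0)
  rw [one_mul]
  exact Aop_le D E hEn g t.1

include hE hEn in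
lemma defect (x : p) (t : K) :
    |(Aop D E (D.J x)).1 t - x.1 t| ≤ 3 * A * η * ‖x‖ * (A * h t + δ) := by
  have hη := D.η0
  have hδ := D.δ0
  have hA := D.A0
  have e1 : (Aop D E (D.J x)).1 - x.1 = P (h * E (D.J x) - x.1) := by
    rw [map_sub, D.eq x.1 x.2, Aop_val]
  have e2 : (Aop D E (D.J x)).1 t - x.1 t = P (h * E (D.J x) - x.1) t := by
    rw [← e1]; rfl
  rw [e2]
  refine D.H2' (by positivity) _ (fun s => ?_) t
  rw [ContinuousMap.sub_apply, ContinuousMap.mul_apply]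
  by_cases hs : s ∈ WData.K1 h η
  · have e3 : E (D.J x) s = x.1 s / h s := hE (D.J x) ⟨s, hs⟩
    rw [e3, mul_div_cancel₀ _ (D.hh s hs), sub_self, abs_zero]
    positivity
  · have hs' : h s < η := not_le.1 hs
    have b1 : |E (D.J x) s| ≤ (A + δ / η) * ‖x‖ := (Ele D E hEn _ s).trans (D.J_norm x)
    have b2 : |x.1 s| ≤ ‖x‖ * (A * h s + δ) := D.Hx x.2 s
    have b3 : |h s * E (D.J x) s| ≤ η * ((A + δ / η) * ‖x‖) := by
      rw [abs_mul, abs_of_nonneg (D.h0 s)]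
      exact mul_le_mul hs'.le b1 (abs_nonneg _) hη.le
    have b4 : η * ((A + δ / η) * ‖x‖) = (A * η + δ) * ‖x‖ := by
      field_simp
    have b5 : ‖x‖ * (A * h s + δ) ≤ ‖x‖ * (A * η + δ) := by gcongr
    have b6 : 2 * δ ≤ A * η := by
      have h1 := D.δ2
      have h2 := D.A1
      nlinarith
    calc |h s * E (D.J x) s - x.1 s| ≤ |h s * E (D.J x) s| + |x.1 s| := abs_sub _ _
      _ ≤ (A * η + δ) * ‖x‖ + ‖x‖ * (A * η + δ) := by
          rw [b4] at b3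
          exact add_le_add b3 (b2.trans b5)
      _ = (2 * (A * η) + 2 * δ) * ‖x‖ := by ring
      _ ≤ (3 * A * η) * ‖x‖ := by
          gcongr; linarith
      _ = 3 * A * η * ‖x‖ := by ring

include hE hEn in
lemma h1 (x : p) : ‖Aop D E (D.J x) - x‖ ≤ (4 * A ^ 3 * η) * ‖x‖ := by
  have hη := D.η0
  have hδ := D.δ0
  have hA := D.A0
  change ‖(Aop D E (D.J x)).1 - x.1‖ ≤ _
  rw [norm_le_iff' (by positivity)]
  intro t
  have h6 : δ ≤ 1 / 3 * A ^ 2 := by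
    have h1 := D.δ2
    have h2 := D.A1
    have h3 := D.η2
    nlinarith
  have h7 : h t ≤ A := D.hA t
  calc |((Aop D E (D.J x)).1 - x.1) t| = |(Aop D E (D.J x)).1 t - x.1 t| := rfl
    _ ≤ 3 * A * η * ‖x‖ * (A * h t + δ) := defect D E hE hEn x t
    _ ≤ 3 * A * η * ‖x‖ * (A * A + 1 / 3 * A ^ 2) := by gcongr
    _ = (4 * A ^ 3 * η) * ‖x‖ := by ring

include hE hEn in
lemma h2 (x : p) : ‖D.J (Aop D E (D.J x)) - D.J x‖ ≤ (4 * A ^ 3 * η) * ‖D.J x‖ := by
  have hη := D.η0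
  have hδ := D.δ0
  have hA := D.A0
  rw [norm_le_iff' (by positivity)]
  intro t
  have hpos : 0 < h t.1 := lt_of_lt_of_le D.η0 t.2
  have e1 : (D.J (Aop D E (D.J x)) - D.J x) t
      = ((Aop D E (D.J x)).1 t.1 - x.1 t.1) / h t.1 := by
    rw [ContinuousMap.sub_apply, D.J_apply, D.J_apply, sub_div]
  have h6 : δ ≤ 1 / 3 * A * h t.1 := by
    have h8 : η ≤ h t.1 := t.2
    have h1 := D.δ2
    have h2 := D.A1
    nlinarith
  rw [e1, abs_div, abs_of_pos hpos, div_le_iff₀ hpos]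
  calc |(Aop D E (D.J x)).1 t.1 - x.1 t.1| ≤ 3 * A * η * ‖x‖ * (A * h t.1 + δ) :=
        defect D E hE hEn x t.1
    _ ≤ 3 * A * η * ‖x‖ * (A * h t.1 + 1 / 3 * A * h t.1) := by gcongr
    _ = 4 * A ^ 2 * η * ‖x‖ * h t.1 := by ring
    _ ≤ 4 * A ^ 2 * η * (A * ‖D.J x‖) * h t.1 := by
        gcongr; exact D.J_below x
    _ = (4 * A ^ 3 * η) * ‖D.J x‖ * h t.1 := by ring

end ops

end C93117.W

end

section

/-! Weighted form: final assembly. -/

open Set Topology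

namespace C93117.W

variable {K : Type} [MetricSpace K] [CompactSpace K]
variable {p : Submodule ℝ C(K, ℝ)} {P : C(K, ℝ) →L[ℝ] C(K, ℝ)} {h : C(K, ℝ)} {A η δ ε : ℝ}

lemma closed_of (h1 : ∀ f, P f ∈ p) (h2 : ∀ f ∈ p, P f = f) : IsClosed (p : Set C(K, ℝ)) := by
  have : (p : Set C(K, ℝ)) = {x | P x = x} := by
    ext x
    exact ⟨fun hx => h2 x hx, fun hx => by rw [← (show P x = x from hx)]; exact h1 x⟩
  rw [this]
  exact isClosed_eq P.continuous continuous_id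

lemma complete_of (h1 : ∀ f, P f ∈ p) (h2 : ∀ f ∈ p, P f = f) : CompleteSpace p :=
  (closed_of h1 h2).completeSpace_coe

set_option backward.isDefEq.respectTransparency false in
/-- the corrected projection on `C(K₁)` -/
lemma pert (D : WData p P h A η δ ε) (E : C(WData.K1 h η, ℝ) →L[ℝ] C(K, ℝ))
    (hE : ∀ (g : C(WData.K1 h η, ℝ)) (x : WData.K1 h η), E g x.1 = g x)
    (hEn : ∀ g : C(WData.K1 h η, ℝ), ‖E g‖ ≤ ‖g‖) :
    ∃ Q : C(WData.K1 h η, ℝ) →L[ℝ] C(WData.K1 h η, ℝ), (∀ z, ∃ x, Q z = D.J x) ∧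
      (∀ x, Q (D.J x) = D.J x) ∧
      ∀ z, ‖Q z‖ ≤ (1 + δ / η) / (1 - 4 * A ^ 3 * η) * ‖z‖ := by
  have hc : CompleteSpace p := complete_of D.mem D.eq
  have k0 : 0 ≤ 4 * A ^ 3 * η := by have := D.A0; have := D.η0; positivity
  have k1 : 4 * A ^ 3 * η < 1 := by have := D.η1; have := D.ε1; linarith
  have a0 : 0 ≤ 1 + δ / η := by have := D.δ0; have := D.η0; positivity
  exact perturb (X := p) (Z := C(WData.K1 h η, ℝ)) D.J (Aop D E) k0 k1 a0
    (h1 D E hE hEn) (h2 D E hE hEn) (h3 D E hEn)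

set_option backward.isDefEq.respectTransparency false in
lemma eqv (D : WData p P h A η δ ε) :
    Nonempty (p ≃L[ℝ] LinearMap.range (D.J : p →ₗ[ℝ] C(WData.K1 h η, ℝ))) :=
  equiv_range (X := p) (Z := C(WData.K1 h η, ℝ)) D.J D.J_below

lemma trivial_case (hp : ∀ x ∈ p, x = 0) : ∃ (L : Type) (_ : MetricSpace L) (_ : CompactSpace L),
    Countable L ∧ Nonempty (p ≃L[ℝ] C(L, ℝ)) := by
  have hfin : Finite ((∅ : Set ℝ) : Type) := inferInstance
  refine ⟨(∅ : Set ℝ), inferInstance, inferInstance, inferInstance, ⟨?_⟩⟩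
  have hsub : Subsingleton p :=
    ⟨fun x y => Subtype.ext (by rw [hp x.1 x.2, hp y.1 y.2])⟩
  have hsub' : Subsingleton C((∅ : Set ℝ), ℝ) :=
    ⟨fun x y => ContinuousMap.ext fun a => (a.2 : False).elim⟩
  exact
    { toFun := fun _ => 0
      invFun := fun _ => 0
      map_add' := fun _ _ => Subsingleton.elim _ _
      map_smul' := fun _ _ => Subsingleton.elim _ _
      left_inv := fun _ => Subsingleton.elim _ _
      right_inv := fun _ => Subsingleton.elim _ _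
      continuous_toFun := continuous_const
      continuous_invFun := continuous_const }

lemma const_le (D : WData p P h A η δ ε) : (1 + δ / η) / (1 - 4 * A ^ 3 * η) ≤ 1 + ε := by
  have hη := D.η0
  have h1 := D.η1
  have h2 := D.δ1
  have h3 := D.ε1
  have h4 := D.ε0
  have hpos : 0 < 1 - 4 * A ^ 3 * η := by linarith
  rw [div_le_iff₀ hpos]
  have h5 : δ / η ≤ ε / 4 := by
    rw [div_le_iff₀ hη]; linarith
  have h6 : 4 * A ^ 3 * η ≤ ε / 4 := by linarith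
  nlinarith

set_option backward.isDefEq.respectTransparency false in
/-- The weighted theorem. -/
theorem weighted (hS : Small ε) (D : WData p P h A η δ ε)
    (hc : Countable K ∨ TopologicalSpace.SeparableSpace (StrongDual ℝ p)) :
    ∃ (L : Type) (_ : MetricSpace L) (_ : CompactSpace L),
      Countable L ∧ Nonempty (p ≃L[ℝ] C(L, ℝ)) := by
  by_cases hne : (WData.K1 h η).Nonempty
  · obtain ⟨E, hE, hEn⟩ :=
      Pool.Agent.Work.MP_c93117_an.I.exists_extension (WData.K1 h η) hne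
    obtain ⟨Q, hQ1, hQ2, hQ3⟩ := pert D E hE hEn
    obtain ⟨e⟩ := eqv D
    have hQn : ‖Q‖ ≤ 1 + ε :=
      ContinuousLinearMap.opNorm_le_bound _ (by have := D.ε0; linarith) fun z =>
        (hQ3 z).trans (mul_le_mul_of_nonneg_right (const_le D) (norm_nonneg _))
    obtain ⟨L, i1, i2, hL, ⟨e'⟩⟩ := hS (WData.K1 h η)
      (LinearMap.range (D.J : p →ₗ[ℝ] C(WData.K1 h η, ℝ))) Q
      (fun f => by obtain ⟨x, hx⟩ := hQ1 f; exact ⟨x, hx.symm⟩)
      (fun f hf => by obtain ⟨x, rfl⟩ := hf; exact hQ2 x) hQn (by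
        rcases hc with hc | hc
        · left; infer_instance
        · right; exact sepDual_congr e hc)
    exact ⟨L, i1, i2, hL, ⟨e.trans e'⟩⟩
  · refine trivial_case fun x hx => ?_
    by_contra hx0
    obtain ⟨t, ht, -⟩ := D.peak hx hx0
    exact hne ⟨t, ht⟩

end C93117.W

end
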