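import Mathlib
import Pool.Agent.Work.MP_c93117_an.I.Defs
import Pool.Agent.Work.MP_c93117_an.I.Dug
import Pool.Agent.Work.MP_c93117_an.Bd.B03
import Pool.Agent.Work.MP_c93117_an.Nm.Stmts
import Pool.Agent.Work.MP_c93117_an.Main.Defs
import Pool.Agent.Work.MP_c93117_an.R.Modulus
import Pool.Agent.Work.MP_c93117_an.I3.Rel
import Pool.Agent.Work.MP_c93117_an.I.Core

/-! Bundle of small proof modules (one section per former module). -/

section

/-!
# MP_c93117_an, block I-d and I4 (helper64)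
-/

set_option autoImplicit false

open Set Topology

namespace C93117

/-- Block I4. -/
theorem prf_I4 (M : Type) [TopologicalSpace M] [CompactSpace M] [T2Space M] [Countable M]
    (τ : M → M) (hτ : Continuous τ) (hττ : ∀ x, τ (τ x) = x)
    (hfix : ∀ x y, τ x = x → τ y = y → x = y) (Y : Submodule ℝ C(M, ℝ))
    (hY : ∀ g : C(M, ℝ), g ∈ Y ↔ ∀ x, g (τ x) = - g x) :
    ∃ (L : Type) (_ : MetricSpace L) (_ : CompactSpace L), Nonempty (Y ≃L[ℝ] C(L, ℝ)) := by
  have hYo : Y = Pool.Agent.Work.MP_c93117_an.I.oddSub τ := by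
    ext g
    rw [hY g, Pool.Agent.Work.MP_c93117_an.I.mem_oddSub]
  subst hYo
  obtain ⟨L, i1, i2, _, h⟩ := Pool.Agent.Work.MP_c93117_an.I.odd_iso τ hτ hττ hfix
  exact ⟨L, i1, i2, h⟩

namespace IdX

variable {K : Type} [MetricSpace K] [CompactSpace K]

theorem Y_closed (P : C(K, ℝ) →L[ℝ] C(K, ℝ)) (Q : Set K) [CompactSpace Q] :
    IsClosed (Y P Q : Set C(Q, ℝ)) := by
  have : (Y P Q : Set C(Q, ℝ)) = ⋂ s : Q, ⋂ t : Q, ⋂ σ : ℝ,
      {g : C(Q, ℝ) | (σ = 1 ∨ σ = -1) → D P s t σ ≤ 1 / 2 → g s = σ * g t} := by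
    ext g
    simp only [mem_iInter]
    exact Iff.rfl
  rw [this]
  refine isClosed_iInter fun s => isClosed_iInter fun t => isClosed_iInter fun σ => ?_
  by_cases h : (σ = 1 ∨ σ = -1) ∧ D P s t σ ≤ 1 / 2
  · have e : {g : C(Q, ℝ) | (σ = 1 ∨ σ = -1) → D P s t σ ≤ 1 / 2 → g s = σ * g t}
        = {g : C(Q, ℝ) | g s = σ * g t} := by
      ext g
      exact ⟨fun hg => hg h.1 h.2, fun hg _ _ => hg⟩
    rw [e]
    exact isClosed_eq (continuous_eval_const s)
      (continuous_const.mul (continuous_eval_const t))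
  · have e : {g : C(Q, ℝ) | (σ = 1 ∨ σ = -1) → D P s t σ ≤ 1 / 2 → g s = σ * g t}
        = univ := by
      ext g
      exact ⟨fun _ => mem_univ _, fun _ h1 h2 => absurd ⟨h1, h2⟩ h⟩
    rw [e]
    exact isClosed_univ

end IdX

open IdX in
/-- Block I-d. -/
theorem prf_Id : StId := by
  intro K _ _ p P hpr hP Q hQ happ
  have hPP : ∀ f, P (P f) = P f := fun f => hpr.eq_self _ (hpr.mem f)
  have hcQ : CompactSpace Q := isCompact_iff_compactSpace.mp hQ.closed.isCompact
  by_cases hne : Q.Nonempty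
  swap
  · -- `Q` is empty
    have hp : ∀ x : p, x = 0 := by
      intro x
      by_contra hx
      have hx' : (x : C(K, ℝ)) ≠ 0 := fun h => hx (Subtype.ext h)
      obtain ⟨t, ht, _⟩ := hQ.norming x (hpr.eq_self _ x.2) hx'
      exact hne ⟨t, ht⟩
    have hY : ∀ g : Y P Q, g = 0 := by
      intro g
      apply Subtype.ext
      ext s
      exact absurd ⟨s.1, s.2⟩ hne
    have : Subsingleton p := ⟨fun a b => by rw [hp a, hp b]⟩
    have : Subsingleton (Y P Q) := ⟨fun a b => by rw [hY a, hY b]⟩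
    let e : p ≃ₗ[ℝ] Y P Q :=
      { toFun := fun _ => 0
        invFun := fun _ => 0
        map_add' := fun _ _ => by simp
        map_smul' := fun _ _ => by simp
        left_inv := fun _ => Subsingleton.elim _ _
        right_inv := fun _ => Subsingleton.elim _ _ }
    exact ⟨e.toContinuousLinearEquivOfBounds 0 0 (fun x => by simp [e])
      (fun x => by rw [Subsingleton.elim x 0]; simp)⟩
  obtain ⟨E, hE1, hE2⟩ := Pool.Agent.Work.MP_c93117_an.I.exists_extension Q hne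
  let T : Y P Q →ₗ[ℝ] p :=
    { toFun := fun g => ⟨P (E g.1), hpr.mem _⟩
      map_add' := fun g h => by
        apply Subtype.ext
        show P (E (g.1 + h.1)) = P (E g.1) + P (E h.1)
        rw [map_add, map_add]
      map_smul' := fun c g => by
        apply Subtype.ext
        show P (E (c • g.1)) = c • P (E g.1)
        rw [map_smul, map_smul] }
  have hT : ∀ g : Y P Q, ((T g : p) : C(K, ℝ)) = P (E g.1) := fun g => rfl
  have hest : ∀ (g : Y P Q) (s : Q), |P (E g.1) s - g.1 s| ≤ 1 / 500 * ‖g‖ := by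
    intro g s
    have h1 := hQ.est (E g.1) (by
      intro s hs t ht σ hσ hD
      have e1 : E g.1 s = g.1 ⟨s, hs⟩ := hE1 g.1 ⟨s, hs⟩
      have e2 : E g.1 t = g.1 ⟨t, ht⟩ := hE1 g.1 ⟨t, ht⟩
      rw [e1, e2]
      exact g.2 ⟨s, hs⟩ ⟨t, ht⟩ σ hσ hD) s.1 s.2
    rw [hE1 g.1 s] at h1
    have h2 := hE2 g.1
    have h3 : ‖g‖ = ‖g.1‖ := rfl
    rw [h3]
    linarith
  have hbelow : ∀ g : Y P Q, ‖g‖ ≤ 2 * ‖T g‖ := by
    intro g
    have h3 : ‖g‖ = ‖g.1‖ := rfl
    have h4 : ‖T g‖ = ‖P (E g.1)‖ := rfl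
    have h5 : ‖g.1‖ ≤ ‖P (E g.1)‖ + 1 / 500 * ‖g‖ := by
      rw [ContinuousMap.norm_le _ (by positivity)]
      intro s
      have h1 := hest g s
      have h2 : |P (E g.1) s.1| ≤ ‖P (E g.1)‖ := (P (E g.1)).norm_coe_le_norm s.1
      rw [Real.norm_eq_abs]
      have h6 := abs_sub_abs_le_abs_sub (g.1 s) (P (E g.1) s.1)
      rw [abs_sub_comm] at h6
      linarith
    rw [h4]
    have h7 : 0 ≤ ‖P (E g.1)‖ := norm_nonneg _
    linarith
  have habove : ∀ g : Y P Q, ‖T g‖ ≤ 2 * ‖g‖ := by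
    intro g
    have h4 : ‖T g‖ = ‖P (E g.1)‖ := rfl
    rw [h4]
    have h3 : ‖g‖ = ‖g.1‖ := rfl
    rw [h3]
    have h1 := P.le_opNorm (E g.1)
    have h2 := hE2 g.1
    have h5 : 0 ≤ ‖E g.1‖ := norm_nonneg _
    have h6 : 0 ≤ ‖g.1‖ := norm_nonneg _
    nlinarith
  -- approximation
  have happ' : ∀ x : p, ∃ g : Y P Q, ‖T g - x‖ ≤ 1 / 2 * ‖x‖ := by
    intro x
    have hx : P x.1 = x.1 := hpr.eq_self _ x.2
    obtain ⟨g, hg, hgx⟩ := happ x.1 hx
    refine ⟨⟨g, hg⟩, ?_⟩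
    have hx0 : 0 ≤ ‖x.1‖ := norm_nonneg _
    have hgn : ‖g‖ ≤ 2 * ‖x.1‖ := by
      rw [ContinuousMap.norm_le _ (by positivity)]
      intro s
      have h1 := hgx s
      have h2 : |x.1 s.1| ≤ ‖x.1‖ := x.1.norm_coe_le_norm s.1
      rw [Real.norm_eq_abs]
      have h6 := abs_sub_abs_le_abs_sub (g s) (x.1 s.1)
      linarith
    have hy : ∀ s ∈ Q, |(P (E g) - x.1) s| ≤ 1 / 100 * ‖x.1‖ := by
      intro s hs
      have h1 := hest ⟨g, hg⟩ ⟨s, hs⟩
      have h2 := hgx ⟨s, hs⟩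
      have h3 : ‖(⟨g, hg⟩ : Y P Q)‖ = ‖g‖ := rfl
      rw [h3] at h1
      have h4 : (P (E g) - x.1) s = (P (E g) s - g ⟨s, hs⟩) + (g ⟨s, hs⟩ - x.1 s) := by
        rw [ContinuousMap.sub_apply]; ring
      rw [h4]
      have h5 := abs_add_le (P (E g) s - g ⟨s, hs⟩) (g ⟨s, hs⟩ - x.1 s)
      have h1' : |P (E g) s - g ⟨s, hs⟩| ≤ 1 / 500 * ‖g‖ := h1
      have h2' : |g ⟨s, hs⟩ - x.1 s| ≤ 1 / 400 * ‖x.1‖ := h2
      linarith
    have hfix : P (P (E g) - x.1) = P (E g) - x.1 := by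
      rw [map_sub, hPP, hx]
    have h8 : ‖T ⟨g, hg⟩ - x‖ = ‖P (E g) - x.1‖ := rfl
    have h9 : ‖x‖ = ‖x.1‖ := rfl
    rw [h8, h9]
    by_cases h0 : P (E g) - x.1 = 0
    · rw [h0, norm_zero]
      positivity
    · obtain ⟨t, ht, ht2⟩ := hQ.norming _ hfix h0
      have := hy t ht
      linarith
  -- closed range
  have hcY : CompleteSpace (Y P Q) := (Y_closed P Q).completeSpace_coe
  have hinj : Function.Injective T := by
    intro a b hab
    have h1 := hbelow (a - b)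
    have h2 : T (a - b) = 0 := by rw [map_sub, hab, sub_self]
    have h3 : ‖T (a - b)‖ = 0 := by rw [h2]; exact norm_zero
    rw [h3, mul_zero] at h1
    exact sub_eq_zero.mp (norm_le_zero_iff.mp h1)
  let Tc : Y P Q →L[ℝ] p := T.mkContinuous 2 habove
  have hanti : AntilipschitzWith 2 Tc := by
    refine AddMonoidHomClass.antilipschitz_of_bound Tc ?_
    intro g
    exact hbelow g
  have hclosed : IsClosed (range Tc) := hanti.isClosed_range Tc.uniformContinuous
  have hsurj : Function.Surjective T := by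
    intro x
    have hmem : x ∈ closure (range Tc) := by
      rw [Metric.mem_closure_iff_infDist_zero (range_nonempty _)]
      have hle : Metric.infDist x (range Tc) ≤ 1 / 2 * Metric.infDist x (range Tc) := by
        apply le_of_forall_pos_le_add
        intro ε hε
        obtain ⟨r, ⟨a, rfl⟩, hr⟩ := (Metric.infDist_lt_iff (range_nonempty Tc)).mp
          (show Metric.infDist x (range Tc) < Metric.infDist x (range Tc) + ε by linarith)
        obtain ⟨g, hg⟩ := happ' (x - Tc a)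
        have h1 : Metric.infDist x (range Tc) ≤ dist x (Tc (a + g)) :=
          Metric.infDist_le_dist_of_mem (mem_range_self _)
        have h2 : dist x (Tc (a + g)) = ‖T g - (x - Tc a)‖ := by
          rw [dist_eq_norm, map_add, ← norm_neg]
          congr 1
          show -(x - (Tc a + T g)) = T g - (x - Tc a)
          abel
        rw [h2] at h1
        have hr2 : ‖x - Tc a‖ < Metric.infDist x (range Tc) + ε := by
          rw [dist_eq_norm] at hr
          exact hr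
        have hg2 : ‖T g - (x - Tc a)‖ ≤ 1 / 2 * ‖x - Tc a‖ := hg
        have h1' : Metric.infDist x (range Tc) ≤ ‖T g - (x - Tc a)‖ := h1
        linarith
      have h0 : 0 ≤ Metric.infDist x (range Tc) := Metric.infDist_nonneg
      linarith
    rw [hclosed.closure_eq] at hmem
    obtain ⟨g, hg⟩ := hmem
    exact ⟨g, hg⟩
  let e : Y P Q ≃ₗ[ℝ] p := LinearEquiv.ofBijective T ⟨hinj, hsurj⟩
  have he : ∀ x : p, ‖e.symm x‖ ≤ 2 * ‖x‖ := by
    intro x
    have h1 := hbelow (e.symm x)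
    have h2 : T (e.symm x) = x := e.apply_symm_apply x
    rwa [h2] at h1
  exact ⟨(e.toContinuousLinearEquivOfBounds 2 2 habove he).symm⟩

end C93117

end

section

/-!
# MP_c93117_an, block Nm: assembly (Theorem N and the block statement `C93117.StN`)
-/

namespace SmP

theorem prf_ThmN (hSys : SysEx) (hTree : Tree) : ThmN := by
  intro K _ _ P c hc hc1 hP hn hNC x hx hx1
  have h4 : c ^ 4 ≤ 1 := pow_le_one₀ hc.le hc1
  obtain ⟨M, S⟩ := hSys K P (c ^ 4 / 10 ^ 12) hP hn (by positivity)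
    (div_le_div_of_nonneg_right h4 (by norm_num))
  exact hTree K P M _ S hNC x c hx hx1 hc hc1 le_rfl

theorem StN_of (hN : ThmN) (hS : SepNC) : C93117.StN := by
  intro c hc
  have hc' : 0 < min c 1 := lt_min hc one_pos
  refine ⟨(min c 1) ^ 4 / 10 ^ 12, by positivity, ?_⟩
  intro K _ _ p P hp hP hsep x hx hx1
  have hPP : ∀ f, P (P f) = P f := fun f => hp.eq_self _ (hp.mem f)
  have hPx : P x = x := hp.eq_self x hx
  have hNC : NoCantor P := hS K P p (fun y hy => hy ▸ hp.mem y) hsep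
  obtain ⟨t, hg, hn, ht⟩ := hN K P (min c 1) hc' (min_le_right _ _) hPP hP hNC x hPx hx1
  have hle : min c 1 ≤ c := min_le_left _ _
  refine ⟨t, ⟨?_, ?_⟩, by linarith⟩
  · have h1 : 1 - min c 1 / 10 ^ 4 ≤ ‖C93117.ev P t‖ := hn
    have h2 : min c 1 / 10 ^ 4 ≤ min c 1 := by
      rw [div_le_iff₀ (by norm_num)]
      nlinarith
    linarith
  · intro f hf
    refine (hg f fun s hs => hf s ?_).trans (mul_le_mul_of_nonneg_right hle (norm_nonneg _))
    rcases hs with h | h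
    · left
      have : C93117.D P s t 1 = ‖ev P s - ev P t‖ := by
        unfold C93117.D
        rw [one_smul]
        rfl
      rw [this]
      exact h.trans hle
    · right
      have : C93117.D P s t (-1) = ‖ev P s + ev P t‖ := by
        unfold C93117.D
        have h1 : C93117.ev P s - (-1 : ℝ) • C93117.ev P t = ev P s + ev P t := by
          ext f
          simp [ev_apply]
        rw [h1]
      rw [this]
      exact h.trans hle

end SmP

end

section

/-!
# The absolute value of a continuous linear functional on `C(K)`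
-/

namespace SmP

section
variable {K : Type} [TopologicalSpace K] [CompactSpace K]

/-- The values of `φ` on the functions bounded by `f`. -/
def L_AbsEx_S (φ : C(K, ℝ) →L[ℝ] ℝ) (f : C(K, ℝ)) : Set ℝ :=
  {r | ∃ g : C(K, ℝ), |g| ≤ f ∧ φ g = r}

/-- The absolute value of `φ` at `f ≥ 0`. -/
noncomputable def L_AbsEx_N (φ : C(K, ℝ) →L[ℝ] ℝ) (f : C(K, ℝ)) : ℝ := sSup (L_AbsEx_S φ f)

theorem L_AbsEx_ne (φ : C(K, ℝ) →L[ℝ] ℝ) {f : C(K, ℝ)} (hf : 0 ≤ f) :
    (L_AbsEx_S φ f).Nonempty :=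
  ⟨0, 0, by simpa using hf, map_zero _⟩

theorem L_AbsEx_pt {f g : C(K, ℝ)} (h : |g| ≤ f) (s : K) : |g s| ≤ f s := h s

theorem L_AbsEx_norm {f g : C(K, ℝ)} (h : |g| ≤ f) : ‖g‖ ≤ ‖f‖ := by
  rw [ContinuousMap.norm_le _ (norm_nonneg _)]
  intro s
  exact (L_AbsEx_pt h s).trans ((le_abs_self _).trans (abs_apply_le f s))

theorem L_AbsEx_bdd (φ : C(K, ℝ) →L[ℝ] ℝ) (f : C(K, ℝ)) : BddAbove (L_AbsEx_S φ f) := by
  refine ⟨‖φ‖ * ‖f‖, ?_⟩
  rintro _ ⟨g, hg, rfl⟩
  exact (le_abs_self _).trans ((φ.le_opNorm g).trans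
    (mul_le_mul_of_nonneg_left (L_AbsEx_norm hg) (norm_nonneg _)))

theorem L_AbsEx_le (φ : C(K, ℝ) →L[ℝ] ℝ) {f g : C(K, ℝ)} (h : |g| ≤ f) :
    φ g ≤ L_AbsEx_N φ f :=
  le_csSup (L_AbsEx_bdd φ f) ⟨g, h, rfl⟩

theorem L_AbsEx_of_pt {f g : C(K, ℝ)} (h : ∀ s, |g s| ≤ f s) : |g| ≤ f := h

theorem L_AbsEx_real1 (x a b : ℝ) (ha : 0 ≤ a) (h : |x| ≤ a + b) :
    |max (min x a) (-a)| ≤ a := by
  rw [abs_le]
  exact ⟨le_max_right _ _, max_le (min_le_right _ _) (by linarith)⟩

theorem L_AbsEx_real2 (x a b : ℝ) (ha : 0 ≤ a) (hb : 0 ≤ b) (h : |x| ≤ a + b) :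
    |x - max (min x a) (-a)| ≤ b := by
  rw [abs_le] at h ⊢
  rcases le_total x a with h1 | h1
  · rw [min_eq_left h1]
    rcases le_total x (-a) with h2 | h2
    · rw [max_eq_right h2]
      constructor <;> linarith
    · rw [max_eq_left h2]
      constructor <;> linarith
  · rw [min_eq_right h1, max_eq_left (by linarith)]
    constructor <;> linarith

theorem L_AbsEx_add (φ : C(K, ℝ) →L[ℝ] ℝ) {f₁ f₂ : C(K, ℝ)} (h₁ : 0 ≤ f₁) (h₂ : 0 ≤ f₂) :
    L_AbsEx_N φ (f₁ + f₂) = L_AbsEx_N φ f₁ + L_AbsEx_N φ f₂ := by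
  apply le_antisymm
  · apply csSup_le (L_AbsEx_ne φ (add_nonneg h₁ h₂))
    rintro _ ⟨g, hg, rfl⟩
    have e1 : |(g ⊓ f₁) ⊔ (-f₁)| ≤ f₁ := L_AbsEx_of_pt (fun s =>
      L_AbsEx_real1 (g s) (f₁ s) (f₂ s) (h₁ s) (L_AbsEx_pt hg s))
    have e2 : |g - (g ⊓ f₁) ⊔ (-f₁)| ≤ f₂ := L_AbsEx_of_pt (fun s =>
      L_AbsEx_real2 (g s) (f₁ s) (f₂ s) (h₁ s) (h₂ s) (L_AbsEx_pt hg s))
    have e3 := L_AbsEx_le φ e1
    have e4 := L_AbsEx_le φ e2
    rw [map_sub] at e4
    linarith
  · rw [← le_sub_iff_add_le]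
    apply csSup_le (L_AbsEx_ne φ h₁)
    rintro _ ⟨g₁, hg₁, rfl⟩
    rw [le_sub_comm]
    apply csSup_le (L_AbsEx_ne φ h₂)
    rintro _ ⟨g₂, hg₂, rfl⟩
    have : φ (g₁ + g₂) ≤ L_AbsEx_N φ (f₁ + f₂) :=
      L_AbsEx_le φ (L_AbsEx_of_pt (fun s =>
        (abs_add_le (g₁ s) (g₂ s)).trans (add_le_add (L_AbsEx_pt hg₁ s) (L_AbsEx_pt hg₂ s))))
    rw [map_add] at this
    linarith

theorem L_AbsEx_zero (φ : C(K, ℝ) →L[ℝ] ℝ) : L_AbsEx_N φ 0 = 0 := by
  have h := L_AbsEx_add φ (le_refl (0 : C(K, ℝ))) (le_refl 0)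
  rw [add_zero] at h
  linarith

theorem L_AbsEx_smul_le (φ : C(K, ℝ) →L[ℝ] ℝ) {f : C(K, ℝ)} (hf : 0 ≤ f) {c : ℝ} (hc : 0 < c) :
    L_AbsEx_N φ (c • f) ≤ c * L_AbsEx_N φ f := by
  apply csSup_le (L_AbsEx_ne φ (smul_nonneg hc.le hf))
  rintro _ ⟨g, hg, rfl⟩
  have e : |c⁻¹ • g| ≤ f := L_AbsEx_of_pt (fun s => by
    have h1 : |g s| ≤ c * f s := L_AbsEx_pt hg s
    have h2 : (c⁻¹ • g) s = c⁻¹ * g s := rfl
    rw [h2, abs_mul, abs_of_pos (inv_pos.2 hc), inv_mul_le_iff₀ hc]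
    exact h1)
  have := L_AbsEx_le φ e
  rw [map_smul, smul_eq_mul, inv_mul_le_iff₀ hc] at this
  exact this

theorem L_AbsEx_smul (φ : C(K, ℝ) →L[ℝ] ℝ) {f : C(K, ℝ)} (hf : 0 ≤ f) {c : ℝ} (hc : 0 ≤ c) :
    L_AbsEx_N φ (c • f) = c * L_AbsEx_N φ f := by
  rcases hc.eq_or_lt with h | h
  · rw [← h, zero_smul, zero_mul, L_AbsEx_zero]
  · apply le_antisymm (L_AbsEx_smul_le φ hf h)
    have := L_AbsEx_smul_le φ (smul_nonneg hc hf) (inv_pos.2 h)
    rw [smul_smul, inv_mul_cancel₀ h.ne', one_smul, le_inv_mul_iff₀ h] at this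
    exact this

/-- The absolute value of `φ` at `f`. -/
noncomputable def L_AbsEx_M (φ : C(K, ℝ) →L[ℝ] ℝ) (f : C(K, ℝ)) : ℝ :=
  L_AbsEx_N φ (f ⊔ 0) - L_AbsEx_N φ ((-f) ⊔ 0)

theorem L_AbsEx_M_eq (φ : C(K, ℝ) →L[ℝ] ℝ) {f a b : C(K, ℝ)} (ha : 0 ≤ a) (hb : 0 ≤ b)
    (h : f = a - b) : L_AbsEx_M φ f = L_AbsEx_N φ a - L_AbsEx_N φ b := by
  have e : (f ⊔ 0) + b = ((-f) ⊔ 0) + a := by
    ext s
    have h1 : f s = a s - b s := by rw [h]; rfl
    change max (f s) 0 + b s = max (-f s) 0 + a s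
    rcases le_total (f s) 0 with h2 | h2
    · rw [max_eq_right h2, max_eq_left (by linarith)]
      linarith
    · rw [max_eq_left h2, max_eq_right (by linarith)]
      linarith
  have e1 := L_AbsEx_add φ (le_sup_right : (0 : C(K, ℝ)) ≤ f ⊔ 0) hb
  have e2 := L_AbsEx_add φ (le_sup_right : (0 : C(K, ℝ)) ≤ (-f) ⊔ 0) ha
  rw [e] at e1
  unfold L_AbsEx_M
  linarith

theorem L_AbsEx_sub (f : C(K, ℝ)) : f = (f ⊔ 0) - ((-f) ⊔ 0) := by
  ext s
  change f s = max (f s) 0 - max (-f s) 0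
  rcases le_total (f s) 0 with h2 | h2
  · rw [max_eq_right h2, max_eq_left (by linarith)]
    linarith
  · rw [max_eq_left h2, max_eq_right (by linarith)]
    linarith

theorem L_AbsEx_M_nonneg (φ : C(K, ℝ) →L[ℝ] ℝ) {f : C(K, ℝ)} (hf : 0 ≤ f) :
    L_AbsEx_M φ f = L_AbsEx_N φ f := by
  rw [L_AbsEx_M_eq φ hf le_rfl (sub_zero f).symm, L_AbsEx_zero, sub_zero]

theorem L_AbsEx_M_add (φ : C(K, ℝ) →L[ℝ] ℝ) (f g : C(K, ℝ)) :
    L_AbsEx_M φ (f + g) = L_AbsEx_M φ f + L_AbsEx_M φ g := by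
  have p1 : (0 : C(K, ℝ)) ≤ f ⊔ 0 := le_sup_right
  have p2 : (0 : C(K, ℝ)) ≤ (-f) ⊔ 0 := le_sup_right
  have p3 : (0 : C(K, ℝ)) ≤ g ⊔ 0 := le_sup_right
  have p4 : (0 : C(K, ℝ)) ≤ (-g) ⊔ 0 := le_sup_right
  rw [L_AbsEx_M_eq φ (a := f ⊔ 0 + g ⊔ 0) (b := (-f) ⊔ 0 + (-g) ⊔ 0) (add_nonneg p1 p3)
    (add_nonneg p2 p4), L_AbsEx_add φ p1 p3, L_AbsEx_add φ p2 p4]
  · unfold L_AbsEx_M
    ring
  · nth_rewrite 1 [L_AbsEx_sub f, L_AbsEx_sub g]
    abel

theorem L_AbsEx_M_smul (φ : C(K, ℝ) →L[ℝ] ℝ) (c : ℝ) (f : C(K, ℝ)) :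
    L_AbsEx_M φ (c • f) = c * L_AbsEx_M φ f := by
  have p1 : (0 : C(K, ℝ)) ≤ f ⊔ 0 := le_sup_right
  have p2 : (0 : C(K, ℝ)) ≤ (-f) ⊔ 0 := le_sup_right
  rcases le_total 0 c with hc | hc
  · rw [L_AbsEx_M_eq φ (a := c • (f ⊔ 0)) (b := c • ((-f) ⊔ 0)) (smul_nonneg hc p1)
      (smul_nonneg hc p2), L_AbsEx_smul φ p1 hc, L_AbsEx_smul φ p2 hc]
    · unfold L_AbsEx_M
      ring
    · rw [← smul_sub, ← L_AbsEx_sub f]
  · have hc' : 0 ≤ -c := by linarith
    rw [L_AbsEx_M_eq φ (a := (-c) • ((-f) ⊔ 0)) (b := (-c) • (f ⊔ 0)) (smul_nonneg hc' p2)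
      (smul_nonneg hc' p1), L_AbsEx_smul φ p1 hc', L_AbsEx_smul φ p2 hc']
    · unfold L_AbsEx_M
      ring
    · rw [← smul_sub, neg_smul, ← smul_neg, neg_sub, ← L_AbsEx_sub f]

end

theorem prf_AbsEx : AbsEx := by
  intro K _ _ φ
  refine ⟨⟨⟨L_AbsEx_M φ, L_AbsEx_M_add φ⟩, L_AbsEx_M_smul φ⟩, ?_, ?_⟩
  · intro f g h
    have hf : 0 ≤ f := (abs_nonneg g).trans h
    change φ g ≤ L_AbsEx_M φ f
    rw [L_AbsEx_M_nonneg φ hf]
    exact L_AbsEx_le φ h
  · intro f hf η hη
    change ∃ g : C(K, ℝ), |g| ≤ f ∧ L_AbsEx_M φ f - η < φ g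
    rw [L_AbsEx_M_nonneg φ hf]
    obtain ⟨_, ⟨g, hg, rfl⟩, h⟩ := exists_lt_of_lt_csSup (L_AbsEx_ne φ hf)
      (show L_AbsEx_N φ f - η < sSup (L_AbsEx_S φ f) from by
        change L_AbsEx_N φ f - η < L_AbsEx_N φ f
        linarith)
    exact ⟨g, hg, h⟩

end SmP

end

section

/-!
# MP_c93117_an, block Nm: a regular point which is not good
-/

namespace SmP

theorem prf_BadPt : BadPt := by
  intro K _ _ P M ε S x t c θ b hc hθ hbc hreg hbad
  unfold Good at hbad
  push Not at hbad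
  obtain ⟨f, hf0, hPf⟩ := hbad
  have hN : 0 < ‖f‖ := by
    rcases (norm_nonneg f).eq_or_lt with h | h
    · exfalso
      have hf : f = 0 := norm_eq_zero.1 h.symm
      rw [hf] at hPf
      simp at hPf
    · exact h
  set D : C(K, ℝ) := dev |x| |x t| with hD
  have hDs : ∀ s, D s = |(|x s| - |x t|)| := by
    intro s
    rw [hD, dev_apply]
    simp
  set f0 : C(K, ℝ) := ‖f‖⁻¹ • |f| with hf0def
  have hf0s : ∀ s, f0 s = ‖f‖⁻¹ * |f s| := by
    intro s
    simp [hf0def]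
  have h0 : ∀ s, 0 ≤ f0 s := by
    intro s
    rw [hf0s]
    positivity
  have h1 : ∀ s, f0 s ≤ 1 := by
    intro s
    rw [hf0s]
    calc ‖f‖⁻¹ * |f s| ≤ ‖f‖⁻¹ * ‖f‖ :=
          mul_le_mul_of_nonneg_left (abs_apply_le f s) (by positivity)
      _ = 1 := inv_mul_cancel₀ hN.ne'
  set g : C(K, ℝ) := f0 - (1 / θ) • (f0 * D) with hg
  have hgs : ∀ s, g s = f0 s * (1 - (1 / θ) * D s) := by
    intro s
    simp only [hg, ContinuousMap.sub_apply, ContinuousMap.smul_apply, ContinuousMap.mul_apply,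
      smul_eq_mul]
    ring
  have hDn : ∀ s, 0 ≤ D s := by
    intro s
    rw [hDs]
    exact abs_nonneg _
  have hθ1 : 0 < 1 / θ := by positivity
  have hg1 : g ≤ 1 := by
    intro s
    change g s ≤ (1 : C(K, ℝ)) s
    rw [hgs, ContinuousMap.one_apply]
    have h2 : 1 - (1 / θ) * D s ≤ 1 := by
      have := mul_nonneg hθ1.le (hDn s)
      linarith
    calc f0 s * (1 - (1 / θ) * D s) ≤ f0 s * 1 := mul_le_mul_of_nonneg_left h2 (h0 s)
      _ ≤ 1 := by rw [mul_one]; exact h1 s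
  have hMf0 : c < M t f0 := by
    have h2 : M t f0 = ‖f‖⁻¹ * M t |f| := by rw [hf0def, map_smul, smul_eq_mul]
    rw [h2]
    calc c = ‖f‖⁻¹ * (c * ‖f‖) := by field_simp
      _ < ‖f‖⁻¹ * |P f t| := mul_lt_mul_of_pos_left hPf (by positivity)
      _ ≤ ‖f‖⁻¹ * M t |f| := mul_le_mul_of_nonneg_left (S.abs t f) (by positivity)
  have hMD : M t (f0 * D) ≤ b := by
    have h2 : M t (f0 * D) ≤ M t D := by
      apply S.mono t
      intro s
      rw [ContinuousMap.mul_apply]
      calc f0 s * D s ≤ 1 * D s := mul_le_mul_of_nonneg_right (h1 s) (hDn s)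
        _ = D s := one_mul _
    exact h2.trans hreg
  have hMg : 0 < M t g := by
    have h2 : M t g = M t f0 - (1 / θ) * M t (f0 * D) := by
      rw [hg, map_sub, (M t).map_smul (1 / θ) (f0 * D), smul_eq_mul]
    rw [h2]
    have h3 : (1 / θ) * M t (f0 * D) ≤ c / 2 := by
      calc (1 / θ) * M t (f0 * D) ≤ (1 / θ) * b := mul_le_mul_of_nonneg_left hMD hθ1.le
        _ ≤ (1 / θ) * (c * θ / 2) := mul_le_mul_of_nonneg_left (by linarith) hθ1.le
        _ = c / 2 := by field_simp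
    linarith
  obtain ⟨s, hs, -⟩ := S.ex t [] g 1 one_pos (by simp) hg1 (by
    simpa using hMg)
  rw [hgs] at hs
  have hpos : 0 < f0 s := by
    rcases (h0 s).eq_or_lt with h | h
    · rw [← h, zero_mul] at hs
      exact absurd hs (lt_irrefl _)
    · exact h
  have h2 : 0 < 1 - (1 / θ) * D s := by
    by_contra hn
    rw [not_lt] at hn
    have := mul_nonpos_of_nonneg_of_nonpos hpos.le hn
    linarith
  refine ⟨s, ?_, ?_⟩
  · intro hn
    have := hf0 s hn
    rw [hf0s, this, abs_zero, mul_zero] at hpos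
    exact lt_irrefl _ hpos
  · rw [← hDs]
    have h3 : (1 / θ) * D s < 1 := by linarith
    calc D s = θ * ((1 / θ) * D s) := by field_simp
      _ < θ * 1 := mul_lt_mul_of_pos_left h3 hθ
      _ = θ := mul_one _

end SmP

end

section

namespace SmP

theorem L_Bump_tent_apply {K : Type} [TopologicalSpace K] (c : ℝ) (x v : C(K, ℝ)) (r : ℝ) (s : K) :
    tent c x v r s = cl (32 * (|x s| - 15 / 16)) * cl (1 - 8 / c * |v s - r|) := rfl

theorem L_Bump_cl {z : ℝ} (hz : 0 ≤ z) : 1 - z ≤ cl (1 - z) := by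
  unfold cl
  exact (le_min (by linarith) le_rfl).trans (le_max_right _ _)

theorem prf_Bump (hCoh : Coh) : Bump := by
  intro K _ _ P M ε S x v s₁ c b hx hc hc1 hb hbc hreg hv hxs
  set f := tent c x v (v s₁) with hf
  have heps0 := S.eps0
  have heps1 := S.eps1
  -- bounds for the tent
  have hf0 : ∀ s, 0 ≤ f s := fun s => mul_nonneg (cl_nonneg _) (cl_nonneg _)
  have hf1 : ∀ s, f s ≤ 1 := fun s =>
    mul_le_one₀ (cl_le_one _) (cl_nonneg _) (cl_le_one _)
  have hfn : ‖f‖ ≤ 1 := (norm_le_one_iff f).2 fun s => by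
    rw [abs_of_nonneg (hf0 s)]
    exact hf1 s
  have hx1 : ∀ s, |x s| ≤ 1 := (norm_le_one_iff x).1 hx.2
  -- the sign
  obtain ⟨σ, hσ, hσx⟩ : ∃ σ : ℝ, (σ = 1 ∨ σ = -1) ∧ σ * x s₁ = |x s₁| := by
    rcases le_total 0 (x s₁) with h | h
    · exact ⟨1, Or.inl rfl, by rw [one_mul, abs_of_nonneg h]⟩
    · exact ⟨-1, Or.inr rfl, by rw [abs_of_nonpos h]; ring⟩
  have h1 := hCoh K P M ε S x s₁ σ hx.1 hσ hσx f
  -- `M |x| - |x s₁| ≤ b + ε`
  have h2 : M s₁ |x| ≤ b + |x s₁| * (1 + ε) := by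
    have h3 : M s₁ |x| ≤ M s₁ (dev |x| |x s₁| + |x s₁| • (1 : C(K, ℝ))) := by
      refine S.mono s₁ fun r => ?_
      show |x r| ≤ |(|x r| - |x s₁|)| + |x s₁| * 1
      have := le_abs_self (|x r| - |x s₁|)
      linarith
    rw [map_add, map_smul, smul_eq_mul] at h3
    have h4 := mul_le_mul_of_nonneg_left (S.one s₁) (abs_nonneg (x s₁))
    have h5 : M s₁ (dev |x| |x s₁|) ≤ b := hreg
    linarith
  have h3 : |x s₁| * ε ≤ ε := by
    have := mul_le_mul_of_nonneg_right (hx1 s₁) heps0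
    linarith
  have h4 : M s₁ |x| - |x s₁| ≤ b + ε := by nlinarith
  have h4' : 0 ≤ M s₁ |x| - |x s₁| := by linarith [S.abs_x_le hx.1 s₁]
  -- lower bound
  have h5 : M s₁ |x| - 64 * M s₁ (dev |x| |x s₁|) - 8 / c * M s₁ (dev v (v s₁)) ≤
      M s₁ (f * |x|) := by
    have h6 : M s₁ (|x| - (64 : ℝ) • dev |x| |x s₁| - (8 / c : ℝ) • dev v (v s₁)) ≤
        M s₁ (f * |x|) := by
      refine S.mono s₁ fun r => ?_
      show |x r| - 64 * |(|x r| - |x s₁|)| - 8 / c * |v r - v s₁| ≤ f r * |x r|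
      set A := cl (32 * (|x r| - 15 / 16)) with hA
      set B := cl (1 - 8 / c * |v r - v s₁|) with hB
      have hfr : f r = A * B := rfl
      have hA0 : 0 ≤ A := cl_nonneg _
      have hA1 : A ≤ 1 := cl_le_one _
      have hB0 : 0 ≤ B := cl_nonneg _
      have hB1 : B ≤ 1 := cl_le_one _
      have hBz : 1 - 8 / c * |v r - v s₁| ≤ B := L_Bump_cl (by positivity)
      have hAz : 1 - A ≤ 64 * |(|x r| - |x s₁|)| := by
        rcases le_or_gt (31 / 32) |x r| with h | h
        · have : A = 1 := cl_of_one_le (by linarith)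
          rw [this]
          have := abs_nonneg (|x r| - |x s₁|)
          linarith
        · have h7 := neg_abs_le (|x r| - |x s₁|)
          linarith
      have hxr := hx1 r
      have hxr0 := abs_nonneg (x r)
      rw [hfr]
      have h8 : |x r| * (1 - A * B) ≤ 1 - A * B := by
        have : 0 ≤ 1 - A * B := by nlinarith
        nlinarith
      have h9 : 1 - A * B ≤ (1 - A) + (1 - B) := by nlinarith
      nlinarith
    rw [map_sub, map_sub, map_smul, map_smul, smul_eq_mul, smul_eq_mul] at h6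
    exact h6
  have h6 : M s₁ (dev |x| |x s₁|) ≤ b := hreg
  have h7 : 8 / c * M s₁ (dev v (v s₁)) ≤ 48 / 10 ^ 4 := by
    have h8 : 8 / c * M s₁ (dev v (v s₁)) ≤ 8 / c * (6 * (c / 10 ^ 4)) :=
      mul_le_mul_of_nonneg_left (by linarith) (by positivity)
    have h9 : 8 / c * (6 * (c / 10 ^ 4)) = 48 / 10 ^ 4 := by
      field_simp
      norm_num
    linarith
  have h8 : |x s₁| ≤ M s₁ |x| := S.abs_x_le hx.1 s₁
  have h9 : ‖f‖ * (M s₁ |x| - |x s₁|) ≤ b + ε := by
    have := mul_le_mul hfn h4 h4' zero_le_one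
    linarith
  have hb2 : b ≤ 1 / 10 ^ 4 := hbc.trans (div_le_div_of_nonneg_right hc1 (by norm_num))
  have h10 : M s₁ (f * |x|) - (b + ε) ≤ σ * P (f * x) s₁ := by
    have := (abs_le.1 (h1.trans h9)).2
    linarith
  have h11 : σ * P (f * x) s₁ ≤ |P (f * x) s₁| := by
    rcases hσ with h | h
    · rw [h, one_mul]
      exact le_abs_self _
    · rw [h, neg_one_mul]
      exact neg_le_abs _
  norm_num at *
  linarith

end SmP

end

section

/-!
# MP_c93117_an, block Nm: coherence of the signs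
-/

namespace SmP

variable {K : Type} [TopologicalSpace K] [CompactSpace K]

/-- The defect functional. -/
noncomputable def L_Coh_E (P : C(K, ℝ) →L[ℝ] C(K, ℝ)) (M : K → C(K, ℝ) →ₗ[ℝ] ℝ)
    (x : C(K, ℝ)) (s : K) (σ : ℝ) (f : C(K, ℝ)) : ℝ :=
  M s (f * |x|) - σ * P (f * x) s

theorem L_Coh_nonneg {P : C(K, ℝ) →L[ℝ] C(K, ℝ)} {M : K → C(K, ℝ) →ₗ[ℝ] ℝ} {ε : ℝ}
    (S : Sys P M ε) (x : C(K, ℝ)) (s : K) {σ : ℝ} (hσ : σ = 1 ∨ σ = -1) {f : C(K, ℝ)}
    (hf : ∀ t, 0 ≤ f t) : 0 ≤ L_Coh_E P M x s σ f := by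
  have h1 : |P (f * x) s| ≤ M s (f * |x|) := by
    refine S.abs_le s fun t => ?_
    rw [ContinuousMap.mul_apply, ContinuousMap.mul_apply, abs_mul, abs_of_nonneg (hf t)]
    exact le_of_eq rfl
  have h2 := _root_.abs_le.1 h1
  unfold L_Coh_E
  rcases hσ with h | h
  · rw [h, one_mul]
    linarith only [h2.2]
  · rw [h, neg_one_mul]
    linarith only [h2.1]

omit [CompactSpace K] in
theorem L_Coh_sub (P : C(K, ℝ) →L[ℝ] C(K, ℝ)) (M : K → C(K, ℝ) →ₗ[ℝ] ℝ)
    (x : C(K, ℝ)) (s : K) (σ : ℝ) (f g : C(K, ℝ)) :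
    L_Coh_E P M x s σ (f - g) = L_Coh_E P M x s σ f - L_Coh_E P M x s σ g := by
  unfold L_Coh_E
  rw [sub_mul, sub_mul, map_sub, map_sub, ContinuousMap.sub_apply]
  ring

omit [CompactSpace K] in
theorem L_Coh_smul (P : C(K, ℝ) →L[ℝ] C(K, ℝ)) (M : K → C(K, ℝ) →ₗ[ℝ] ℝ)
    (x : C(K, ℝ)) (s : K) (σ c : ℝ) (f : C(K, ℝ)) :
    L_Coh_E P M x s σ (c • f) = c * L_Coh_E P M x s σ f := by
  unfold L_Coh_E
  rw [smul_mul_assoc, smul_mul_assoc, map_smul, map_smul, ContinuousMap.smul_apply, smul_eq_mul,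
    smul_eq_mul]
  ring

theorem prf_Coh : Coh := by
  intro K _ _ P M ε S x s σ hx hσ hs f
  have h1 : L_Coh_E P M x s σ 1 = M s |x| - |x s| := by
    unfold L_Coh_E
    rw [one_mul, one_mul, hx, hs]
  have hf : ∀ t, |f t| ≤ ‖f‖ := abs_apply_le f
  have h2 : 0 ≤ L_Coh_E P M x s σ (‖f‖ • (1 : C(K, ℝ)) - f) := by
    refine L_Coh_nonneg S x s hσ fun t => ?_
    have := (_root_.abs_le.1 (hf t)).2
    rw [ContinuousMap.sub_apply, ContinuousMap.smul_apply, ContinuousMap.one_apply, smul_eq_mul]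
    linarith only [this]
  have h3 : 0 ≤ L_Coh_E P M x s σ (‖f‖ • (1 : C(K, ℝ)) - (-1 : ℝ) • f) := by
    refine L_Coh_nonneg S x s hσ fun t => ?_
    have := (_root_.abs_le.1 (hf t)).1
    rw [ContinuousMap.sub_apply, ContinuousMap.smul_apply, ContinuousMap.one_apply, smul_eq_mul,
      ContinuousMap.smul_apply, smul_eq_mul]
    linarith only [this]
  rw [L_Coh_sub, L_Coh_smul, h1] at h2
  rw [L_Coh_sub, L_Coh_smul, L_Coh_smul, h1] at h3
  change |L_Coh_E P M x s σ f| ≤ _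
  rw [_root_.abs_le]
  constructor
  · linarith only [h3]
  · linarith only [h2]

end SmP

end

section

/-!
# MP_c93117_an, block Nm: the dichotomy
-/

namespace SmP

/-- The pointwise estimate. -/
theorem L_Dich_real {Y X : ℝ} (h : (4 / 5 < Y ∧ X < 3 / 10) ∨ (Y < -(4 / 5) ∧ -(3 / 10) < X))
    (p q : ℝ) :
    1 - F (1 / 4) (17 / 20) p q ≤ 10 * |(|p| - |Y|)| + 5 * |p * q - Y * X| := by
  have hn1 : 0 ≤ |(|p| - |Y|)| := abs_nonneg _
  have hn2 : 0 ≤ |p * q - Y * X| := abs_nonneg _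
  by_cases hF : F (1 / 4) (17 / 20) p q = 1
  · rw [hF]
    linarith
  have hF0 := F_nonneg (1 / 4) (17 / 20) p q
  have hno := mt (F_eq_one (a := 1 / 4) (b := 17 / 20) (y := p) (x := q) (by norm_num)) hF
  rw [not_or, not_and_or, not_and_or, not_le, not_le, not_le, not_le] at hno
  by_cases h1 : 1 / 10 < |(|p| - |Y|)|
  · linarith
  rw [not_lt, abs_le] at h1
  -- bounds for `Y`
  have hY : 4 / 5 < |Y| ∧ Y * X < 3 / 10 * |Y| := by
    rcases h with ⟨h2, h3⟩ | ⟨h2, h3⟩
    · have h4 : 0 < Y := by linarith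
      rw [abs_of_pos h4]
      exact ⟨h2, by linarith [mul_lt_mul_of_pos_left h3 h4]⟩
    · have h4 : Y < 0 := by linarith
      rw [abs_of_neg h4]
      exact ⟨by linarith, by linarith [mul_lt_mul_of_neg_left h3 h4]⟩
  have hp : 4 / 5 * |p| < p * q := by
    rcases le_or_gt 0 p with h2 | h2
    · rw [abs_of_nonneg h2] at h1 ⊢
      have h3 : 7 / 10 < p := by linarith [hY.1]
      rcases hno.1 with h4 | h4
      · linarith
      · linarith [mul_lt_mul_of_pos_left h4 (by linarith : (0 : ℝ) < p)]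
    · rw [abs_of_neg h2] at h1 ⊢
      have h3 : 7 / 10 < -p := by linarith [hY.1]
      rcases hno.2 with h4 | h4
      · linarith
      · linarith [mul_lt_mul_of_neg_left h4 h2]
  have h5 := le_abs_self (p * q - Y * X)
  have h6 := hY.1
  have h7 := hY.2
  linarith [h1.1, h1.2]

theorem prf_Dich (hPR : ProdReg) : Dich := by
  intro K _ _ P M ε S y x hy hx hF t
  by_contra hn
  rw [not_le] at hn
  have hz : UB P ((1 / 2 : ℝ) • (x + y)) := by
    refine ⟨?_, ?_⟩
    · rw [map_smul, map_add, hx.1, hy.1]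
    · have h1 := norm_add_le x y
      have h2 := hx.2
      have h3 := hy.2
      rw [norm_smul, Real.norm_eq_abs, abs_of_pos (by norm_num : (0 : ℝ) < 1 / 2)]
      linarith
  obtain ⟨s, hs0, hreg⟩ := S.ex t [y, x, (1 / 2 : ℝ) • (x + y)] (Fc (4 / 5) (3 / 10) y x)
    (1 / 1000) (by norm_num)
    (by
      intro w hw
      simp only [List.mem_cons, List.not_mem_nil, or_false] at hw
      rcases hw with rfl | rfl | rfl
      · exact hy
      · exact hx
      · exact hz)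
    (by
      intro r
      exact F_le_one (by norm_num) _ _ _)
    (by
      simp only [List.length_cons, List.length_nil]
      push_cast
      linarith [S.eps0])
  have hry := hreg y (by simp)
  have hrx := hreg x (by simp)
  have hrz := hreg ((1 / 2 : ℝ) • (x + y)) (by simp)
  have hprod := hPR K P M ε S x y s (1 / 1000) hx hy hrx hry hrz
  have hF1 := F_pos hs0
  have hmono := S.mono s (f := 1 - Fc (1 / 4) (17 / 20) y x)
    (g := (10 : ℝ) • dev |y| |y s| + (5 : ℝ) • dev (y * x) (y s * x s))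
    (fun r => L_Dich_real hF1 (y r) (x r))
  rw [map_sub, map_add, map_smul, map_smul, smul_eq_mul, smul_eq_mul] at hmono
  have hM1 := S.x_le_one hy s
  have hys : 4 / 5 < |y s| := by
    rcases hF1 with ⟨h1, -⟩ | ⟨h1, -⟩
    · exact lt_of_lt_of_le h1 (le_abs_self _)
    · have := neg_abs_le (y s)
      linarith
  have hFs := hF s
  unfold Reg at hry
  linarith

end SmP

end

section

/-!
# FChain: pointwise inequality for the no drift lemma
-/

set_option autoImplicit false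

namespace SmP

theorem L_FChain_pos (p q r s : ℝ) (h1 : 1 / 4 < p) (h2 : s < 17 / 20) :
    F (1 / 4) (17 / 20) p s ≤
      F (1 / 5) (9 / 10) p q + F (1 / 5) (9 / 10) r s + F (4 / 5) (3 / 10) q r := by
  have h0 : F (1 / 4) (17 / 20) p s ≤ 1 := F_le_one (by norm_num) _ _ _
  have n1 := F_nonneg (1 / 5) (9 / 10) p q
  have n2 := F_nonneg (1 / 5) (9 / 10) r s
  have n3 := F_nonneg (4 / 5) (3 / 10) q r
  rcases le_or_gt q (17 / 20) with hq | hq
  · have e : F (1 / 5) (9 / 10) p q = 1 := F_eq_one (by norm_num)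
        (Or.inl ⟨by linarith, by linarith⟩)
    linarith
  · rcases le_or_gt (1 / 4) r with hr | hr
    · have e : F (1 / 5) (9 / 10) r s = 1 := F_eq_one (by norm_num)
        (Or.inl ⟨by linarith, by linarith⟩)
      linarith
    · have e : F (4 / 5) (3 / 10) q r = 1 := F_eq_one (by norm_num)
        (Or.inl ⟨by linarith, by linarith⟩)
      linarith

theorem prf_FChain : FChain := by
  intro p q r s
  have n1 := F_nonneg (1 / 5) (9 / 10) p q
  have n2 := F_nonneg (1 / 5) (9 / 10) r s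
  have n3 := F_nonneg (4 / 5) (3 / 10) q r
  rcases (F_nonneg (1 / 4) (17 / 20) p s).eq_or_lt with h | h
  · rw [← h]
    linarith
  · rcases F_pos h with ⟨h1, h2⟩ | ⟨h1, h2⟩
    · exact L_FChain_pos p q r s h1 h2
    · have h3 := L_FChain_pos (-p) (-q) (-r) (-s) (by linarith) (by linarith)
      rwa [F_neg, F_neg, F_neg, F_neg] at h3

end SmP

end

section

/-! # Mean values -/

namespace SmP

theorem prf_Mean (hCoh : Coh) : Mean := by
  intro K _ _ P M ε S x u s σ θ hx hu hσ hσx hθ hθx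
  have hx1 := (norm_le_one_iff x).1 hx.2
  have hu1 := (norm_le_one_iff u).1 hu.2
  have hc := hCoh K P M ε S x s σ hx.1 hσ hσx (u * x)
  have hn : ‖u * x‖ ≤ 1 := by
    rw [norm_le_one_iff]
    intro r
    rw [ContinuousMap.mul_apply, abs_mul]
    exact mul_le_one₀ (hu1 r) (abs_nonneg _) (hx1 r)
  have h1 : M s |x| - |x s| ≤ ε + θ := by
    have := S.abs_le_one hx.2 s
    have := S.one s
    linarith
  have h0 : 0 ≤ M s |x| - |x s| := by
    have := S.abs_x_le hx.1 s
    linarith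
  have h2 : |M s (u * x * |x|) - σ * P (u * x * x) s| ≤ ε + θ := by
    refine hc.trans ?_
    have := mul_le_mul hn h1 h0 zero_le_one
    linarith
  have h3 : M s (1 - |x|) ≤ ε + θ := by
    rw [map_sub]
    have := S.one s
    have := S.abs_x_le hx.1 s
    linarith
  have h4 : |M s (u * x - u * x * |x|)| ≤ ε + θ := by
    refine (S.abs_M_le s (f := 1 - |x|) ?_).trans h3
    intro r
    simp only [ContinuousMap.sub_apply, ContinuousMap.mul_apply, ContinuousMap.one_apply,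
      ContinuousMap.abs_apply]
    have e : u r * x r - u r * x r * |x r| = u r * x r * (1 - |x r|) := by ring
    rw [e, abs_mul, abs_mul, abs_of_nonneg (sub_nonneg.2 (hx1 r))]
    have := mul_le_one₀ (hu1 r) (abs_nonneg _) (hx1 r)
    exact mul_le_of_le_one_left (sub_nonneg.2 (hx1 r)) this
  have h5 : |P (u - u * x * x) s| ≤ 2 * (ε + θ) := by
    refine (S.abs_le s (f := (2 : ℝ) • (1 - |x|)) ?_).trans ?_
    · intro r
      simp only [ContinuousMap.sub_apply, ContinuousMap.mul_apply, ContinuousMap.one_apply,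
        ContinuousMap.abs_apply, ContinuousMap.smul_apply, smul_eq_mul]
      have e : u r - u r * x r * x r = u r * (1 - x r * x r) := by ring
      have hxx : x r * x r = |x r| * |x r| := (abs_mul_abs_self _).symm
      have hr := hx1 r
      have hr0 := abs_nonneg (x r)
      have h6 : 0 ≤ 1 - x r * x r := by
        rw [hxx]
        nlinarith
      rw [e, abs_mul, abs_of_nonneg h6]
      refine (mul_le_of_le_one_left h6 (hu1 r)).trans ?_
      rw [hxx]
      nlinarith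
    · rw [map_smul, smul_eq_mul]
      linarith
  have h7 : P (u - u * x * x) s = u s - P (u * x * x) s := by
    rw [map_sub, hu.1, ContinuousMap.sub_apply]
  rw [h7] at h5
  rw [map_sub] at h4
  have h8 : |σ * P (u * x * x) s - σ * u s| ≤ 2 * (ε + θ) := by
    rw [← mul_sub, abs_mul]
    have : |σ| = 1 := by
      rcases hσ with h | h
      · rw [h, abs_one]
      · rw [h, abs_neg, abs_one]
    rw [this, one_mul, abs_sub_comm]
    exact h5
  have e : M s (u * x) - σ * u s = (M s (u * x) - M s (u * x * |x|)) +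
      (M s (u * x * |x|) - σ * P (u * x * x) s) + (σ * P (u * x * x) s - σ * u s) := by ring
  rw [e]
  refine (abs_add_le _ _).trans ?_
  have := abs_add_le (M s (u * x) - M s (u * x * |x|)) (M s (u * x * |x|) - σ * P (u * x * x) s)
  linarith

end SmP

end

section

/-!
# MP_c93117_an, block Nm: no drift along chains
-/

namespace SmP

theorem L_NoDrift_one (p s : ℝ) : F (1 / 4) (17 / 20) p s ≤ F (1 / 5) (9 / 10) p s := by
  rcases (F_nonneg (1 / 4) (17 / 20) p s).eq_or_lt with h | h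
  · rw [← h]
    exact F_nonneg _ _ _ _
  · have h1 : F (1 / 5) (9 / 10) p s = 1 := by
      apply F_eq_one (by norm_num)
      rcases F_pos h with ⟨h2, h3⟩ | ⟨h2, h3⟩
      · left
        constructor <;> linarith
      · right
        constructor <;> linarith
    rw [h1]
    exact F_le_one (by norm_num) _ _ _

theorem L_NoDrift_two (z : ℝ) : F (4 / 5) (3 / 10) z z = 0 := by
  rcases (F_nonneg (4 / 5) (3 / 10) z z).eq_or_lt with h | h
  · exact h.symm
  · exfalso
    rcases F_pos h with ⟨h2, h3⟩ | ⟨h2, h3⟩ <;> linarith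

theorem prf_NoDrift (hDich : Dich) (hF : FChain) : NoDrift := by
  intro K _ _ P M ε S x N hU hR
  have hε := S.eps0
  have hε1 := S.eps1
  have key : ∀ d j, j + 1 + d ≤ N → ∀ t,
      M t (Fc (1 / 4) (17 / 20) (x (j + 1 + d)) (x j)) ≤ 4 * 10 ^ 7 * ε := by
    intro d
    induction d using Nat.strong_induction_on with
    | _ d ih =>
      intro j hj t
      rcases d with _ | d
      · have h1 : M t (Fc (1 / 4) (17 / 20) (x (j + 1 + 0)) (x j)) ≤
            M t (Fc (1 / 5) (9 / 10) (x (j + 1)) (x j)) := by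
          apply S.mono t
          intro s
          rw [Fc_apply, Fc_apply]
          exact L_NoDrift_one _ _
        have h2 := hR j (by omega) t
        linarith
      · have e1 : j + 1 + (d + 1) = j + 1 + d + 1 := by ring
        have h1 : M t (Fc (1 / 4) (17 / 20) (x (j + 1 + (d + 1))) (x j)) ≤
            M t (Fc (1 / 5) (9 / 10) (x (j + 1 + d + 1)) (x (j + 1 + d))) +
            M t (Fc (1 / 5) (9 / 10) (x (j + 1)) (x j)) +
            M t (Fc (4 / 5) (3 / 10) (x (j + 1 + d)) (x (j + 1))) := by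
          rw [← map_add, ← map_add]
          apply S.mono t
          intro s
          rw [ContinuousMap.add_apply, ContinuousMap.add_apply, Fc_apply, Fc_apply, Fc_apply,
            Fc_apply, e1]
          exact hF _ _ _ _
        have h2 := hR (j + 1 + d) (by omega) t
        have h3 := hR j (by omega) t
        have h4 : M t (Fc (4 / 5) (3 / 10) (x (j + 1 + d)) (x (j + 1))) ≤ 2 * 10 ^ 7 * ε := by
          rcases d with _ | d
          · have h5 : Fc (4 / 5) (3 / 10) (x (j + 1 + 0)) (x (j + 1)) = 0 := by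
              ext s
              rw [Fc_apply]
              exact L_NoDrift_two _
            rw [h5, map_zero]
            positivity
          · apply hDich K P M ε S _ _ (hU _ (by omega)) (hU _ (by omega))
            intro s
            have h6 := ih d (by omega) (j + 1) (by omega) s
            have e2 : j + 1 + 1 + d = j + 1 + (d + 1) := by ring
            rw [e2] at h6
            have h7 : 4 * 10 ^ 7 * ε ≤ 1 / 2 := by
              calc 4 * 10 ^ 7 * ε ≤ 4 * 10 ^ 7 * (1 / 10 ^ 12) :=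
                    mul_le_mul_of_nonneg_left hε1 (by norm_num)
                _ ≤ 1 / 2 := by norm_num
            exact h6.trans h7
        linarith
  intro j k hjk hk t
  obtain ⟨d, rfl⟩ : ∃ d, k = j + 1 + d := ⟨k - (j + 1), by omega⟩
  exact key d j hk t

end SmP

end

section

/-!
# MP_c93117_an, block Nm: regular points near peaks
-/

namespace SmP

theorem prf_PeakReg : PeakReg := by
  intro K _ _ P M ε S x t₀ θ b hx hxt hθ hb hεθ hεb
  have hε := S.eps0
  have hx1 : ∀ s, |x s| ≤ 1 := (norm_le_one_iff x).1 hx.2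
  set f : C(K, ℝ) := 1 - (1 / θ) • (1 - |x|) with hf
  have hfs : ∀ s, f s = 1 - (1 / θ) * (1 - |x s|) := by
    intro s
    simp [hf]
  have hf1 : f ≤ 1 := by
    intro s
    change f s ≤ (1 : C(K, ℝ)) s
    rw [hfs]
    have h1 : 0 ≤ (1 / θ) * (1 - |x s|) :=
      mul_nonneg (by positivity) (by linarith [hx1 s])
    simpa using h1
  have hM : M t₀ f = M t₀ 1 - (1 / θ) * (M t₀ 1 - M t₀ |x|) := by
    rw [hf, map_sub, map_smul, map_sub, smul_eq_mul]
  have hA : 1 ≤ M t₀ |x| := by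
    have := S.abs_x_le hx.1 t₀
    rwa [hxt] at this
  have hB : M t₀ |x| ≤ M t₀ 1 := S.abs_le_one hx.2 t₀
  have hC := S.one t₀
  have hD : (1 / θ) * (M t₀ 1 - M t₀ |x|) ≤ 1 / 2 := by
    have h1 : M t₀ 1 - M t₀ |x| ≤ θ / 2 := by linarith
    calc (1 / θ) * (M t₀ 1 - M t₀ |x|) ≤ (1 / θ) * (θ / 2) :=
          mul_le_mul_of_nonneg_left h1 (by positivity)
      _ = 1 / 2 := by field_simp
  have hMf : 1 / 2 ≤ M t₀ f := by
    rw [hM]
    linarith
  obtain ⟨s, hs, hreg⟩ := S.ex t₀ [x] f b hb (by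
    intro y hy
    rw [List.mem_singleton] at hy
    rw [hy]
    exact hx) hf1 (by
    have h1 : b ^ 2 * (1 / 2) ≤ b ^ 2 * M t₀ f := mul_le_mul_of_nonneg_left hMf (by positivity)
    have h2 : ((([x] : List C(K, ℝ)).length : ℕ) : ℝ) = 1 := by simp
    rw [h2]
    linarith)
  refine ⟨s, hreg x (List.mem_singleton.2 rfl), ?_⟩
  rw [hfs] at hs
  by_contra hn
  rw [not_lt] at hn
  have h1 : θ ≤ 1 - |x s| := by linarith
  have h2 : 1 ≤ (1 / θ) * (1 - |x s|) := by
    calc (1 : ℝ) = (1 / θ) * θ := by field_simp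
      _ ≤ (1 / θ) * (1 - |x s|) := mul_le_mul_of_nonneg_left h1 (by positivity)
  linarith

end SmP

end

section

/-!
# MP_c93117_an, block Nm: a good regular point for a product
-/

set_option autoImplicit false

namespace SmP

/-- The test function. -/
noncomputable def L_PickReg_f {K : Type} [TopologicalSpace K] [CompactSpace K]
    (v x : C(K, ℝ)) (m c : ℝ) : C(K, ℝ) :=
  (1 / 3 : ℝ) • (v - ContinuousMap.const K m + ContinuousMap.const K (c / 8)) -
    (64 : ℝ) • (1 - |x|)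

theorem L_PickReg_f_apply {K : Type} [TopologicalSpace K] [CompactSpace K]
    (v x : C(K, ℝ)) (m c : ℝ) (s : K) :
    L_PickReg_f v x m c s = 1 / 3 * (v s - m + c / 8) - 64 * (1 - |x s|) := rfl

theorem L_PickReg_f_M {K : Type} [TopologicalSpace K] [CompactSpace K]
    (M : K → C(K, ℝ) →ₗ[ℝ] ℝ) (v x : C(K, ℝ)) (m c : ℝ) (s : K) :
    M s (L_PickReg_f v x m c) =
      1 / 3 * (M s v - m * M s 1 + c / 8 * M s 1) - 64 * (M s 1 - M s |x|) := by
  unfold L_PickReg_f
  rw [map_sub, map_smul, map_smul, map_add, map_sub, map_sub, Sys.const, Sys.const, smul_eq_mul,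
    smul_eq_mul]

theorem prf_PickReg (hPR : ProdReg) : PickReg := by
  intro K _ _ P M ε S x u s c θ b hx hu hc hc1 hθ hθc hεc hb hεb hxs
  have hε := S.eps0
  have hε1 := S.eps1
  have hx1 := (norm_le_one_iff x).1 hx.2
  have hu1 := (norm_le_one_iff u).1 hu.2
  have hv1 : ∀ t, |(u * x) t| ≤ 1 := by
    intro t
    rw [ContinuousMap.mul_apply, abs_mul]
    exact mul_le_one₀ (hu1 t) (abs_nonneg _) (hx1 t)
  set m : ℝ := M s (u * x) with hm
  have hM1 : M s 1 ≤ 1 + ε := S.one s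
  have hMx : |x s| ≤ M s |x| := S.abs_x_le hx.1 s
  have hMx1 : M s |x| ≤ M s 1 := S.abs_le_one hx.2 s
  have hm1 : |m| ≤ M s 1 := S.abs_M_le s hv1
  have hmb := _root_.abs_le.1 hm1
  have hMf := L_PickReg_f_M M (u * x) x m c s
  rw [← hm] at hMf
  have hlow : c / 50 ≤ M s (L_PickReg_f (u * x) x m c) := by
    rw [hMf]
    have e1 : |m * (1 - M s 1)| ≤ 2 * (ε + θ) := by
      rw [abs_mul]
      refine mul_le_mul (by linarith) ?_ (abs_nonneg _) (by norm_num)
      rw [_root_.abs_le]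
      constructor <;> linarith
    have e2 := (_root_.abs_le.1 e1).1
    have e3 : c / 8 * (1 - θ) ≤ c / 8 * M s 1 :=
      mul_le_mul_of_nonneg_left (by linarith) (by linarith)
    have e4 : c * θ ≤ c / 4000 := by
      calc c * θ ≤ 1 * θ := mul_le_mul_of_nonneg_right hc1 hθ
        _ ≤ c / 4000 := by linarith
    have e5 : 1 / 3 * (m - m * M s 1 + c / 8 * M s 1) =
        1 / 3 * (m * (1 - M s 1)) + 1 / 3 * (c / 8 * M s 1) := by ring
    rw [e5]
    nlinarith
  have hf1 : L_PickReg_f (u * x) x m c ≤ 1 := by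
    intro t
    have h1 := hx1 t
    have h2 := (_root_.abs_le.1 (hv1 t)).2
    have h3 : L_PickReg_f (u * x) x m c t ≤ 1 := by
      rw [L_PickReg_f_apply]
      linarith
    exact h3
  have hw : UB P ((1 / 2 : ℝ) • (x + u)) := by
    constructor
    · rw [map_smul, map_add, hx.1, hu.1]
    · rw [norm_le_one_iff]
      intro t
      have h1 := _root_.abs_le.1 (hx1 t)
      have h2 := _root_.abs_le.1 (hu1 t)
      have h3 : ((1 / 2 : ℝ) • (x + u)) t = 1 / 2 * (x t + u t) := rfl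
      rw [h3, _root_.abs_le]
      constructor <;> linarith
  have hlen : 5 * (([x, u, (1 / 2 : ℝ) • (x + u)] : List C(K, ℝ)).length : ℝ) * ε <
      b ^ 2 * M s (L_PickReg_f (u * x) x m c) := by
    have h1 : (([x, u, (1 / 2 : ℝ) • (x + u)] : List C(K, ℝ)).length : ℝ) = 3 := by
      simp
    rw [h1]
    have h2 : b ^ 2 * (c / 50) ≤ b ^ 2 * M s (L_PickReg_f (u * x) x m c) :=
      mul_le_mul_of_nonneg_left hlow (by positivity)
    nlinarith
  obtain ⟨s₁, hs1, hreg⟩ := S.ex s [x, u, (1 / 2 : ℝ) • (x + u)] (L_PickReg_f (u * x) x m c) b hb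
    (by
      intro y hy
      simp only [List.mem_cons, List.not_mem_nil, or_false] at hy
      rcases hy with rfl | rfl | rfl
      · exact hx
      · exact hu
      · exact hw) hf1 hlen
  have hr1 : Reg M b x s₁ := hreg x (by simp)
  have hr2 : Reg M b u s₁ := hreg u (by simp)
  have hr3 : Reg M b ((1 / 2 : ℝ) • (x + u)) s₁ := hreg _ (by simp)
  rw [L_PickReg_f_apply] at hs1
  have h1 := hx1 s₁
  have h2 := (_root_.abs_le.1 (hv1 s₁)).2
  refine ⟨s₁, hr1, hPR K P M ε S x u s₁ b hx hu hr1 hr2 hr3, by linarith, ?_⟩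
  have h4 : (u * x) s₁ = u s₁ * x s₁ := rfl
  rw [← h4]
  linarith

end SmP

end

section

/-!
# MP_c93117_an, block Nm: products at regular points
-/

namespace SmP

theorem L_ProdReg_sq {a b : ℝ} (ha : |a| ≤ 1) (hb : |b| ≤ 1) :
    |a ^ 2 - b ^ 2| ≤ 2 * |(|a| - |b|)| := by
  have h : a ^ 2 - b ^ 2 = (|a| + |b|) * (|a| - |b|) := by
    rw [← sq_abs a, ← sq_abs b]
    ring
  rw [h, abs_mul, abs_of_nonneg (add_nonneg (abs_nonneg a) (abs_nonneg b))]
  exact mul_le_mul_of_nonneg_right (by linarith) (abs_nonneg _)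

theorem L_ProdReg_pt {x u x' u' : ℝ} (hx : |x| ≤ 1) (hu : |u| ≤ 1) (hx' : |x'| ≤ 1)
    (hu' : |u'| ≤ 1) :
    |u * x - u' * x'| ≤ 4 * |(|1 / 2 * (x + u)| - |1 / 2 * (x' + u')|)| +
      (|(|x| - |x'|)| + |(|u| - |u'|)|) := by
  have hz : |1 / 2 * (x + u)| ≤ 1 := by
    rw [abs_le] at hx hu ⊢
    constructor <;> linarith [hx.1, hx.2, hu.1, hu.2]
  have hz' : |1 / 2 * (x' + u')| ≤ 1 := by
    rw [abs_le] at hx' hu' ⊢
    constructor <;> linarith [hx'.1, hx'.2, hu'.1, hu'.2]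
  have h1 := L_ProdReg_sq hz hz'
  have h2 := L_ProdReg_sq hx hx'
  have h3 := L_ProdReg_sq hu hu'
  have h4 : 2 * (u * x - u' * x') = 4 * ((1 / 2 * (x + u)) ^ 2 - (1 / 2 * (x' + u')) ^ 2) -
      (x ^ 2 - x' ^ 2) - (u ^ 2 - u' ^ 2) := by ring
  rw [abs_le] at h1 h2 h3 ⊢
  constructor <;> linarith [h1.1, h1.2, h2.1, h2.2, h3.1, h3.2]

theorem prf_ProdReg : ProdReg := by
  intro K _ _ P M ε S x u s b hx hu h1 h2 h3
  have h1' : M s (dev |x| |x s|) ≤ b := h1
  have h2' : M s (dev |u| |u s|) ≤ b := h2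
  have h3' : M s (dev |(1 / 2 : ℝ) • (x + u)| |((1 / 2 : ℝ) • (x + u)) s|) ≤ b := h3
  have hm := S.mono s (f := dev (u * x) (u s * x s))
    (g := (4 : ℝ) • dev |(1 / 2 : ℝ) • (x + u)| |((1 / 2 : ℝ) • (x + u)) s| +
      (dev |x| |x s| + dev |u| |u s|)) (fun r => by
        exact L_ProdReg_pt ((norm_le_one_iff x).1 hx.2 r) ((norm_le_one_iff u).1 hu.2 r)
          ((norm_le_one_iff x).1 hx.2 s) ((norm_le_one_iff u).1 hu.2 s))
  rw [map_add, map_add, map_smul, smul_eq_mul] at hm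
  linarith

end SmP

end

section

/-!
# MP_c93117_an, block Nm: RelOf
-/

namespace SmP

theorem L_RelOf_pt {K : Type} [TopologicalSpace K] [CompactSpace K] (x f : C(K, ℝ)) (ρ : ℝ)
    (hf1 : ∀ s, f s ≤ 1) (hx1 : ∀ s, |x s| ≤ 1)
    (hfz : ∀ s, |x s| ≤ 15 / 16 → f s = 0) (hρ : ρ < 9 / 10) (u : K) :
    (f * |x|) u ≤ ((27 : ℝ) • dev |x| ρ) u := by
  have e1 : (f * |x|) u = f u * |x u| := rfl
  have e2 : ((27 : ℝ) • dev |x| ρ) u = 27 * |(|x u| - ρ)| := rfl
  rw [e1, e2]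
  rcases le_or_gt (|x u|) (15 / 16) with h | h
  · rw [hfz u h, zero_mul]
    positivity
  · have h1 : f u * |x u| ≤ 1 := mul_le_one₀ (hf1 u) (abs_nonneg _) (hx1 u)
    have h2 : |x u| - ρ ≤ |(|x u| - ρ)| := le_abs_self _
    linarith

theorem prf_RelOf (hCoh : Coh) : RelOf := by
  intro K _ _ P M ε S x f r hx hf0 hf1 hfz hr hr1 t
  by_contra hcon
  rw [not_le] at hcon
  have he0 := S.eps0
  have he1 := S.eps1
  obtain ⟨s, hs, hreg⟩ := S.ex t [x] (Fc (1 / 5) (9 / 10) (r • P (f * x)) x) (1 / 1000)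
    (by norm_num) (by
      intro z hz
      rw [List.mem_singleton] at hz
      rw [hz]
      exact hx)
    (by
      intro u
      exact F_le_one (by norm_num) _ _ _)
    (by
      simp only [List.length_singleton, Nat.cast_one, mul_one]
      nlinarith)
  have hreg' : M s (dev |x| |x s|) ≤ 1 / 1000 := hreg x (by simp)
  have hx1 : ∀ u, |x u| ≤ 1 := (norm_le_one_iff x).1 hx.2
  have hs' : 0 < F (1 / 5) (9 / 10) (r * P (f * x) s) (x s) := hs
  have hF := F_pos hs'
  -- lower bound for `|P (f x) s|`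
  have hyabs : 1 / 5 < |r * P (f * x) s| := by
    rcases hF with ⟨h, _⟩ | ⟨h, _⟩
    · exact lt_of_lt_of_le h (le_abs_self _)
    · exact lt_of_lt_of_le (by linarith) (neg_le_abs _)
  have hP : 19 / 100 < |P (f * x) s| := by
    rw [abs_mul, abs_of_pos hr] at hyabs
    by_contra hn
    rw [not_lt] at hn
    have : r * |P (f * x) s| ≤ 20 / 19 * (19 / 100) :=
      mul_le_mul hr1 hn (abs_nonneg _) (by norm_num)
    linarith
  have hM : |P (f * x) s| ≤ M s (f * |x|) := by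
    refine S.abs_le s ?_
    intro u
    have e1 : (f * x) u = f u * x u := rfl
    have e2 : (f * |x|) u = f u * |x u| := rfl
    rw [e1, e2, abs_mul, abs_of_nonneg (hf0 u)]
  -- the point is a peak
  have hpk : 9 / 10 ≤ |x s| := by
    by_contra hn
    rw [not_le] at hn
    have h1 := S.mono s (L_RelOf_pt x f (|x s|) hf1 hx1 hfz hn)
    rw [map_smul, smul_eq_mul] at h1
    linarith
  -- coherence
  have hfn : ‖f‖ ≤ 1 := by
    rw [norm_le_one_iff]
    intro u
    rw [abs_of_nonneg (hf0 u)]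
    exact hf1 u
  have hdef : M s |x| - |x s| ≤ 1 / 1000 + ε := by
    have h1 : M s |x| ≤ M s (dev |x| |x s| + ContinuousMap.const K |x s|) := by
      refine S.mono s ?_
      intro u
      have e1 : (dev |x| |x s| + ContinuousMap.const K |x s|) u = |(|x u| - |x s|)| + |x s| := rfl
      have e2 : |x| u = |x u| := rfl
      rw [e1, e2]
      have := le_abs_self (|x u| - |x s|)
      linarith
    rw [map_add, Sys.const] at h1
    have h2 : |x s| * M s 1 ≤ |x s| * (1 + ε) :=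
      mul_le_mul_of_nonneg_left (S.one s) (abs_nonneg _)
    have h3 : |x s| * ε ≤ 1 * ε := mul_le_mul_of_nonneg_right (hx1 s) he0
    linarith
  have hdef0 : 0 ≤ M s |x| - |x s| := by
    have := S.abs_x_le hx.1 s
    linarith
  have hcoh : ∀ σ : ℝ, (σ = 1 ∨ σ = -1) → σ * x s = |x s| → 0 < σ * P (f * x) s := by
    intro σ hσ hσx
    have h1 := hCoh K P M ε S x s σ hx.1 hσ hσx f
    have h2 : ‖f‖ * (M s |x| - |x s|) ≤ 1 * (M s |x| - |x s|) :=
      mul_le_mul_of_nonneg_right hfn hdef0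
    have h3 := (abs_le.1 h1).2
    linarith
  rcases hF with ⟨h1, h2⟩ | ⟨h1, h2⟩
  · have hPs : 0 < P (f * x) s := by
      by_contra hn
      rw [not_lt] at hn
      have := mul_nonpos_of_nonneg_of_nonpos hr.le hn
      linarith
    rcases le_total 0 (x s) with h | h
    · rw [abs_of_nonneg h] at hpk
      linarith
    · have := hcoh (-1) (Or.inr rfl) (by rw [abs_of_nonpos h]; ring)
      linarith
  · have hPs : P (f * x) s < 0 := by
      by_contra hn
      rw [not_lt] at hn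
      have := mul_nonneg hr.le hn
      linarith
    rcases le_total 0 (x s) with h | h
    · have := hcoh 1 (Or.inl rfl) (by rw [abs_of_nonneg h]; ring)
      linarith
    · rw [abs_of_nonpos h] at hpk
      linarith

end SmP

end

section

/-!
# MP_c93117_an, block Nm: a separable dual excludes Cantor sets
-/

namespace SmP

theorem L_SepNC_gen (E : Type) [NormedAddCommGroup E] [NormedSpace ℝ E] (p : Submodule ℝ E)
    (hsep : TopologicalSpace.SeparableSpace (p →L[ℝ] ℝ)) (g : (ℕ → Bool) → (E →L[ℝ] ℝ))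
    (h : ∀ β β' : ℕ → Bool, β ≠ β' → ∃ z : E, z ∈ p ∧ ‖z‖ = 1 ∧ 1 / 10 ≤ |g β z - g β' z|) :
    False := by
  let e : (ℕ → Bool) → (p →L[ℝ] ℝ) := fun β => (g β).comp p.subtypeL
  have hd : ∀ β β' : ℕ → Bool, β ≠ β' → 1 / 10 ≤ dist (e β) (e β') := by
    intro β β' hne
    obtain ⟨z, hz, hz1, hz2⟩ := h β β' hne
    have h0 : dist (e β) (e β') = ‖e β - e β'‖ :=
      @dist_eq_norm (p →L[ℝ] ℝ) _ (e β) (e β')
    rw [h0]
    have h1 := (e β - e β').le_opNorm ⟨z, hz⟩
    have h2 : ‖(⟨z, hz⟩ : p)‖ = 1 := hz1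
    rw [h2, mul_one] at h1
    refine le_trans ?_ h1
    have h3 : (e β - e β') ⟨z, hz⟩ = g β z - g β' z := rfl
    rw [h3, Real.norm_eq_abs]
    exact hz2
  have hpd : (Set.univ : Set (ℕ → Bool)).PairwiseDisjoint
      (fun β => Metric.ball (e β) (1 / 20)) := by
    intro β _ β' _ hne
    refine Metric.ball_disjoint_ball ?_
    have := hd β β' hne
    linarith
  have hc : (Set.univ : Set (ℕ → Bool)).Countable :=
    hpd.countable_of_isOpen (fun β _ => Metric.isOpen_ball)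
      (fun β _ => ⟨e β, Metric.mem_ball_self (by norm_num)⟩)
  have hc' : Countable (ℕ → Bool) := Set.countable_univ_iff.1 hc
  obtain ⟨f, hf⟩ := exists_surjective_nat (ℕ → Bool)
  obtain ⟨n, hn⟩ := hf (fun n => !(f n n))
  have h1 := congrFun hn n
  simp at h1

theorem prf_SepNC : SepNC := by
  intro K _ _ P p hp hsep
  rintro ⟨t, ht⟩
  refine L_SepNC_gen C(K, ℝ) p hsep (fun β => ContinuousMap.evalCLM ℝ (t β)) ?_
  intro β β' hne
  obtain ⟨z, hz, hz1, hz2⟩ := ht β β' hne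
  exact ⟨z, hp z hz, hz1, hz2.trans (abs_abs_sub_abs_le_abs_sub _ _)⟩

end SmP

end

section

/-!
# MP_c93117_an, block Nm: a function which separates two points
-/

set_option autoImplicit false

namespace SmP

lemma L_SepPts_sign (r : ℝ) : ∃ σ : ℝ, (σ = 1 ∨ σ = -1) ∧ σ * r = |r| := by
  rcases le_total 0 r with h | h
  · exact ⟨1, Or.inl rfl, by rw [one_mul, abs_of_nonneg h]⟩
  · exact ⟨-1, Or.inr rfl, by rw [abs_of_nonpos h]; ring⟩

theorem prf_SepPts (hMean : Mean) : SepPts := by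
  intro K _ _ P M ε S x s t c θ hx hc hc1 hε hθ0 hθ hs ht hN
  obtain ⟨σs, hσs, hσs'⟩ := L_SepPts_sign (x s)
  obtain ⟨σt, hσt, hσt'⟩ := L_SepPts_sign (x t)
  have hN1 : c < ‖ev P s - ev P t‖ := by
    by_contra h
    exact hN (Or.inl (not_lt.mp h))
  have hN2 : c < ‖ev P s + ev P t‖ := by
    by_contra h
    exact hN (Or.inr (not_lt.mp h))
  have hε0 := S.eps0
  have h1ε : 0 < 1 + ε := by linarith
  -- the function
  have hg : ∃ g : C(K, ℝ), ‖g‖ ≤ 1 ∧ c < |σs * P g s - σt * P g t| := by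
    have key1 : ∃ g : C(K, ℝ), ‖g‖ ≤ 1 ∧ c < |P g s - P g t| := by
      obtain ⟨g, hg1, hg2⟩ := ContinuousLinearMap.exists_lt_apply_of_lt_opNorm _ hN1
      refine ⟨g, hg1.le, ?_⟩
      rw [Real.norm_eq_abs] at hg2
      exact hg2
    have key2 : ∃ g : C(K, ℝ), ‖g‖ ≤ 1 ∧ c < |P g s + P g t| := by
      obtain ⟨g, hg1, hg2⟩ := ContinuousLinearMap.exists_lt_apply_of_lt_opNorm _ hN2
      refine ⟨g, hg1.le, ?_⟩
      rw [Real.norm_eq_abs] at hg2
      exact hg2
    rcases hσs with h1 | h1 <;> rcases hσt with h2 | h2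
    · obtain ⟨g, hg1, hg2⟩ := key1
      refine ⟨g, hg1, ?_⟩
      rw [h1, h2, one_mul, one_mul]
      exact hg2
    · obtain ⟨g, hg1, hg2⟩ := key2
      refine ⟨g, hg1, ?_⟩
      have e : σs * P g s - σt * P g t = P g s + P g t := by rw [h1, h2]; ring
      rw [e]
      exact hg2
    · obtain ⟨g, hg1, hg2⟩ := key2
      refine ⟨g, hg1, ?_⟩
      have e : σs * P g s - σt * P g t = -(P g s + P g t) := by rw [h1, h2]; ring
      rw [e, abs_neg]
      exact hg2
    · obtain ⟨g, hg1, hg2⟩ := key1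
      refine ⟨g, hg1, ?_⟩
      have e : σs * P g s - σt * P g t = -(P g s - P g t) := by rw [h1, h2]; ring
      rw [e, abs_neg]
      exact hg2
  obtain ⟨g, hg1, hg2⟩ := hg
  obtain ⟨u, hu⟩ : ∃ u : C(K, ℝ), u = (1 + ε)⁻¹ • P g := ⟨_, rfl⟩
  have hUBu : UB P u := by
    constructor
    · rw [hu, map_smul, S.idem]
    · rw [hu, norm_smul, Real.norm_eq_abs, abs_of_pos (inv_pos.mpr h1ε)]
      have h1 := S.norm_P_le g
      have h2 : (1 + ε) * ‖g‖ ≤ 1 + ε := by
        have := mul_le_mul_of_nonneg_left hg1 h1ε.le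
        linarith
      rw [inv_mul_le_iff₀ h1ε]
      linarith
  have hus : ∀ r : K, u r = (1 + ε)⁻¹ * P g r := by
    intro r
    rw [hu]
    rfl
  have hdiff : c / (1 + ε) < |σs * u s - σt * u t| := by
    have e : σs * u s - σt * u t = (1 + ε)⁻¹ * (σs * P g s - σt * P g t) := by
      rw [hus, hus]; ring
    rw [e, abs_mul, abs_of_pos (inv_pos.mpr h1ε), div_eq_inv_mul]
    exact mul_lt_mul_of_pos_left hg2 (inv_pos.mpr h1ε)
  have hc2 : 9 / 10 * c ≤ c / (1 + ε) := by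
    rw [le_div_iff₀ h1ε]
    have h1 : c * (1 + ε) ≤ c * (1 + 1 / 1000) :=
      mul_le_mul_of_nonneg_left (by linarith) hc.le
    linarith
  have m1 := hMean K P M ε S x u s σs θ hx hUBu hσs hσs' hθ0 hs
  have m2 := hMean K P M ε S x u t σt θ hx hUBu hσt hσt' hθ0 ht
  obtain ⟨m3, m4⟩ := abs_le.mp m1
  obtain ⟨m5, m6⟩ := abs_le.mp m2
  have hd : 9 / 10 * c < |σs * u s - σt * u t| := lt_of_le_of_lt hc2 hdiff
  rcases lt_abs.mp hd with h | h
  · exact ⟨u, s, t, hUBu, hs, ht, by linarith⟩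
  · exact ⟨u, t, s, hUBu, ht, hs, by linarith⟩

end SmP

end

section

/-!
# MP_c93117_an, block Nm: the splitting of an element of norm one
-/

namespace SmP

section
variable {K : Type} [TopologicalSpace K]

theorem L_Split_tent_apply (c : ℝ) (x v : C(K, ℝ)) (r : ℝ) (s : K) :
    tent c x v r s = cl (32 * (|x s| - 15 / 16)) * cl (1 - 8 / c * |v s - r|) := rfl

theorem L_Split_tent_nonneg (c : ℝ) (x v : C(K, ℝ)) (r : ℝ) (s : K) : 0 ≤ tent c x v r s := by
  rw [L_Split_tent_apply]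
  exact mul_nonneg (cl_nonneg _) (cl_nonneg _)

theorem L_Split_tent_le_one (c : ℝ) (x v : C(K, ℝ)) (r : ℝ) (s : K) : tent c x v r s ≤ 1 := by
  rw [L_Split_tent_apply]
  exact mul_le_one₀ (cl_le_one _) (cl_nonneg _) (cl_le_one _)

theorem L_Split_tent_zero (c : ℝ) (x v : C(K, ℝ)) (r : ℝ) (s : K) (h : |x s| ≤ 15 / 16) :
    tent c x v r s = 0 := by
  rw [L_Split_tent_apply, cl_of_nonpos (by linarith), zero_mul]

theorem L_Split_tent_far {c : ℝ} (hc : 0 < c) (x v : C(K, ℝ)) (r : ℝ) (s : K)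
    (h : c / 8 ≤ |v s - r|) : tent c x v r s = 0 := by
  rw [L_Split_tent_apply, cl_of_nonpos (z := 1 - 8 / c * |v s - r|), mul_zero]
  have h1 : 8 / c * (c / 8) ≤ 8 / c * |v s - r| :=
    mul_le_mul_of_nonneg_left h (by positivity)
  have h2 : 8 / c * (c / 8) = 1 := by field_simp
  linarith

end

section
variable {K : Type} [TopologicalSpace K] [CompactSpace K]

theorem L_Split_peak {x : C(K, ℝ)} (hx : ‖x‖ = 1) : ∃ t, |x t| = 1 := by
  have hne : Nonempty K := by
    by_contra hK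
    rw [not_nonempty_iff] at hK
    have h0 : ‖x‖ ≤ 0 := by
      rw [ContinuousMap.norm_le _ le_rfl]
      intro s
      exact (hK.false s).elim
    linarith
  obtain ⟨t, _, ht⟩ := isCompact_univ.exists_isMaxOn (f := fun s => |x s|) Set.univ_nonempty
    (by fun_prop)
  refine ⟨t, le_antisymm ((abs_apply_le x t).trans hx.le) ?_⟩
  have h1 : ‖x‖ ≤ |x t| := by
    rw [ContinuousMap.norm_le _ (abs_nonneg _)]
    intro s
    exact ht (Set.mem_univ s)
  linarith

theorem L_Split_dev_neg (u x : C(K, ℝ)) (t : K) :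
    dev ((-u) * x) ((-u) t * x t) = dev (u * x) ((u * x) t) := by
  ext s
  rw [dev_apply, dev_apply]
  have : ((-u) * x) s - (-u) t * x t = -((u * x) s - (u * x) t) := by
    simp only [ContinuousMap.mul_apply, ContinuousMap.neg_apply]
    ring
  rw [this, abs_neg]

/-- Normalisation of an image. -/
theorem L_Split_unit (h6 : RelOf) {P : C(K, ℝ) →L[ℝ] C(K, ℝ)} {M : K → C(K, ℝ) →ₗ[ℝ] ℝ} {ε : ℝ}
    (S : Sys P M ε) {x f : C(K, ℝ)} (hx : UB P x) (h0 : ∀ s, 0 ≤ f s) (h1 : ∀ s, f s ≤ 1)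
    (h2 : ∀ s, |x s| ≤ 15 / 16 → f s = 0) {s₁ : K} (h3 : 19 / 20 ≤ |P (f * x) s₁|) :
    ∃ y : C(K, ℝ), P y = y ∧ ‖y‖ = 1 ∧ Rel M ε y x ∧ ∀ s, |y s| ≤ 20 / 19 * M s |f * x| := by
  have hn : 19 / 20 ≤ ‖P (f * x)‖ := h3.trans (abs_apply_le _ _)
  have hpos : 0 < ‖P (f * x)‖ := by linarith
  have hr : ‖P (f * x)‖⁻¹ ≤ 20 / 19 := by
    rw [inv_le_comm₀ hpos (by norm_num)]
    norm_num
    linarith
  refine ⟨‖P (f * x)‖⁻¹ • P (f * x), ?_, ?_, ?_, ?_⟩
  · rw [map_smul, S.idem]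
  · rw [norm_smul, norm_inv, norm_norm, inv_mul_cancel₀ hpos.ne']
  · exact h6 K P M ε S x f _ hx h0 h1 h2 (inv_pos.2 hpos) hr
  · intro s
    rw [ContinuousMap.smul_apply, smul_eq_mul, abs_mul, abs_of_pos (inv_pos.2 hpos)]
    exact mul_le_mul hr (S.abs s (f * x)) (abs_nonneg _) (by norm_num)

end

theorem prf_Split (h1 : PeakReg) (h2 : BadPt) (h3 : SepPts) (h4 : PickReg) (h5 : Bump)
    (h6 : RelOf) : Split := by
  intro K _ _ P M ε S x c hPx hx hc0 hc1 hε
  have hc2 : c ^ 2 ≤ 1 := by nlinarith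
  have hc3 : c ^ 3 ≤ 1 := by nlinarith [pow_pos hc0 2, pow_pos hc0 3]
  have hc4 : c ^ 4 ≤ c := by nlinarith [pow_pos hc0 3]
  have hε0 := S.eps0
  have hε1 : ε ≤ c / 10 ^ 12 := hε.trans (by gcongr)
  have hUB : UB P x := ⟨hPx, hx.le⟩
  obtain ⟨t₀, ht₀⟩ := L_Split_peak hx
  obtain ⟨t, hreg, ht⟩ := h1 K P M ε S x t₀ (c / 10 ^ 4) (c ^ 2 / (2 * 10 ^ 4)) hUB ht₀
    (by positivity) (by positivity) (by norm_num at hε1 ⊢; linarith)
    (by
      have e : (c ^ 2 / (2 * 10 ^ 4)) ^ 2 = c ^ 4 / (4 * 10 ^ 8) := by ring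
      rw [e]
      have hp : 0 < c ^ 4 := by positivity
      norm_num at hε ⊢
      linarith)
  by_cases hg : Good P c t
  · exact Or.inl ⟨t, hg, ht.le⟩
  right
  obtain ⟨s, hnear, hs⟩ := h2 K P M ε S x t c (c / 10 ^ 4) (c ^ 2 / (2 * 10 ^ 4)) hc0
    (by positivity) (by apply le_of_eq; ring) hreg hg
  have hs' : 1 - c / 5000 ≤ |x s| := by
    have := (abs_lt.1 hs).1
    norm_num at ht this ⊢
    linarith
  have ht' : 1 - c / 5000 ≤ |x t| := by
    norm_num at ht ⊢
    linarith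
  obtain ⟨u, s', t', hu, hs2, ht2, hsep⟩ := h3 K P M ε S x s t c (c / 5000) hUB hc0 hc1
    (by norm_num at hε1 ⊢; linarith) (by positivity) (by linarith) hs' ht' hnear
  have hb : 750 * ε < (c / 10 ^ 4) ^ 2 * c := by
    have e : (c / 10 ^ 4) ^ 2 * c = c ^ 3 / 10 ^ 8 := by ring
    rw [e]
    have hp : 0 < c ^ 3 := by positivity
    have h43 : c ^ 4 ≤ c ^ 3 := by nlinarith [pow_pos hc0 3]
    norm_num at hε ⊢
    linarith
  obtain ⟨s₁, r1, d1, l1, m1⟩ := h4 K P M ε S x u s' c (c / 5000) (c / 10 ^ 4) hUB hu hc0 hc1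
    (by positivity) (by linarith) hε1 (by positivity) hb hs2
  have hu' : UB P (-u) := by
    refine ⟨by rw [map_neg, hu.1], by rw [norm_neg]; exact hu.2⟩
  obtain ⟨t₁, r2, d2, l2, m2⟩ := h4 K P M ε S x (-u) t' c (c / 5000) (c / 10 ^ 4) hUB hu' hc0 hc1
    (by positivity) (by linarith) hε1 (by positivity) hb ht2
  rw [L_Split_dev_neg] at d2
  have m2' : (u * x) t₁ < M t' (u * x) + c / 8 := by
    have e1 : M t' (-u * x) = - M t' (u * x) := by rw [neg_mul, map_neg]
    have e2 : (-u) t₁ * x t₁ = - (u * x) t₁ := by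
      simp only [ContinuousMap.mul_apply, ContinuousMap.neg_apply]
      ring
    rw [e1, e2] at m2
    linarith
  have m1' : M s' (u * x) - c / 8 < (u * x) s₁ := m1
  have hgap : c / 4 < (u * x) s₁ - (u * x) t₁ := by linarith
  have b1 := h5 K P M ε S x (u * x) s₁ c (c / 10 ^ 4) hUB hc0 hc1 (by positivity) le_rfl r1 d1 l1
  have b2 := h5 K P M ε S x (u * x) t₁ c (c / 10 ^ 4) hUB hc0 hc1 (by positivity) le_rfl r2 d2 l2
  obtain ⟨y₀, p0, n0, q0, w0⟩ := L_Split_unit h6 S hUB (L_Split_tent_nonneg c x (u * x) _)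
    (L_Split_tent_le_one c x (u * x) _) (L_Split_tent_zero c x (u * x) _) b1
  obtain ⟨y₁, p1, n1, q1, w1⟩ := L_Split_unit h6 S hUB (L_Split_tent_nonneg c x (u * x) _)
    (L_Split_tent_le_one c x (u * x) _) (L_Split_tent_zero c x (u * x) _) b2
  refine ⟨y₀, y₁, p0, p1, n0, n1, q0, q1, fun z => ?_⟩
  have hxz : ∀ w, |x w| ≤ 1 := (norm_le_one_iff x).1 hx.le
  have hsum : M z |tent c x (u * x) ((u * x) s₁) * x| + M z |tent c x (u * x) ((u * x) t₁) * x|
      ≤ 1 * (1 + ε) := by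
    rw [← map_add]
    refine S.M_le z zero_le_one fun w => ?_
    rw [ContinuousMap.add_apply, ContinuousMap.abs_apply, ContinuousMap.abs_apply]
    change |tent c x (u * x) ((u * x) s₁) w * x w| + |tent c x (u * x) ((u * x) t₁) w * x w| ≤ 1
    rw [abs_mul, abs_mul]
    have hA : ∀ r, |tent c x (u * x) r w| * |x w| ≤ 1 := by
      intro r
      rw [abs_of_nonneg (L_Split_tent_nonneg c x (u * x) r w)]
      exact mul_le_one₀ (L_Split_tent_le_one c x (u * x) r w) (abs_nonneg _) (hxz w)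
    rcases le_total (c / 8) |(u * x) w - (u * x) s₁| with h | h
    · rw [L_Split_tent_far hc0 x (u * x) _ w h, abs_zero, zero_mul, zero_add]
      exact hA _
    · have h' : c / 8 ≤ |(u * x) w - (u * x) t₁| := by
        have e1 := (abs_le.1 h).1
        have e2 := le_abs_self ((u * x) w - (u * x) t₁)
        linarith
      rw [L_Split_tent_far hc0 x (u * x) _ w h', abs_zero, zero_mul, add_zero]
      exact hA _
  have e0 := w0 z
  have e1 := w1 z
  have hε2 := S.eps1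
  norm_num at hε2
  calc |y₀ z| + |y₁ z| ≤ 20 / 19 * M z |tent c x (u * x) ((u * x) s₁) * x| +
        20 / 19 * M z |tent c x (u * x) ((u * x) t₁) * x| := add_le_add e0 e1
    _ ≤ 20 / 19 * (1 + ε) := by linarith
    _ ≤ 28 / 25 := by linarith

end SmP

end

section

/-!
# MP_c93117_an, block Nm: item SysEx
-/

namespace SmP

section
set_option linter.unusedSectionVars false
variable {K : Type} [TopologicalSpace K] [CompactSpace K]
variable {P : C(K, ℝ) →L[ℝ] C(K, ℝ)} {M : K → C(K, ℝ) →ₗ[ℝ] ℝ} {ε : ℝ}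

theorem L_SysEx_mono (hp : ∀ t f, 0 ≤ f → 0 ≤ M t f) (t : K) {f g : C(K, ℝ)}
    (h : ∀ s, f s ≤ g s) : M t f ≤ M t g := by
  have h1 := hp t (g - f) (by
    intro s
    simpa using h s)
  rw [map_sub] at h1
  linarith

theorem L_SysEx_one (h2 : ∀ (t : K) (f : C(K, ℝ)), 0 ≤ f → ∀ η : ℝ, 0 < η →
    ∃ g : C(K, ℝ), |g| ≤ f ∧ M t f - η < P g t) (hP : ‖P‖ ≤ 1 + ε) (t : K) :
    M t 1 ≤ 1 + ε := by
  refine le_of_forall_pos_le_add fun η hη => ?_
  obtain ⟨g, hg, hg2⟩ := h2 t 1 zero_le_one η hη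
  have h3 : ‖g‖ ≤ 1 := by
    rw [norm_le_one_iff]
    intro s
    exact hg s
  have h4 : P g t ≤ ‖P g‖ := (le_abs_self _).trans (abs_apply_le _ t)
  have h5 : ‖P g‖ ≤ ‖P‖ * ‖g‖ := P.le_opNorm g
  have h6 : ‖P‖ * ‖g‖ ≤ ‖P‖ * 1 := mul_le_mul_of_nonneg_left h3 (norm_nonneg P)
  linarith

/-- domination -/
theorem L_SysEx_dom (hI : ∀ f, P (P f) = P f) (hp : ∀ t f, 0 ≤ f → 0 ≤ M t f)
    (h1 : ∀ t, M t 1 ≤ 1 + ε) (ha : ∀ t f, |P f t| ≤ M t |f|)
    (h2 : ∀ (t : K) (f : C(K, ℝ)), 0 ≤ f → ∀ η : ℝ, 0 < η →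
      ∃ g : C(K, ℝ), |g| ≤ f ∧ M t f - η < P g t)
    (q h : C(K, ℝ)) {k : ℝ} (hk : 0 ≤ k) (hq : ∀ s, q s ≤ k) (hh : ∀ s, h s ≤ M s q) (t : K) :
    M t h ≤ M t q + k * ε * M t 1 := by
  refine le_of_forall_pos_le_add fun η hη => ?_
  have hc : ∀ (r : ℝ) (s : K), M s (r • (1 : C(K, ℝ))) = r * M s 1 := by
    intro r s
    rw [map_smul, smul_eq_mul]
  obtain ⟨g, hg, hg2⟩ := h2 t (k • (1 : C(K, ℝ)) - q) (by
    intro s
    simpa using hq s) η hη
  have h3 : ∀ s, |P g s| ≤ ((k * (1 + ε)) • (1 : C(K, ℝ)) - h) s := by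
    intro s
    have h4 := ha s g
    have h5 : M s |g| ≤ M s (k • (1 : C(K, ℝ)) - q) := L_SysEx_mono hp s hg
    rw [map_sub, hc] at h5
    have h6 := hh s
    have h7 : k * M s 1 ≤ k * (1 + ε) := mul_le_mul_of_nonneg_left (h1 s) hk
    have h8 : ((k * (1 + ε)) • (1 : C(K, ℝ)) - h) s = k * (1 + ε) - h s := by simp
    rw [h8]
    linarith
  have h4 : P g t ≤ M t ((k * (1 + ε)) • (1 : C(K, ℝ)) - h) := by
    have h5 := ha t (P g)
    rw [hI] at h5
    exact (le_abs_self _).trans (h5.trans (L_SysEx_mono hp t h3))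
  rw [map_sub, hc] at h4
  rw [map_sub, hc] at hg2
  nlinarith

/-- a point which is not regular -/
theorem L_SysEx_reg (hp : ∀ t f, 0 ≤ f → 0 ≤ M t f) (he : ε ≤ 1 / 10 ^ 12)
    (h1 : ∀ t, M t 1 ≤ 1 + ε) (ha : ∀ t f, |P f t| ≤ M t |f|) {x : C(K, ℝ)} (hx : P x = x)
    (s : K) : 0 ≤ M s (x * x) - (1 - ε) * x s ^ 2 ∧
      ∀ b : ℝ, 0 < b → ¬ Reg M b x s → b ^ 2 / 2 < M s (x * x) - (1 - ε) * x s ^ 2 := by
  have hxs := ha s x
  rw [hx] at hxs
  set d := dev |x| |x s| with hd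
  have e1 : d * d = x * x - (2 * |x s|) • |x| + (x s ^ 2) • (1 : C(K, ℝ)) := by
    ext u
    have : (d * d) u = (|(|x u| - |x s|)|) * (|(|x u| - |x s|)|) := rfl
    rw [this, abs_mul_abs_self]
    have e2 : (x * x - (2 * |x s|) • |x| + (x s ^ 2) • (1 : C(K, ℝ))) u =
        x u * x u - 2 * |x s| * |x u| + x s ^ 2 := by
      simp
    rw [e2]
    nlinarith [abs_mul_abs_self (x u), sq_abs (x s)]
  have e3 : M s (d * d) ≤ M s (x * x) - (1 - ε) * x s ^ 2 := by
    rw [e1, map_add, map_sub, map_smul, map_smul, smul_eq_mul, smul_eq_mul]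
    have h4 : x s ^ 2 * M s 1 ≤ x s ^ 2 * (1 + ε) := mul_le_mul_of_nonneg_left (h1 s) (sq_nonneg _)
    have h5 : |x s| * |x s| ≤ |x s| * M s |x| := mul_le_mul_of_nonneg_left hxs (abs_nonneg _)
    rw [abs_mul_abs_self] at h5
    nlinarith
  have e4 : 0 ≤ M s (d * d) := hp s _ (by
    intro u
    exact mul_self_nonneg _)
  refine ⟨e4.trans e3, fun b hb hn => ?_⟩
  by_contra hc
  rw [not_lt] at hc
  apply hn
  have h6 : M s d ≤ M s ((1 / (2 * b)) • (d * d) + (b / 2) • (1 : C(K, ℝ))) := by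
    refine L_SysEx_mono hp s fun u => ?_
    have e5 : ((1 / (2 * b)) • (d * d) + (b / 2) • (1 : C(K, ℝ))) u =
        1 / (2 * b) * (d u * d u) + b / 2 := by simp
    rw [e5, ← sub_nonneg]
    have e6 : 1 / (2 * b) * (d u * d u) + b / 2 - d u = (d u - b) ^ 2 / (2 * b) := by
      field_simp
      ring
    rw [e6]
    positivity
  rw [map_add, map_smul, map_smul, smul_eq_mul, smul_eq_mul] at h6
  have h7 : 1 / (2 * b) * M s (d * d) ≤ 1 / (2 * b) * (b ^ 2 / 2) :=
    mul_le_mul_of_nonneg_left (e3.trans hc) (by positivity)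
  have h8 : 1 / (2 * b) * (b ^ 2 / 2) = b / 4 := by
    field_simp
    ring
  have h9 : b / 2 * M s 1 ≤ b / 2 * (1 + ε) := mul_le_mul_of_nonneg_left (h1 s) (by positivity)
  have h10 : b * ε ≤ b * (1 / 10 ^ 12) := mul_le_mul_of_nonneg_left he hb.le
  show M s d ≤ b
  rw [h8] at h7
  nlinarith

theorem L_SysEx_sum_apply (l : List C(K, ℝ)) (s : K) :
    ((l.map fun x => x * x).sum : C(K, ℝ)) s = (l.map fun x => x s ^ 2).sum := by
  induction l with
  | nil => rfl
  | cons x l ih =>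
    rw [List.map_cons, List.sum_cons, List.map_cons, List.sum_cons, ContinuousMap.add_apply, ih,
      ContinuousMap.mul_apply, sq]

theorem L_SysEx_sum_le (l : List C(K, ℝ)) (hl : ∀ x ∈ l, ‖x‖ ≤ 1) (s : K) :
    ((l.map fun x => x * x).sum : C(K, ℝ)) s ≤ l.length := by
  rw [L_SysEx_sum_apply]
  induction l with
  | nil => simp
  | cons x l ih =>
    have h1 := (norm_le_one_iff x).1 (hl x (by simp)) s
    have h2 := ih fun y hy => hl y (by simp [hy])
    have h3 : x s ^ 2 ≤ 1 := by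
      rw [← sq_abs]
      nlinarith [abs_nonneg (x s)]
    rw [List.map_cons, List.sum_cons, List.length_cons]
    push_cast
    linarith

theorem L_SysEx_V (l : List C(K, ℝ)) (s : K) :
    M s (l.map fun x => x * x).sum - (1 - ε) * ((l.map fun x => x * x).sum : C(K, ℝ)) s =
      (l.map fun x => M s (x * x) - (1 - ε) * x s ^ 2).sum := by
  induction l with
  | nil => simp
  | cons x l ih =>
    rw [List.map_cons, List.sum_cons, List.map_cons, List.sum_cons, ← ih, map_add,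
      ContinuousMap.add_apply, ContinuousMap.mul_apply]
    ring

theorem L_SysEx_V_le (l : List C(K, ℝ)) (s : K)
    (h0 : ∀ x ∈ l, 0 ≤ M s (x * x) - (1 - ε) * x s ^ 2) (x : C(K, ℝ)) (hx : x ∈ l) :
    M s (x * x) - (1 - ε) * x s ^ 2 ≤ (l.map fun x => M s (x * x) - (1 - ε) * x s ^ 2).sum := by
  refine List.single_le_sum ?_ _ (List.mem_map_of_mem hx)
  intro y hy
  obtain ⟨z, hz, rfl⟩ := List.mem_map.1 hy
  exact h0 z hz

end

theorem prf_SysEx (hAbs : AbsEx) : SysEx := by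
  intro K _ _ P ε hI hP h0 he
  choose M hM1 hM2 using fun t : K => hAbs K (ev P t)
  have hp : ∀ (t : K) (f : C(K, ℝ)), 0 ≤ f → 0 ≤ M t f := by
    intro t f hf
    have h := hM1 t f 0 (by simpa using hf)
    simpa using h
  have h2 : ∀ (t : K) (f : C(K, ℝ)), 0 ≤ f → ∀ η : ℝ, 0 < η →
      ∃ g : C(K, ℝ), |g| ≤ f ∧ M t f - η < P g t := hM2
  have h1 : ∀ t, M t 1 ≤ 1 + ε := L_SysEx_one h2 hP
  have ha : ∀ t f, |P f t| ≤ M t |f| := by
    intro t f
    rw [_root_.abs_le]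
    constructor
    · have h := hM1 t |f| (-f) (by rw [abs_neg])
      rw [ev_apply, map_neg, ContinuousMap.neg_apply] at h
      linarith
    · exact hM1 t |f| f le_rfl
  refine ⟨M, ⟨h0, he, hI, hp, h1, ha, ?_⟩⟩
  intro t l f b hb hl hf hlt
  by_contra hn
  push Not at hn
  have hV : ∀ x ∈ l, ∀ s, 0 ≤ M s (x * x) - (1 - ε) * x s ^ 2 ∧
      ∀ b : ℝ, 0 < b → ¬ Reg M b x s → b ^ 2 / 2 < M s (x * x) - (1 - ε) * x s ^ 2 :=
    fun x hx s => L_SysEx_reg hp he h1 ha (hl x hx).1 s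
  set q : C(K, ℝ) := (l.map fun x => x * x).sum with hq
  have hql : ∀ s, q s ≤ l.length := L_SysEx_sum_le l fun x hx => (hl x hx).2
  have hVs : ∀ s, b ^ 2 / 2 * f s ≤ M s q - (1 - ε) * q s := by
    intro s
    rw [hq, L_SysEx_V]
    have hb2 : 0 ≤ b ^ 2 / 2 := by positivity
    rcases le_or_gt (f s) 0 with h | h
    · have h3 : 0 ≤ (l.map fun x => M s (x * x) - (1 - ε) * x s ^ 2).sum := by
        refine List.sum_nonneg ?_
        intro y hy
        obtain ⟨z, hz, rfl⟩ := List.mem_map.1 hy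
        exact (hV z hz s).1
      exact (mul_nonpos_of_nonneg_of_nonpos hb2 h).trans h3
    · obtain ⟨x, hx, hr⟩ := hn s h
      have h3 := L_SysEx_V_le l s (fun y hy => (hV y hy s).1) x hx
      have h4 := (hV x hx s).2 b hb hr
      have h5 : f s ≤ 1 := hf s
      have h6 : b ^ 2 / 2 * f s ≤ b ^ 2 / 2 * 1 := mul_le_mul_of_nonneg_left h5 hb2
      linarith
  have hdom := L_SysEx_dom hI hp h1 ha h2 q ((b ^ 2 / 2) • f + (1 - ε) • q)
    (Nat.cast_nonneg l.length) hql (by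
      intro s
      have e : ((b ^ 2 / 2) • f + (1 - ε) • q) s = b ^ 2 / 2 * f s + (1 - ε) * q s := by simp
      rw [e]
      linarith [hVs s]) t
  rw [map_add, map_smul, map_smul, smul_eq_mul, smul_eq_mul] at hdom
  have hMq : M t q ≤ l.length * (1 + ε) := by
    have h3 : M t q ≤ M t ((l.length : ℝ) • (1 : C(K, ℝ))) := L_SysEx_mono hp t fun s => by
      simpa using hql s
    rw [map_smul, smul_eq_mul] at h3
    exact h3.trans (mul_le_mul_of_nonneg_left (h1 t) (Nat.cast_nonneg _))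
  have hk : (0 : ℝ) ≤ l.length := Nat.cast_nonneg _
  have hke : 0 ≤ (l.length : ℝ) * ε := mul_nonneg hk h0
  have h3 : ε * M t q ≤ ε * (l.length * (1 + ε)) := mul_le_mul_of_nonneg_left hMq h0
  have h4 : (l.length : ℝ) * ε * M t 1 ≤ l.length * ε * (1 + ε) :=
    mul_le_mul_of_nonneg_left (h1 t) hke
  have h5 : (l.length : ℝ) * ε * ε ≤ l.length * ε * (1 / 10 ^ 12) :=
    mul_le_mul_of_nonneg_left he hke
  nlinarith

end SmP

end

section

/-!
# MP_c93117_an, block Nm: transfer of peaks along the relation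
-/

set_option autoImplicit false

namespace SmP

theorem L_Transfer_pt (y x : ℝ) (hy : |y| ≤ 1) (hx : |x| ≤ 1) :
    4 / 5 - 2 * (1 - |y|) - 2 * F (1 / 4) (17 / 20) y x ≤ x * y * |y| := by
  have hF0 := F_nonneg (1 / 4) (17 / 20) y x
  have hx1 := (abs_le.1 hx).1
  have hx2 := (abs_le.1 hx).2
  have hy0 := abs_nonneg y
  have hlow : -1 ≤ x * y * |y| := by
    have h1 : |x * y * (|y|)| ≤ 1 := by
      rw [abs_mul, abs_mul, abs_abs]
      have h2 : |x| * |y| ≤ 1 := mul_le_one₀ hx (abs_nonneg _) hy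
      exact mul_le_one₀ h2 (abs_nonneg _) hy
    exact (abs_le.1 h1).1
  by_cases hA : (1 / 4 + 1 / 20 ≤ y ∧ x ≤ 17 / 20 - 1 / 20) ∨
      (y ≤ -(1 / 4 + 1 / 20) ∧ -(17 / 20 - 1 / 20) ≤ x)
  · rw [F_eq_one (by norm_num) hA]
    linarith
  · rw [not_or, not_and_or, not_and_or, not_le, not_le, not_le, not_le] at hA
    obtain ⟨hA1, hA2⟩ := hA
    rcases le_or_gt (3 / 10) |y| with hB | hB
    · rcases le_total 0 y with hy1 | hy1
      · rw [abs_of_nonneg hy1] at hB hy ⊢
        rcases hA1 with h | h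
        · linarith
        · nlinarith [mul_nonneg hy1 hy1, mul_nonneg (sub_nonneg.2 hy) (sub_nonneg.2 hy)]
      · rw [abs_of_nonpos hy1] at hB hy ⊢
        rcases hA2 with h | h
        · linarith
        · have h3 : 0 ≤ -y := by linarith
          nlinarith [mul_nonneg h3 h3, mul_nonneg (sub_nonneg.2 hy) (sub_nonneg.2 hy)]
    · have h1 : |x * y * (|y|)| ≤ 3 / 10 := by
        rw [abs_mul, abs_mul, abs_abs]
        have h2 : |x| * |y| ≤ 1 := mul_le_one₀ hx (abs_nonneg _) hy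
        nlinarith [abs_nonneg x, abs_nonneg y, mul_nonneg (abs_nonneg x) (abs_nonneg y)]
      have h2 := (abs_le.1 h1).1
      linarith

theorem prf_Transfer (hCoh : Coh) : Transfer := by
  intro K _ _ P M ε S y x t hy hx h1 h2
  have hyn := (norm_le_one_iff y).1 hy.2
  have hxn := (norm_le_one_iff x).1 hx.2
  obtain ⟨σ, hσ, hσy⟩ : ∃ σ : ℝ, (σ = 1 ∨ σ = -1) ∧ σ * y t = |y t| := by
    rcases le_total 0 (y t) with h | h
    · exact ⟨1, Or.inl rfl, by rw [one_mul, abs_of_nonneg h]⟩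
    · exact ⟨-1, Or.inr rfl, by rw [neg_one_mul, abs_of_nonpos h]⟩
  have hM1 := S.one t
  have hyM := S.abs_x_le hy.1 t
  have hyM1 := S.abs_le_one hy.2 t
  have hε1 := S.eps1
  have hε0 := S.eps0
  have hco := hCoh K P M ε S y t σ hy.1 hσ hσy (x * y)
  have hnorm : ‖x * y‖ ≤ 1 := by
    rw [norm_le_one_iff]
    intro s
    rw [ContinuousMap.mul_apply, abs_mul]
    exact mul_le_one₀ (hxn s) (abs_nonneg _) (hyn s)
  have hco2 : |M t (x * y * |y|) - σ * P (x * y * y) t| ≤ ε + 1 / 1000 := by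
    refine hco.trans ?_
    have h3 : 0 ≤ M t |y| - |y t| := by linarith
    calc ‖x * y‖ * (M t |y| - |y t|) ≤ 1 * (M t |y| - |y t|) :=
          mul_le_mul_of_nonneg_right hnorm h3
      _ ≤ ε + 1 / 1000 := by linarith
  -- the difference
  have hd : |P (x - x * y * y) t| ≤ 2 * (ε + 1 / 1000) := by
    have h3 : |P (x - x * y * y) t| ≤ M t ((2 : ℝ) • (1 - |y|)) := by
      refine S.abs_le t (fun s => ?_)
      have e1 : (x - x * y * y) s = x s * (1 - y s * y s) := by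
        simp only [ContinuousMap.sub_apply, ContinuousMap.mul_apply]
        ring
      have e2 : ((2 : ℝ) • (1 - |y|)) s = 2 * (1 - |y s|) := by
        simp only [ContinuousMap.smul_apply, ContinuousMap.sub_apply, ContinuousMap.one_apply,
          smul_eq_mul]
        rfl
      rw [e1, e2, abs_mul]
      have h4 := hyn s
      have h5 := hxn s
      have h6 : y s * y s = |y s| * |y s| := (abs_mul_abs_self (y s)).symm
      have h7 : 0 ≤ 1 - y s * y s := by
        rw [h6]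
        nlinarith [abs_nonneg (y s)]
      rw [abs_of_nonneg h7, h6] at *
      have h8 : 1 - |y s| * |y s| ≤ 2 * (1 - |y s|) := by
        nlinarith [mul_nonneg (sub_nonneg.2 h4) (sub_nonneg.2 h4)]
      calc |x s| * (1 - |y s| * |y s|) ≤ 1 * (1 - |y s| * |y s|) :=
            mul_le_mul_of_nonneg_right h5 h7
        _ ≤ 2 * (1 - |y s|) := by linarith
    have e3 : M t ((2 : ℝ) • (1 - |y|)) = 2 * (M t 1 - M t |y|) := by
      rw [map_smul, map_sub, smul_eq_mul]
    rw [e3] at h3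
    linarith
  -- the lower bound
  have hlow : 4 / 5 * M t 1 - 2 * (M t 1 - M t |y|) - 2 * M t (Fc (1 / 4) (17 / 20) y x) ≤
      M t (x * y * |y|) := by
    have h3 : M t ((4 / 5 : ℝ) • (1 : C(K, ℝ)) - (2 : ℝ) • (1 - |y|) -
        (2 : ℝ) • Fc (1 / 4) (17 / 20) y x) ≤ M t (x * y * |y|) := by
      refine S.mono t (fun s => ?_)
      have e1 : ((4 / 5 : ℝ) • (1 : C(K, ℝ)) - (2 : ℝ) • (1 - |y|) -
          (2 : ℝ) • Fc (1 / 4) (17 / 20) y x) s =
          4 / 5 - 2 * (1 - |y s|) - 2 * F (1 / 4) (17 / 20) (y s) (x s) := by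
        simp only [ContinuousMap.smul_apply, ContinuousMap.sub_apply, ContinuousMap.one_apply,
          smul_eq_mul, Fc_apply, mul_one]
        rfl
      have e2 : (x * y * |y|) s = x s * y s * |y s| := rfl
      rw [e1, e2]
      exact L_Transfer_pt (y s) (x s) (hyn s) (hxn s)
    rw [map_sub, map_sub, map_smul, map_smul, map_smul, map_sub, smul_eq_mul, smul_eq_mul,
      smul_eq_mul] at h3
    exact h3
  have hPx : P (x - x * y * y) t = x t - P (x * y * y) t := by
    rw [map_sub, hx.1]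
    rfl
  rw [hPx] at hd
  have hd1 := abs_le.1 hd
  have hco3 := abs_le.1 hco2
  rcases hσ with h | h
  · rw [h] at hco3
    have := le_abs_self (x t)
    linarith [hd1.1, hco3.2]
  · rw [h] at hco3
    have := neg_le_abs (x t)
    linarith [hd1.2, hco3.2]

end SmP

end

section

/-!
# MP_c93117_an, block Nm: the tree
-/

namespace SmP

section
variable {K : Type} [TopologicalSpace K] [CompactSpace K]

/-- `y` is reachable from `x` by a finite chain. -/
def L_Tree_Reach (P : C(K, ℝ) →L[ℝ] C(K, ℝ)) (M : K → C(K, ℝ) →ₗ[ℝ] ℝ) (ε : ℝ)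
    (x y : C(K, ℝ)) : Prop :=
  ∃ (n : ℕ) (X : ℕ → C(K, ℝ)), X 0 = x ∧ X n = y ∧ (∀ i ≤ n, P (X i) = X i ∧ ‖X i‖ = 1) ∧
    ∀ i < n, Rel M ε (X (i + 1)) (X i)

variable {P : C(K, ℝ) →L[ℝ] C(K, ℝ)} {M : K → C(K, ℝ) →ₗ[ℝ] ℝ} {ε : ℝ}

theorem L_Tree_reach_refl {x : C(K, ℝ)} (hx : P x = x) (hn : ‖x‖ = 1) :
    L_Tree_Reach P M ε x x :=
  ⟨0, fun _ => x, rfl, rfl, fun _ _ => ⟨hx, hn⟩, fun i hi => absurd hi (Nat.not_lt_zero i)⟩

theorem L_Tree_reach_props {x y : C(K, ℝ)} (h : L_Tree_Reach P M ε x y) : P y = y ∧ ‖y‖ = 1 := by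
  obtain ⟨n, X, -, hy, h, -⟩ := h
  rw [← hy]
  exact h n le_rfl

theorem L_Tree_reach_snoc {x y z : C(K, ℝ)} (h : L_Tree_Reach P M ε x y) (hz : P z = z)
    (hn : ‖z‖ = 1) (hr : Rel M ε z y) : L_Tree_Reach P M ε x z := by
  obtain ⟨n, X, h0, hy, h1, h2⟩ := h
  refine ⟨n + 1, fun i => if i ≤ n then X i else z, ?_, ?_, ?_, ?_⟩
  · simp [h0]
  · simp
  · intro i hi
    by_cases hin : i ≤ n
    · simp only [hin, if_true]
      exact h1 i hin
    · simp only [hin, if_false]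
      exact ⟨hz, hn⟩
  · intro i hi
    by_cases hin : i + 1 ≤ n
    · have hi' : i ≤ n := by omega
      simp only [hin, hi', if_true]
      exact h2 i hin
    · have hi' : i = n := by omega
      subst hi'
      simp only [hin, if_false, le_refl, if_true]
      rw [hy]
      exact hr

/-- Peaks pass down along a chain. -/
theorem L_Tree_chain (S : Sys P M ε) (hN : NoDrift) (hT : Transfer) (X : ℕ → C(K, ℝ)) (n : ℕ)
    (h1 : ∀ i ≤ n, P (X i) = X i ∧ ‖X i‖ = 1) (h2 : ∀ i < n, Rel M ε (X (i + 1)) (X i))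
    (m : ℕ) (hm : m ≤ n) (t : K) (ht : 1 - 1 / 1000 ≤ |X n t|) : 3 / 4 ≤ |X m t| := by
  rcases Nat.lt_or_ge m n with h | h
  · have hub : ∀ i ≤ n, UB P (X i) := fun i hi => ⟨(h1 i hi).1, (h1 i hi).2.le⟩
    have h3 := hN K P M ε S X n hub h2 m n h le_rfl t
    have h4 := S.eps1
    refine hT K P M ε S (X n) (X m) t (hub n le_rfl) (hub m hm) ht (h3.trans ?_)
    norm_num at h4 ⊢
    linarith
  · have : m = n := le_antisymm hm h
    subst this
    linarith

/-- A function of norm one has a peak. -/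
theorem L_Tree_peak {y : C(K, ℝ)} (hy : ‖y‖ = 1) : ∃ s, |y s| = 1 := by
  have hne : Nonempty K := by
    by_contra hK
    rw [not_nonempty_iff] at hK
    have : ‖y‖ ≤ 0 := by
      rw [ContinuousMap.norm_le _ le_rfl]
      intro s
      exact hK.elim s
    linarith
  obtain ⟨s, -, hs⟩ := isCompact_univ.exists_isMaxOn (f := fun s => |y s|) Set.univ_nonempty
    (by fun_prop)
  refine ⟨s, le_antisymm ?_ ?_⟩
  · rw [← hy]
    exact abs_apply_le y s
  · rw [← hy, ContinuousMap.norm_le _ (abs_nonneg _)]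
    intro r
    exact hs (Set.mem_univ r)

end

theorem prf_Tree (hS : Split) (hN : NoDrift) (hT : Transfer) : Tree := by
  intro K _ _ P M ε S hNC x c hx hxn hc0 hc1 hε
  by_contra hcon
  apply hNC
  -- reachable points have two children
  have key : ∀ y : {y : C(K, ℝ) // L_Tree_Reach P M ε x y},
      ∃ ch : Bool → {y : C(K, ℝ) // L_Tree_Reach P M ε x y},
        (∀ b, Rel M ε (ch b).1 y.1) ∧ ∀ b b', b ≠ b' → ∀ s, |(ch b).1 s| + |(ch b').1 s| ≤
          28 / 25 := by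
    rintro ⟨y, hy⟩
    have hyp := L_Tree_reach_props hy
    rcases hS K P M ε S y c hyp.1 hyp.2 hc0 hc1 hε with ⟨t, ht1, ht2⟩ |
      ⟨y₀, y₁, h0, h1, hn0, hn1, hr0, hr1, hs⟩
    · exfalso
      apply hcon
      refine ⟨t, ht1, ht2.trans ?_, ?_⟩
      · have h5 := (ev P t).le_opNorm y
        rw [hyp.2, mul_one, ev_apply, hyp.1, Real.norm_eq_abs] at h5
        exact h5
      · obtain ⟨n, X, h0, hn, h1, h2⟩ := hy
        have h6 := L_Tree_chain S hN hT X n h1 h2 0 (Nat.zero_le n) t (by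
          rw [hn]
          refine le_trans ?_ ht2
          norm_num
          linarith)
        rwa [h0] at h6
    · refine ⟨fun b => if b then ⟨y₁, L_Tree_reach_snoc hy h1 hn1 hr1⟩ else
        ⟨y₀, L_Tree_reach_snoc hy h0 hn0 hr0⟩, ?_, ?_⟩
      · intro b
        cases b
        · exact hr0
        · exact hr1
      · intro b b' hbb s
        cases b <;> cases b'
        · exact absurd rfl hbb
        · exact hs s
        · show |y₁ s| + |y₀ s| ≤ 28 / 25
          rw [add_comm]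
          exact hs s
        · exact absurd rfl hbb
  choose ch hch1 hch2 using key
  let br : (ℕ → Bool) → ℕ → {y : C(K, ℝ) // L_Tree_Reach P M ε x y} := fun β n =>
    Nat.rec ⟨x, L_Tree_reach_refl hx hxn⟩ (fun n y => ch y (β n)) n
  have hbr : ∀ β n, br β (n + 1) = ch (br β n) (β n) := fun β n => rfl
  have hbr1 : ∀ β n, P (br β n).1 = (br β n).1 ∧ ‖(br β n).1‖ = 1 := fun β n =>
    L_Tree_reach_props (br β n).2
  have hbr2 : ∀ β n, Rel M ε (br β (n + 1)).1 (br β n).1 := by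
    intro β n
    rw [hbr]
    exact hch1 _ _
  have hag : ∀ (β β' : ℕ → Bool) (m : ℕ), (∀ i < m, β i = β' i) → br β m = br β' m := by
    intro β β' m
    induction m with
    | zero => intro _; rfl
    | succ m ih =>
      intro h
      rw [hbr, hbr, ih (fun i hi => h i (by omega)), h m (by omega)]
  -- peaks
  have hpk : ∀ β n, ∃ s, |(br β n).1 s| = 1 := fun β n => L_Tree_peak (hbr1 β n).2
  choose τ hτ using hpk
  have hτ2 : ∀ β n m, m ≤ n → 3 / 4 ≤ |(br β m).1 (τ β n)| := by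
    intro β n m hmn
    refine L_Tree_chain S hN hT (fun i => (br β i).1) n (fun i _ => hbr1 β i)
      (fun i _ => hbr2 β i) m hmn (τ β n) ?_
    show 1 - 1 / 1000 ≤ |(br β n).1 (τ β n)|
    rw [hτ]
    norm_num
  have hcl : ∀ β, ∃ s : K, ∀ m, 3 / 4 ≤ |(br β m).1 s| := by
    intro β
    obtain ⟨s, hs⟩ := exists_clusterPt_of_compactSpace (Filter.map (τ β) Filter.atTop)
    refine ⟨s, fun m => ?_⟩
    have hC : IsClosed {r : K | 3 / 4 ≤ |(br β m).1 r|} :=
      isClosed_le continuous_const (by fun_prop)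
    have hev : {r : K | 3 / 4 ≤ |(br β m).1 r|} ∈ Filter.map (τ β) Filter.atTop := by
      rw [Filter.mem_map]
      filter_upwards [Filter.eventually_ge_atTop m] with n hn
      exact hτ2 β n m hn
    exact hC.closure_subset_iff.2 (fun _ h => h) (hs.mem_closure_of_mem _ hev)
  choose t ht using hcl
  refine ⟨t, fun β β' hne => ?_⟩
  have hex : ∃ m, β m ≠ β' m := by
    by_contra hno
    apply hne
    funext m
    by_contra hm
    exact hno ⟨m, hm⟩
  classical
  have hm := Nat.find_spec hex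
  have hlt : ∀ i < Nat.find hex, β i = β' i := by
    intro i hi
    by_contra h
    exact Nat.find_min hex hi h
  set m := Nat.find hex with hmdef
  have heq := hag β β' m hlt
  refine ⟨(br β (m + 1)).1, (hbr1 β (m + 1)).1, (hbr1 β (m + 1)).2, ?_⟩
  have h1 := ht β (m + 1)
  have h2 := ht β' (m + 1)
  have h3 : |(br β (m + 1)).1 (t β')| + |(br β' (m + 1)).1 (t β')| ≤ 28 / 25 := by
    rw [hbr β, hbr β', ← heq]
    exact hch2 (br β m) (β m) (β' m) hm (t β')
  refine le_trans ?_ (le_abs_self _)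
  linarith

end SmP

end

section

/-! Block [R]: proof of `StR`. -/

open MeasureTheory Set Topology
open scoped NNReal CompactlySupported

namespace C93117.Riesz

universe u
variable {K : Type u} [MetricSpace K] [CompactSpace K] [MeasurableSpace K] [BorelSpace K]

lemma h1 : |(1 : ℝ)| ≤ 1 := by norm_num
lemma hm1 : |(-1 : ℝ)| ≤ 1 := by norm_num

variable (φ : C(K, ℝ) →L[ℝ] ℝ)

lemma integral_add_nonneg {f : C(K, ℝ)} (hf : 0 ≤ f) :
    ∫ s, f s ∂(mu φ 1 h1 + mu φ (-1) hm1) = A φ f := by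
  rw [integral_add_measure (integrable_cont _ f) (integrable_cont _ f),
    integral_mu_nonneg φ 1 h1 hf, integral_mu_nonneg φ (-1) hm1 hf]
  ring

lemma integral_sub_nonneg {f : C(K, ℝ)} (hf : 0 ≤ f) :
    ∫ s, f s ∂(mu φ 1 h1) - ∫ s, f s ∂(mu φ (-1) hm1) = φ f := by
  rw [integral_mu_nonneg φ 1 h1 hf, integral_mu_nonneg φ (-1) hm1 hf]
  ring

lemma rep (f : C(K, ℝ)) :
    φ f = ∫ s, f s ∂(mu φ 1 h1) - ∫ s, f s ∂(mu φ (-1) hm1) := by
  have hf : f = (f ⊔ 0) - ((-f) ⊔ 0) := by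
    ext s
    simp only [ContinuousMap.sub_apply, ContinuousMap.sup_apply, ContinuousMap.zero_apply,
      ContinuousMap.neg_apply]
    rcases le_total (f s) 0 with h | h
    · rw [max_eq_right h, max_eq_left (by linarith)]; ring
    · rw [max_eq_left h, max_eq_right (by linarith)]; ring
  have p1 : (0 : C(K, ℝ)) ≤ f ⊔ 0 := le_sup_right
  have p2 : (0 : C(K, ℝ)) ≤ (-f) ⊔ 0 := le_sup_right
  have e1 := integral_sub_nonneg φ p1
  have e2 := integral_sub_nonneg φ p2
  have i1 : ∀ (μ : Measure K) [IsFiniteMeasure μ],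
      ∫ s, f s ∂μ = ∫ s, (f ⊔ 0) s ∂μ - ∫ s, ((-f) ⊔ 0) s ∂μ := by
    intro μ _
    rw [← integral_sub (integrable_cont μ _) (integrable_cont μ _)]
    refine integral_congr_ae (Filter.Eventually.of_forall fun s => ?_)
    exact congrArg (fun g : C(K, ℝ) => g s) hf
  rw [i1, i1]
  conv_lhs => rw [hf, map_sub, ← e1, ← e2]
  ring

lemma mass : (mu φ 1 h1 + mu φ (-1) hm1).real univ = ‖φ‖ := by
  have e : (mu φ 1 h1 + mu φ (-1) hm1).real univ = A φ 1 := by
    rw [← integral_add_nonneg φ (f := 1) (fun s => zero_le_one)]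
    simp
  rw [e]
  apply le_antisymm
  · refine A_le φ (fun s => zero_le_one) fun g hg => ?_
    calc φ g ≤ ‖φ g‖ := le_abs_self _
      _ ≤ ‖φ‖ * ‖g‖ := φ.le_opNorm g
      _ ≤ ‖φ‖ * 1 := by
          gcongr
          rw [ContinuousMap.norm_le _ zero_le_one]
          exact fun s => hg s
      _ = ‖φ‖ := mul_one _
  · refine ContinuousLinearMap.opNorm_le_bound _ (A_nonneg φ (fun s => zero_le_one)) fun g => ?_
    have hle : |φ g| ≤ A φ (‖g‖ • (1 : C(K, ℝ))) := by
      refine abs_le_A φ fun s => ?_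
      simpa using g.norm_coe_le_norm s
    rw [A_smul φ (f := 1) (fun s => zero_le_one) (norm_nonneg _)] at hle
    rw [Real.norm_eq_abs, mul_comm]
    exact hle

/-- `|g| ≤ f` gives `|φ g| ≤ ∫ f dm`. -/
lemma abs_le_integral {f g : C(K, ℝ)} (hf : 0 ≤ f) (h : ∀ s, |g s| ≤ f s) :
    |φ g| ≤ ∫ s, f s ∂(mu φ 1 h1 + mu φ (-1) hm1) := by
  rw [integral_add_nonneg φ hf]; exact abs_le_A φ h

end C93117.Riesz

namespace C93117

open Riesz

/-- Block [R]. -/
theorem stR : StR := by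
  intro K _ _ _ _ P hP
  have hmeas : ∀ f : C(K, ℝ), 0 ≤ f → Measurable fun t =>
      ∫ s, f s ∂(mu (ev P t) 1 Riesz.h1 + mu (ev P t) (-1) hm1) := by
    intro f hf
    have e : (fun t => ∫ s, f s ∂(mu (ev P t) 1 Riesz.h1 + mu (ev P t) (-1) hm1))
        = fun t => A (ev P t) f := funext fun t => integral_add_nonneg (ev P t) hf
    rw [e]
    refine measurable_of_Ioi fun a => IsOpen.measurableSet ?_
    have hpre : (fun t => A (ev P t) f) ⁻¹' Ioi a =
        ⋃ g : {g : C(K, ℝ) // ∀ s, |g s| ≤ f s}, {t | a < P g.1 t} := by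
      ext t
      simp only [mem_preimage, mem_Ioi, mem_iUnion, mem_setOf_eq]
      constructor
      · intro h
        by_contra hcon
        push Not at hcon
        exact absurd h (not_lt.2 (A_le (ev P t) hf fun g hg => hcon ⟨g, hg⟩))
      · rintro ⟨g, hg⟩
        exact hg.trans_le (le_A (ev P t) g.2)
    rw [hpre]
    exact isOpen_iUnion fun g => isOpen_lt continuous_const (P g.1).continuous
  refine ⟨{
    mp := fun t => mu (ev P t) 1 Riesz.h1
    mn := fun t => mu (ev P t) (-1) hm1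
    fin_p := fun t => inferInstance
    fin_n := fun t => inferInstance
    rep := fun t f => Riesz.rep (ev P t) f
    mass := fun t => Riesz.mass (ev P t)
    upper := ?_
    meas := hmeas
    dom := ?_ }⟩
  · intro t f hf b hb
    rw [integral_add_nonneg (ev P t) hf]
    exact A_le (ev P t) hf fun g hg => hb g hg
  · intro t f hf
    rw [integral_add_nonneg (ev P t) hf]
    refine A_le (ev P t) hf fun g hg => ?_
    set M : Measure K := mu (ev P t) 1 Riesz.h1 + mu (ev P t) (-1) hm1 with hM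
    have hbound : ∀ s, |P g s| ≤ ∫ r, f r ∂(mu (ev P s) 1 Riesz.h1 + mu (ev P s) (-1) hm1) :=
      fun s => abs_le_integral (ev P s) hf hg
    have hint : Integrable (fun s => ∫ r, f r ∂(mu (ev P s) 1 Riesz.h1 + mu (ev P s) (-1) hm1)) M := by
      refine (integrable_const (‖P‖ * ‖f‖)).mono' (hmeas f hf).aestronglyMeasurable ?_
      refine Filter.Eventually.of_forall fun s => ?_
      rw [integral_add_nonneg (ev P s) hf, Real.norm_of_nonneg (A_nonneg _ hf)]
      refine A_le (ev P s) hf fun g hg => ?_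
      calc P g s ≤ ‖P g s‖ := le_abs_self _
        _ ≤ ‖P g‖ := (P g).norm_coe_le_norm s
        _ ≤ ‖P‖ * ‖g‖ := P.le_opNorm g
        _ ≤ ‖P‖ * ‖f‖ := by gcongr; exact norm_le_of hg
    have e1 : ev P t g = ev P t (P g) := by
      change P g t = P (P g) t
      rw [hP]
    calc ev P t g = ev P t (P g) := e1
      _ ≤ |ev P t (P g)| := le_abs_self _
      _ ≤ ∫ s, |P g| s ∂M := by
          refine abs_le_integral (ev P t) (f := |P g|) (abs_nonneg _) fun s => ?_
          exact le_rfl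
      _ ≤ ∫ s, (∫ r, f r ∂(mu (ev P s) 1 Riesz.h1 + mu (ev P s) (-1) hm1)) ∂M := by
          refine integral_mono (integrable_cont _ _) hint fun s => ?_
          exact hbound s

end C93117

end

section

/-! Blocks I-b and I-c: proofs of `StIb` and `StIc`. -/

open Set Topology
open Pool.Agent.Work.MP_c93117_an.I

namespace C93117.I3

variable {K : Type} [MetricSpace K] [CompactSpace K] {P : C(K, ℝ) →L[ℝ] C(K, ℝ)} {Q : Set K}
  (hQ : CoreFacts P Q)

lemma lift_aux {g : C(Q, ℝ)} (hg : g ∈ Y P Q) (x y : Q × Bool) (h : rel hQ x y) :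
    sg x.2 * g x.1 = sg y.2 * g y.1 := by
  have h1 : near P Q (1 / 2) x y := h
  rw [near_iff P Q (by norm_num)] at h1
  have h2 := hg x.1 y.1 _ (sg_mul_cases _ _) h1
  rw [h2, ← mul_assoc, ← mul_assoc, sg_sq, one_mul]

/-- from `Y` to odd functions on the quotient -/
noncomputable def up {g : C(Q, ℝ)} (hg : g ∈ Y P Q) : C(M hQ, ℝ) where
  toFun := Quotient.lift (fun x : Q × Bool => sg x.2 * g x.1) (lift_aux hQ hg)
  continuous_toFun := by
    have hsg : Continuous sg := continuous_of_discreteTopology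
    exact Continuous.quotient_lift ((hsg.comp continuous_snd).mul
      (g.continuous.comp continuous_fst)) _

@[simp] lemma up_mk {g : C(Q, ℝ)} (hg : g ∈ Y P Q) (x : Q × Bool) :
    up hQ hg (mk hQ x) = sg x.2 * g x.1 := rfl

lemma up_odd {g : C(Q, ℝ)} (hg : g ∈ Y P Q) : up hQ hg ∈ oddSub (tau hQ) := by
  rw [mem_oddSub]
  intro z
  obtain ⟨x, rfl⟩ := mk_surj hQ z
  rw [tau_mk, up_mk, up_mk, sg_not]
  ring

/-- back -/
noncomputable def down (h : C(M hQ, ℝ)) : C(Q, ℝ) :=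
  ⟨fun s => h (mk hQ (s, true)), h.continuous.comp ((mk_cont hQ).comp (by fun_prop))⟩

@[simp] lemma down_apply (h : C(M hQ, ℝ)) (s : Q) : down hQ h s = h (mk hQ (s, true)) := rfl

lemma down_mem {h : C(M hQ, ℝ)} (hh : h ∈ oddSub (tau hQ)) : down hQ h ∈ Y P Q := by
  rw [mem_oddSub] at hh
  rw [mem_Y]
  intro s t σ hσ hD
  rcases hσ with rfl | rfl
  · have e : mk hQ (s, true) = mk hQ (t, true) := by
      rw [mk_eq, near_iff P Q (by norm_num)]
      simpa using hD
    rw [down_apply, down_apply, e, one_mul]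
  · have e : mk hQ (s, true) = mk hQ (t, false) := by
      rw [mk_eq, near_iff P Q (by norm_num)]
      simpa using hD
    have e2 := hh (mk hQ (t, true))
    rw [tau_mk] at e2
    rw [down_apply, down_apply, e]
    simp only [Bool.not_true] at e2
    rw [e2]; ring

/-- The isomorphism between `Y` and the odd functions. -/
noncomputable def eqv : Y P Q ≃ₗ[ℝ] oddSub (tau hQ) where
  toFun g := ⟨up hQ g.2, up_odd hQ g.2⟩
  invFun h := ⟨down hQ h.1, down_mem hQ h.2⟩
  map_add' g g' := by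
    apply Subtype.ext
    ext z
    obtain ⟨x, rfl⟩ := mk_surj hQ z
    change sg x.2 * (g.1 x.1 + g'.1 x.1) = sg x.2 * g.1 x.1 + sg x.2 * g'.1 x.1
    ring
  map_smul' c g := by
    apply Subtype.ext
    ext z
    obtain ⟨x, rfl⟩ := mk_surj hQ z
    change sg x.2 * (c * g.1 x.1) = c * (sg x.2 * g.1 x.1)
    ring
  left_inv g := by
    apply Subtype.ext
    ext s
    change sg true * g.1 s = g.1 s
    simp
  right_inv h := by
    apply Subtype.ext
    ext z
    obtain ⟨⟨s, b⟩, rfl⟩ := mk_surj hQ z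
    change sg b * h.1 (mk hQ (s, true)) = h.1 (mk hQ (s, b))
    cases b with
    | true => simp
    | false =>
      have e2 := (mem_oddSub _ _).1 h.2 (mk hQ (s, true))
      rw [tau_mk] at e2
      simp only [Bool.not_true] at e2
      rw [e2]; simp

lemma eqv_apply (g : Y P Q) (x : Q × Bool) : (eqv hQ g).1 (mk hQ x) = sg x.2 * g.1 x.1 := rfl
lemma eqv_symm_apply (h : oddSub (tau hQ)) (s : Q) :
    ((eqv hQ).symm h).1 s = h.1 (mk hQ (s, true)) := rfl

lemma eqv_norm_le [CompactSpace Q] [CompactSpace (M hQ)] (g : Y P Q) :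
    ‖(eqv hQ g).1‖ ≤ 1 * ‖g.1‖ := by
  rw [one_mul, ContinuousMap.norm_le _ (norm_nonneg _)]
  intro z
  obtain ⟨x, rfl⟩ := mk_surj hQ z
  rw [eqv_apply, norm_mul, Real.norm_eq_abs, abs_sg, one_mul]
  exact g.1.norm_coe_le_norm x.1

lemma eqv_symm_norm_le [CompactSpace Q] [CompactSpace (M hQ)] (h : oddSub (tau hQ)) :
    ‖((eqv hQ).symm h).1‖ ≤ 1 * ‖h.1‖ := by
  rw [one_mul, ContinuousMap.norm_le _ (norm_nonneg _)]
  intro s
  rw [eqv_symm_apply]
  exact h.1.norm_coe_le_norm _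

/-- continuous version -/
lemma eqv_clm [CompactSpace Q] [CompactSpace (M hQ)] :
    Nonempty (Y P Q ≃L[ℝ] oddSub (tau hQ)) :=
  ⟨{ eqv hQ with
      continuous_toFun := (LinearMap.mkContinuous (eqv hQ).toLinearMap 1
        (fun g => eqv_norm_le hQ g)).continuous
      continuous_invFun := (LinearMap.mkContinuous (eqv hQ).symm.toLinearMap 1
        (fun h => eqv_symm_norm_le hQ h)).continuous }⟩

end C93117.I3

namespace C93117

open I3

/-- Block I-b. -/
theorem stIb : StIb := by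
  intro K _ _ p P hpr hP hsep Q hQ
  have c1 := compactQ hQ
  have c2 := compactM hQ
  have c3 := t2M hQ
  have c4 := countableM hQ p hpr hP hsep
  obtain ⟨L, i1, i2, -, ⟨e⟩⟩ := odd_iso (tau hQ) (tau_cont hQ) (tau_tau hQ) (tau_fix hQ)
  obtain ⟨e'⟩ := eqv_clm hQ
  exact ⟨L, i1, i2, ⟨e'.trans e⟩⟩

/-- Block I-c. -/
theorem stIc : StIc := by
  intro K _ _ P hPP hP Q hQ x hx
  have c1 := compactQ hQ
  have c2 := compactM hQ
  have c3 := t2M hQ
  rcases eq_or_ne x 0 with rfl | hx0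
  · exact ⟨0, (Y P Q).zero_mem, fun s => by simp⟩
  have hn : 0 < ‖x‖ := norm_pos_iff.mpr hx0
  -- the values
  have hF : ∀ a b : Q × Bool, mk hQ a = mk hQ b →
      |sg a.2 * x a.1 - sg b.2 * x b.1| ≤ 1 / 500 * ‖x‖ := by
    intro a b hab
    have := gap' hQ ((mk_eq hQ).1 hab) x
    unfold v at this
    rwa [hx] at this
  set t : M hQ → Set ℝ := fun z =>
    {c | ∀ a, mk hQ a = z → |c - sg a.2 * x a.1| ≤ 1 / 400 * ‖x‖} with ht
  have hconv : ∀ z, Convex ℝ (t z) := by
    intro z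
    have e : t z = ⋂ a : {a // mk hQ a = z}, Metric.closedBall (sg a.1.2 * x a.1.1)
        (1 / 400 * ‖x‖) := by
      ext c
      simp only [ht, mem_iInter, Metric.mem_closedBall, Real.dist_eq, Subtype.forall]
      rfl
    rw [e]
    exact convex_iInter fun a => convex_closedBall _ _
  have hcont : Continuous fun a : Q × Bool => sg a.2 * x a.1 := by
    have hsg : Continuous sg := continuous_of_discreteTopology
    exact (hsg.comp continuous_snd).mul
      (x.continuous.comp (continuous_subtype_val.comp continuous_fst))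
  have H : ∀ z : M hQ, ∃ c : ℝ, ∀ᶠ w in 𝓝 z, c ∈ t w := by
    intro z
    obtain ⟨a, rfl⟩ := mk_surj hQ z
    refine ⟨sg a.2 * x a.1, ?_⟩
    set O : Set (Q × Bool) := {b | |sg a.2 * x a.1 - sg b.2 * x b.1| < 1 / 400 * ‖x‖} with hO
    have hOo : IsOpen O := by
      refine isOpen_lt ?_ continuous_const
      exact continuous_abs.comp (continuous_const.sub hcont)
    have hcl : IsClosed (mk hQ '' Oᶜ) := closedMk hQ _ hOo.isClosed_compl
    have hmem : mk hQ a ∈ (mk hQ '' Oᶜ)ᶜ := by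
      rintro ⟨b, hb, hba⟩
      apply hb
      have := hF a b hba.symm
      change |sg a.2 * x a.1 - sg b.2 * x b.1| < 1 / 400 * ‖x‖
      nlinarith
    filter_upwards [hcl.isOpen_compl.mem_nhds hmem] with w hw b hb
    by_contra hcon
    apply hw
    refine ⟨b, fun hbO => hcon (le_of_lt hbO), hb⟩
  obtain ⟨h, hh⟩ := exists_continuous_forall_mem_convex_of_local_const hconv H
  -- odd part
  set h' : C(M hQ, ℝ) := (1 / 2 : ℝ) • (h - h.comp ⟨tau hQ, tau_cont hQ⟩) with hh'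
  have e1 : ∀ z, h' z = (h z - h (tau hQ z)) / 2 := by
    intro z
    change (1 / 2 : ℝ) * (h z - h (tau hQ z)) = _
    ring
  have hodd : h' ∈ oddSub (tau hQ) := by
    rw [mem_oddSub]
    intro z
    rw [e1, e1, tau_tau]
    ring
  refine ⟨down hQ h', down_mem hQ hodd, fun s => ?_⟩
  rw [down_apply, e1]
  have a1 := hh (mk hQ (s, true)) (s, true) rfl
  have a2 := hh (tau hQ (mk hQ (s, true))) (s, false) rfl
  simp only [sg_true, sg_false, one_mul, neg_mul, sub_neg_eq_add] at a1 a2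
  rw [abs_le] at a1 a2 ⊢
  constructor <;> linarith [a1.1, a1.2, a2.1, a2.2]

end C93117

end

section

/-! For countable compact `K` the dual of every complemented subspace of `C(K)` is separable. -/

open MeasureTheory Set Topology

namespace C93117

/-- abstract: if every functional is an absolutely convergent combination of countably many fixed
functionals, then the dual is separable. -/
lemma sep_of_series {E : Type*} [NormedAddCommGroup E] [NormedSpace ℝ E] {ι : Type*} [Countable ι]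
    (δ : ι → StrongDual ℝ E) (hδ : ∀ i, ‖δ i‖ ≤ 1)
    (h : ∀ φ : StrongDual ℝ E, ∃ a : ι → ℝ, (Summable fun i => |a i|) ∧
      ∀ x, φ x = ∑' i, a i * δ i x) :
    TopologicalSpace.SeparableSpace (StrongDual ℝ E) := by
  rw [← TopologicalSpace.isSeparable_univ_iff]
  have h1 : TopologicalSpace.IsSeparable ((Submodule.span ℝ (range δ) : Submodule ℝ _) :
      Set (StrongDual ℝ E)) :=
    TopologicalSpace.IsSeparable.span (R := ℝ) (countable_range δ).isSeparable
  refine h1.closure.mono fun φ _ => ?_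
  obtain ⟨a, ha, hφ⟩ := h φ
  have hs : Summable fun i => a i • δ i := by
    refine Summable.of_norm_bounded ha fun i => ?_
    rw [norm_smul, Real.norm_eq_abs]
    calc |a i| * ‖δ i‖ ≤ |a i| * 1 := by gcongr; exact hδ i
      _ = |a i| := mul_one _
  have e : φ = ∑' i, a i • δ i := by
    ext x
    rw [hφ x]
    have := (ContinuousLinearMap.apply ℝ ℝ x).map_tsum hs
    simp only [ContinuousLinearMap.apply_apply] at this
    rw [this]
    rfl
  rw [e]
  refine mem_closure_of_tendsto hs.hasSum ?_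
  refine Filter.Eventually.of_forall fun s => ?_
  exact Submodule.sum_mem _ fun i _ => Submodule.smul_mem _ _ (Submodule.subset_span ⟨i, rfl⟩)

/-- functionals on `C(K)`, `K` countable, are given by summable sequences -/
lemma repr_countable {K : Type} [MetricSpace K] [CompactSpace K] [Countable K]
    (φ : C(K, ℝ) →L[ℝ] ℝ) : ∃ a : K → ℝ, (Summable fun t => |a t|) ∧
      ∀ f : C(K, ℝ), φ f = ∑' t, a t * f t := by
  let _ : MeasurableSpace K := borel K
  have : BorelSpace K := ⟨rfl⟩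
  set μ := Riesz.mu φ 1 Riesz.h1
  set ν := Riesz.mu φ (-1) Riesz.hm1
  have hint : ∀ (ρ : Measure K) [IsFiniteMeasure ρ] (f : C(K, ℝ)),
      HasSum (fun t => ρ.real {t} * f t) (∫ s, f s ∂ρ) := by
    intro ρ _ f
    have h1 : Integrable (fun s : K => f s) ρ := Riesz.integrable_cont ρ f
    have := (hasSum_integral_iUnion (μ := ρ) (f := fun s : K => f s) (s := fun t : K => {t})
      (fun t => measurableSet_singleton t) (fun a b hab => by
        simp only [Function.onFun, Set.disjoint_singleton]; exact hab)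
      (by exact h1.integrableOn))
    rw [Set.iUnion_of_singleton, Measure.restrict_univ] at this
    have e : (fun t => ρ.real {t} * f t) = fun t => ∫ s in ({t} : Set K), f s ∂ρ := by
      funext t
      rw [integral_singleton]
      rfl
    rw [e]
    exact this
  have hsum : ∀ (ρ : Measure K) [IsFiniteMeasure ρ], Summable fun t => ρ.real {t} := by
    intro ρ _
    have := (hint ρ 1).summable
    simpa using this
  refine ⟨fun t => μ.real {t} - ν.real {t}, ?_, fun f => ?_⟩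
  · refine Summable.of_nonneg_of_le (fun t => abs_nonneg _) (fun t => ?_)
      ((hsum μ).add (hsum ν))
    calc |μ.real {t} - ν.real {t}| ≤ |μ.real {t}| + |ν.real {t}| := abs_sub _ _
      _ = μ.real {t} + ν.real {t} := by
        rw [abs_of_nonneg measureReal_nonneg, abs_of_nonneg measureReal_nonneg]
  · rw [Riesz.rep φ f]
    have h3 := (hint μ f).sub (hint ν f)
    rw [← h3.tsum_eq]
    exact tsum_congr fun t => by ring

/-- For countable `K` the dual of a complemented subspace of `C(K)` is separable. -/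
theorem sepDual_of_countable {K : Type} [MetricSpace K] [CompactSpace K] [Countable K]
    (p : Submodule ℝ C(K, ℝ)) (P : C(K, ℝ) →L[ℝ] C(K, ℝ)) (hP : IsProj p P) :
    TopologicalSpace.SeparableSpace (StrongDual ℝ p) := by
  refine sep_of_series (E := p) (ι := K)
    (fun t => (ContinuousMap.evalCLM ℝ t).comp p.subtypeL) (fun t => ?_) fun φ => ?_
  · refine ContinuousLinearMap.opNorm_le_bound _ zero_le_one fun x => ?_
    rw [one_mul]
    exact (x : C(K, ℝ)).norm_coe_le_norm t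
  · obtain ⟨a, ha, hφ⟩ := repr_countable (φ.comp (P.codRestrict p hP.mem))
    refine ⟨a, ha, fun x => ?_⟩
    have h1 := hφ x
    have h2 : P.codRestrict p hP.mem x = x := Subtype.ext (hP.eq_self _ x.2)
    rw [ContinuousLinearMap.comp_apply, h2] at h1
    exact h1

end C93117

end

section

namespace C93117

/-- Block [I] complete. -/
theorem stI : StI := stI_of_blocks pr_StIa stIb stIc prf_Id

end C93117

end
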